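import Pool.Agent.H63.PD.Low
import Pool.Agent.H63.PD.Gdy

/-!
# AUX: auxiliary facts (proved), used by all the other modules of this folder
-/

open Set

namespace Pool.Agent.H92.PX

open Pool.Agent.H63 Pool.Agent.H63.PD Pool.Agent.H69.Pmd

set_option linter.unusedSectionVars false

variable {α : Type*} [Fintype α] {C : PD α}

theorem kap_lt {F : Set α} {i : ℕ} (hi : i ≤ C.m + 3) (hF : C.IsF i F) (hb : 0 < C.b F) :
    (C.k - C.b F) * C.rho i < C.k0 := by
  have h1 : C.rho i ≤ C.rho 0 := rho_anti (Nat.zero_le i) hi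
  have h2 := b_lt_k hF (by omega)
  have h3 := rho_pos (C := C) (i := 0) (by omega)
  rw [← rho_zero_mul]
  calc (C.k - C.b F) * C.rho i ≤ (C.k - C.b F) * C.rho 0 :=
        mul_le_mul_of_nonneg_left h1 (by linarith)
    _ < C.k * C.rho 0 := mul_lt_mul_of_pos_right (by linarith) h3

/-- integrality -/
theorem int_ge {i : ℕ} {F : Set α} (h : C.a i - 1 < C.b F) : C.a i ≤ C.b F := by
  have := int_gap (C := C) (i := i) (F := F) 0 (by push_cast; linarith)
  simpa using this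

/-- the numbers `b F` are natural numbers -/
theorem b_nat {i : ℕ} {F : Set α} (hF : C.IsF i F) : ∃ n : ℕ, C.b F = n := by
  have h0 := hF.b_nonneg
  rw [PD.b] at h0 ⊢
  have h1 : C.σ C.τ ≤ (C.B ∩ F).ncard := by
    have : (C.σ C.τ : ℝ) ≤ (C.B ∩ F).ncard := by linarith
    exact_mod_cast this
  exact ⟨(C.B ∩ F).ncard - C.σ C.τ, by rw [Nat.cast_sub h1]⟩

/-- the numbers `a i` are natural numbers -/
theorem a_nat {i : ℕ} (hi : i ≤ C.m + 5) : ∃ n : ℕ, C.a i = n := by
  have h0 := C.a_nonneg hi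
  rw [PD.a] at h0 ⊢
  have h1 : C.σ C.τ ≤ C.σ (C.τ + i) := by
    have : (C.σ C.τ : ℝ) ≤ C.σ (C.τ + i) := by linarith
    exact_mod_cast this
  exact ⟨C.σ (C.τ + i) - C.σ C.τ, by rw [Nat.cast_sub h1]⟩

theorem k_nat : ∃ n : ℕ, C.k = n := a_nat (by omega)

theorem v_nat : ∃ n : ℕ, C.v = n := a_nat (by omega)

/-- the window inequality with `k1 < k0` -/
theorem windowq {t : ℕ} (ht : t ≤ C.m + 2) (h0 : 0 < C.k0) :
    0 < (C.k0 - C.a t) * (C.k0 - C.a (t + 1)) + C.k0 := by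
  have h1 := window (C := C) ht
  have h2 := k1_lt_k0 (C := C)
  nlinarith [mul_pos h0 (show 0 < C.k0 - C.k1 by linarith)]

theorem nw {t : ℕ} (ht1 : 1 ≤ t) (ht : t ≤ C.m + 2) (h2 : 2 * C.a t + 2 ≤ C.a (t + 1))
    (hlo : C.a t + 1 ≤ C.k0) : C.a (t + 1) - 2 < C.k0 := by
  by_contra hcon
  push Not at hcon
  have h3 := C.a_pos ht1 (by omega)
  have h4 := windowq (C := C) ht (by linarith)
  nlinarith [mul_nonneg (show 0 ≤ C.k0 - (C.a t + 1) by linarith)
    (show 0 ≤ C.a (t + 1) - 2 - C.k0 by linarith)]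

theorem k0_le_top : C.k0 ≤ C.a (C.m + 3) := by
  have h1 := mu_le_top (C := C) (i := 0) (by omega) isF_base
  rw [PD.mu, b_base, zero_add, sub_zero, rho_zero_mul] at h1
  exact h1

theorem k0_mul : C.k0 * C.v = C.k ^ 2 := by
  have := C.v_pos
  rw [k0, div_mul_cancel₀]
  linarith

theorem a_one_lt_k : 1 < C.k := by
  rw [← C.a_one]; exact C.a_lt (show 1 < C.m + 4 by omega) (by omega)

theorem k1_mul : C.k1 * (C.v - 1) = (C.k - 1) ^ 2 := by
  have h1 := a_one_lt_k (C := C)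
  have h2 := C.k_lt_v
  rw [k1, div_mul_cancel₀]
  linarith

theorem k0_pos : 0 < C.k0 := by
  have h1 := C.v_pos
  have h2 := C.k_pos
  rw [k0]; positivity

theorem rho_mul {i : ℕ} (hi : i ≤ C.m + 3) : C.rho i * (C.v - C.a i) = C.k - C.a i := by
  have h1 : C.a i < C.k := C.a_lt (by omega) (by omega)
  have h2 := C.k_lt_v
  rw [rho, div_mul_cancel₀]
  linarith

/-- ratios of the sizes -/
theorem ratio_ge (h : C.a 2 + 1 ≤ C.K 1) {s : ℕ} (hs : 1 ≤ s) :
    ∀ i, s ≤ i → i ≤ C.m + 4 → C.a (s + 1) * C.a i ≤ C.a s * C.a (i + 1) := by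
  intro i h1
  have hpos : ∀ i, 1 ≤ i → i ≤ C.m + 5 → 0 < C.a i := fun i h1 h2 => by
    have := C.a_pos h1 h2; linarith
  induction i, h1 using Nat.le_induction with
  | base => intro _; linarith
  | succ i h1 ih =>
    intro h2
    have h3 := ih (by omega)
    have h4 := ratio h (i := i) (by omega) (by omega)
    have p1 := hpos i (by omega) (by omega)
    have p2 := hpos (i + 1) (by omega) (by omega)
    have p3 := hpos s (by omega) (by omega)
    have h6 : C.a i * (C.a (s + 1) * C.a (i + 1)) ≤ C.a i * (C.a s * C.a (i + 2)) := by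
      nlinarith [mul_le_mul_of_nonneg_right h3 p2.le, mul_le_mul_of_nonneg_left h4 p3.le]
    exact le_of_mul_le_mul_left h6 p1

/-- the mean on a line with two points of `B` -/
theorem aa_lt : (C.k - 2) * C.rho 2 < C.k0 := by
  have h1 : C.rho 2 ≤ C.rho 0 := rho_anti (Nat.zero_le _) (by omega)
  have h2 := rho_pos (C := C) (i := 2) (by omega)
  have h3 := C.k_pos
  rw [← rho_zero_mul]
  calc (C.k - 2) * C.rho 2 < C.k * C.rho 2 := mul_lt_mul_of_pos_right (by linarith) h2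
    _ ≤ C.k * C.rho 0 := mul_le_mul_of_nonneg_left h1 (by linarith)

theorem aa_nonneg : 0 ≤ (C.k - 2) * C.rho 2 := by
  have h2 := rho_pos (C := C) (i := 2) (by omega)
  have h3 : C.a 2 < C.k := C.a_lt (by omega) (by omega)
  have h4 := C.a_succ_ge (i := 1) (by omega)
  rw [C.a_one] at h4
  norm_num at h4
  exact mul_nonneg (by linarith) h2.le

theorem aa_ge : C.k0 * (1 - (C.a 2 + 2) / C.k) ≤ (C.k - 2) * C.rho 2 := by
  have h1 := C.k_lt_v
  have h2 := C.k_pos
  have h3 : C.a 2 < C.k := C.a_lt (by omega) (by omega)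
  have h4 := C.a_succ_ge (i := 1) (by omega)
  rw [C.a_one] at h4
  norm_num at h4
  have h5 : C.k0 * (1 - (C.a 2 + 2) / C.k) = C.k * (C.k - (C.a 2 + 2)) / C.v := by
    rw [k0]; field_simp
  rw [h5, rho, ← mul_div_assoc, div_le_div_iff₀ (by linarith) (by linarith)]
  have h6 : 0 ≤ (C.k - 2) * (C.k - C.a 2) := mul_nonneg (by linarith) (by linarith)
  have h7 : C.k * (C.k - (C.a 2 + 2)) ≤ (C.k - 2) * (C.k - C.a 2) := by nlinarith
  calc C.k * (C.k - (C.a 2 + 2)) * (C.v - C.a 2)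
      ≤ (C.k - 2) * (C.k - C.a 2) * (C.v - C.a 2) :=
        mul_le_mul_of_nonneg_right h7 (by linarith)
    _ ≤ (C.k - 2) * (C.k - C.a 2) * C.v := mul_le_mul_of_nonneg_left (by linarith) h6

/-- the sizes of the rest -/
theorem k_sub_ge {i : ℕ} (hi : i ≤ C.m + 2) {c : ℝ} (hc : c ≤ C.K i) :
    c * (C.a (i + 1) - C.a i) ≤ C.k - C.a i := by
  have a1 := K_mul (C := C) (i := i) (by omega)
  have a3 : C.a (i + 2) ≤ C.k := C.a_le (by omega) (by omega)
  have a5 := C.a_lt (show i < i + 1 by omega) (by omega)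
  have a4 : c * (C.a (i + 1) - C.a i) ≤ C.K i * (C.a (i + 1) - C.a i) :=
    mul_le_mul_of_nonneg_right hc (by linarith)
  linarith

/-- consecutive differences -/
theorem dif_eq {i : ℕ} (hi : i ≤ C.m + 3) :
    C.a (i + 2) - C.a (i + 1) = (C.K i - 1) * (C.a (i + 1) - C.a i) := by
  have := K_mul (C := C) hi
  linarith

end Pool.Agent.H92.PX
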