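import Pool.Agent.H92.PX.Div

/-!
# DVS: divisibility conditions

Let `n = K 1`, `u = K 2` (natural numbers by `K_nat`), `l ≤ n ≤ u` (`K_mono`, `K_zero`; `l = a 2` natural);
`a 3 = 1 + n (l-1)` (`a_three`), `a 4 = l + u (a 3 - l)` (`K_mul`, `i = 2`); `planes` gives `N₀` with
`N₀ l = a 3 * n`, `div_count` gives `W`, `N` with `W n = (1 + u (n-1)) u`, `N a 3 = a 4 W`.  Cast all to `ℕ` or `ℤ`.

`dv3` (`l = 3`): `3 N₀ = (1 + 2 n) n`, so `n ≠ 5, 8` (`55`, `136` are not divisible by 3); so `n ∈ {3, 4, 6, 7}` or `n ≥ 9`.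
 `n = 4`: `4 W = (1 + 3 u) u`, `9 N = (3 + 6 u) W`, so `12 N = (1 + 2 u)(1 + 3 u) u`: not for `u = 5, 6, 7, 8`
 (`880, 1482, 2310, 3400` mod 12 are `4, 6, 6, 4`).
 `n = 6`: `6 W = (1 + 5 u) u`, `13 N = (3 + 10 u) W`: `78 N = (3 + 10 u)(1 + 5 u) u`: not for `u = 6, 7, 8`
 (`11718, 18396, 27224`).
 `n = 7`: `7 W = (1 + 6 u) u`, `15 N = (3 + 12 u) W`: `105 N = (3 + 12 u)(1 + 6 u) u`: not for `u = 7, 8`
 (`26187, 38808`).
`dv4` (`l = 4`): `4 N₀ = (1 + 3 n) n`, so `n ≠ 6, 7` (`114`, `154`); so `n ∈ {4, 5, 8}` or `n ≥ 9`.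
 `n = 5`: `5 W = (1 + 4 u) u`, `16 N = (4 + 12 u) W`: `u = 5` or `u ≥ 16`: for `6 ≤ u ≤ 15` (check each, `omega` or
 `decide` after fixing `u`): `u = 7, 8, 9, 12, 13, 14` are excluded by the first equation, `u = 6, 10, 11, 15` by both
 together (`20 N = (1 + 3 u)(1 + 4 u) u`).
 `n = 8`: `u ≥ 9`: for `u = 8`: `8 W = 57 * 8`, `W = 57`, `25 N = 172 * 57`, impossible.
`dv5`: with `K 1 = l + 1`, `a 3 = l²`, `a 4 = l (1 + u (l-1))`: `W (l+1) = (1 + u l) u`, and `N l = (1 + u (l-1)) W`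
 (divide by `l`), so `N l (l+1) = (1 + u (l-1))(1 + u l) u`.  Modulo `l + 1` the first equation gives
 `(l+1) ∣ u (1 - u)` (`u l ≡ -u`), modulo `l` the second gives `l ∣ (1 - u) u`; `l`, `l+1` are coprime, so
 `l (l+1) ∣ u (u - 1)`.  `u ≥ l + 1`; so `u (u-1) ≥ (l+1) l > 0`, and either `u (u-1) = l (l+1)`, then `u = l + 1`, or
 `u (u-1) ≥ 2 l (l+1)`.
-/

open Set

namespace Pool.Agent.H92.PX

open Pool.Agent.H63 Pool.Agent.H63.PD Pool.Agent.H69.Pmd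

set_option linter.unusedSectionVars false

variable {α : Type*} [Fintype α] {C : PD α}

private theorem Dvs_data : ∃ l n u N₀ W N : ℕ, C.a 2 = l ∧ C.K 1 = n ∧ C.K 2 = u ∧ l ≤ n ∧ n ≤ u ∧
    (N₀ : ℤ) * l = (1 + n * (l - 1)) * n ∧ (W : ℤ) * n = (1 + u * (n - 1)) * u ∧
    (N : ℤ) * (1 + n * (l - 1)) = (l + u * (1 + n * (l - 1) - l)) * W := by
  obtain ⟨l, hl⟩ := C.K_nat (i := 0) (by omega)
  obtain ⟨n, hn⟩ := C.K_nat (i := 1) (by omega)
  obtain ⟨u, hu⟩ := C.K_nat (i := 2) (by omega)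
  obtain ⟨N₀, hN₀⟩ := C.planes
  obtain ⟨W, N, hW, hN⟩ := div_count (C := C)
  have h1 := C.K_mono (i := 0) (j := 1) (by omega) (by omega)
  have h2 := C.K_mono (i := 1) (j := 2) (by omega) (by omega)
  have h3 := C.a_three
  have h4 := C.K_mul (i := 2) (by omega)
  rw [K_zero] at hl h1
  norm_num at h4
  rw [hl] at h1 h3 h4 hN₀
  rw [hn] at h1 h2 h3 hW hN₀
  rw [hu] at h2 h4 hW
  rw [h3] at h4 hN₀ hN
  have h5 : C.a 4 = l + u * (1 + n * (l - 1) - l) := by linarith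
  rw [h5] at hN
  refine ⟨l, n, u, N₀, W, N, hl, hn, hu, by exact_mod_cast h1, by exact_mod_cast h2, ?_, ?_, ?_⟩
  · exact_mod_cast hN₀
  · exact_mod_cast hW
  · exact_mod_cast hN

theorem dv3 (h : C.a 2 = 3) : C.K 1 = 3 ∨ (C.K 1 = 4 ∧ C.K 2 = 4) ∨ (C.K 1 = 4 ∧ 9 ≤ C.K 2) ∨
    (C.K 1 = 6 ∧ 9 ≤ C.K 2) ∨ (C.K 1 = 7 ∧ 9 ≤ C.K 2) ∨ 9 ≤ C.K 1 := by
  obtain ⟨l, n, u, N₀, W, N, hl, hn, hu, h1, h2, h3, h4, h5⟩ := Dvs_data (C := C)
  have hl3 : l = 3 := by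
    rw [hl] at h
    exact_mod_cast h
  subst hl3
  rw [hn, hu]
  by_cases h9 : 9 ≤ n
  · right; right; right; right; right
    exact_mod_cast h9
  have key : n = 3 ∨ (n = 4 ∧ u = 4) ∨ (n = 4 ∧ 9 ≤ u) ∨ (n = 6 ∧ 9 ≤ u) ∨ (n = 7 ∧ 9 ≤ u) := by
    by_cases hu9 : 9 ≤ u
    · interval_cases n
      · omega
      · omega
      · norm_num at h3; omega
      · omega
      · omega
      · norm_num at h3; omega
    · interval_cases n <;> interval_cases u <;> omega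
  rcases key with h | ⟨h, h'⟩ | ⟨h, h'⟩ | ⟨h, h'⟩ | ⟨h, h'⟩
  · left; exact_mod_cast h
  · right; left; exact ⟨by exact_mod_cast h, by exact_mod_cast h'⟩
  · right; right; left; exact ⟨by exact_mod_cast h, by exact_mod_cast h'⟩
  · right; right; right; left; exact ⟨by exact_mod_cast h, by exact_mod_cast h'⟩
  · right; right; right; right; left; exact ⟨by exact_mod_cast h, by exact_mod_cast h'⟩

theorem dv4 (h : C.a 2 = 4) : C.K 1 = 4 ∨ (C.K 1 = 5 ∧ C.K 2 = 5) ∨ (C.K 1 = 5 ∧ 16 ≤ C.K 2) ∨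
    (C.K 1 = 8 ∧ 9 ≤ C.K 2) ∨ 9 ≤ C.K 1 := by
  obtain ⟨l, n, u, N₀, W, N, hl, hn, hu, h1, h2, h3, h4, h5⟩ := Dvs_data (C := C)
  have hl3 : l = 4 := by
    rw [hl] at h
    exact_mod_cast h
  subst hl3
  rw [hn, hu]
  by_cases h9 : 9 ≤ n
  · right; right; right; right
    exact_mod_cast h9
  have key : n = 4 ∨ (n = 5 ∧ u = 5) ∨ (n = 5 ∧ 16 ≤ u) ∨ (n = 8 ∧ 9 ≤ u) := by
    by_cases hu9 : 16 ≤ u
    · interval_cases n
      · omega
      · omega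
      · norm_num at h3; omega
      · norm_num at h3; omega
      · omega
    · interval_cases n <;> interval_cases u <;> omega
  rcases key with h | ⟨h, h'⟩ | ⟨h, h'⟩ | ⟨h, h'⟩
  · left; exact_mod_cast h
  · right; left; exact ⟨by exact_mod_cast h, by exact_mod_cast h'⟩
  · right; right; left; exact ⟨by exact_mod_cast h, by exact_mod_cast h'⟩
  · right; right; right; left; exact ⟨by exact_mod_cast h, by exact_mod_cast h'⟩

theorem dv5 (h : 2 ≤ C.a 2) (h1 : C.K 1 = C.a 2 + 1) : C.K 2 = C.a 2 + 1 ∨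
    2 * C.a 2 * (C.a 2 + 1) ≤ C.K 2 * (C.K 2 - 1) := by
  obtain ⟨l, n, u, N₀, W, N, hl, hn, hu, h1', h2, h3, h4, h5⟩ := Dvs_data (C := C)
  have hn1 : n = l + 1 := by
    rw [hl, hn] at h1
    exact_mod_cast h1
  subst hn1
  have hl2 : 2 ≤ l := by
    rw [hl] at h
    exact_mod_cast h
  rw [hl, hu]
  have e1 : ((l : ℤ) + 1) ∣ u * (u - 1) := by
    refine ⟨u * u - W, ?_⟩
    push_cast at h4
    linear_combination h4
  have e2 : (l : ℤ) ∣ u * (u - 1) := by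
    push_cast at h4 h5
    -- `N l (l+1) = (1 + u (l-1)) (1 + u l) u`
    have hl0 : (l : ℤ) ≠ 0 := by
      have : (2:ℤ) ≤ l := by exact_mod_cast hl2
      omega
    have e3 : (N : ℤ) * l = (1 + u * (l - 1)) * W := by
      apply mul_left_cancel₀ hl0
      linear_combination h5
    have e4 : (N : ℤ) * l * (l + 1) = (1 + u * (l - 1)) * ((1 + u * l) * u) := by
      rw [e3]
      linear_combination (1 + (u : ℤ) * (l - 1)) * h4
    refine ⟨(1 + u * (l - 1)) * u * u + u * u - N * (l + 1), ?_⟩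
    linear_combination e4
  have hco : IsCoprime (l : ℤ) (l + 1) := ⟨-1, 1, by ring⟩
  obtain ⟨q, hq⟩ := hco.mul_dvd e2 e1
  have hlu : ((l : ℤ) + 1) ≤ u := by exact_mod_cast h2
  have hl2' : (2:ℤ) ≤ l := by exact_mod_cast hl2
  have hq0 : 0 < q := by
    by_contra hcon
    have : (l : ℤ) * (l + 1) * q ≤ 0 := mul_nonpos_of_nonneg_of_nonpos (by positivity) (not_lt.1 hcon)
    nlinarith
  by_cases hq1 : q = 1
  · left
    subst hq1
    have : (u : ℤ) = l + 1 := by nlinarith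
    have h6 : u = l + 1 := by exact_mod_cast this
    rw [h6]
    push_cast
    ring
  · right
    have hq2 : 2 ≤ q := by omega
    have h6 : 2 * (l : ℤ) * (l + 1) ≤ u * (u - 1) := by
      rw [hq]
      nlinarith [mul_nonneg (by positivity : (0:ℤ) ≤ (l : ℤ) * (l + 1)) (by omega : (0:ℤ) ≤ q - 2)]
    exact_mod_cast h6

end Pool.Agent.H92.PX
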