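import Pool.Agent.H92.PX.Nfb

/-!
# FST: joining a flat with a point of `B` when most lines are contained in `B` (`a 2 = 3`)

`full_step`.  Let `S = (B ∩ F) \ F₀` (as a finset); `S.card = b F` (`F₀ ⊆ B ∩ F`, `|F₀| = σ τ`; `IsF.ncard` of
`isF_base` and `a_zero`).  For `z ∈ S` write `P = jn F₀ z ⊆ F` (`z ∈ out F₀`), and for `y ∈ out F`,
`L(z,y) = jn P y`, a flat of relative rank 2 (`y ∉ P` as `P ⊆ F`).  Count the pairs
`T = {(z,y) : z ∈ S, y ∈ out F, L(z,y) ⊆ B}`.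
(1) For fixed `z ∈ S` the `y ∈ out F` with `L(z,y) ⊄ B` are in `nfl C z` (`out F ⊆ out P`), so at most `N`;
so at least `(k - b F) - N` of the `y ∈ out F` (`card_out`) are good, and `|T| ≥ b F (k - b F - N)`.
(2) For fixed `y ∈ out F` the number of good `z` is at most `b (jn F y) - b F - 1`: for good `z` the line
`L = L(z,y)` has exactly 3 points outside `F₀` (`IsF.ncard`, `a 2 = 3`, `F₀ ⊆ L`; `|L \ F₀| = 3`), two of
them are `z`, `y`; let `w = w(z)` be the third.  Then `w ∈ B` (`L ⊆ B`), `w ∈ jn F y` (`L ⊆ jn F y` by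
`jn_subset`), `w ≠ y`, and `w ∉ F`: if `w ∈ F` then, `w ∉ P` (the flat `P` has relative size 1, so
`P \ F₀ = {z}`), `L = jn P w ⊆ F` (`IsF.eq_jn`, `jn_subset`), so `y ∈ F`, contradiction.  So
`w ∈ (B ∩ jn F y) \ F`, `w ≠ y`; this set has `b (jn F y) - b F - 1` elements.  The map `z ↦ w(z)` is
injective: let `w(z) = w(z') = w`.  With `Q = jn F₀ w`: `y ∉ Q` (`Q \ F₀ = {w}`, `w ≠ y`), both lines
contain `Q` and `y`, so both equal `jn Q y` (`IsF.eq_jn`); so `z' ∈ L(z,y)`; if `z' ≠ z` then `z' ∉ P` and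
`L(z,y) = jn P z' ⊆ F` (`P ⊆ F`, `z' ∈ F`), so `y ∈ F`, contradiction.
(3) So `b F (k - b F - N) ≤ |T| ≤ ∑_{y ∈ out F} (b (jn F y) - b F - 1)` (`Finset.sum_card_bipartiteAbove_eq_...`
or `Finset.sum_comm`), and `out F` is nonempty (`out_nonempty`) with `k - b F` elements: some `y` has
`(b (jn F y) - b F - 1)(k - b F) ≥ b F (k - b F - N)` (otherwise sum the strict inequalities).
-/

open Set

namespace Pool.Agent.H92.PX

open Pool.Agent.H63 Pool.Agent.H63.PD Pool.Agent.H69.Pmd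

set_option linter.unusedSectionVars false

variable {α : Type*} [Fintype α] {C : PD α}

/-- a point -/
theorem Fst_point {w : α} (hw : w ∉ C.F₀) : C.jn C.F₀ w = insert w C.F₀ := by
  symm
  refine Set.eq_of_subset_of_ncard_le (subset_jn C.F₀ w) ?_ (Set.toFinite _)
  have h1 := ((isF_base (C := C)).jn hw).ncard
  have h2 := (isF_base (C := C)).ncard
  rw [zero_add, C.a_one] at h1
  rw [C.a_zero] at h2
  rw [Set.ncard_insert_of_notMem hw (Set.toFinite _)]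
  have h3 : ((C.jn C.F₀ w).ncard : ℝ) = ((C.F₀.ncard + 1 : ℕ) : ℝ) := by
    push_cast
    linarith
  have h4 : (C.jn C.F₀ w).ncard = C.F₀.ncard + 1 := by exact_mod_cast h3
  omega

/-- the third point of a line with three points -/
theorem Fst_third (h2 : C.a 2 = 3) {L : Set α} (hL : C.IsF 2 L) (z y : α) :
    ∃ w ∈ L, w ∉ C.F₀ ∧ w ≠ z ∧ w ≠ y := by
  by_contra hcon
  push Not at hcon
  have h1 : L ⊆ insert z (insert y C.F₀) := by
    intro x hx
    by_cases h0 : x ∈ C.F₀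
    · exact Set.mem_insert_of_mem _ (Set.mem_insert_of_mem _ h0)
    · by_cases hz : x = z
      · rw [hz]
        exact Set.mem_insert _ _
      · rw [hcon x hx h0 hz]
        exact Set.mem_insert_of_mem _ (Set.mem_insert _ _)
  have h3 := Set.ncard_le_ncard h1 (Set.toFinite _)
  have h4 := Set.ncard_insert_le z (insert y C.F₀)
  have h5 := Set.ncard_insert_le y C.F₀
  have h6 : (L.ncard : ℝ) ≤ (C.F₀.ncard + 1 + 1 : ℕ) := by exact_mod_cast (by omega)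
  have h7 := hL.ncard
  have h8 := (isF_base (C := C)).ncard
  rw [C.a_zero] at h8
  push_cast at h6
  rw [h7, h8, h2] at h6
  linarith

theorem Fst_card {i : ℕ} {F : Set α} (hF : C.IsF i F) :
    (((Set.toFinite ((C.B ∩ F) \ C.F₀)).toFinset.card : ℕ) : ℝ) = C.b F := by
  have h1 : (Set.toFinite ((C.B ∩ F) \ C.F₀)).toFinset.card = ((C.B ∩ F) \ C.F₀).ncard :=
    (Set.ncard_eq_toFinset_card _ _).symm
  have h2 : C.F₀ ⊆ C.B ∩ F := subset_inter C.sub0 hF.base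
  have h3 := Set.ncard_sdiff_add_ncard_of_subset h2 (Set.toFinite _)
  have h4 := (isF_base (C := C)).ncard
  rw [C.a_zero] at h4
  have h5 : (((C.B ∩ F) \ C.F₀).ncard : ℝ) + C.F₀.ncard = (C.B ∩ F).ncard := by exact_mod_cast h3
  rw [h1, b]
  linarith

theorem Fst_fiber (h2 : C.a 2 = 3) {i : ℕ} {F : Set α} (hF : C.IsF i F) {y : α}
    (hy : y ∈ C.out F) (S : Finset α) (hS : ∀ z, z ∈ S ↔ z ∈ C.B ∧ z ∈ F ∧ z ∉ C.F₀)
    (G : Finset α) (hG : ∀ z ∈ G, z ∈ S ∧ C.jn (C.jn C.F₀ z) y ⊆ C.B) :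
    (G.card : ℝ) ≤ C.b (C.jn F y) - C.b F - 1 := by
  classical
  obtain ⟨hyB, hyF⟩ := mem_out.1 hy
  have hy0 : y ∉ C.F₀ := fun h => hyF (hF.base h)
  have : Nonempty α := ⟨y⟩
  have hbas : ∀ z ∈ G, z ∈ C.B ∧ z ∈ F ∧ z ∉ C.F₀ := fun z hz => (hS z).1 (hG z hz).1
  -- the point and the line
  have hP : ∀ z ∈ G, C.IsF 1 (C.jn C.F₀ z) := fun z hz =>
    (isF_base (C := C)).jn (hbas z hz).2.2
  have hPF : ∀ z ∈ G, C.jn C.F₀ z ⊆ F := fun z hz => jn_subset hF hF.base (hbas z hz).2.1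
  have hyP : ∀ z ∈ G, y ∉ C.jn C.F₀ z := fun z hz h => hyF (hPF z hz h)
  have hL : ∀ z ∈ G, C.IsF 2 (C.jn (C.jn C.F₀ z) y) := fun z hz => (hP z hz).jn (hyP z hz)
  have hw : ∀ z ∈ G, ∃ w, w ∈ C.jn (C.jn C.F₀ z) y ∧ w ∉ C.F₀ ∧ w ≠ z ∧ w ≠ y := by
    intro z hz
    obtain ⟨w, h1, h2⟩ := Fst_third h2 (hL z hz) z y
    exact ⟨w, h1, h2⟩
  choose! w hw1 hw2 hw3 hw4 using hw
  have hwF : ∀ z ∈ G, w z ∉ F := by
    intro z hz h
    have h1 : w z ∉ C.jn C.F₀ z := by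
      rw [Fst_point (hbas z hz).2.2]
      rintro (h3 | h3)
      · exact hw3 z hz h3
      · exact hw2 z hz h3
    have h3 := (hP z hz).eq_jn (hL z hz) (sub_jn _ y) (hw1 z hz) h1
    have h4 : C.jn (C.jn C.F₀ z) (w z) ⊆ F := jn_subset hF (hPF z hz) h
    rw [h3] at h4
    exact hyF (h4 (mem_jn _ y))
  have hJ := hF.jn hyF
  have hLJ : ∀ z ∈ G, C.jn (C.jn C.F₀ z) y ⊆ C.jn F y := fun z hz =>
    jn_subset hJ ((hPF z hz).trans (sub_jn F y)) (mem_jn F y)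
  -- injectivity
  have hinj : Set.InjOn w G := by
    intro z hz z' hz' hzz
    by_contra hne
    have hz := Finset.mem_coe.1 hz
    have hz' := Finset.mem_coe.1 hz'
    have hQ : C.IsF 1 (C.jn C.F₀ (w z)) := (isF_base (C := C)).jn (hw2 z hz)
    have hyQ : y ∉ C.jn C.F₀ (w z) := by
      rw [Fst_point (hw2 z hz)]
      rintro (h3 | h3)
      · exact hw4 z hz h3.symm
      · exact hy0 h3
    have hQL : C.jn C.F₀ (w z) ⊆ C.jn (C.jn C.F₀ z) y :=
      jn_subset (hL z hz) (hL z hz).base (hw1 z hz)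
    have hQL' : C.jn C.F₀ (w z) ⊆ C.jn (C.jn C.F₀ z') y :=
      jn_subset (hL z' hz') (hL z' hz').base (by rw [hzz]; exact hw1 z' hz')
    have e1 := hQ.eq_jn (hL z hz) hQL (mem_jn _ y) hyQ
    have e2 := hQ.eq_jn (hL z' hz') hQL' (mem_jn _ y) hyQ
    have hz'L : z' ∈ C.jn (C.jn C.F₀ z) y := by
      rw [← e1, e2]
      exact sub_jn _ y (mem_jn _ z')
    have hz'P : z' ∉ C.jn C.F₀ z := by
      rw [Fst_point (hbas z hz).2.2]
      rintro (h3 | h3)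
      · exact hne h3.symm
      · exact (hbas z' hz').2.2 h3
    have h3 := (hP z hz).eq_jn (hL z hz) (sub_jn _ y) hz'L hz'P
    have h4 : C.jn (C.jn C.F₀ z) z' ⊆ F := jn_subset hF (hPF z hz) (hbas z' hz').2.1
    rw [h3] at h4
    exact hyF (h4 (mem_jn _ y))
  -- counting
  have himg : ∀ z ∈ G, w z ∈ (Set.toFinite (((C.B ∩ C.jn F y) \ (C.B ∩ F)) \ {y})).toFinset := by
    intro z hz
    rw [Set.Finite.mem_toFinset]
    refine ⟨⟨⟨(hG z hz).2 (hw1 z hz), hLJ z hz (hw1 z hz)⟩, fun h => hwF z hz h.2⟩, ?_⟩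
    exact hw4 z hz
  have h3 := Finset.card_le_card_of_injOn w himg hinj
  have h4 : (Set.toFinite (((C.B ∩ C.jn F y) \ (C.B ∩ F)) \ {y})).toFinset.card =
      (((C.B ∩ C.jn F y) \ (C.B ∩ F)) \ {y}).ncard := (Set.ncard_eq_toFinset_card _ _).symm
  have h5 : (((C.B ∩ C.jn F y) \ (C.B ∩ F)) \ {y}).ncard + 1 =
      ((C.B ∩ C.jn F y) \ (C.B ∩ F)).ncard :=
    Set.ncard_sdiff_singleton_add_one ⟨⟨hyB, mem_jn F y⟩, fun h => hyF h.2⟩ (Set.toFinite _)
  have h6 := Set.ncard_sdiff_add_ncard_of_subset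
    (inter_subset_inter_right C.B (sub_jn (C := C) F y)) (Set.toFinite (C.B ∩ C.jn F y))
  have h7 : (G.card : ℝ) + 1 + (C.B ∩ F).ncard ≤ (C.B ∩ C.jn F y).ncard := by
    exact_mod_cast (by omega : G.card + 1 + (C.B ∩ F).ncard ≤ (C.B ∩ C.jn F y).ncard)
  simp only [b]
  linarith

theorem full_step (h2 : C.a 2 = 3) {i : ℕ} (hi : i ≤ C.m + 3) {F : Set α} (hF : C.IsF i F)
    {N : ℝ} (hN : ∀ z ∈ C.out C.F₀, z ∈ F → ((nfl C z).card : ℝ) ≤ N) :
    ∃ y ∈ C.out F, C.b F * (C.k - C.b F - N) ≤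
      (C.k - C.b F) * (C.b (C.jn F y) - C.b F - 1) := by
  classical
  set S := (Set.toFinite ((C.B ∩ F) \ C.F₀)).toFinset with hSdef
  have hS : ∀ z, z ∈ S ↔ z ∈ C.B ∧ z ∈ F ∧ z ∉ C.F₀ := by
    intro z
    rw [hSdef, Set.Finite.mem_toFinset]
    exact ⟨fun h => ⟨h.1.1, h.1.2, h.2⟩, fun h => ⟨⟨h.1, h.2.1⟩, h.2.2⟩⟩
  have hScard : (S.card : ℝ) = C.b F := Fst_card hF
  -- double counting
  have hdc : ∑ z ∈ S, (((C.out F).filter (fun y => C.jn (C.jn C.F₀ z) y ⊆ C.B)).card : ℝ) =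
      ∑ y ∈ C.out F, ((S.filter (fun z => C.jn (C.jn C.F₀ z) y ⊆ C.B)).card : ℝ) := by
    have h1 : ∀ z ∈ S, (((C.out F).filter (fun y => C.jn (C.jn C.F₀ z) y ⊆ C.B)).card : ℝ) =
        ∑ y ∈ C.out F, if C.jn (C.jn C.F₀ z) y ⊆ C.B then (1 : ℝ) else 0 := by
      intro z _
      rw [Finset.sum_boole]
    have h2 : ∀ y ∈ C.out F, ((S.filter (fun z => C.jn (C.jn C.F₀ z) y ⊆ C.B)).card : ℝ) =
        ∑ z ∈ S, if C.jn (C.jn C.F₀ z) y ⊆ C.B then (1 : ℝ) else 0 := by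
      intro z _
      rw [Finset.sum_boole]
    rw [Finset.sum_congr rfl h1, Finset.sum_congr rfl h2, Finset.sum_comm]
  have hlow : ∀ z ∈ S, C.k - C.b F - N ≤
      (((C.out F).filter (fun y => C.jn (C.jn C.F₀ z) y ⊆ C.B)).card : ℝ) := by
    intro z hz
    obtain ⟨hzB, hzF, hz0⟩ := (hS z).1 hz
    have h1 := hN z (mem_out.2 ⟨hzB, hz0⟩) hzF
    have hPF : C.jn C.F₀ z ⊆ F := jn_subset hF hF.base hzF
    have h3 : (C.out F).filter (fun y => ¬ C.jn (C.jn C.F₀ z) y ⊆ C.B) ⊆ nfl C z := by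
      intro y hy
      obtain ⟨h4, h5⟩ := Finset.mem_filter.1 hy
      obtain ⟨h6, h7⟩ := mem_out.1 h4
      exact mem_nfl.2 ⟨mem_out.2 ⟨h6, fun h => h7 (hPF h)⟩, h5⟩
    have h4 := Finset.card_le_card h3
    have h5 := Finset.card_filter_add_card_filter_not (s := C.out F)
      (fun y => C.jn (C.jn C.F₀ z) y ⊆ C.B)
    have h6 := card_out (C := C) (F := F)
    have h7 : ((C.out F).card : ℝ) ≤
        (((C.out F).filter (fun y => C.jn (C.jn C.F₀ z) y ⊆ C.B)).card : ℝ) +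
          ((nfl C z).card : ℝ) := by
      exact_mod_cast (by omega)
    linarith
  have hup : ∀ y ∈ C.out F, ((S.filter (fun z => C.jn (C.jn C.F₀ z) y ⊆ C.B)).card : ℝ) ≤
      C.b (C.jn F y) - C.b F - 1 := by
    intro y hy
    exact Fst_fiber h2 hF hy S hS _ (fun z hz => Finset.mem_filter.1 hz)
  have htot : C.b F * (C.k - C.b F - N) ≤ ∑ y ∈ C.out F, (C.b (C.jn F y) - C.b F - 1) := by
    calc C.b F * (C.k - C.b F - N) = ∑ z ∈ S, (C.k - C.b F - N) := by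
          rw [Finset.sum_const, nsmul_eq_mul, hScard]
      _ ≤ _ := Finset.sum_le_sum hlow
      _ = _ := hdc
      _ ≤ _ := Finset.sum_le_sum hup
  by_contra hcon
  push Not at hcon
  have hne := out_nonempty hF (by omega)
  have h3 := Finset.sum_lt_sum_of_nonempty hne hcon
  rw [← Finset.mul_sum, Finset.sum_const, nsmul_eq_mul, card_out] at h3
  have h4 := b_lt_k hF (by omega)
  have h5 := mul_le_mul_of_nonneg_left htot (show 0 ≤ C.k - C.b F by linarith)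
  linarith

end Pool.Agent.H92.PX
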