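import Pool.Agent.H92.PX.Fnb
import Pool.Agent.H92.PX.Fst

/-!
# FCH: in the Fano case there is a flat of relative rank `j+1` with many points of `B`

Write `Γ = a j + 1 = 2^j`, `K = k + 1`.  `a i = 2^i - 1` for `i ≤ j + 1` (`fq_size`).

`fch_step`: let `F` be a flat of relative rank `i`, `1 ≤ i ≤ j`, `1 ≤ b F`, `f = 2^i - 1 - b F`.  Apply `full_step` with
`N = (4 (k - a j) - 1)/Γ` (`fnb`): some `F' = jn F y` has `b (k - b - N) ≤ (k - b)(b' - b - 1)` with `b = b F`,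
`b' = b F'`; so `(k - b)(2 b + 1 - b') ≤ b N`.  `k - b ≥ K - Γ` since `b ≤ a i ≤ a j = Γ - 1`.  `Γ N < 4 (K - Γ)`, so
`Γ (k - b)(2 b + 1 - b') ≤ b Γ N < 4 b (K - Γ) ≤ 4 b (k - b)`, `Γ (2 b + 1 - b') < 4 b`.  With
`f' = 2^(i+1) - 1 - b'`, `2 b + 1 - b' = f' - 2 f` (`b = 2^i - 1 - f`): `Γ (f' - 2 f) < 4 (2^i - 1 - f)`.

`fch_zero`: for `1 ≤ i < j` there is a flat `F` of relative rank `i` with `b F = 2^i - 1`.  Induction: `i = 1`: a point
(`point`, `out_nonempty`).  Step `i → i+1 < j`: `fch_step` with `f = 0`: `Γ f' < 4 (2^i - 1) ≤ 2^j - 4 < Γ` as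
`i + 2 ≤ j`; `f' ≥ 0` (`IsF.b_le`) is an integer (`b_nat`), so `f' = 0`.

`fch`.  First, there is a flat `F` of relative rank `j` with `f = 2^j - 1 - b F ≤ 1`, and `f = 0` if `j ≤ 2`:
`j = 1`: a point, `f = 0`.  `j ≥ 2`: take `F` from `fch_zero` with `i = j - 1 ≥ 1`; `fch_step`:
`Γ f' < 4 (2^(j-1) - 1) = 2 Γ - 4`, so `f' < 2`, `f' ≤ 1`; for `j = 2`: `4 f' < 4`, `f' = 0`.
Then `fch_step` for `i = j`: `Γ f' < 2 Γ f + 4 (Γ - 1 - f)`, and we need `2 f' ≤ Γ`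
(as `b' + 1 = 2 Γ - f'`, `2 (b' + 1) ≥ 3 Γ`).
 * `j = 1`: `Γ = 2`, `f = 0`: `2 f' < 4`, `f' ≤ 1`.
 * `j = 2`: `Γ = 4`, `f = 0`: `4 f' < 12`, `f' ≤ 2`.
 * `j = 3`: `Γ = 8`, `f ≤ 1`: `8 f' < 16 f + 28 - 4 f ≤ 40`, `f' ≤ 4`.
 * `j ≥ 4`: `Γ ≥ 16`, `f ≤ 1`: `Γ f' < 6 Γ`, `f' ≤ 5 ≤ Γ/2`.
(All numbers are integers: `b_nat`.)
-/

open Set

namespace Pool.Agent.H92.PX

open Pool.Agent.H63 Pool.Agent.H63.PD Pool.Agent.H69.Pmd

set_option linter.unusedSectionVars false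

variable {α : Type*} [Fintype α] {C : PD α} {e : ℕ → ℕ} {j : ℕ}

theorem fch_step (h : Fano C e j) {i : ℕ} (h1 : 1 ≤ i) (hi : i ≤ j) {F : Set α}
    (hF : C.IsF i F) (hb : 1 ≤ C.b F) : ∃ F', C.IsF (i + 1) F' ∧
      (C.a j + 1) * (2 * C.b F + 1 - C.b F') < 4 * C.b F := by
  have hjm := h.hjm
  have hA0 : 0 ≤ C.a j := C.a_nonneg (by omega)
  have hA : 0 < C.a j + 1 := by linarith
  have hN : ∀ z ∈ C.out C.F₀, z ∈ F →
      ((nfl C z).card : ℝ) ≤ (4 * (C.k - C.a j) - 1) / (C.a j + 1) := by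
    intro z hz _
    rw [le_div_iff₀ hA]
    have := fnb h hz
    linarith
  obtain ⟨y, hy, hyy⟩ := full_step h.two (by omega) hF hN
  refine ⟨C.jn F y, hF.jn (mem_out.1 hy).2, ?_⟩
  have h2 := hF.b_le
  have h3 : C.a i ≤ C.a j := C.a_le hi (by omega)
  have h4 : C.a j < C.k := C.a_lt (show j < C.m + 4 by omega) (by omega)
  have hkb : 0 < C.k - C.b F := by linarith
  set N := (4 * (C.k - C.a j) - 1) / (C.a j + 1) with hNdef
  have hAN : (C.a j + 1) * N = 4 * (C.k - C.a j) - 1 := by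
    rw [hNdef, mul_div_cancel₀ _ hA.ne']
  have h5 : (C.k - C.b F) * (2 * C.b F + 1 - C.b (C.jn F y)) ≤ C.b F * N := by
    nlinarith
  have h6 : (C.a j + 1) * ((C.k - C.b F) * (2 * C.b F + 1 - C.b (C.jn F y))) ≤
      (C.a j + 1) * (C.b F * N) := mul_le_mul_of_nonneg_left h5 hA.le
  have h7 : (C.a j + 1) * (C.b F * N) = C.b F * (4 * (C.k - C.a j) - 1) := by
    rw [← hAN]; ring
  have h8 : C.b F * (4 * (C.k - C.a j) - 1) < C.b F * (4 * (C.k - C.b F)) :=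
    mul_lt_mul_of_pos_left (by linarith) (by linarith)
  have h9 : (C.k - C.b F) * ((C.a j + 1) * (2 * C.b F + 1 - C.b (C.jn F y))) <
      (C.k - C.b F) * (4 * C.b F) := by
    calc (C.k - C.b F) * ((C.a j + 1) * (2 * C.b F + 1 - C.b (C.jn F y)))
        = (C.a j + 1) * ((C.k - C.b F) * (2 * C.b F + 1 - C.b (C.jn F y))) := by ring
      _ ≤ _ := h6
      _ = _ := h7
      _ < _ := h8
      _ = _ := by ring
  exact lt_of_mul_lt_mul_left h9 hkb.le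

/-- integrality -/
theorem Fch_int {i : ℕ} {F : Set α} (hF : C.IsF i F) (t c : ℕ)
    (h1 : (2 : ℝ) ^ t - 1 - C.b F < c + 1) : (2 : ℝ) ^ t - 1 - C.b F ≤ c := by
  obtain ⟨n, hn⟩ := b_nat hF
  rw [hn] at h1 ⊢
  have h2 : ((2 ^ t : ℕ) : ℝ) < ((c + 1 + 1 + n : ℕ) : ℝ) := by push_cast; linarith
  have h3 : 2 ^ t < c + 1 + 1 + n := by exact_mod_cast h2
  have h4 : 2 ^ t ≤ c + 1 + n := by omega
  have h5 : ((2 ^ t : ℕ) : ℝ) ≤ ((c + 1 + n : ℕ) : ℝ) := by exact_mod_cast h4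
  push_cast at h5
  linarith

theorem fch_zero (h : Fano C e j) {i : ℕ} (h1 : 1 ≤ i) (hi : i < j) :
    ∃ F, C.IsF i F ∧ C.b F = (2 : ℝ) ^ i - 1 := by
  have hjm := h.hjm
  induction i, h1 using Nat.le_induction with
  | base =>
    obtain ⟨y, hy⟩ := out_nonempty (isF_base (C := C)) (by omega)
    obtain ⟨h2, h3⟩ := point hy
    exact ⟨_, h2, by rw [h3]; norm_num⟩
  | succ i h1 ih =>
    obtain ⟨F, hF, hb⟩ := ih (by omega)
    have hp : (2 : ℝ) ≤ 2 ^ i := by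
      calc (2 : ℝ) = 2 ^ 1 := by norm_num
        _ ≤ 2 ^ i := pow_le_pow_right₀ (by norm_num) h1
    obtain ⟨F', hF', hlt⟩ := fch_step h h1 (by omega) hF (by rw [hb]; linarith)
    refine ⟨F', hF', ?_⟩
    have h2 : C.a j + 1 = (2 : ℝ) ^ j := fq_size h (by omega)
    have h3 : C.a (i + 1) + 1 = (2 : ℝ) ^ (i + 1) := fq_size h (by omega)
    have h4 := hF'.b_le
    rw [h2, hb] at hlt
    have h5 : (2 : ℝ) ^ (i + 1) = 2 * 2 ^ i := by rw [pow_succ]; ring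
    have h6 : (4 : ℝ) * 2 ^ i ≤ 2 ^ j := by
      calc (4 : ℝ) * 2 ^ i = 2 ^ (i + 2) := by rw [pow_add]; ring
        _ ≤ 2 ^ j := pow_le_pow_right₀ (by norm_num) (by omega)
    have h7 : (0 : ℝ) < 2 ^ j := by positivity
    have h8 : (2 : ℝ) ^ (i + 1) - 1 - C.b F' < (0 : ℕ) + 1 := by
      by_contra hcon
      push Not at hcon
      push_cast at hcon
      have h9 : (2 : ℝ) ^ j * 1 ≤ 2 ^ j * ((2 : ℝ) ^ (i + 1) - 1 - C.b F') :=
        mul_le_mul_of_nonneg_left (by linarith) h7.le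
      have h10 : (2 : ℝ) ^ j * (2 * ((2 : ℝ) ^ i - 1) + 1 - C.b F') =
          2 ^ j * ((2 : ℝ) ^ (i + 1) - 1 - C.b F') := by rw [h5]; ring
      rw [h10] at hlt
      linarith
    have h9 := Fch_int hF' (i + 1) 0 h8
    push_cast at h9
    linarith

theorem fch (h : Fano C e j) : ∃ G, C.IsF (j + 1) G ∧ 3 * (C.a j + 1) ≤ 2 * (C.b G + 1) := by
  have hjm := h.hjm
  have hj := h.hj
  have h2 : C.a j + 1 = (2 : ℝ) ^ j := fq_size h (by omega)
  obtain ⟨F, hF, hf0, hf1, hf2, hb1⟩ : ∃ F, C.IsF j F ∧ 0 ≤ (2 : ℝ) ^ j - 1 - C.b F ∧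
      (2 : ℝ) ^ j - 1 - C.b F ≤ 1 ∧ (j ≤ 2 → (2 : ℝ) ^ j - 1 - C.b F = 0) ∧ 1 ≤ C.b F := by
    rcases Nat.lt_or_ge j 2 with hj2 | hj2
    · obtain ⟨y, hy⟩ := out_nonempty (isF_base (C := C)) (by omega)
      obtain ⟨h3, h4⟩ := point hy
      have hj1 : j = 1 := by omega
      refine ⟨C.jn C.F₀ y, by rw [hj1]; exact h3, ?_⟩
      rw [h4, hj1]
      norm_num
    · obtain ⟨F, hF, hb⟩ := fch_zero h (i := j - 1) (by omega) (by omega)
      obtain ⟨i, rfl⟩ : ∃ i, j = i + 1 := ⟨j - 1, by omega⟩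
      simp only [Nat.add_sub_cancel] at hF hb
      have hp : (2 : ℝ) ≤ 2 ^ i := by
        calc (2 : ℝ) = 2 ^ 1 := by norm_num
          _ ≤ 2 ^ i := pow_le_pow_right₀ (by norm_num) (by omega)
      obtain ⟨F', hF', hlt⟩ := fch_step h (by omega) (by omega) hF (by rw [hb]; linarith)
      have h4 := hF'.b_le
      have h5 : (2 : ℝ) ^ (i + 1) = 2 * 2 ^ i := by rw [pow_succ]; ring
      rw [h2, hb] at hlt
      have h7 : (0 : ℝ) < 2 ^ (i + 1) := by positivity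
      have h10 : (2 : ℝ) ^ (i + 1) * (2 * ((2 : ℝ) ^ i - 1) + 1 - C.b F') =
          2 ^ (i + 1) * ((2 : ℝ) ^ (i + 1) - 1 - C.b F') := by rw [h5]; ring
      rw [h10] at hlt
      have h11 : (2 : ℝ) ^ (i + 1) - 1 - C.b F' ≤ (1 : ℕ) := by
        refine Fch_int hF' (i + 1) 1 ?_
        by_contra hcon
        push Not at hcon
        push_cast at hcon
        have h9 : (2 : ℝ) ^ (i + 1) * 2 ≤ 2 ^ (i + 1) * ((2 : ℝ) ^ (i + 1) - 1 - C.b F') :=
          mul_le_mul_of_nonneg_left (by linarith) h7.le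
        linarith
      have h12 : 0 ≤ (2 : ℝ) ^ (i + 1) - 1 - C.b F' := by linarith
      refine ⟨F', hF', h12, by simpa using h11, ?_, ?_⟩
      · intro hj2'
        have hi1 : i = 1 := by omega
        subst hi1
        have h13 : (2 : ℝ) ^ (1 + 1) - 1 - C.b F' ≤ (0 : ℕ) := by
          refine Fch_int hF' (1 + 1) 0 ?_
          norm_num at hlt ⊢
          linarith
        push_cast at h13
        linarith
      · push_cast at h11
        linarith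
  obtain ⟨G, hG, hlt⟩ := fch_step h hj le_rfl hF hb1
  refine ⟨G, hG, ?_⟩
  have h5 : (2 : ℝ) ^ (j + 1) = 2 * 2 ^ j := by rw [pow_succ]; ring
  rw [h2] at hlt ⊢
  have h7 : (0 : ℝ) < 2 ^ j := by positivity
  set f := (2 : ℝ) ^ j - 1 - C.b F with hf
  have hbF : C.b F = 2 ^ j - 1 - f := by rw [hf]; ring
  rw [hbF] at hlt
  have h8 : (2 : ℝ) ^ j * (2 * (2 ^ j - 1 - f) + 1 - C.b G) =
      2 ^ j * ((2 : ℝ) ^ (j + 1) - 1 - C.b G) - 2 * f * 2 ^ j := by rw [h5]; ring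
  rw [h8] at hlt
  have hgoal : 2 * ((2 : ℝ) ^ (j + 1) - 1 - C.b G) ≤ 2 ^ j := by
    rcases Nat.lt_or_ge j 4 with hj4 | hj4
    · interval_cases j
      · have hf0' := hf2 (by norm_num)
        rw [hf0'] at hlt
        have h9 : (2 : ℝ) ^ (1 + 1) - 1 - C.b G ≤ (1 : ℕ) := by
          refine Fch_int hG (1 + 1) 1 ?_
          norm_num at hlt ⊢
          linarith
        norm_num at h9 ⊢
        linarith
      · have hf0' := hf2 (by norm_num)
        rw [hf0'] at hlt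
        have h9 : (2 : ℝ) ^ (2 + 1) - 1 - C.b G ≤ (2 : ℕ) := by
          refine Fch_int hG (2 + 1) 2 ?_
          norm_num at hlt ⊢
          linarith
        norm_num at h9 ⊢
        linarith
      · have h9 : (2 : ℝ) ^ (3 + 1) - 1 - C.b G ≤ (4 : ℕ) := by
          refine Fch_int hG (3 + 1) 4 ?_
          norm_num at hlt ⊢
          linarith
        norm_num at h9 ⊢
        linarith
    · have h16 : (16 : ℝ) ≤ 2 ^ j := by
        calc (16 : ℝ) = 2 ^ 4 := by norm_num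
          _ ≤ 2 ^ j := pow_le_pow_right₀ (by norm_num) hj4
      have h9 : (2 : ℝ) ^ (j + 1) - 1 - C.b G < 6 := by
        by_contra hcon
        push Not at hcon
        have h10 : (2 : ℝ) ^ j * 6 ≤ 2 ^ j * ((2 : ℝ) ^ (j + 1) - 1 - C.b G) :=
          mul_le_mul_of_nonneg_left hcon h7.le
        have h11 : 2 * f * 2 ^ j ≤ 2 * 1 * 2 ^ j :=
          mul_le_mul_of_nonneg_right (by linarith) h7.le
        linarith
      linarith
  rw [h5] at hgoal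
  linarith

end Pool.Agent.H92.PX
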