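import Pool.Agent.H92.PX.Basx

/-!
# LWO: `1 < k0`

Proof.  Suppose `k0 ≤ 1`.
(1) If `F` has relative rank `i ≤ m+3`, `t ≤ m+2` and `a t < b F`, then `a (t+1) ≤ b F`: `mu_ge_of_lt` gives
`a (t+1) ≤ mu i F = b F + (k - b F) rho i < b F + k0 ≤ b F + 1` (`kap_lt`; `b F > a t ≥ 0`), and then `int_ge`.
(2) Hence, for `2 ≤ i ≤ m+3` there is a flat `F` of relative rank `i` with `a i ≤ b F`:
`i = 2`: `exists_line` (`2 ≤ b L`, `a 1 = 1 < b L`) and (1) with `t = 1`.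
Step `i → i+1 ≤ m+3`: let `F` be such a flat, `y ∈ out F` (`out_nonempty`), `G = jn F y` (`IsF.jn`);
`b G ≥ b F + 1 > a i` (`b_add_one_le`), so `a (i+1) ≤ b G` by (1) with `t = i ≤ m+2`.
(3) Take `F` of relative rank `m+3` with `a (m+3) ≤ b F`, `y ∈ out F`, `H = jn F y` (relative rank `m+4`):
`b H ≥ a (m+3) + 1`, against `b_hyp_le`.
-/

open Set

namespace Pool.Agent.H92.PX

open Pool.Agent.H63 Pool.Agent.H63.PD Pool.Agent.H69.Pmd

set_option linter.unusedSectionVars false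

variable {α : Type*} [Fintype α] {C : PD α}

theorem Lwo_step (hk : C.k0 ≤ 1) {i : ℕ} {F : Set α} (hF : C.IsF i F) (hi : i ≤ C.m + 3)
    {t : ℕ} (ht : t ≤ C.m + 2) (h : C.a t < C.b F) : C.a (t + 1) ≤ C.b F := by
  have h0 : 0 ≤ C.a t := C.a_nonneg (by omega)
  have h1 := mu_ge_of_lt hi hF ht h
  have h2 := kap_lt hi hF (by linarith)
  have h3 : C.mu i F = C.b F + (C.k - C.b F) * C.rho i := rfl
  apply int_ge
  linarith

theorem Lwo_exists (hk : C.k0 ≤ 1) {i : ℕ} (h2 : 2 ≤ i) (hi : i ≤ C.m + 3) :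
    ∃ F, C.IsF i F ∧ C.a i ≤ C.b F := by
  induction i, h2 using Nat.le_induction with
  | base =>
    obtain ⟨L, hL, hb⟩ := exists_line (C := C)
    exact ⟨L, hL, Lwo_step hk hL (by omega) (t := 1) (by omega) (by rw [C.a_one]; linarith)⟩
  | succ i h2 ih =>
    obtain ⟨F, hF, hb⟩ := ih (by omega)
    obtain ⟨y, hy⟩ := out_nonempty hF (by omega)
    have hG := hF.jn (mem_out.1 hy).2
    have h5 := b_add_one_le (C := C) (sub_jn (C := C) F y) (mem_out.1 hy).1 (mem_jn (C := C) F y)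
      (mem_out.1 hy).2
    exact ⟨_, hG, Lwo_step hk hG hi (t := i) (by omega) (by linarith)⟩

theorem low_one : 1 < C.k0 := by
  by_contra hk
  rw [not_lt] at hk
  obtain ⟨F, hF, hb⟩ := Lwo_exists hk (i := C.m + 3) (by omega) le_rfl
  obtain ⟨y, hy⟩ := out_nonempty hF (by omega)
  have h5 := b_add_one_le (C := C) (sub_jn (C := C) F y) (mem_out.1 hy).1 (mem_jn (C := C) F y)
    (mem_out.1 hy).2
  have hG := hF.jn (mem_out.1 hy).2
  have h6 := b_hyp_le hG
  linarith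

end Pool.Agent.H92.PX
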