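import Pool.Agent.H92.PX.Gin
import Pool.Agent.H92.PX.Lwo

/-!
# FLC: the Fano case, position of `k0`

`a 2 = 3`, `K 1 = 3`.  `geo_pg` gives `q`, `e`; `q = 2`, so `a i = 2^(e i) - 1` for `1 ≤ i ≤ m+5`, `e 1 = 1`, `e 2 = 2`.
Put `e' i = if i = 0 then 0 else e i` (`a 0 = 0`).  Everything in `Fano` except `loc` follows from `geo_pg`,
`geoS_lt`, `geoS_inc` (`e' 0 = 0 < 1 = e' 1`).  It remains to find `j`, `1 ≤ j ≤ m+2`, with `e j + e (m+5) = 2 e (m+4)`.

Write `K = 2^(e (m+4)) = k + 1`, `V = 2^(e (m+5)) = v + 1`, `V ≥ 2 K` (`geoS_lt`), so `k0 = (K-1)²/(V-1)`.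
(0) `e (m+5) < 2 e (m+4)`: otherwise `K² ≤ V` and `k0 = (K-1)²/(V-1) ≤ 1` (`(K-1)² ≤ K² - 1 ≤ V - 1`), against `low_one`.
Put `g = 2 e (m+4) - e (m+5) ≥ 1`, `X = 2^g ≥ 2`, so `X V = K²`.
(1) `X - 1 < k0 < X`: `(K-1)² < X (V - 1) = K² - X` iff `X + 1 < 2 K`, true as `X ≤ K/2` (`X V = K²`, `V ≥ 2 K`) and
`K ≥ 2`.  `(X - 1)(V - 1) < (K-1)²` iff `K² - V - X + 1 < K² - 2 K + 1` iff `2 K < V + X`.
(2) `k0 ≤ a (m+3)` (`k0_le_top`), so `X - 1 < 2^(e (m+3)) - 1`, `g < e (m+3)`.  `e 1 = 1 ≤ g`.  Let `t` be the largest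
index with `1 ≤ t ≤ m+2` and `e t ≤ g` (exists as `e 1 ≤ g`); then `g < e (t+1)` (by maximality if `t ≤ m+1`, and by
`g < e (m+3)` if `t = m+2`).
(3) If `e t = g` we are done with `j = t`.  Otherwise `e t + 1 ≤ g ≤ e (t+1) - 1`, `g ≥ 2` (`e t ≥ 1`), `X ≥ 4`.
`windowq` for `t`: `0 < (k0 - a t)(k0 - a (t+1)) + k0`.  `a t = 2^(e t) - 1 ≤ X/2 - 1`, so
`k0 - a t > X - 1 - X/2 + 1 = X/2`; `a (t+1) ≥ 2 X - 1`, so `a (t+1) - k0 > X - 1`.  So
`(k0 - a t)(a (t+1) - k0) ≥ (X/2)(X - 1) ≥ X > k0` (`X ≥ 4`): contradiction.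
-/

namespace Pool.Agent.H92.PX

open Pool.Agent.H63 Pool.Agent.H63.PD Pool.Agent.H69.Pmd

set_option linter.unusedSectionVars false

variable {α : Type*} [Fintype α] {C : PD α}

theorem Flc_find (e : ℕ → ℕ) (g n : ℕ) (h1 : e 1 ≤ g) (hn : g < e (n + 1)) (hn1 : 1 ≤ n) :
    ∃ t, 1 ≤ t ∧ t ≤ n ∧ e t ≤ g ∧ g < e (t + 1) := by
  by_contra hcon
  push Not at hcon
  have key : ∀ t, 1 ≤ t → t ≤ n + 1 → e t ≤ g := by
    intro t ht
    induction t, ht using Nat.le_induction with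
    | base => intro _; exact h1
    | succ t ht ih =>
      intro h2
      exact hcon t ht (by omega) (ih (by omega))
  have := key (n + 1) (by omega) le_rfl
  omega

theorem floc (h2 : C.a 2 = 3) (h1 : C.K 1 = 3) : ∃ (e : ℕ → ℕ) (j : ℕ), Fano C e j := by
  obtain ⟨q, e, hq, g, e1, e2⟩ := geo_pg (C := C) (by rw [h2]) (by rw [h1, h2])
  have hq2 : q = 2 := by
    rw [h2] at hq
    have : (q : ℝ) = ((2 : ℕ) : ℝ) := by push_cast; linarith
    exact_mod_cast this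
  subst hq2
  have size : ∀ i, 1 ≤ i → i ≤ C.m + 5 → C.a i + 1 = (2 : ℝ) ^ (e i) := by
    intro i hi1 hi2
    have := g.size i hi1 hi2
    rw [this]
    push_cast
    norm_num
  have hk : C.k + 1 = (2 : ℝ) ^ (e (C.m + 4)) := size (C.m + 4) (by omega) (by omega)
  have hv : C.v + 1 = (2 : ℝ) ^ (e (C.m + 5)) := size (C.m + 5) (by omega) le_rfl
  have hlt45 : e (C.m + 4) < e (C.m + 5) := geoS_lt g (i := C.m + 4) (by omega) (by omega)
  have hpos : ∀ i, 1 ≤ i → i ≤ C.m + 5 → 1 ≤ e i := by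
    intro i hi1 hi2
    have h3 := size i hi1 hi2
    have h4 := C.a_pos hi1 hi2
    by_contra hcon
    have h5 : e i = 0 := by omega
    rw [h5, pow_zero] at h3
    linarith
  obtain ⟨K, hK⟩ : ∃ K : ℝ, K = 2 ^ (e (C.m + 4)) := ⟨_, rfl⟩
  obtain ⟨V, hV⟩ : ∃ V : ℝ, V = 2 ^ (e (C.m + 5)) := ⟨_, rfl⟩
  have hV2K : 2 * K ≤ V := by
    rw [hK, hV]
    calc (2 : ℝ) * 2 ^ e (C.m + 4) = 2 ^ (e (C.m + 4) + 1) := by rw [pow_succ]; ring
      _ ≤ 2 ^ e (C.m + 5) := pow_le_pow_right₀ (by norm_num) hlt45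
  have hK2 : 2 ≤ K := by
    rw [hK]
    calc (2 : ℝ) = 2 ^ 1 := by norm_num
      _ ≤ 2 ^ e (C.m + 4) := pow_le_pow_right₀ (by norm_num) (hpos _ (by omega) (by omega))
  have hkK : C.k = K - 1 := by rw [hK]; linarith
  have hvV : C.v = V - 1 := by rw [hV]; linarith
  have hk0 := k0_mul (C := C)
  rw [hkK, hvV] at hk0
  have hlow := low_one (C := C)
  -- (0)
  have hg0 : e (C.m + 5) < 2 * e (C.m + 4) := by
    by_contra hcon
    push Not at hcon
    have h3 : K ^ 2 ≤ V := by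
      rw [hK, hV, ← pow_mul]
      exact pow_le_pow_right₀ (by norm_num) (by omega)
    have h4 : C.k0 * (V - 1) ≤ 1 * (V - 1) := by
      rw [hk0]; nlinarith
    have h5 := le_of_mul_le_mul_right h4 (by linarith)
    linarith
  obtain ⟨w, hw⟩ : ∃ w, 2 * e (C.m + 4) = w + e (C.m + 5) :=
    ⟨2 * e (C.m + 4) - e (C.m + 5), by omega⟩
  obtain ⟨X, hX⟩ : ∃ X : ℝ, X = 2 ^ w := ⟨_, rfl⟩
  have hw1 : 1 ≤ w := by omega
  have hX2 : 2 ≤ X := by
    rw [hX]
    calc (2 : ℝ) = 2 ^ 1 := by norm_num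
      _ ≤ 2 ^ w := pow_le_pow_right₀ (by norm_num) hw1
  have hXV : X * V = K ^ 2 := by
    rw [hX, hV, hK, ← pow_add, ← pow_mul, ← hw, mul_comm]
  have hXK : 2 * X ≤ K := by
    have h3 : (2 * X) * K ≤ K * K := by nlinarith
    exact le_of_mul_le_mul_right h3 (by linarith)
  -- (1)
  have hk0X : C.k0 < X := by
    have h3 : C.k0 * (V - 1) < X * (V - 1) := by
      rw [hk0]; nlinarith
    exact lt_of_mul_lt_mul_right h3 (by linarith)
  have hXk0 : X - 1 < C.k0 := by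
    have h3 : (X - 1) * (V - 1) < C.k0 * (V - 1) := by
      rw [hk0]; nlinarith
    exact lt_of_mul_lt_mul_right h3 (by linarith)
  -- (2)
  have hg3 : w < e (C.m + 3) := by
    have h3 := k0_le_top (C := C)
    have h4 := size (C.m + 3) (by omega) (by omega)
    have h5 : (2 : ℝ) ^ w < 2 ^ e (C.m + 3) := by
      rw [← hX]; linarith
    exact (pow_lt_pow_iff_right₀ (by norm_num)).1 h5
  obtain ⟨t, ht1, htm, hte, htg⟩ := Flc_find e w (C.m + 2) (by omega) hg3 (by omega)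
  by_cases hcase : e t = w
  · refine ⟨fun i => if i = 0 then 0 else e i, t, ⟨h2, ?_, by simp, by simp [e1], by simp [e2], ?_, ?_,
      ht1, htm, ?_⟩⟩
    · intro i hi
      by_cases h0 : i = 0
      · subst h0
        rw [C.a_zero]
        simp
      · simp only [h0, if_false]
        exact size i (by omega) hi
    · intro i hi
      by_cases h0 : i = 0
      · subst h0
        simp [e1]
      · simp only [h0, if_false, Nat.succ_ne_zero]
        exact geoS_lt g (by omega) hi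
    · intro i hi1 hi2
      have h0 : i ≠ 0 := by omega
      have h01 : i + 1 ≠ 0 := by omega
      have h02 : i + 2 ≠ 0 := by omega
      simp only [h0, h01, h02, if_false]
      exact geoS_inc g hi1 hi2
    · have h0 : t ≠ 0 := by omega
      have h01 : C.m + 5 ≠ 0 := by omega
      have h02 : C.m + 4 ≠ 0 := by omega
      simp only [h0, h01, h02, if_false]
      omega
  · exfalso
    have hlt : e t + 1 ≤ w := by omega
    have het := hpos t ht1 (by omega)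
    have h4X : 4 ≤ X := by
      rw [hX]
      calc (4 : ℝ) = 2 ^ 2 := by norm_num
        _ ≤ 2 ^ w := pow_le_pow_right₀ (by norm_num) (by omega)
    have hwin := windowq (C := C) htm (by linarith)
    have hat := size t ht1 (by omega)
    have hat1 := size (t + 1) (by omega) (by omega)
    have hA : 2 * (C.a t + 1) ≤ X := by
      rw [hat, hX]
      calc (2 : ℝ) * 2 ^ e t = 2 ^ (e t + 1) := by rw [pow_succ]; ring
        _ ≤ 2 ^ w := pow_le_pow_right₀ (by norm_num) hlt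
    have hB : 2 * X ≤ C.a (t + 1) + 1 := by
      rw [hat1, hX]
      calc (2 : ℝ) * 2 ^ w = 2 ^ (w + 1) := by rw [pow_succ]; ring
        _ ≤ 2 ^ e (t + 1) := pow_le_pow_right₀ (by norm_num) htg
    have hp : X / 2 * (X - 1) ≤ (C.k0 - C.a t) * (C.a (t + 1) - C.k0) :=
      mul_le_mul (by linarith) (by linarith) (by linarith) (by linarith)
    nlinarith

end Pool.Agent.H92.PX
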