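import Pool.Agent.H92.PX.Gin

/-!
# GLO: the position of `k0` in the geometric cases

Write `Γ = q^(e j)`, `K = q^(e (m+4))`, `V = q^(e (m+5))` (real numbers); `V ≥ q K` as
`e (m+5) > e (m+4)` (`geoS_lt`), `K ≥ 1`.  If `e j + e (m+5) > 2 e (m+4)` then `q K² ≤ Γ V`; if
`e j + e (m+5) < 2 e (m+4)` then `q Γ V ≤ K²` (`pow_le_pow_right₀`, `pow_add`).

`loc_pg`: `(q-1) a j = Γ - 1`, `(q-1) k = K - 1`, `(q-1) v = V - 1`, so `(q-1) k0 = (K-1)²/(V-1)` (`k0 = k²/v`);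
`Γ ≥ q²` since `e j ≥ e 2 = 2` (`geoS_lt`, monotone).
 * Case `q K² ≤ Γ V`: `(K-1)² V ≤ K² (V-1)` (iff `K² + V ≤ 2 K V`: `K² ≤ K V`, `V ≤ K V`), so
   `(q-1) k0 ≤ K²/V ≤ Γ/q`.  By `h1`: `(q-1) k0 > Γ - 1 - 2 (q-1) = Γ - 2 q + 1`.  So
   `q Γ - 2 q² + q < Γ`, `(q-1) Γ < q (2 q - 1)`; with `Γ ≥ q²`: `(q-1) q² < q (2q - 1)`,
   `q² - 3 q + 1 < 0`, false for `q ≥ 3`.
 * Case `q Γ V ≤ K²`: claim `(K-1)² ≥ (Γ + q - 2)(V - 1)`: `(K-1)² ≥ q Γ V - 2 K`, `2 K ≤ 2 V / q ≤ V`, and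
   `q Γ V - V - (Γ + q - 2) V = V ((q-1) Γ - q + 1) ≥ 0`.  So `(q-1) k0 ≥ Γ + q - 2 = (q-1)(a j + 1)`,
   against `h2`.

`loc_ag`: `a j = Γ ≥ q ≥ 3` (`e j ≥ e 2 = 1`), `k0 = K²/V`.
 * Case `q K² ≤ Γ V`: `k0 ≤ Γ/q ≤ Γ/3`, and `Γ - 2 < Γ/3` gives `Γ < 3`, contradiction.
 * Case `q Γ V ≤ K²`: `k0 ≥ q Γ ≥ 3 Γ ≥ Γ + 1`, contradiction.
So `e j + e (m+5) = 2 e (m+4)`, and `k0 = K²/V = Γ = a j` (`Γ V = K²`).
-/

open Set

namespace Pool.Agent.H92.PX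

open Pool.Agent.H63 Pool.Agent.H63.PD Pool.Agent.H69.Pmd

set_option linter.unusedSectionVars false

variable {α : Type*} [Fintype α] {C : PD α} {q : ℕ} {e : ℕ → ℕ}

private theorem Glo_pow {q : ℕ} (hq : 3 ≤ q) {x y z : ℕ} (hyz : y < z) :
    (1 : ℝ) ≤ (q : ℝ) ^ y ∧ (q : ℝ) * (q : ℝ) ^ y ≤ (q : ℝ) ^ z ∧
      (2 * y < x + z → (q : ℝ) * ((q : ℝ) ^ y) ^ 2 ≤ (q : ℝ) ^ x * (q : ℝ) ^ z) ∧
      (x + z < 2 * y → (q : ℝ) * ((q : ℝ) ^ x * (q : ℝ) ^ z) ≤ ((q : ℝ) ^ y) ^ 2) ∧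
      (x + z = 2 * y → (q : ℝ) ^ x * (q : ℝ) ^ z = ((q : ℝ) ^ y) ^ 2) := by
  have hq1 : (1 : ℝ) ≤ q := by exact_mod_cast (show 1 ≤ q by omega)
  refine ⟨one_le_pow₀ hq1, ?_, fun h => ?_, fun h => ?_, fun h => ?_⟩
  · calc (q : ℝ) * (q : ℝ) ^ y = (q : ℝ) ^ (y + 1) := by rw [pow_succ]; ring
      _ ≤ (q : ℝ) ^ z := pow_le_pow_right₀ hq1 hyz
  · calc (q : ℝ) * ((q : ℝ) ^ y) ^ 2 = (q : ℝ) ^ (2 * y + 1) := by
          rw [pow_succ (q : ℝ) (2 * y), mul_comm 2 y, pow_mul]; ring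
      _ ≤ (q : ℝ) ^ (x + z) := pow_le_pow_right₀ hq1 h
      _ = (q : ℝ) ^ x * (q : ℝ) ^ z := pow_add _ _ _
  · calc (q : ℝ) * ((q : ℝ) ^ x * (q : ℝ) ^ z) = (q : ℝ) ^ (x + z + 1) := by
          rw [pow_succ, pow_add]; ring
      _ ≤ (q : ℝ) ^ (y * 2) := pow_le_pow_right₀ hq1 (by omega)
      _ = ((q : ℝ) ^ y) ^ 2 := pow_mul _ _ _
  · rw [← pow_add, ← pow_mul, h, mul_comm]

private theorem Glo_pg {q Γ K V X : ℝ} (hq : 3 ≤ q) (hΓ : q ^ 2 ≤ Γ) (hK : 1 ≤ K) (hKV : q * K ≤ V)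
    (hX : X * (V - 1) = (K - 1) ^ 2) (h1 : Γ - 2 * q + 1 < X) (h2 : X < Γ + q - 2) :
    (q * K ^ 2 ≤ Γ * V → False) ∧ (q * (Γ * V) ≤ K ^ 2 → False) := by
  have hV3 : 3 * K ≤ V := by nlinarith
  have hV1 : 3 ≤ V := by linarith
  have hV0 : 0 < V - 1 := by linarith
  refine ⟨fun h => ?_, fun h => ?_⟩
  · have a1 : (K - 1) ^ 2 * V ≤ K ^ 2 * (V - 1) := by
      have b1 : K ^ 2 ≤ K * V := by
        rw [sq]
        exact mul_le_mul_of_nonneg_left (by linarith) (by linarith)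
      have b2 : V ≤ K * V := by nlinarith
      nlinarith
    have a2 : X * V ≤ K ^ 2 := by
      have b1 : X * V * (V - 1) ≤ K ^ 2 * (V - 1) := by
        calc X * V * (V - 1) = X * (V - 1) * V := by ring
          _ = (K - 1) ^ 2 * V := by rw [hX]
          _ ≤ K ^ 2 * (V - 1) := a1
      exact le_of_mul_le_mul_right b1 hV0
    have a3 : q * X ≤ Γ := by
      have b1 : q * X * V ≤ Γ * V := by
        have := mul_le_mul_of_nonneg_left a2 (show 0 ≤ q by linarith)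
        linarith
      exact le_of_mul_le_mul_right b1 (by linarith)
    have a4 : q * (Γ - 2 * q + 1) < q * X := mul_lt_mul_of_pos_left h1 (by linarith)
    have a5 : (q - 1) * q ^ 2 ≤ (q - 1) * Γ := mul_le_mul_of_nonneg_left hΓ (by linarith)
    have a6 : q * (q ^ 2 - 3 * q + 1) < 0 := by nlinarith
    nlinarith
  · have a1 : X * (V - 1) < (Γ + q - 2) * (V - 1) := mul_lt_mul_of_pos_right h2 hV0
    have a2 : (Γ + q - 2) * (V - 1) ≤ (Γ + q - 2) * V := by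
      refine mul_le_mul_of_nonneg_left (by linarith) ?_
      nlinarith
    have a3 : 0 ≤ V * ((q - 1) * (Γ - 1)) := by
      have : 1 ≤ Γ := by nlinarith
      refine mul_nonneg (by linarith) (mul_nonneg (by linarith) (by linarith))
    nlinarith

theorem loc_pg (g : GeoS C q e (1 / ((q : ℝ) - 1)) (1 / ((q : ℝ) - 1))) (hq : 3 ≤ q)
    (e2 : e 2 = 2) {j : ℕ} (hj : 2 ≤ j) (hjm : j ≤ C.m + 2) (h1 : C.a j - 2 < C.k0)
    (h2 : C.k0 < C.a j + 1) : e j + e (C.m + 5) = 2 * e (C.m + 4) := by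
  have hqR : (3 : ℝ) ≤ q := by exact_mod_cast hq
  have hq1 : (0 : ℝ) < (q : ℝ) - 1 := by linarith
  have hlt := geoS_lt g (i := C.m + 4) (by omega) (by omega)
  have hsz : ∀ i, 1 ≤ i → i ≤ C.m + 5 → ((q : ℝ) - 1) * C.a i = (q : ℝ) ^ e i - 1 := by
    intro i hi hi'
    rw [g.size i hi hi']
    field_simp
  obtain ⟨b1, b2, b3, b4, -⟩ := Glo_pow hq (x := e j) (y := e (C.m + 4)) (z := e (C.m + 4 + 1)) hlt
  rw [show C.m + 4 + 1 = C.m + 5 from rfl] at *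
  have s2 := hsz 2 (by omega) (by omega)
  have sj := hsz j (by omega) (by omega)
  have sk : ((q : ℝ) - 1) * C.k = (q : ℝ) ^ e (C.m + 4) - 1 := hsz (C.m + 4) (by omega) (by omega)
  have sv : ((q : ℝ) - 1) * C.v = (q : ℝ) ^ e (C.m + 5) - 1 := hsz (C.m + 5) (by omega) (by omega)
  have hΓ : (q : ℝ) ^ 2 ≤ (q : ℝ) ^ e j := by
    have c1 : C.a 2 ≤ C.a j := C.a_le hj (by omega)
    have c2 := mul_le_mul_of_nonneg_left c1 hq1.le
    rw [s2, sj, e2] at c2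
    linarith
  have hv := C.v_pos
  have hk0 : C.k0 * C.v = C.k ^ 2 := by
    unfold PD.k0
    rw [div_mul_cancel₀ _ (by linarith)]
  have hX : ((q : ℝ) - 1) * C.k0 * ((q : ℝ) ^ e (C.m + 5) - 1) = ((q : ℝ) ^ e (C.m + 4) - 1) ^ 2 := by
    rw [← sk, ← sv]
    linear_combination ((q : ℝ) - 1) ^ 2 * hk0
  have c1 := mul_lt_mul_of_pos_left h1 hq1
  have c2 := mul_lt_mul_of_pos_left h2 hq1
  obtain ⟨f1, f2⟩ := Glo_pg hqR hΓ b1 b2 hX (by linarith) (by linarith)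
  rcases lt_trichotomy (e j + e (C.m + 5)) (2 * e (C.m + 4)) with h | h | h
  · exact absurd (b4 h) f2
  · exact h
  · exact absurd (b3 h) f1

theorem loc_ag (g : GeoS C q e 1 0) (hq : 3 ≤ q) (e2 : e 2 = 1) {j : ℕ} (hj : 2 ≤ j)
    (hjm : j ≤ C.m + 2) (h1 : C.a j - 2 < C.k0) (h2 : C.k0 < C.a j + 1) :
    e j + e (C.m + 5) = 2 * e (C.m + 4) ∧ C.k0 = C.a j := by
  have hqR : (3 : ℝ) ≤ q := by exact_mod_cast hq
  have hlt := geoS_lt g (i := C.m + 4) (by omega) (by omega)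
  have hsz : ∀ i, 1 ≤ i → i ≤ C.m + 5 → C.a i = (q : ℝ) ^ e i := by
    intro i hi hi'
    rw [g.size i hi hi']
    ring
  obtain ⟨b1, b2, b3, b4, b5⟩ := Glo_pow hq (x := e j) (y := e (C.m + 4)) (z := e (C.m + 4 + 1)) hlt
  rw [show C.m + 4 + 1 = C.m + 5 from rfl] at *
  have s2 := hsz 2 (by omega) (by omega)
  have sj := hsz j (by omega) (by omega)
  have sk : C.k = (q : ℝ) ^ e (C.m + 4) := hsz (C.m + 4) (by omega) (by omega)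
  have sv : C.v = (q : ℝ) ^ e (C.m + 5) := hsz (C.m + 5) (by omega) (by omega)
  rw [e2, pow_one] at s2
  have c1 : C.a 2 ≤ C.a j := C.a_le hj (by omega)
  have hv := C.v_pos
  have hv0 : 0 < C.v := by linarith
  have hk0 : C.k0 * C.v = C.k ^ 2 := by
    unfold PD.k0
    rw [div_mul_cancel₀ _ (by linarith)]
  have hk00 : 0 ≤ C.k0 := by
    unfold PD.k0
    positivity
  rw [← sk, ← sv, ← sj] at b3 b4 b5
  rcases lt_trichotomy (e j + e (C.m + 5)) (2 * e (C.m + 4)) with h | h | h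
  · exfalso
    have d1 := b4 h
    rw [← hk0] at d1
    have d2 : (q : ℝ) * C.a j ≤ C.k0 :=
      le_of_mul_le_mul_right (by linarith : (q : ℝ) * C.a j * C.v ≤ C.k0 * C.v) hv0
    nlinarith
  · refine ⟨h, ?_⟩
    have d1 := b5 h
    rw [← hk0] at d1
    exact (mul_right_cancel₀ hv0.ne' d1).symm
  · exfalso
    have d1 := b3 h
    rw [← hk0] at d1
    have d2 : (q : ℝ) * C.k0 ≤ C.a j :=
      le_of_mul_le_mul_right (by linarith : (q : ℝ) * C.k0 * C.v ≤ C.a j * C.v) hv0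
    nlinarith

end Pool.Agent.H92.PX
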