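import Pool.Agent.H92.PX.Basx

/-!
# CHN: the chain inequality

`chain` (compare `chb` in `Pool/Agent/H63/PD/Chb.lean`; `Chb_step` there is a Mathlib-only lemma and may be
copied).  Write `A = a (j+1)`, `q = (k - b0) rho s > 0`.
Claim: for `s ≤ u ≤ j + 1` there is a flat `G` of relative rank `u` with `b0 ≤ b G`, `0 < mu u G - a j` and
`(mu s F - a j) * ∏ i ∈ Finset.Ico s u, (A - a i) ≤ (mu u G - a j) * q ^ (u - s)`.
`u = s`: `G = F`.  Step `u → u+1 ≤ j+1`: `exists_growth` (`i = u`, `t = j`; `u ≤ j ≤ m+2`): some `y ∈ out G` has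
`(A - b G)(mu u G - a j) ≤ (k - b G) rho u (mu (u+1) (jn G y) - a j)`.  Here `A - b G ≥ A - a u > 0`
(`IsF.b_le`, `a_lt`), and `0 < (k - b G) rho u ≤ (k - b0) rho s = q` (`rho_anti`, `rho_pos`, `b_lt_k`), so
`mu (u+1) (jn G y) - a j > 0` and `(A - a u)(mu u G - a j) ≤ q (mu (u+1) (jn G y) - a j)`;
`b0 ≤ b G ≤ b (jn G y)` (`b_mono`, `sub_jn`).
At `u = j+1`: `b G ≤ a j` by `hn`, so `mu (j+1) G - a j = b G - a j + (k - b G) rho (j+1) ≤ (k - a j) rho (j+1)`
(`rho_lt_one`).  Note `Finset.Icc s j = Finset.Ico s (j+1)`.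

`ch1`: if `1 + k1 - a j ≤ 0` the left side is `≤ 0` (all factors `a (j+1) - a i` are `≥ 0`) and the right side is
`≥ 0` (`k1_nonneg`).  Otherwise apply `chain` with `s = 1`, `b0 = 1`, `F = jn F₀ y`, `y ∈ out F₀` (`point`,
`out_nonempty isF_base`): `mu 1 F = 1 + (k - 1) rho 1 = 1 + k1` (`rho_one_mul`).

`ch2`: the same with `s = 2`, `b0 = 2`, `F` a line with `2 ≤ b F` (`exists_line`):
`mu 2 F = b F + (k - b F) rho 2 ≥ 2 + (k - 2) rho 2` (`rho 2 ≤ 1`); `aa_nonneg`.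
-/

open Set

namespace Pool.Agent.H92.PX

open Pool.Agent.H63 Pool.Agent.H63.PD Pool.Agent.H69.Pmd

set_option linter.unusedSectionVars false

variable {α : Type*} [Fintype α] {C : PD α}

theorem Chn_step {x m m' p A b a q : ℝ} (hp : 0 < p) (hm : 0 < m) (hA : 0 < A) (hb : A ≤ b)
    (hq : 0 < q) (hqa : q ≤ a) (h : b * m ≤ q * m') (hx : x ≤ m * p) :
    0 < m' ∧ x * A ≤ m' * (p * a) := by
  have e1 : 0 < q * m' := (mul_pos (hA.trans_le hb) hm).trans_le h
  have e2 : 0 < m' := by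
    rcases lt_or_ge 0 m' with h' | h'
    · exact h'
    · have := mul_nonpos_of_nonneg_of_nonpos hq.le h'
      linarith
  refine ⟨e2, ?_⟩
  have e3 : A * m ≤ b * m := mul_le_mul_of_nonneg_right hb hm.le
  have e4 : q * m' ≤ a * m' := mul_le_mul_of_nonneg_right hqa e2.le
  have e5 : x * A ≤ m * p * A := mul_le_mul_of_nonneg_right hx hA.le
  have e6 : (A * m) * p ≤ (a * m') * p := mul_le_mul_of_nonneg_right (by linarith) hp.le
  calc x * A ≤ m * p * A := e5
    _ = (A * m) * p := by ring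
    _ ≤ (a * m') * p := e6
    _ = m' * (p * a) := by ring

theorem Chn_Icc (s j : ℕ) : Finset.Icc s j = Finset.Ico s (j + 1) := by
  ext i
  simp only [Finset.mem_Icc, Finset.mem_Ico]
  omega

theorem chain {j s : ℕ} (hs : 1 ≤ s) (hsj : s ≤ j) (hjm : j ≤ C.m + 2)
    (hn : ∀ G, C.IsF (j + 1) G → C.b G ≤ C.a j) {b0 : ℝ} (hb0 : 0 ≤ b0) {F : Set α}
    (hF : C.IsF s F) (hb : b0 ≤ C.b F) (hpos : 0 < C.mu s F - C.a j) :
    (C.mu s F - C.a j) * ∏ i ∈ Finset.Icc s j, (C.a (j + 1) - C.a i) ≤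
      ((C.k - b0) * C.rho s) ^ (j + 1 - s) * ((C.k - C.a j) * C.rho (j + 1)) := by
  have hq : 0 < (C.k - b0) * C.rho s :=
    mul_pos (by have := b_lt_k hF (by omega); linarith) (rho_pos (by omega))
  obtain ⟨q, hq'⟩ : ∃ q, q = (C.k - b0) * C.rho s := ⟨_, rfl⟩
  rw [← hq'] at hq ⊢
  have key : ∀ u, s ≤ u → u ≤ j + 1 → ∃ G, C.IsF u G ∧ b0 ≤ C.b G ∧ 0 < C.mu u G - C.a j ∧
      (C.mu s F - C.a j) * (∏ i ∈ Finset.Ico s u, (C.a (j + 1) - C.a i)) ≤
        (C.mu u G - C.a j) * q ^ (u - s) := by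
    intro u hu
    induction u, hu using Nat.le_induction with
    | base =>
      intro _
      refine ⟨F, hF, hb, hpos, ?_⟩
      simp only [Finset.Ico_self, Finset.prod_empty, Nat.sub_self, pow_zero, mul_one]
      exact le_rfl
    | succ u hu ih =>
      intro huj
      obtain ⟨G, hG, hGb, hm, hle⟩ := ih (by omega)
      obtain ⟨y, hy, hgr⟩ := exists_growth (i := u) (t := j) (by omega) hG hjm
      have hyF := (mem_out.1 hy).2
      have hGk := b_lt_k hG (by omega)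
      have hru : 0 < C.rho u := rho_pos (by omega)
      have hfac : (C.k - C.b G) * C.rho u ≤ q := by
        rw [hq']
        exact mul_le_mul (by linarith) (rho_anti hu (by omega)) hru.le (by linarith)
      have hq0 : 0 < (C.k - C.b G) * C.rho u := mul_pos (by linarith) hru
      have hAs : 0 < C.a (j + 1) - C.a u := sub_pos.2 (C.a_lt (by omega) (by omega))
      have hbF := hG.b_le
      obtain ⟨c1, c2⟩ := Chn_step (pow_pos hq (u - s)) hm hAs (by linarith) hq0 hfac hgr hle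
      refine ⟨C.jn G y, hG.jn hyF, hGb.trans (b_mono (sub_jn G y)), c1, ?_⟩
      rw [Finset.prod_Ico_succ_top hu, ← mul_assoc]
      rw [← pow_succ, show u - s + 1 = u + 1 - s by omega] at c2
      exact c2
  obtain ⟨G, hG, hGb, hm, hle⟩ := key (j + 1) (by omega) le_rfl
  have hGa := hn G hG
  have hmu : C.mu (j + 1) G - C.a j ≤ (C.k - C.a j) * C.rho (j + 1) := by
    have e1 := rho_lt_one (C := C) (i := j + 1) (by omega)
    have := mul_le_mul_of_nonneg_left e1.le (show 0 ≤ C.a j - C.b G by linarith)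
    rw [mu]
    linarith
  rw [Chn_Icc]
  refine hle.trans ?_
  rw [mul_comm (q ^ _)]
  exact mul_le_mul_of_nonneg_right hmu (pow_nonneg hq.le _)

theorem Chn_prod {j s : ℕ} (hjm : j ≤ C.m + 2) :
    0 ≤ ∏ i ∈ Finset.Icc s j, (C.a (j + 1) - C.a i) := by
  apply Finset.prod_nonneg
  intro i hi
  have hi' := Finset.mem_Icc.1 hi
  exact sub_nonneg.2 (C.a_le (by omega) (by omega))

theorem ch1 {j : ℕ} (hj : 1 ≤ j) (hjm : j ≤ C.m + 2)
    (hn : ∀ G, C.IsF (j + 1) G → C.b G ≤ C.a j) :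
    (1 + C.k1 - C.a j) * ∏ i ∈ Finset.Icc 1 j, (C.a (j + 1) - C.a i) ≤
      C.k1 ^ j * ((C.k - C.a j) * C.rho (j + 1)) := by
  have hkj : C.a j < C.k := C.a_lt (by omega) (by omega)
  have hrj : 0 < C.rho (j + 1) := rho_pos (by omega)
  rcases le_or_gt (1 + C.k1 - C.a j) 0 with hg | hg
  · have e1 := Chn_prod (C := C) (j := j) (s := 1) hjm
    have e2 : 0 ≤ C.k1 ^ j * ((C.k - C.a j) * C.rho (j + 1)) :=
      mul_nonneg (pow_nonneg k1_nonneg _) (mul_nonneg (by linarith) hrj.le)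
    exact (mul_nonpos_of_nonpos_of_nonneg hg e1).trans e2
  obtain ⟨y, hy⟩ := out_nonempty (C := C) isF_base (by omega)
  obtain ⟨hF, hFb⟩ := point hy
  have hmu : C.mu 1 (C.jn C.F₀ y) = 1 + C.k1 := by
    rw [mu, hFb, rho_one_mul]
  have h := chain (C := C) (s := 1) (b0 := 1) le_rfl hj hjm hn zero_le_one hF (by rw [hFb])
    (by rw [hmu]; exact hg)
  rw [hmu, rho_one_mul, Nat.add_sub_cancel] at h
  exact h

theorem ch2 {j : ℕ} (hj : 2 ≤ j) (hjm : j ≤ C.m + 2)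
    (hn : ∀ G, C.IsF (j + 1) G → C.b G ≤ C.a j) :
    (2 + (C.k - 2) * C.rho 2 - C.a j) * ∏ i ∈ Finset.Icc 2 j, (C.a (j + 1) - C.a i) ≤
      ((C.k - 2) * C.rho 2) ^ (j - 1) * ((C.k - C.a j) * C.rho (j + 1)) := by
  have hkj : C.a j < C.k := C.a_lt (by omega) (by omega)
  have hrj : 0 < C.rho (j + 1) := rho_pos (by omega)
  rcases le_or_gt (2 + (C.k - 2) * C.rho 2 - C.a j) 0 with hg | hg
  · have e1 := Chn_prod (C := C) (j := j) (s := 2) hjm
    have e2 : 0 ≤ ((C.k - 2) * C.rho 2) ^ (j - 1) * ((C.k - C.a j) * C.rho (j + 1)) :=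
      mul_nonneg (pow_nonneg aa_nonneg _) (mul_nonneg (by linarith) hrj.le)
    exact (mul_nonpos_of_nonpos_of_nonneg hg e1).trans e2
  obtain ⟨F, hF, hFb⟩ := exists_line (C := C)
  have hmu : 2 + (C.k - 2) * C.rho 2 ≤ C.mu 2 F := by
    have e1 := rho_lt_one (C := C) (i := 2) (by omega)
    rw [mu]
    have := mul_le_mul_of_nonneg_left e1.le (show 0 ≤ C.b F - 2 by linarith)
    linarith
  have h := chain (C := C) (s := 2) (b0 := 2) (by norm_num) hj hjm hn zero_le_two hF hFb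
    (by linarith)
  rw [show j + 1 - 2 = j - 1 by omega] at h
  exact (mul_le_mul_of_nonneg_right (by linarith) (Chn_prod hjm)).trans h

end Pool.Agent.H92.PX
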