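import Pool.Agent.H92.PX.Gin
import Pool.Agent.H92.PX.Chn
import Pool.Agent.H63.PD.Rja

/-!
# GMD: the geometric cases with `q ≥ 3`

Write `E i = q^(e i)` (real), `Γ = E j`, `Q = E (j+1)`, `K = E (m+4)`, `V = E (m+5)`, so
`a i = s (E i) - t` for `1 ≤ i ≤ m+5`, `1 = a 1 = s (E 1) - t` and `Γ V = K²` (`hloc`).  `E` is increasing
(`geoS_lt`), `E 1 ≤ Γ < Q ≤ K < V`, `q E i ≤ E (i+1)`.
(1) `k - 1 = s (K - E 1)`, `v - 1 = s (V - E 1)`, so `k1 = s (K - E 1)²/(V - E 1)`, and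
`1 + k1 - a j = s [(K - E 1)² - (Γ - E 1)(V - E 1)]/(V - E 1) = s (E 1) (V + Γ - 2 K)/(V - E 1)` (use `Γ V = K²`),
and `V + Γ - 2 K = (K - Γ)²/Γ`; as `V - E 1 ≤ V = K²/Γ`:
`1 + k1 - a j ≥ s (E 1) (K - Γ)²/K²`.
(2) `k1 ≤ s Γ`: `(K - E 1)² ≤ Γ (V - E 1) = K² - Γ (E 1)` iff `E 1 + Γ ≤ 2 K`.
(3) `(k - a j) rho (j+1) = s (K - Γ)(K - Q)/(V - Q) ≤ s Γ`: `(K - Γ)(K - Q) ≤ Γ (V - Q) = K² - Γ Q` iff
`2 Γ Q ≤ (Γ + Q) K`, true since `Γ ≤ Q ≤ K`.  (`Q < V`.)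
(4) `ch1`, with `a (j+1) - a i = s (Q - E i)` and `∏_{Icc 1 j} s (Q - E i) = s^j ∏ (Q - E i)`:
`s (E 1)(K - Γ)²/K² * s^j ∏_{i ∈ Icc 1 j} (Q - E i) ≤ (s Γ)^j (s Γ)`, i.e.
`(E 1)(K - Γ)²/K² * ∏ (Q - E i) ≤ Γ^(j+1)`.
(5) `(q-1) ∑_{i ∈ Icc 1 u} E i ≤ E (u+1)` for `u ≤ j` (induction: `(q-1)(∑ + E (u+1)) ≤ q E (u+1) ≤ E (u+2)`), so
`∑_{i ∈ Icc 1 j} E i / Q ≤ 1/(q-1)`, and by `Pool.Agent.H63.PDR.Rja_weier` (Weierstrass inequality)
`∏ (Q - E i) = Q^j ∏ (1 - E i / Q) ≥ Q^j (1 - 1/(q-1)) = Q^j (q-2)/(q-1)`.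
(6) `(E 1) Q^j ≥ q Γ^(j+1)`, i.e. `e 1 + j e (j+1) ≥ 1 + (j+1) e j`: let `δ = e (j+1) - e j ≥ 1`.  By `geoS_inc` the
differences are nondecreasing, so `e (i+1) ≤ e i + δ` for `1 ≤ i ≤ j` (descending induction), and
`e j ≤ e 1 + (j-1) δ`.  So `e 1 + j e (j+1) = e 1 + j e j + j δ ≥ (j+1) e j + δ`.
(7) `K ≥ q² Γ` (`e (m+4) ≥ e (j+2) ≥ e j + 2`), so `(K - Γ)/K ≥ 1 - 1/q²`, `(K-Γ)²/K² ≥ (8/9)² = 64/81`.
(8) So `Γ^(j+1) ≥ (64/81) ((q-2)/(q-1)) q Γ^(j+1)`; but `q (q-2)/(q-1) ≥ 3/2` for `q ≥ 3`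
(`2 q (q-2) - 3 (q-1) = 2 q² - 7 q + 3 = (2 q - 1)(q - 3) ≥ 0`), and `(64/81)(3/2) > 1`: contradiction.
-/

open Set

namespace Pool.Agent.H92.PX

open Pool.Agent.H63 Pool.Agent.H63.PD Pool.Agent.H69.Pmd

set_option linter.unusedSectionVars false

private theorem Gmd_k1 {s E1 Γ K V : ℝ} (hs : 0 < s) (hE1 : 0 < E1) (h1 : E1 ≤ Γ) (h2 : Γ < K)
    (h3 : K < V) (hV : Γ * V = K ^ 2) :
    s * (E1 * (K - Γ) ^ 2 / K ^ 2) ≤ s * E1 - s * Γ + (s * (K - E1)) ^ 2 / (s * (V - E1)) ∧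
    (s * (K - E1)) ^ 2 / (s * (V - E1)) ≤ s * Γ := by
  have hD : 0 < V - E1 := by linarith
  have hK : 0 < K := by linarith
  have e1 : (s * (K - E1)) ^ 2 / (s * (V - E1)) = s * ((K - E1) ^ 2 / (V - E1)) := by
    rw [mul_pow, pow_two s, mul_assoc, mul_div_mul_left _ _ hs.ne', mul_div_assoc]
  have hW : (V + Γ - 2 * K) * Γ = (K - Γ) ^ 2 := by linear_combination hV
  have hW0 : 0 ≤ V + Γ - 2 * K := by
    by_contra hc
    push Not at hc
    have h4 : (V + Γ - 2 * K) * Γ < 0 := mul_neg_of_neg_of_pos hc (by linarith)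
    have h5 := sq_nonneg (K - Γ)
    linarith
  rw [e1]
  constructor
  · have e2 : E1 - Γ + (K - E1) ^ 2 / (V - E1) = E1 * (V + Γ - 2 * K) / (V - E1) := by
      rw [eq_div_iff hD.ne', add_mul, div_mul_cancel₀ _ hD.ne']
      linear_combination (-1) * hV
    have e3 : E1 * (K - Γ) ^ 2 / K ^ 2 ≤ E1 * (V + Γ - 2 * K) / (V - E1) := by
      rw [div_le_div_iff₀ (by positivity) hD, ← hW, ← hV]
      have h5 : 0 ≤ E1 * (V + Γ - 2 * K) * Γ :=
        mul_nonneg (mul_nonneg hE1.le hW0) (by linarith)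
      have h6 : 0 ≤ E1 * (V + Γ - 2 * K) * Γ * E1 := mul_nonneg h5 hE1.le
      calc E1 * ((V + Γ - 2 * K) * Γ) * (V - E1)
          = E1 * (V + Γ - 2 * K) * (Γ * V) - E1 * (V + Γ - 2 * K) * Γ * E1 := by ring
        _ ≤ _ := by linarith
    have e4 := mul_le_mul_of_nonneg_left e3 hs.le
    calc _ ≤ _ := e4
      _ = s * (E1 - Γ + (K - E1) ^ 2 / (V - E1)) := by rw [e2]
      _ = _ := by ring
  · apply mul_le_mul_of_nonneg_left _ hs.le
    rw [div_le_iff₀ hD]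
    have h5 : 0 ≤ E1 * (2 * K - Γ - E1) := mul_nonneg hE1.le (by linarith)
    calc (K - E1) ^ 2 = K ^ 2 - Γ * E1 - E1 * (2 * K - Γ - E1) := by ring
      _ ≤ K ^ 2 - Γ * E1 := by linarith
      _ = Γ * (V - E1) := by rw [← hV]; ring

private theorem Gmd_rho {s Γ Q K V : ℝ} (hs : 0 < s) (h0 : 0 < Γ) (h1 : Γ ≤ Q) (h2 : Q ≤ K)
    (h3 : K < V) (hV : Γ * V = K ^ 2) :
    (s * (K - Γ)) * ((s * (K - Q)) / (s * (V - Q))) ≤ s * Γ := by
  have hD : 0 < V - Q := by linarith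
  rw [mul_div_mul_left _ _ hs.ne', mul_assoc]
  apply mul_le_mul_of_nonneg_left _ hs.le
  rw [← mul_div_assoc, div_le_iff₀ hD]
  have h4 : 0 ≤ Γ * (K - Q) := mul_nonneg h0.le (by linarith)
  have h5 : 0 ≤ Q * (K - Γ) := mul_nonneg (by linarith) (by linarith)
  calc (K - Γ) * (K - Q) = K ^ 2 - Γ * Q - Γ * (K - Q) - Q * (K - Γ) := by ring
    _ ≤ K ^ 2 - Γ * Q := by linarith
    _ = Γ * (V - Q) := by rw [← hV]; ring

/-- the final contradiction -/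
private theorem Gmd_fin {q E1 Γ K P G L : ℝ} (hq : 3 ≤ q) (hE1 : 0 < E1) (hΓ : 0 < Γ)
    (hK : 9 * Γ ≤ K) (hG : 0 < G) (hL : 0 < L)
    (hP : L * ((q - 2) / (q - 1)) ≤ P) (h6 : q * G ≤ E1 * L)
    (h4 : E1 * (K - Γ) ^ 2 / K ^ 2 * P ≤ G) : False := by
  have hK0 : 0 < K := by linarith
  have e1 : 64 / 81 ≤ (K - Γ) ^ 2 / K ^ 2 := by
    rw [le_div_iff₀ (by positivity)]
    have : (8 / 9 * K) ^ 2 ≤ (K - Γ) ^ 2 := pow_le_pow_left₀ (by positivity) (by linarith) 2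
    calc 64 / 81 * K ^ 2 = (8 / 9 * K) ^ 2 := by ring
      _ ≤ _ := this
  have hq1 : 0 < q - 1 := by linarith
  have e2 : 3 / 2 ≤ q * ((q - 2) / (q - 1)) := by
    rw [← mul_div_assoc, le_div_iff₀ hq1]
    nlinarith
  have e3 : 0 ≤ (q - 2) / (q - 1) := div_nonneg (by linarith) hq1.le
  have e4 : (E1 * (64 / 81)) * (L * ((q - 2) / (q - 1))) ≤ E1 * (K - Γ) ^ 2 / K ^ 2 * P := by
    apply mul_le_mul _ hP (mul_nonneg hL.le e3) (by positivity)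
    rw [mul_div_assoc]
    exact mul_le_mul_of_nonneg_left e1 hE1.le
  have e5 : (q * G) * ((q - 2) / (q - 1)) ≤ (E1 * L) * ((q - 2) / (q - 1)) :=
    mul_le_mul_of_nonneg_right h6 e3
  have e6 : 3 / 2 * G ≤ (q * ((q - 2) / (q - 1))) * G := mul_le_mul_of_nonneg_right e2 hG.le
  have e7 : (E1 * (64 / 81)) * (L * ((q - 2) / (q - 1))) =
      64 / 81 * ((E1 * L) * ((q - 2) / (q - 1))) := by ring
  have e8 : (q * G) * ((q - 2) / (q - 1)) = (q * ((q - 2) / (q - 1))) * G := by ring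
  linarith

variable {α : Type*} [Fintype α] {C : PD α} {q : ℕ} {e : ℕ → ℕ} {s t : ℝ}

private theorem Gmd_exp (g : GeoS C q e s t) {j : ℕ} (hjm : j ≤ C.m + 2) :
    ∀ u, 1 ≤ u → u ≤ j → (u + 1) * e u + 1 ≤ e 1 + u * e (u + 1) := by
  intro u hu
  induction u, hu using Nat.le_induction with
  | base =>
    intro h
    have := geoS_lt g (i := 1) le_rfl (by omega)
    omega
  | succ u hu ih =>
    intro h
    have h1 := ih (by omega)
    have h2 := geoS_inc g (i := u) hu (by omega)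
    have h3 := Nat.mul_le_mul_left (u + 1) h2
    have h4 : u + 1 + 1 = u + 2 := rfl
    rw [h4]
    nlinarith

theorem geo_mid (g : GeoS C q e s t) (hq : 3 ≤ q) {j : ℕ} (hj : 1 ≤ j) (hjm : j ≤ C.m + 2)
    (hloc : e j + e (C.m + 5) = 2 * e (C.m + 4))
    (hn : ∀ G, C.IsF (j + 1) G → C.b G ≤ C.a j) : False := by
  have hs := g.pos
  have hqR : (3 : ℝ) ≤ q := by exact_mod_cast hq
  obtain ⟨E, hE⟩ : ∃ E : ℕ → ℝ, ∀ i, E i = (q : ℝ) ^ (e i) := ⟨_, fun _ => rfl⟩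
  have hE0 : ∀ i, 0 < E i := fun i => by rw [hE]; exact pow_pos (by linarith) _
  have hstep : ∀ i, 1 ≤ i → i + 1 ≤ C.m + 5 → (q : ℝ) * E i ≤ E (i + 1) := by
    intro i h1 h2
    have h3 := geoS_lt g h1 h2
    rw [hE, hE, ← pow_succ']
    exact pow_le_pow_right₀ (by linarith) h3
  have hstep' : ∀ i, 1 ≤ i → i + 1 ≤ C.m + 5 → E i < E (i + 1) := by
    intro i h1 h2
    have h3 := hstep i h1 h2
    have h4 := mul_le_mul_of_nonneg_right hqR (hE0 i).le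
    have h5 := hE0 i
    linarith
  have hmono : ∀ i i', 1 ≤ i → i ≤ i' → i' ≤ C.m + 5 → E i ≤ E i' := by
    intro i i' h1 h2
    induction i', h2 using Nat.le_induction with
    | base => intro _; exact le_rfl
    | succ n hn' ih =>
      intro h3
      exact (ih (by omega)).trans (hstep' n (by omega) h3).le
  have ha : ∀ i, 1 ≤ i → i ≤ C.m + 5 → C.a i = s * E i - t := by
    intro i h1 h2
    rw [g.size i h1 h2, hE]
  have hV : E j * E (C.m + 5) = E (C.m + 4) ^ 2 := by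
    rw [hE, hE, hE, ← pow_add, ← pow_mul, hloc, mul_comm]
  have h1 : s * E 1 - t = 1 := by rw [← ha 1 le_rfl (by omega)]; exact C.a_one
  have hk : C.k = s * E (C.m + 4) - t := ha _ (by omega) (by omega)
  have hv : C.v = s * E (C.m + 5) - t := ha _ (by omega) le_rfl
  have haj := ha j hj (by omega)
  have haQ := ha (j + 1) (by omega) (by omega)
  have o1 : E 1 ≤ E j := hmono 1 j le_rfl hj (by omega)
  have o2 : E j < E (j + 1) := hstep' j hj (by omega)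
  have o3 : E (j + 1) ≤ E (C.m + 4) := hmono _ _ (by omega) (by omega) (by omega)
  have o4 : E (C.m + 4) < E (C.m + 5) := hstep' (C.m + 4) (by omega) (by omega)
  have o5 : 9 * E j ≤ E (C.m + 4) := by
    have p1 := hstep j hj (by omega)
    have p2 := hstep (j + 1) (by omega) (by omega)
    have p3 : E (j + 1 + 1) ≤ E (C.m + 4) := hmono _ _ (by omega) (by omega) (by omega)
    have p4 := mul_le_mul_of_nonneg_right hqR (hE0 j).le
    have p5 := mul_le_mul_of_nonneg_right hqR (hE0 (j + 1)).le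
    linarith
  -- the three estimates
  have hk1 : C.k1 = (s * (E (C.m + 4) - E 1)) ^ 2 / (s * (E (C.m + 5) - E 1)) := by
    rw [k1, hk, hv]
    congr 1
    · congr 1
      linarith
    · linarith
  obtain ⟨c1, c2⟩ := Gmd_k1 hs (hE0 1) o1 (o2.trans_le o3) o4 hV
  rw [← hk1] at c1 c2
  have c3 : (C.k - C.a j) * C.rho (j + 1) ≤ s * E j := by
    have p1 := Gmd_rho hs (hE0 j) o2.le o3 o4 hV
    rw [rho]
    rw [show C.k - C.a j = s * (E (C.m + 4) - E j) by rw [hk, haj]; ring,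
      show C.k - C.a (j + 1) = s * (E (C.m + 4) - E (j + 1)) by rw [hk, haQ]; ring,
      show C.v - C.a (j + 1) = s * (E (C.m + 5) - E (j + 1)) by rw [hv, haQ]; ring]
    exact p1
  -- the chain
  have hch := ch1 hj hjm hn
  have hprod : ∏ i ∈ Finset.Icc 1 j, (C.a (j + 1) - C.a i) =
      s ^ j * ∏ i ∈ Finset.Icc 1 j, (E (j + 1) - E i) := by
    have hc : (Finset.Icc 1 j).card = j := by rw [Nat.card_Icc]; omega
    calc ∏ i ∈ Finset.Icc 1 j, (C.a (j + 1) - C.a i)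
        = ∏ i ∈ Finset.Icc 1 j, s * (E (j + 1) - E i) := by
          refine Finset.prod_congr rfl fun i hi => ?_
          have hi' := Finset.mem_Icc.1 hi
          rw [haQ, ha i hi'.1 (by omega)]
          ring
      _ = _ := by rw [Finset.prod_mul_distrib, Finset.prod_const, hc]
  have hP0 : 0 ≤ ∏ i ∈ Finset.Icc 1 j, (E (j + 1) - E i) := by
    apply Finset.prod_nonneg
    intro i hi
    have hi' := Finset.mem_Icc.1 hi
    exact sub_nonneg.2 (hmono i (j + 1) hi'.1 (by omega) (by omega))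
  rw [hprod] at hch
  have hk10 := k1_nonneg (C := C)
  have hch2 : s * (E 1 * (E (C.m + 4) - E j) ^ 2 / E (C.m + 4) ^ 2) *
      (s ^ j * ∏ i ∈ Finset.Icc 1 j, (E (j + 1) - E i)) ≤ (s * E j) ^ j * (s * E j) := by
    have p1 : s * (E 1 * (E (C.m + 4) - E j) ^ 2 / E (C.m + 4) ^ 2) ≤ 1 + C.k1 - C.a j := by
      linarith
    have p2 : 0 ≤ s ^ j * ∏ i ∈ Finset.Icc 1 j, (E (j + 1) - E i) :=
      mul_nonneg (pow_nonneg hs.le _) hP0
    have p3 : C.k1 ^ j ≤ (s * E j) ^ j := pow_le_pow_left₀ hk10 c2 j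
    have p4 : 0 ≤ (C.k - C.a j) * C.rho (j + 1) := by
      have p5 : C.a j < C.k := C.a_lt (by omega) (by omega)
      exact mul_nonneg (by linarith) (rho_pos (by omega)).le
    calc _ ≤ (1 + C.k1 - C.a j) * (s ^ j * ∏ i ∈ Finset.Icc 1 j, (E (j + 1) - E i)) :=
          mul_le_mul_of_nonneg_right p1 p2
      _ ≤ _ := hch
      _ ≤ (s * E j) ^ j * (s * E j) :=
          mul_le_mul p3 c3 p4 (pow_nonneg (mul_nonneg hs.le (hE0 j).le) _)
  have hch3 : E 1 * (E (C.m + 4) - E j) ^ 2 / E (C.m + 4) ^ 2 *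
      ∏ i ∈ Finset.Icc 1 j, (E (j + 1) - E i) ≤ E j ^ (j + 1) := by
    have p1 : s ^ (j + 1) * (E 1 * (E (C.m + 4) - E j) ^ 2 / E (C.m + 4) ^ 2 *
        ∏ i ∈ Finset.Icc 1 j, (E (j + 1) - E i)) ≤ s ^ (j + 1) * E j ^ (j + 1) := by
      calc _ = s * (E 1 * (E (C.m + 4) - E j) ^ 2 / E (C.m + 4) ^ 2) *
            (s ^ j * ∏ i ∈ Finset.Icc 1 j, (E (j + 1) - E i)) := by rw [pow_succ]; ring
        _ ≤ _ := hch2
        _ = _ := by rw [mul_pow]; ring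
    exact le_of_mul_le_mul_left p1 (pow_pos hs _)
  -- the product
  have hsum : ∀ u, u ≤ j → ((q : ℝ) - 1) * ∑ i ∈ Finset.Icc 1 u, E i ≤ E (u + 1) := by
    intro u
    induction u with
    | zero => intro _; simpa using (hE0 1).le
    | succ u ih =>
      intro hu
      have p1 := ih (by omega)
      have p2 := hstep (u + 1) (by omega) (by omega)
      rw [Finset.sum_Icc_succ_top (by omega)]
      linarith
  have hQ0 := hE0 (j + 1)
  have hu : ∀ i ∈ Finset.Icc 1 j, 0 ≤ E i / E (j + 1) ∧ E i / E (j + 1) ≤ 1 := by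
    intro i hi
    have hi' := Finset.mem_Icc.1 hi
    have := hE0 i
    exact ⟨by positivity, (div_le_one hQ0).2 (hmono i (j + 1) hi'.1 (by omega) (by omega))⟩
  obtain ⟨w1, w2, w3⟩ := Pool.Agent.H63.PDR.Rja_weier (fun i => E i / E (j + 1))
    (Finset.Icc 1 j) hu
  have hpr : ∏ i ∈ Finset.Icc 1 j, (E (j + 1) - E i) =
      E (j + 1) ^ j * ∏ i ∈ Finset.Icc 1 j, (1 - E i / E (j + 1)) := by
    have hc : (Finset.Icc 1 j).card = j := by rw [Nat.card_Icc]; omega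
    have p1 : ∏ i ∈ Finset.Icc 1 j, (E (j + 1) - E i) =
        ∏ i ∈ Finset.Icc 1 j, E (j + 1) * (1 - E i / E (j + 1)) := by
      refine Finset.prod_congr rfl fun i _ => ?_
      field_simp
    rw [p1, Finset.prod_mul_distrib, Finset.prod_const, hc]
  have hq1 : (0 : ℝ) < q - 1 := by linarith
  have hs2 : ∑ i ∈ Finset.Icc 1 j, E i / E (j + 1) ≤ 1 / ((q : ℝ) - 1) := by
    rw [← Finset.sum_div, div_le_div_iff₀ hQ0 hq1]
    have := hsum j le_rfl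
    linarith
  have hPl : E (j + 1) ^ j * (((q : ℝ) - 2) / (q - 1)) ≤
      ∏ i ∈ Finset.Icc 1 j, (E (j + 1) - E i) := by
    rw [hpr]
    apply mul_le_mul_of_nonneg_left _ (by positivity)
    have : ((q : ℝ) - 2) / (q - 1) = 1 - 1 / ((q : ℝ) - 1) := by
      field_simp
      ring
    linarith
  -- the exponents
  have h6 : (q : ℝ) * E j ^ (j + 1) ≤ E 1 * E (j + 1) ^ j := by
    have p1 := Gmd_exp g hjm j hj le_rfl
    rw [hE, hE, hE, ← pow_mul, ← pow_mul, ← pow_add, ← pow_succ']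
    apply pow_le_pow_right₀ (by linarith)
    calc e j * (j + 1) + 1 = (j + 1) * e j + 1 := by ring
      _ ≤ e 1 + j * e (j + 1) := p1
      _ = _ := by ring
  exact Gmd_fin hqR (hE0 1) (hE0 j) o5 (pow_pos (hE0 j) _) (pow_pos hQ0 _) hPl h6 hch3

end Pool.Agent.H92.PX
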