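import Pool.Agent.H92.PX.Ln2

/-!
# LW3: the low windows for `a 2 = 3` and `a 2 = 4`

Write `μ = a 3`, `aa = (k-2) rho 2`, `x = k0`.  In both cases: `line_two` gives
`(μ - 2)(aa + 2 - l) ≤ aa²`; `aa < k0` (`aa_lt`), `aa ≥ x (1 - (l+2)/k)` (`aa_ge`); then `lw_real` with a
suitable `s`.  `a 4 = a 2 + K 2 (a 3 - a 2)` (`K_mul`) and `a 4 ≤ k` (`a_le`).

`low3` (`l = 3`).  Put `t = μ - 3 ≥ 6`.  `k ≥ a 4 ≥ 9 t + 3`, `x ≥ (μ - 1)/(μ - 3) = 1 + 2/t`.  Then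
`aa ≥ (1 + 2/t)(1 - 5/(9 t + 3)) = 1 + s` with `s = 2/t - 5 (t + 2)/(t (9 t + 3)) = (13 t - 4)/(t (9 t + 3))`,
`aa < 4`, `16 < 3 (μ - 2)` as `μ ≥ 9`, and `(1 + s)² < (t + 1) s`: multiply by `(t (9 t + 3))²`:
`(9 t² + 16 t - 4)² < (t + 1)(13 t - 4)(t (9 t + 3))`; difference (right minus left) is
`117 t^4 + 120 t^3 - 9 t^2 - 12 t - (9 t² + 16 t - 4)²
 = 117 t^4 + 120 t^3 - 9 t² - 12 t - (81 t^4 + 288 t^3 + 184 t² - 128 t + 16)
 = 36 t^4 - 168 t^3 - 193 t² + 116 t - 16`, positive for `t ≥ 6` (`36 t ≥ 216`, so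
`36 t^4 - 168 t^3 ≥ 48 t^3 ≥ 288 t²`, `288 - 193 > 0`).

`low4` (`l = 4`).  Case `μ = 16`, `K 2 ≥ 16`: `k ≥ a 4 ≥ 4 + 16 * 12 = 196`, `x ≥ 30/12 = 5/2`,
`aa ≥ (5/2)(1 - 6/196) = 475/196 = 2 + s`, `s = 83/196`; `(475/196)² = 225625/38416 < 14 * 83/196`
`= 227752/38416`; `25 < 42`.
Case `μ ≥ 25`, `K 2 ≥ 9`: `t = μ - 4 ≥ 21`, `k ≥ 9 t + 4`, `x ≥ 2 (μ - 1)/(μ - 4) = 2 + 6/t`,
`aa ≥ (2 + 6/t)(1 - 6/(9 t + 4)) = 2 + s`, `s = 6/t - (12 t + 36)/(t (9 t + 4)) = (42 t - 12)/(t (9 t + 4))`,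
`25 < 3 (μ - 2)`, and `(2 + s)² < (t + 2) s`: multiply by `(t (9t+4))²`:
`(18 t² + 50 t - 12)² < (t + 2)(42 t - 12)(t (9 t + 4))`; the difference is
`378 t^4 + 816 t^3 + 72 t² - 96 t - (324 t^4 + 1800 t^3 + 2068 t² - 1200 t + 144)
 = 54 t^4 - 984 t^3 - 1996 t² + 1104 t - 144`, positive for `t ≥ 21` (`54 * 21 = 1134`,
`54 t^4 - 984 t^3 ≥ 150 t^3 ≥ 3150 t²`).
-/

open Set

namespace Pool.Agent.H92.PX

open Pool.Agent.H63 Pool.Agent.H63.PD Pool.Agent.H69.Pmd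

set_option linter.unusedSectionVars false

private theorem Lw3_a {t : ℝ} (ht : 6 ≤ t) :
    (1 + (13 * t - 4) / (t * (9 * t + 3))) ^ 2 < (t + 1) * ((13 * t - 4) / (t * (9 * t + 3))) := by
  have hD : 0 < t * (9 * t + 3) := by positivity
  have h1 : 1 + (13 * t - 4) / (t * (9 * t + 3)) = (9 * t ^ 2 + 16 * t - 4) / (t * (9 * t + 3)) := by
    rw [eq_div_iff hD.ne', add_mul, div_mul_cancel₀ _ hD.ne']
    ring
  rw [h1, div_pow, ← mul_div_assoc, div_lt_div_iff₀ (by positivity) hD]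
  have h2 : (9 * t ^ 2 + 16 * t - 4) ^ 2 < (t + 1) * (13 * t - 4) * (t * (9 * t + 3)) := by
    have e1 : 0 ≤ t ^ 3 * (t - 6) := mul_nonneg (by positivity) (by linarith)
    have e2 : 0 ≤ t ^ 2 * (t - 6) := mul_nonneg (by positivity) (by linarith)
    have e3 : 0 ≤ t * (t - 6) := mul_nonneg (by positivity) (by linarith)
    nlinarith
  have h3 := mul_lt_mul_of_pos_right h2 hD
  calc _ < _ := h3
    _ = _ := by ring

private theorem Lw3_b {t : ℝ} (ht : 21 ≤ t) :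
    (2 + (42 * t - 12) / (t * (9 * t + 4))) ^ 2 < (t + 2) * ((42 * t - 12) / (t * (9 * t + 4))) := by
  have hD : 0 < t * (9 * t + 4) := by positivity
  have h1 : 2 + (42 * t - 12) / (t * (9 * t + 4)) =
      (18 * t ^ 2 + 50 * t - 12) / (t * (9 * t + 4)) := by
    rw [eq_div_iff hD.ne', add_mul, div_mul_cancel₀ _ hD.ne']
    ring
  rw [h1, div_pow, ← mul_div_assoc, div_lt_div_iff₀ (by positivity) hD]
  have h2 : (18 * t ^ 2 + 50 * t - 12) ^ 2 < (t + 2) * (42 * t - 12) * (t * (9 * t + 4)) := by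
    have e1 : 0 ≤ t ^ 3 * (t - 21) := mul_nonneg (by positivity) (by linarith)
    have e2 : 0 ≤ t ^ 2 * (t - 21) := mul_nonneg (by positivity) (by linarith)
    have e3 : 0 ≤ t * (t - 21) := mul_nonneg (by positivity) (by linarith)
    nlinarith
  have h3 := mul_lt_mul_of_pos_right h2 hD
  calc _ < _ := h3
    _ = _ := by ring

/-- lower bound for `x (1 - c / k)` -/
private theorem Lw3_c {x k c x0 k0 : ℝ} (hx : x0 ≤ x) (hx0 : 0 ≤ x0) (hk : k0 ≤ k) (hc : 0 ≤ c)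
    (hck : c ≤ k0) (hk0 : 0 < k0) : x0 * (1 - c / k0) ≤ x * (1 - c / k) := by
  have h1 : c / k ≤ c / k0 := div_le_div_of_nonneg_left hc hk0 hk
  have h2 : c / k0 ≤ 1 := (div_le_one hk0).2 hck
  exact mul_le_mul hx (by linarith) (by linarith) (by linarith)

variable {α : Type*} [Fintype α] {C : PD α}

theorem low3 (h2 : C.a 2 = 3) (h3 : 9 ≤ C.a 3) (hK2 : 9 ≤ C.K 2) (hk : C.k0 < 4)
    (hn : ∀ G, C.IsF 3 G → C.b G ≤ C.a 2) (hx : C.a 3 - 1 ≤ (C.a 3 - 3) * C.k0) : False := by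
  have e1 := line_two (C := C) (Or.inl ⟨h2, h3, hk⟩) hn
  have e2 := aa_lt (C := C)
  have e3 := aa_ge (C := C)
  have e4 := k_sub_ge (C := C) (i := 2) (by omega) hK2
  norm_num at e4
  rw [h2] at e1 e3 e4
  obtain ⟨t, ht⟩ : ∃ t, C.a 3 = t + 3 := ⟨C.a 3 - 3, by ring⟩
  rw [ht] at e1 e4 hx h3
  have ht0 : 0 < t := by linarith
  have e5 : 1 + 2 / t ≤ C.k0 := by
    have : (t + 2) / t ≤ C.k0 := by
      rw [div_le_iff₀ ht0]; linarith
    have h' : (t + 2) / t = 1 + 2 / t := by field_simp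
    linarith
  have e6 := Lw3_c (c := 3 + 2) e5 (by positivity) (show 9 * t + 3 ≤ C.k by linarith)
    (by norm_num) (by linarith) (by linarith)
  have e7 : (1 + 2 / t) * (1 - (3 + 2) / (9 * t + 3)) = 1 + (13 * t - 4) / (t * (9 * t + 3)) := by
    have : (9 * t + 3) ≠ 0 := by linarith
    field_simp
    ring
  exact lw_real (l := 3) (μ := t + 3) (x := (C.k - 2) * C.rho 2)
    (s := (13 * t - 4) / (t * (9 * t + 3))) e1 (by linarith) (by linarith)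
    (by have := Lw3_a (t := t) (by linarith)
        calc _ = (1 + (13 * t - 4) / (t * (9 * t + 3))) ^ 2 := by ring
          _ < _ := this
          _ = _ := by ring)
    (by linarith)

theorem low4 (h2 : C.a 2 = 4) (h : (C.a 3 = 16 ∧ 16 ≤ C.K 2) ∨ (25 ≤ C.a 3 ∧ 9 ≤ C.K 2))
    (hk : C.k0 < 5) (hn : ∀ G, C.IsF 3 G → C.b G ≤ C.a 2)
    (hx : 2 * (C.a 3 - 1) ≤ (C.a 3 - 4) * C.k0) : False := by
  have e1 := line_two (C := C) (Or.inr ⟨h2, hk⟩) hn
  have e2 := aa_lt (C := C)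
  have e3 := aa_ge (C := C)
  rw [h2] at e1 e3
  rcases h with ⟨h3, hK2⟩ | ⟨h3, hK2⟩
  · have e4 := k_sub_ge (C := C) (i := 2) (by omega) hK2
    norm_num at e4
    rw [h3] at e1 hx e4
    rw [h2] at e4
    have e5 := Lw3_c (c := 4 + 2) (show 5 / 2 ≤ C.k0 by linarith) (by norm_num)
      (show 196 ≤ C.k by linarith) (by norm_num) (by norm_num) (by norm_num)
    norm_num at e5
    exact lw_real (l := 4) (μ := 16) (x := (C.k - 2) * C.rho 2) (s := 83 / 196) e1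
      (by norm_num at e3 e5 ⊢; linarith) (by linarith) (by norm_num) (by norm_num)
  · have e4 := k_sub_ge (C := C) (i := 2) (by omega) hK2
    norm_num at e4
    rw [h2] at e4
    obtain ⟨t, ht⟩ : ∃ t, C.a 3 = t + 4 := ⟨C.a 3 - 4, by ring⟩
    rw [ht] at e1 e4 hx h3
    have ht0 : 0 < t := by linarith
    have e5 : 2 + 6 / t ≤ C.k0 := by
      have : (2 * t + 6) / t ≤ C.k0 := by
        rw [div_le_iff₀ ht0]; linarith
      have h' : (2 * t + 6) / t = 2 + 6 / t := by field_simp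
      linarith
    have e6 := Lw3_c (c := 4 + 2) e5 (by positivity) (show 9 * t + 4 ≤ C.k by linarith)
      (by norm_num) (by linarith) (by linarith)
    have e7 : (2 + 6 / t) * (1 - (4 + 2) / (9 * t + 4)) =
        2 + (42 * t - 12) / (t * (9 * t + 4)) := by
      have : (9 * t + 4) ≠ 0 := by linarith
      field_simp
      ring
    exact lw_real (l := 4) (μ := t + 4) (x := (C.k - 2) * C.rho 2)
      (s := (42 * t - 12) / (t * (9 * t + 4))) e1 (by linarith) (by linarith)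
      (by have := Lw3_b (t := t) (by linarith)
          calc _ = (2 + (42 * t - 12) / (t * (9 * t + 4))) ^ 2 := by ring
            _ < _ := this
            _ = _ := by ring)
      (by linarith)

end Pool.Agent.H92.PX
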