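import Pool.Agent.H92.PX.Mxg

/-!
# MXA: the middle windows for `a 2 ≥ 5`, `K 1 = a 2 + 1`, `K 2` large

Write `l = a 2`, `u = K 2` (natural numbers: `a_nat`, `K_nat`).  `μ = a 3 = 1 + (l+1)(l-1) = l²`, `a 4 = l + u (l² - l)`
(`K_mul` with `i = 2`), so `Q = a 4 / a 3 = (1 + u (l-1))/l`, `c = μ/(μ-l) = l/(l-1)`,
`1 - l/(μ-l-2) = 1 - l/((l-2)(l+1)) = (l² - 2 l - 2)/((l-2)(l+1))`.  Apply `mxs`; to show:
`l² + l + 2 < (1 - l/(l²-l-2)) Q (Q - c)`.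
 * `l = 5`: `u (u-1) ≥ 60`, so `u ≥ 9` (`8 * 7 = 56`), `Q ≥ 37/5`, `(13/18)(37/5)(37/5 - 5/4) = 32.87 > 32`.
 * `l ≥ 6`: `l² (l-1) Q (Q-c) = (1 + u (l-1))((l-1)(1 + u (l-1)) - l²) = N(u)` with
   `N(u) = (l-1)³ u² - (l-1)(l² - 2 l + 2) u - (l² - l + 1)`.
   Claim `N(u) ≥ 2 l (l+1)(l-1)³ - 2 l (l-1) - (l² - l + 1)` =: `M`.
   If `u ≤ 2 l`: with `u² ≥ u + 2 l (l+1)`: `N(u) ≥ 2 l (l+1)(l-1)³ - (l-1) u - (l² - l + 1) ≥ M`
   (`(l-1)³ - (l-1)(l²-2l+2) = -(l-1)`).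
   If `u ≥ 2 l`: `N` is nondecreasing there and `N(2 l) ≥ M` as `4 l² ≥ 2 l + 2 l (l+1)`.  (In Lean: put
   `u = 2 l + y`, `y ≥ 0`.)
   Finally `(l² + l + 2) (l-2)(l+1) l² (l-1) < (l² - 2 l - 2) M`: with `l = 6 + y` all coefficients of the
   difference are positive (`nlinarith`/`positivity` after `ring_nf`; at `l = 6`:
   `44 * 4 * 7 * 36 * 5 = 221760 < 22 * 10409 = 228998`).
-/

open Set

namespace Pool.Agent.H92.PX

open Pool.Agent.H63 Pool.Agent.H63.PD Pool.Agent.H69.Pmd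

set_option linter.unusedSectionVars false

variable {α : Type*} [Fintype α] {C : PD α}

theorem Mxa_poly {L : ℝ} (hL : 6 ≤ L) :
    (L ^ 2 + L + 2) * ((L - 2) * (L + 1)) * (L ^ 2 * (L - 1)) <
      (L ^ 2 - 2 * L - 2) *
        (2 * L * (L + 1) * (L - 1) ^ 3 - 2 * L * (L - 1) - (L ^ 2 - L + 1)) := by
  obtain ⟨y, hy⟩ : ∃ y, L = 6 + y := ⟨L - 6, by ring⟩
  have hy0 : 0 ≤ y := by linarith
  subst hy
  rw [← sub_pos]
  ring_nf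
  positivity

theorem Mxa_N {L u : ℝ} (hL : 6 ≤ L) (hu0 : 0 ≤ u) (hu : 2 * L * (L + 1) ≤ u * (u - 1)) :
    2 * L * (L + 1) * (L - 1) ^ 3 - 2 * L * (L - 1) - (L ^ 2 - L + 1) ≤
      (1 + u * (L - 1)) * ((L - 1) * (1 + u * (L - 1)) - L ^ 2) := by
  have h1 : (1 + u * (L - 1)) * ((L - 1) * (1 + u * (L - 1)) - L ^ 2) =
      (L - 1) ^ 3 * u ^ 2 - (L - 1) * (L ^ 2 - 2 * L + 2) * u - (L ^ 2 - L + 1) := by ring
  rw [h1]
  have hL1 : 0 ≤ L - 1 := by linarith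
  rcases le_total u (2 * L) with h | h
  · have h2 : (L - 1) ^ 3 * (u + 2 * L * (L + 1)) ≤ (L - 1) ^ 3 * u ^ 2 :=
      mul_le_mul_of_nonneg_left (by linarith) (by positivity)
    have h3 : (L - 1) * u ≤ (L - 1) * (2 * L) := mul_le_mul_of_nonneg_left h hL1
    have h4 : (L - 1) ^ 3 * (u + 2 * L * (L + 1)) - (L - 1) * (L ^ 2 - 2 * L + 2) * u =
        2 * L * (L + 1) * (L - 1) ^ 3 - (L - 1) * u := by ring
    linarith
  · obtain ⟨y, hy⟩ : ∃ y, u = 2 * L + y := ⟨u - 2 * L, by ring⟩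
    have hy0 : 0 ≤ y := by linarith
    subst hy
    have e : (L - 1) ^ 3 * (2 * L + y) ^ 2 - (L - 1) * (L ^ 2 - 2 * L + 2) * (2 * L + y) -
        (L ^ 2 - L + 1) - (2 * L * (L + 1) * (L - 1) ^ 3 - 2 * L * (L - 1) - (L ^ 2 - L + 1)) =
        2 * L * (L - 1) ^ 3 * (L - 2) + (L - 1) ^ 3 * y ^ 2 +
        (L - 1) * y * (4 * L * (L - 1) ^ 2 - (L ^ 2 - 2 * L + 2)) := by ring
    have h5 : 0 ≤ 4 * L * (L - 1) ^ 2 - (L ^ 2 - 2 * L + 2) := by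
      nlinarith [mul_nonneg (by linarith : 0 ≤ L - 1) (by linarith : 0 ≤ L - 1)]
    have h6 : 0 ≤ 2 * L * (L - 1) ^ 3 * (L - 2) := by
      have : 0 ≤ L - 2 := by linarith
      have : 0 ≤ L := by linarith
      positivity
    have h7 : 0 ≤ (L - 1) ^ 3 * y ^ 2 := by positivity
    have h8 : 0 ≤ (L - 1) * y * (4 * L * (L - 1) ^ 2 - (L ^ 2 - 2 * L + 2)) :=
      mul_nonneg (mul_nonneg hL1 hy0) h5
    linarith

/-- the general estimate in terms of `N` -/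
theorem Mxa_gen {L u : ℝ} (hL : 5 ≤ L)
    (h : (L ^ 2 + L + 2) * ((L - 2) * (L + 1)) * (L ^ 2 * (L - 1)) <
      (L ^ 2 - 2 * L - 2) * ((1 + u * (L - 1)) * ((L - 1) * (1 + u * (L - 1)) - L ^ 2))) :
    L ^ 2 + L + 2 < (1 - L / (L ^ 2 - L - 2)) * ((L + u * (L ^ 2 - L)) / L ^ 2 *
      ((L + u * (L ^ 2 - L)) / L ^ 2 - L ^ 2 / (L ^ 2 - L))) := by
  have h0 : 0 < L := by linarith
  have h1 : 0 < L - 1 := by linarith
  have h2 : 0 < L - 2 := by linarith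
  have h3 : 0 < L + 1 := by linarith
  have e1 : L ^ 2 - L - 2 = (L - 2) * (L + 1) := by ring
  have e2 : L ^ 2 - L = L * (L - 1) := by ring
  have e3 : (1 - L / (L ^ 2 - L - 2)) * ((L + u * (L ^ 2 - L)) / L ^ 2 *
      ((L + u * (L ^ 2 - L)) / L ^ 2 - L ^ 2 / (L ^ 2 - L))) =
      (L ^ 2 - 2 * L - 2) * ((1 + u * (L - 1)) * ((L - 1) * (1 + u * (L - 1)) - L ^ 2)) /
        (((L - 2) * (L + 1)) * (L ^ 2 * (L - 1))) := by
    rw [e1, e2]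
    field_simp
    ring
  rw [e3, lt_div_iff₀ (by positivity)]
  linarith

theorem Mxa_num {l u : ℕ} (hl : 5 ≤ (l : ℝ))
    (hu : 2 * (l : ℝ) * (l + 1) ≤ (u : ℝ) * (u - 1)) :
    (l : ℝ) ^ 2 + l + 2 < (1 - l / ((l : ℝ) ^ 2 - l - 2)) * ((l + u * ((l : ℝ) ^ 2 - l)) / l ^ 2 *
      ((l + u * ((l : ℝ) ^ 2 - l)) / l ^ 2 - l ^ 2 / ((l : ℝ) ^ 2 - l))) := by
  refine Mxa_gen hl ?_
  have hl' : 5 ≤ l := by exact_mod_cast hl
  rcases Nat.eq_or_lt_of_le hl' with h | h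
  · subst h
    have hu9 : 9 ≤ u := by
      by_contra hcon
      have h8 : u ≤ 8 := by omega
      have h8' : (u : ℝ) ≤ 8 := by exact_mod_cast h8
      have h0 : (0 : ℝ) ≤ u := Nat.cast_nonneg u
      push_cast at hu
      nlinarith
    have hu9' : (9 : ℝ) ≤ u := by exact_mod_cast hu9
    push_cast
    nlinarith [mul_nonneg (by linarith : (0 : ℝ) ≤ (u : ℝ) - 9) (by linarith : (0 : ℝ) ≤ u)]
  · have h6 : (6 : ℝ) ≤ l := by exact_mod_cast h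
    have h1 := Mxa_N h6 (Nat.cast_nonneg u) hu
    have h2 := Mxa_poly h6
    have h3 : 0 ≤ (l : ℝ) ^ 2 - 2 * l - 2 := by nlinarith
    exact h2.trans_le (mul_le_mul_of_nonneg_left h1 h3)

theorem mxa (h5 : 5 ≤ C.a 2) (hK : C.K 1 = C.a 2 + 1)
    (hK2 : 2 * C.a 2 * (C.a 2 + 1) ≤ C.K 2 * (C.K 2 - 1)) {j : ℕ} (hj : 3 ≤ j)
    (hjm : j ≤ C.m + 2) (hn : ∀ G, C.IsF (j + 1) G → C.b G ≤ C.a j)
    (hl : C.a j - 2 < C.k0) (hk : C.k0 < C.a j + 1) : False := by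
  obtain ⟨l, hl'⟩ := a_nat (C := C) (i := 2) (by omega)
  obtain ⟨u, hu'⟩ := K_nat (C := C) (i := 2) (by omega)
  have h3 := a_three (C := C)
  rw [hK] at h3
  have h4 : C.a 4 = C.a 2 + C.K 2 * (C.a 3 - C.a 2) := by
    have := K_mul (C := C) (i := 2) (by omega)
    norm_num at this
    linarith
  have hμ : C.a 3 = (l : ℝ) ^ 2 := by
    rw [h3, hl']
    ring
  have hA4 : C.a 4 = l + u * ((l : ℝ) ^ 2 - l) := by
    rw [h4, hμ, hl', hu']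
  rw [hl'] at h5 hK2
  rw [hu'] at hK2
  refine mxs (by rw [hl']; linarith) hK.ge hj hjm hn hl hk ?_
  rw [hμ, hA4, hl']
  exact Mxa_num h5 hK2

end Pool.Agent.H92.PX
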