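import Pool.Agent.H92.PX.Mxg

/-!
# MXB: the middle windows for `a 2 = 4` and `a 2 = 3` (`K 1 ≥ 6`)

Apply `mxs`.  Write `n = K 1`, `u = K 2 ≥ n` (`K_mono`); `μ = a 3 = 1 + n (l-1)` (`a_three`),
`a 4 = l + u (μ - l)` (`K_mul`, `i = 2`), `Q = a 4/μ`, `c = μ/(μ-l)`.  `Q (Q - c)` is nondecreasing in `Q ≥ c`, so it is enough
to use a lower bound for `Q`.

`mxb` (`l = 4`), to show `μ + 6 < (1 - 4/(μ-6)) Q (Q - c)`:
 * `n = 5`, `u ≥ 16`: `μ = 16`, `Q ≥ 196/16 = 49/4`, `c = 4/3`, `(6/10)(49/4)(49/4 - 4/3) = 80.2 > 22`.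
 * `n = 8`, `u ≥ 9`: `μ = 25`, `Q ≥ 193/25`, `c = 25/21`, `(15/19)(193/25)(193/25 - 25/21) = 39.7 > 31`.
 * `n ≥ 9`, `u ≥ n`: `μ = 3 n + 1`, `a 4 ≥ 4 + 3 n (n-1)`, and `4 + 3 n (n-1) ≥ (n - 4/3)(3 n + 1)`, so
   `Q ≥ n - 4/3`; `c = 1 + 4/(3 n - 3) ≤ 7/6`; `1 - 4/(μ-6) = 1 - 4/(3 n - 5) ≥ 9/11`;
   `(9/11)(n - 4/3)(n - 5/2) > 3 n + 7` for `n ≥ 9`.

`mxd` (`l = 3`), to show `μ + 5 < (1 - 3/(μ-5)) Q (Q - c)`:
 * `n = 6`, `u ≥ 9`: `μ = 13`, `Q ≥ 93/13`, `c = 13/10`, `(5/8)(93/13)(93/13 - 13/10) = 26.1 > 18`.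
 * `n = 7`, `u ≥ 9`: `μ = 15`, `Q ≥ 111/15`, `c = 5/4`, `(7/10)(37/5)(37/5 - 5/4) = 31.8 > 20`.
 * `n ≥ 9`, `u ≥ n`: `μ = 2 n + 1`, `a 4 ≥ 3 + 2 n (n - 1)`, and `3 + 2 n (n-1) ≥ (n - 3/2)(2 n + 1)`, so
   `Q ≥ n - 3/2`; `c = 1 + 3/(2 n - 2) ≤ 19/16`; `1 - 3/(μ-5) = 1 - 3/(2 n - 4) ≥ 11/14`;
   `(11/14)(n - 3/2)(n - 43/16) > 2 n + 6` for `n ≥ 9`.
-/

namespace Pool.Agent.H92.PX

open Pool.Agent.H63 Pool.Agent.H63.PD Pool.Agent.H69.Pmd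

set_option linter.unusedSectionVars false

variable {α : Type*} [Fintype α] {C : PD α}

theorem Mxb_core {t y Q c q0 c0 z0 : ℝ} (hQ : q0 ≤ Q) (hc : c ≤ c0) (hcq : c0 ≤ q0) (h0 : 0 ≤ q0)
    (hz0 : 0 ≤ z0) (hz : z0 ≤ y) (ht : t < z0 * (q0 * (q0 - c0))) : t < y * (Q * (Q - c)) := by
  have h1 : q0 * (q0 - c0) ≤ Q * (Q - c) :=
    mul_le_mul hQ (by linarith) (by linarith) (by linarith)
  have h2 : 0 ≤ q0 * (q0 - c0) := mul_nonneg h0 (by linarith)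
  have h3 : z0 * (q0 * (q0 - c0)) ≤ y * (Q * (Q - c)) :=
    mul_le_mul hz h1 h2 (by linarith)
  linarith

theorem Mxb_l4 {n u : ℝ} (h : (n = 5 ∧ 16 ≤ u) ∨ (n = 8 ∧ 9 ≤ u) ∨ (9 ≤ n ∧ n ≤ u)) :
    (1 + n * (4 - 1)) + 4 + 2 < (1 - 4 / ((1 + n * (4 - 1)) - 4 - 2)) *
      ((4 + u * ((1 + n * (4 - 1)) - 4)) / (1 + n * (4 - 1)) *
        ((4 + u * ((1 + n * (4 - 1)) - 4)) / (1 + n * (4 - 1)) -
          (1 + n * (4 - 1)) / ((1 + n * (4 - 1)) - 4))) := by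
  rcases h with ⟨rfl, hu⟩ | ⟨rfl, hu⟩ | ⟨hn, hu⟩
  · refine Mxb_core (q0 := 49 / 4) (c0 := 4 / 3) (z0 := 6 / 10) ?_ ?_ (by norm_num) (by norm_num)
      (by norm_num) (by norm_num) (by norm_num)
    · rw [le_div_iff₀ (by norm_num)]; linarith
    · norm_num
  · refine Mxb_core (q0 := 193 / 25) (c0 := 25 / 21) (z0 := 15 / 19) ?_ ?_ (by norm_num) (by norm_num)
      (by norm_num) (by norm_num) (by norm_num)
    · rw [le_div_iff₀ (by norm_num)]; linarith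
    · norm_num
  · refine Mxb_core (q0 := n - 4 / 3) (c0 := 7 / 6) (z0 := 9 / 11) ?_ ?_ (by linarith) (by linarith)
      (by norm_num) ?_ ?_
    · rw [le_div_iff₀ (by linarith)]
      nlinarith [mul_nonneg (show 0 ≤ u - n by linarith) (show 0 ≤ n - 1 by linarith)]
    · rw [div_le_div_iff₀ (by linarith) (by norm_num)]; linarith
    · have h1 : 4 / ((1 + n * (4 - 1)) - 4 - 2) ≤ 2 / 11 := by
        rw [div_le_div_iff₀ (by linarith) (by norm_num)]; linarith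
      linarith
    · nlinarith [mul_nonneg (show 0 ≤ n - 9 by linarith) (show 0 ≤ n - 9 by linarith)]

theorem Mxb_l3 {n u : ℝ} (h : (n = 6 ∧ 9 ≤ u) ∨ (n = 7 ∧ 9 ≤ u) ∨ (9 ≤ n ∧ n ≤ u)) :
    (1 + n * (3 - 1)) + 3 + 2 < (1 - 3 / ((1 + n * (3 - 1)) - 3 - 2)) *
      ((3 + u * ((1 + n * (3 - 1)) - 3)) / (1 + n * (3 - 1)) *
        ((3 + u * ((1 + n * (3 - 1)) - 3)) / (1 + n * (3 - 1)) -
          (1 + n * (3 - 1)) / ((1 + n * (3 - 1)) - 3))) := by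
  rcases h with ⟨rfl, hu⟩ | ⟨rfl, hu⟩ | ⟨hn, hu⟩
  · refine Mxb_core (q0 := 93 / 13) (c0 := 13 / 10) (z0 := 5 / 8) ?_ ?_ (by norm_num) (by norm_num)
      (by norm_num) (by norm_num) (by norm_num)
    · rw [le_div_iff₀ (by norm_num)]; linarith
    · norm_num
  · refine Mxb_core (q0 := 111 / 15) (c0 := 5 / 4) (z0 := 7 / 10) ?_ ?_ (by norm_num) (by norm_num)
      (by norm_num) (by norm_num) (by norm_num)
    · rw [le_div_iff₀ (by norm_num)]; linarith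
    · norm_num
  · refine Mxb_core (q0 := n - 3 / 2) (c0 := 19 / 16) (z0 := 11 / 14) ?_ ?_ (by linarith) (by linarith)
      (by norm_num) ?_ ?_
    · rw [le_div_iff₀ (by linarith)]
      nlinarith [mul_nonneg (show 0 ≤ u - n by linarith) (show 0 ≤ n - 1 by linarith)]
    · rw [div_le_div_iff₀ (by linarith) (by norm_num)]; linarith
    · have h1 : 3 / ((1 + n * (3 - 1)) - 3 - 2) ≤ 3 / 14 := by
        rw [div_le_div_iff₀ (by linarith) (by norm_num)]; linarith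
      linarith
    · nlinarith [mul_nonneg (show 0 ≤ n - 9 by linarith) (show 0 ≤ n - 9 by linarith)]

theorem Mxb_four : C.a 4 = C.a 2 + C.K 2 * (C.a 3 - C.a 2) := by
  have := K_mul (C := C) (i := 2) (by omega)
  norm_num at this
  linarith

theorem mxb (h4 : C.a 2 = 4) (h : (C.K 1 = 5 ∧ 16 ≤ C.K 2) ∨ (C.K 1 = 8 ∧ 9 ≤ C.K 2) ∨
    9 ≤ C.K 1) {j : ℕ} (hj : 3 ≤ j) (hjm : j ≤ C.m + 2)
    (hn : ∀ G, C.IsF (j + 1) G → C.b G ≤ C.a j)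
    (hl : C.a j - 2 < C.k0) (hk : C.k0 < C.a j + 1) : False := by
  have h12 : C.K 1 ≤ C.K 2 := K_mono (by omega) (by omega)
  have hK : C.a 2 + 1 ≤ C.K 1 := by
    rw [h4]
    rcases h with h | h | h
    · linarith [h.1]
    · linarith [h.1]
    · linarith
  refine mxs (by rw [h4]; norm_num) hK hj hjm hn hl hk ?_
  have h3 := a_three (C := C)
  have h5 := Mxb_four (C := C)
  rw [h3, h4] at h5
  rw [h5, h3, h4]
  apply Mxb_l4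
  rcases h with h | h | h
  · exact Or.inl h
  · exact Or.inr (Or.inl h)
  · exact Or.inr (Or.inr ⟨h, h12⟩)

theorem mxd (h3 : C.a 2 = 3) (h : (C.K 1 = 6 ∧ 9 ≤ C.K 2) ∨ (C.K 1 = 7 ∧ 9 ≤ C.K 2) ∨
    9 ≤ C.K 1) {j : ℕ} (hj : 3 ≤ j) (hjm : j ≤ C.m + 2)
    (hn : ∀ G, C.IsF (j + 1) G → C.b G ≤ C.a j)
    (hl : C.a j - 2 < C.k0) (hk : C.k0 < C.a j + 1) : False := by
  have h12 : C.K 1 ≤ C.K 2 := K_mono (by omega) (by omega)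
  have hK : C.a 2 + 1 ≤ C.K 1 := by
    rw [h3]
    rcases h with h | h | h
    · linarith [h.1]
    · linarith [h.1]
    · linarith
  refine mxs (by rw [h3]) hK hj hjm hn hl hk ?_
  have h4 := a_three (C := C)
  have h5 := Mxb_four (C := C)
  rw [h4, h3] at h5
  rw [h5, h4, h3]
  apply Mxb_l3
  rcases h with h | h | h
  · exact Or.inl h
  · exact Or.inr (Or.inl h)
  · exact Or.inr (Or.inr ⟨h, h12⟩)

end Pool.Agent.H92.PX
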