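import Pool.Agent.H92.PX.Mxg

/-!
# MXE: the middle windows for `a 2 = 3`, `K 1 = 4`, `K 2 ≥ 9`

`μ = a 3 = 9` (`a_three`), `A₄ := a 4 = 3 + 6 K 2 ≥ 57` (`K_mul`, `i = 2`), `c = 9/6 = 3/2`.

Case `j ≥ 4`: apply `mxg` with `z = 1/4`, `Q = 19/3`.  `hz`: `ratio_ge` with `s = 3`, `i = j - 1 ≥ 3`:
`a 4 * a (j-1) ≤ a 3 * a j`, so `57 β ≤ 9 γ`, `γ ≥ (19/3) β`, and `β ≥ a 3 = 9`:
`(1/4)(γ - 5/4 - β) ≥ (1/4)((16/3) β - 5/4) = (4/3) β - 5/16 ≥ β`.  `hQA`: `ratio_ge` with `s = 3`, `i = j`: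
`57 a j ≤ a 4 * a j ≤ 9 a (j+1)`.  `hQ`: `14 < (3/4)(19/3)(19/3 - 3/2) = 22.9`.

Case `j = 3` (so `m ≥ 1`): `γ = 9`, `A = a 4 ≥ 57`.  `k ≥ a 5 = a 3 + K 3 (a 4 - a 3) ≥ 9 + 9 * 48 = 441` (`K_mul`
with `i = 3`, `K 3 ≥ K 2`, `a 5 ≤ a (m+4)`).  `x = k0`, `7 < x < 10`.  `windowq` with `t = 2`:
`0 < (x - 3)(x - 9) + x = x² - 11 x + 27`; if `x ≤ 7.3` then `(x - 7.3)(x - 3.7) ≤ 0`, i.e.
`x² - 11 x + 27.01 ≤ 0`, contradiction; so `x > 7.3`.  `aa = (k-2) rho 2 ≥ x (1 - 5/k) ≥ 7.3 (1 - 5/441) ≥ 7.21`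
(`aa_ge`), `aa < x < 10` (`aa_lt`).  `ch2` with `j = 3` (`Finset.Icc 2 3`, product `(A-3)(A-9) ≥ 54 * 48 = 2592`):
`(2 + aa - 9) * 2592 ≤ (2 + aa - 9)(A-3)(A-9) ≤ aa² * ((k - 9) rho 4) ≤ aa³` (`rho_anti`; `k - 9 ≤ k - 2`).
But `2592 (aa - 7) > aa³` on `[7.21, 10]`: at `7.21`: `544.3 > 374.9`, and
`2592 (aa - 7) - aa³` increases there (`aa³ - 7.21³ ≤ 300 (aa - 7.21)`).
-/

open Set

namespace Pool.Agent.H92.PX

open Pool.Agent.H63 Pool.Agent.H63.PD Pool.Agent.H69.Pmd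

set_option linter.unusedSectionVars false

variable {α : Type*} [Fintype α] {C : PD α}

/-- the final cubic estimate -/
theorem Mxe_cub {y : ℝ} (h1 : 721 / 100 ≤ y) (h2 : y < 10) : y ^ 3 < 2592 * (y - 7) := by
  have h3 : y ^ 2 + 721 / 100 * y + (721 / 100) ^ 2 ≤ 300 := by nlinarith
  nlinarith [mul_nonneg (sub_nonneg.2 h1) (sub_nonneg.2 h3)]

theorem Mxe_four (h3 : C.a 2 = 3) (h1 : C.K 1 = 4) (h2 : 9 ≤ C.K 2) :
    C.a 3 = 9 ∧ 57 ≤ C.a 4 := by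
  have e1 : C.a 3 = 9 := by rw [a_three, h3, h1]; norm_num
  have e2 := K_mul (C := C) (i := 2) (by omega)
  norm_num at e2
  rw [e1, h3] at e2
  exact ⟨e1, by linarith⟩

theorem mxe (h3 : C.a 2 = 3) (h1 : C.K 1 = 4) (h2 : 9 ≤ C.K 2) {j : ℕ} (hj : 3 ≤ j)
    (hjm : j ≤ C.m + 2) (hn : ∀ G, C.IsF (j + 1) G → C.b G ≤ C.a j)
    (hl : C.a j - 2 < C.k0) (hk : C.k0 < C.a j + 1) : False := by
  obtain ⟨e3, e4⟩ := Mxe_four h3 h1 h2
  have hK : C.a 2 + 1 ≤ C.K 1 := by rw [h3, h1]; norm_num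
  have hpos : ∀ i, 1 ≤ i → i ≤ C.m + 5 → 0 < C.a i := fun i h1 h2 => by
    have := C.a_pos h1 h2; linarith
  rcases Nat.lt_or_ge 3 j with h4 | h4
  · have hj1 : j - 1 + 1 = j := by omega
    have hβ : 9 ≤ C.a (j - 1) := by
      have := C.a_le (show 3 ≤ j - 1 by omega) (by omega : j - 1 ≤ C.m + 5)
      linarith
    have hr : 57 * C.a (j - 1) ≤ 9 * C.a j := by
      have h5 := ratio_ge hK (s := 3) (by omega) (j - 1) (by omega) (by omega)
      rw [hj1, e3] at h5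
      have h6 : 57 * C.a (j - 1) ≤ C.a (3 + 1) * C.a (j - 1) :=
        mul_le_mul_of_nonneg_right e4 (by linarith)
      linarith
    have hr2 : 57 * C.a j ≤ 9 * C.a (j + 1) := by
      have h5 := ratio_ge hK (s := 3) (by omega) j (by omega) (by omega)
      rw [e3] at h5
      have h6 : 57 * C.a j ≤ C.a (3 + 1) * C.a j :=
        mul_le_mul_of_nonneg_right e4 (hpos j (by omega) (by omega)).le
      linarith
    refine mxg (z := 1 / 4) (Q := 19 / 3) h3.ge hK hj hjm hn hl hk (by norm_num) (by norm_num)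
      (by linarith) ?_ (by linarith) ?_
    · rw [e3, h3]; norm_num
    · rw [e3, h3]; norm_num
  · obtain rfl : j = 3 := by omega
    rw [e3] at hl hk
    have hk441 : 441 ≤ C.k := by
      have h5 := K_mul (C := C) (i := 3) (by omega)
      norm_num at h5
      have h6 : C.K 2 ≤ C.K 3 := K_mono (by omega) (by omega)
      have h7 : C.a 5 ≤ C.k := C.a_le (by omega) (by omega)
      have h8 : 9 * (C.a 4 - C.a 3) ≤ C.K 3 * (C.a 4 - C.a 3) :=
        mul_le_mul_of_nonneg_right (by linarith) (by linarith)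
      linarith
    have hw := windowq (C := C) (t := 2) (by omega) k0_pos
    norm_num at hw
    rw [e3, h3] at hw
    have hx : 73 / 10 < C.k0 := by
      by_contra hcon
      push Not at hcon
      nlinarith [mul_nonneg (show (0 : ℝ) ≤ 73 / 10 - C.k0 by linarith)
        (show (0 : ℝ) ≤ C.k0 - 37 / 10 by linarith)]
    have haa := aa_ge (C := C)
    have haa2 := aa_lt (C := C)
    rw [h3] at haa
    have h5 : (3 + 2 : ℝ) / C.k ≤ 5 / 441 := by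
      have hkp : (0 : ℝ) < C.k := by linarith
      rw [div_le_div_iff₀ hkp (by norm_num)]
      linarith
    have h6 : C.k0 * (1 - 5 / 441) ≤ C.k0 * (1 - (3 + 2) / C.k) :=
      mul_le_mul_of_nonneg_left (by linarith) (by linarith)
    obtain ⟨y, hy⟩ : ∃ y, y = (C.k - 2) * C.rho 2 := ⟨_, rfl⟩
    rw [← hy] at haa haa2
    have hy1 : 721 / 100 ≤ y := by linarith
    have hc := ch2 (C := C) (j := 3) (by omega) hjm hn
    rw [← hy, e3, show Finset.Icc 2 3 = {2, 3} from rfl, Finset.prod_pair (by norm_num)] at hc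
    norm_num at hc
    rw [e3, h3] at hc
    have h7 : (C.k - 9) * C.rho 4 ≤ y := by
      rw [hy]
      exact mul_le_mul (by linarith) (rho_anti (by omega) (by omega))
        (rho_pos (by omega)).le (by linarith)
    have h8 : y ^ 2 * ((C.k - 9) * C.rho 4) ≤ y ^ 2 * y :=
      mul_le_mul_of_nonneg_left h7 (by positivity)
    have h9 : (2592 : ℝ) ≤ (C.a 4 - 3) * (C.a 4 - 9) := by nlinarith
    have h10 : (2 + y - 9) * 2592 ≤ (2 + y - 9) * ((C.a 4 - 3) * (C.a 4 - 9)) :=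
      mul_le_mul_of_nonneg_left h9 (by linarith)
    have h11 := Mxe_cub hy1 (by linarith)
    nlinarith

end Pool.Agent.H92.PX
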