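import Pool.Agent.H92.PX.Ngs

/-!
# NG3: `b G ≤ a i` for flats of relative rank `i + 1 > j`, two variants with growth hypotheses

Both are proved by descending induction on `i` (compare `ngd` at the end of
`Pool/Agent/H63/PD/Ngd.lean`); `i = m+3` is `b_hyp_le`.  Write `w = a i`, `A = a (i+1)`, `d = A - w`; `w ≥ 1`.

`ngd_two`: `ng_step` with `κ = w`, `lam = 1/3`; `d ≥ 2 w` so `A ≥ 3 w`.
 * `hκ`: `kap_big` gives `(k - b G) rho (i+1) < k0 ≤ a j ≤ a i = w`.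
 * `hpair`: by `kap_big` `A - b G < w`, the same for `G'`; the sum is `< 2 w ≤ d`.
 * `k - w ≥ 4 d` (`k_sub_ge` with `c = 4`).
 * `c1`: `d (d + κ) < (d - κ)(4 d) ≤ (d - κ)(k - w)`: `5 κ < 3 d` as `5 w < 6 w`.
 * `c2`: `(d + κ/3)(2/3) - κ = (2/3) d - (7/9) κ > 0`, and `(d - (2/3) κ) d < ((2/3) d - (7/9) κ)(4 d)` iff
   `22 κ < 15 d`: `22 w < 30 w`.

`ngd_three`: `ng_step` with `κ = w + 1`, `lam = 1/4`; `d ≥ (10/3) w ≥ 10`, `A ≥ (13/3) w`, `w ≤ A / 4`.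
 * `hκ`: `(k - b G) rho (i+1) < k0 < a j + 1 ≤ w + 1`.
 * `hpair`: sum `< 2 (w+1) ≤ (10/3) w ≤ d` as `w ≥ 3`.
 * `k - w ≥ 6 d` (`k_sub_ge` with `c = 6`).
 * `c1`: `d (d + κ) < (d - κ)(6 d) ≤ (d - κ)(k - w)`: `7 κ < 5 d` as `7 (w+1) < (50/3) w`.
 * `c2`: `(d + κ/4)(3/4) - κ = (3/4) d - (13/16) κ > 0` and
   `(d - (3/4) κ) d < ((3/4) d - (13/16) κ)(6 d)` iff `d - (3/4) κ < (9/2) d - (39/8) κ` iff
   `(33/8) κ < (7/2) d` iff `33 κ < 28 d`: `33 (w+1) < (280/3) w`.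
-/

open Set

namespace Pool.Agent.H92.PX

open Pool.Agent.H63 Pool.Agent.H63.PD Pool.Agent.H69.Pmd

set_option linter.unusedSectionVars false

variable {α : Type*} [Fintype α] {C : PD α}

private theorem Ng3_c1 {d κ K c : ℝ} (hd : 0 < d) (hK : c * d ≤ K) (h1 : κ ≤ d)
    (h : d + κ < c * (d - κ)) : d * (d + κ) < (d - κ) * K := by
  calc d * (d + κ) < d * (c * (d - κ)) := mul_lt_mul_of_pos_left h hd
    _ = (d - κ) * (c * d) := by ring
    _ ≤ (d - κ) * K := mul_le_mul_of_nonneg_left hK (by linarith)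

private theorem Ng3_c2 {d κ K c lam : ℝ} (hd : 0 < d) (hK : c * d ≤ K)
    (h1 : 0 ≤ (d + lam * κ) * (1 - lam) - κ)
    (h : d - (1 - lam) * κ < c * ((d + lam * κ) * (1 - lam) - κ)) :
    (d - (1 - lam) * κ) * d < ((d + lam * κ) * (1 - lam) - κ) * K := by
  calc (d - (1 - lam) * κ) * d < (c * ((d + lam * κ) * (1 - lam) - κ)) * d :=
        mul_lt_mul_of_pos_right h hd
    _ = ((d + lam * κ) * (1 - lam) - κ) * (c * d) := by ring
    _ ≤ ((d + lam * κ) * (1 - lam) - κ) * K := mul_le_mul_of_nonneg_left hK h1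

theorem ngd_two {j : ℕ} (h0 : 1 ≤ j)
    (hd : ∀ i, j ≤ i → i ≤ C.m + 2 → 2 * C.a i ≤ C.a (i + 1) - C.a i)
    (hK : ∀ i, j ≤ i → i ≤ C.m + 2 → 4 ≤ C.K i) (hk : C.k0 ≤ C.a j) {i : ℕ}
    (hji : j ≤ i) (hi : i + 1 ≤ C.m + 4) {G : Set α} (hG : C.IsF (i + 1) G) :
    C.b G ≤ C.a i := by
  obtain ⟨n, hn⟩ : ∃ n, i + n = C.m + 3 := ⟨C.m + 3 - i, by omega⟩
  induction n generalizing i G with
  | zero =>
    have : i = C.m + 3 := by omega
    subst this
    exact b_hyp_le hG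
  | succ n ihn =>
    have hi2 : i ≤ C.m + 2 := by omega
    have hw : 1 ≤ C.a i := C.a_pos (by omega) (by omega)
    have hjw : C.a j ≤ C.a i := C.a_le hji (by omega)
    have hd' := hd i hji hi2
    have hk4 := k_sub_ge (C := C) hi2 (hK i hji hi2)
    refine ng_step (C := C) (κ := C.a i) (lam := 1 / 3) (by omega) hi2 ?_ ?_ ?_ (by norm_num)
      (by norm_num) (by linarith) ?_ ?_ hG
    · intro J hJ
      exact ihn (i := i + 1) (by omega) (by omega) hJ (by omega)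
    · intro G hG hlt
      have := (kap_big hi2 hG hlt).2.2
      linarith
    · intro G G' hG hG' hlt hlt'
      obtain ⟨e1, -, e3⟩ := kap_big hi2 hG hlt
      obtain ⟨f1, -, f3⟩ := kap_big hi2 hG' hlt'
      linarith
    · exact Ng3_c1 (c := 4) (by linarith) hk4 (by linarith) (by linarith)
    · exact Ng3_c2 (c := 4) (by linarith) hk4 (by linarith) (by linarith)

theorem ngd_three {j : ℕ} (h0 : 1 ≤ j) (h3 : 3 ≤ C.a j)
    (hd : ∀ i, j ≤ i → i ≤ C.m + 2 → 10 * C.a i ≤ 3 * (C.a (i + 1) - C.a i))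
    (hK : ∀ i, j ≤ i → i ≤ C.m + 2 → 6 ≤ C.K i) (hk : C.k0 < C.a j + 1) {i : ℕ}
    (hji : j ≤ i) (hi : i + 1 ≤ C.m + 4) {G : Set α} (hG : C.IsF (i + 1) G) :
    C.b G ≤ C.a i := by
  obtain ⟨n, hn⟩ : ∃ n, i + n = C.m + 3 := ⟨C.m + 3 - i, by omega⟩
  induction n generalizing i G with
  | zero =>
    have : i = C.m + 3 := by omega
    subst this
    exact b_hyp_le hG
  | succ n ihn =>
    have hi2 : i ≤ C.m + 2 := by omega
    have hjw : C.a j ≤ C.a i := C.a_le hji (by omega)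
    have hw : 3 ≤ C.a i := by linarith
    have hd' := hd i hji hi2
    have hk4 := k_sub_ge (C := C) hi2 (hK i hji hi2)
    refine ng_step (C := C) (κ := C.a i + 1) (lam := 1 / 4) (by omega) hi2 ?_ ?_ ?_ (by norm_num)
      (by norm_num) (by linarith) ?_ ?_ hG
    · intro J hJ
      exact ihn (i := i + 1) (by omega) (by omega) hJ (by omega)
    · intro G hG hlt
      have := (kap_big hi2 hG hlt).2.2
      linarith
    · intro G G' hG hG' hlt hlt'
      obtain ⟨e1, -, e3⟩ := kap_big hi2 hG hlt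
      obtain ⟨f1, -, f3⟩ := kap_big hi2 hG' hlt'
      linarith
    · exact Ng3_c1 (c := 6) (by linarith) hk4 (by linarith) (by linarith)
    · exact Ng3_c2 (c := 6) (by linarith) hk4 (by linarith) (by linarith)

end Pool.Agent.H92.PX
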