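import Pool.Agent.H92.PX.Ngs

/-!
# NG4: `b G ≤ a i` for flats of relative rank `i + 1 > j` when `a 2 ≥ 4`

Proof.  Descending induction on `i` (compare `ngd` at the end of `Pool/Agent/H63/PD/Ngd.lean`);
`i = m+3` is `b_hyp_le`.  Step (`j ≤ i ≤ m+2`, statement known for `i+1`): `ng_step` with `κ = w + 1`,
`lam = 1/3`, where `w = a i`, `A = a (i+1)`, `d = A - w`.
 * `w ≥ a j ≥ a 2 ≥ 4`; `A ≥ (a 2 - 1) w + 1 ≥ 3 w + 1` (`a_ge`), so `w ≤ A / 3`, `d ≥ 2 w + 1`.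
 * `hκ`: `kap_big` gives `(k - b G) rho (i+1) < k0 < a j + 1 ≤ w + 1`.
 * `hpair`: by `kap_big` `A - b G < w + 1`, and `A - b G` is an integer, so `A - b G ≤ w` (`int_gap`-like:
   `a_nat`, `b_nat`); the same for `G'`; the sum is `≤ 2 w < d`.
 * `k - w ≥ 4 d` (`k_sub_ge` with `c = 4`, `K i ≥ K 0 = a 2 ≥ 4` by `K_mono`, `K_zero`).
 * `c1`: `d (d + κ) < (d - κ)(4 d) ≤ (d - κ)(k - w)`: `d + κ < 4 (d - κ)` iff `5 κ < 3 d`, and
   `5 (w+1) < 3 (2 w + 1)` iff `2 < w`.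
 * `c2`: `(d - (2/3) κ) d < ((2/3) d - (7/9) κ)(4 d) ≤ ((2/3) d - (7/9) κ)(k - w)`:
   `(d + κ/3)(2/3) - κ = (2/3) d - (7/9) κ > 0`, and `d - (2/3) κ < (8/3) d - (28/9) κ` iff
   `(22/9) κ < (5/3) d` iff `22 κ < 15 d`: `22 (w+1) < 15 (2 w + 1)`.
-/

open Set

namespace Pool.Agent.H92.PX

open Pool.Agent.H63 Pool.Agent.H63.PD Pool.Agent.H69.Pmd

set_option linter.unusedSectionVars false

variable {α : Type*} [Fintype α] {C : PD α}

private theorem Ng4_c1 {d κ K c : ℝ} (hd : 0 < d) (hK : c * d ≤ K) (h1 : κ ≤ d)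
    (h : d + κ < c * (d - κ)) : d * (d + κ) < (d - κ) * K := by
  calc d * (d + κ) < d * (c * (d - κ)) := mul_lt_mul_of_pos_left h hd
    _ = (d - κ) * (c * d) := by ring
    _ ≤ (d - κ) * K := mul_le_mul_of_nonneg_left hK (by linarith)

private theorem Ng4_c2 {d κ K c lam : ℝ} (hd : 0 < d) (hK : c * d ≤ K)
    (h1 : 0 ≤ (d + lam * κ) * (1 - lam) - κ)
    (h : d - (1 - lam) * κ < c * ((d + lam * κ) * (1 - lam) - κ)) :
    (d - (1 - lam) * κ) * d < ((d + lam * κ) * (1 - lam) - κ) * K := by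
  calc (d - (1 - lam) * κ) * d < (c * ((d + lam * κ) * (1 - lam) - κ)) * d :=
        mul_lt_mul_of_pos_right h hd
    _ = ((d + lam * κ) * (1 - lam) - κ) * (c * d) := by ring
    _ ≤ ((d + lam * κ) * (1 - lam) - κ) * K := mul_le_mul_of_nonneg_left hK h1

private theorem Ng4_int {i : ℕ} (hi : i ≤ C.m + 2) {G : Set α} (hG : C.IsF (i + 1) G)
    (h : C.a (i + 1) - C.b G < C.a i + 1) : C.a (i + 1) - C.b G ≤ C.a i := by
  obtain ⟨x, hx⟩ := a_nat (C := C) (i := i + 1) (by omega)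
  obtain ⟨y, hy⟩ := a_nat (C := C) (i := i) (by omega)
  obtain ⟨z, hz⟩ := b_nat hG
  rw [hx, hy, hz] at h ⊢
  have h1 : (x : ℤ) - z < y + 1 := by exact_mod_cast h
  have h2 : (x : ℤ) - z ≤ y := by omega
  exact_mod_cast h2

theorem ngd_four (h4 : 4 ≤ C.a 2) {j : ℕ} (hj : 2 ≤ j) (hk : C.k0 < C.a j + 1) {i : ℕ}
    (hji : j ≤ i) (hi : i + 1 ≤ C.m + 4) {G : Set α} (hG : C.IsF (i + 1) G) :
    C.b G ≤ C.a i := by
  obtain ⟨n, hn⟩ : ∃ n, i + n = C.m + 3 := ⟨C.m + 3 - i, by omega⟩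
  induction n generalizing i G with
  | zero =>
    have : i = C.m + 3 := by omega
    subst this
    exact b_hyp_le hG
  | succ n ihn =>
    have hi2 : i ≤ C.m + 2 := by omega
    have h2w : C.a 2 ≤ C.a i := C.a_le (by omega) (by omega)
    have hjw : C.a j ≤ C.a i := C.a_le hji (by omega)
    have hw : 4 ≤ C.a i := by linarith
    have hA := a_ge (C := C) (i := i) (by omega)
    have hd' : 3 * C.a i + 1 ≤ C.a (i + 1) := by nlinarith
    have hK : 4 ≤ C.K i := by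
      have := K_mono (C := C) (i := 0) (j := i) (by omega) (by omega)
      rw [K_zero] at this
      linarith
    have hk4 := k_sub_ge (C := C) hi2 hK
    refine ng_step (C := C) (κ := C.a i + 1) (lam := 1 / 3) (by omega) hi2 ?_ ?_ ?_ (by norm_num)
      (by norm_num) (by linarith) ?_ ?_ hG
    · intro J hJ
      exact ihn (i := i + 1) (by omega) (by omega) hJ (by omega)
    · intro G hG hlt
      have := (kap_big hi2 hG hlt).2.2
      linarith
    · intro G G' hG hG' hlt hlt'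
      obtain ⟨e1, -, e3⟩ := kap_big hi2 hG hlt
      obtain ⟨f1, -, f3⟩ := kap_big hi2 hG' hlt'
      have e4 := Ng4_int hi2 hG (by linarith)
      have f4 := Ng4_int hi2 hG' (by linarith)
      linarith
    · exact Ng4_c1 (c := 4) (by linarith) hk4 (by linarith) (by linarith)
    · exact Ng4_c2 (c := 4) (by linarith) hk4 (by linarith) (by linarith)

end Pool.Agent.H92.PX
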