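import Pool.Agent.H92.PX.Fst

/-!
# T39: the case `a 2 = 3`, `a 3 = 9`, `3 ≤ k0 < 4`

(1) For `y ∈ out F₀`: `(nfl C y).card ≤ (453/1000)(k - 1)`.
`nfb` with `t = 2` (`a 2 = 3`, `a 3 = 9`): `rho 1 (nf (1 - rho 2)) ≤ k1 ((k-3) rho 2) - 8 (k1 - 2)`, and
`(k - 3) rho 2 ≤ (k-1) rho 1 = k1` (`rho_anti`, `rho_one_mul`), so the right side is
`≤ k1² - 8 k1 + 16 = (4 - k1)²`.
`k1 ≥ 2.898`: `k0 ≥ 3` means `3 v ≤ k²` (`k0_mul`), and `k1 (v - 1) = (k-1)²` (`k1_mul`), so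
`k1 ≥ 3 (k-1)²/(k² - 3) ≥ 2.898` since `3 (k-1)² - 2.898 (k² - 3) = 0.102 k² - 6 k + 11.694 ≥ 0` for
`k ≥ 57` (`0.102 * 57² = 331.398`, `331.398 - 342 + 11.694 > 0`; increasing for `k ≥ 30`).
`k1 < k0 < 4` (`k1_lt_k0`), so `(4 - k1)² ≤ 1.102² ≤ 1.2145`.
`rho 2 = (k-3)/(v-3) ≤ 0.0668`: `k² < 4 v`, so `v - 3 > k²/4 - 3`, and
`k - 3 ≤ 0.0668 (k²/4 - 3)` for `k ≥ 57` (`0.0167 k² - k + 2.7996 ≥ 0`: at `k = 57`: `54.258 - 57 + 2.7996 > 0`,
increasing for `k ≥ 30`).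
So with `rho 1 = k1/(k-1)`: `nf * (k1 * 0.9332) ≤ 1.2145 (k - 1)` and `k1 * 0.9332 ≥ 2.898 * 0.9332 ≥ 2.704`,
`1.2145/2.704 ≤ 0.4492 < 0.453`.
(2) Take `y ∈ out F₀` (`out_nonempty`), `P = jn F₀ y` (`point`).  `out P` has `k - 1 > 0` elements, more than `nfl C y`, so
there is `z ∈ out P` with `L = jn P z ⊆ B`, `b L = 3` (`line_b`).
(3) `full_step` for `L` (`i = 2`, `N = (453/1000)(k-1)`): some `G = jn L y'` of relative rank 3 has
`3 (k - 3 - N) ≤ (k - 3)(b G - 4)`.  `N ≤ 0.4698 (k - 3)` for `k ≥ 57`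
(`0.453 (k-1) ≤ 0.4698 (k-3)` iff `0.9564 ≤ 0.0168 k`; `0.0168 * 57 = 0.9576`).  So
`b G ≥ 4 + 3 (0.5302) > 5`, and `b G` is an integer (`b_nat`): `b G ≥ 6`.
(4) `b G ≤ 9` (`IsF.b_le`).  `full_step` for `G` (`i = 3`): some `H = jn G y''` of relative rank 4 has
`b (k - b - N) ≤ (k - b)(b H - b - 1)` with `b = b G`, `6 ≤ b ≤ 9`.  `k - b ≥ k - 9`,
`N = 0.453 (k - 1) ≤ 0.5286 (k - 9)` for `k ≥ 57` (`0.453 * 56 = 25.368 ≤ 0.5286 * 48 = 25.37`), so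
`b H ≥ b + 1 + b (1 - 0.5286) ≥ 7 + 6 * 0.4714 = 9.8 > 9`, against `hn`.
-/

open Set

namespace Pool.Agent.H92.PX

open Pool.Agent.H63 Pool.Agent.H63.PD Pool.Agent.H69.Pmd

set_option linter.unusedSectionVars false

variable {α : Type*} [Fintype α] {C : PD α}

theorem T39_nf (h2 : C.a 2 = 3) (h3 : C.a 3 = 9) (hk : 57 ≤ C.k) (hx : 3 ≤ C.k0)
    (hx4 : C.k0 < 4) {y : α} (hy : y ∈ C.out C.F₀) :
    ((nfl C y).card : ℝ) ≤ 453 / 1000 * (C.k - 1) := by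
  have e1 := nfb h2 (t := 2) (by omega) hy
  rw [show (2 : ℕ) + 1 = 3 from rfl, h2, h3] at e1
  have hv := C.k_lt_v
  have r1 := rho_one_mul (C := C)
  have r2 := rho_pos (C := C) (i := 2) (by omega)
  have r1p := rho_pos (C := C) (i := 1) (by omega)
  have r21 := rho_anti (C := C) (i := 1) (j := 2) (by omega) (by omega)
  have k1n := k1_nonneg (C := C)
  have k1k0 := k1_lt_k0 (C := C)
  have hr2 := rho_mul (C := C) (i := 2) (by omega)
  rw [h2] at hr2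
  have q0 := k0_mul (C := C)
  have q1 := k1_mul (C := C)
  have e2 : (C.k - 3) * C.rho 2 ≤ C.k1 := by
    rw [← r1]
    exact mul_le_mul (by linarith) r21 r2.le (by linarith)
  have hk1 : 2898 / 1000 ≤ C.k1 := by
    by_contra hcon
    push Not at hcon
    have a1 : 3 * C.v ≤ C.k ^ 2 := by
      rw [← q0]
      exact mul_le_mul_of_nonneg_right hx (by linarith)
    have a2 : C.k1 * (C.v - 1) ≤ 2898 / 1000 * (C.v - 1) :=
      mul_le_mul_of_nonneg_right hcon.le (by linarith)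
    rw [q1] at a2
    nlinarith
  have e3 : C.rho 1 * (((nfl C y).card : ℝ) * (1 - C.rho 2)) ≤ (4 - C.k1) ^ 2 := by
    refine e1.trans ?_
    have a1 : C.k1 * ((C.k - 3) * C.rho 2) ≤ C.k1 * C.k1 := mul_le_mul_of_nonneg_left e2 k1n
    nlinarith
  have e4 : (4 - C.k1) ^ 2 ≤ 12145 / 10000 := by nlinarith
  have hr : C.rho 2 ≤ 668 / 10000 := by
    have a1 : C.k ^ 2 < 4 * C.v := by
      rw [← q0]
      exact mul_lt_mul_of_pos_right hx4 (by linarith)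
    have a2 : C.k - 3 ≤ 668 / 10000 * (C.v - 3) := by nlinarith
    rw [← hr2] at a2
    exact le_of_mul_le_mul_right a2 (by linarith)
  have hnf : (0 : ℝ) ≤ ((nfl C y).card : ℝ) := Nat.cast_nonneg _
  have e5 : ((nfl C y).card : ℝ) * (C.k1 * (1 - C.rho 2)) ≤ 12145 / 10000 * (C.k - 1) := by
    have a1 : (C.k - 1) * (C.rho 1 * (((nfl C y).card : ℝ) * (1 - C.rho 2))) ≤
        (C.k - 1) * (12145 / 10000) :=
      mul_le_mul_of_nonneg_left (e3.trans e4) (by linarith)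
    have a2 : (C.k - 1) * (C.rho 1 * (((nfl C y).card : ℝ) * (1 - C.rho 2)))
        = ((nfl C y).card : ℝ) * (C.k1 * (1 - C.rho 2)) := by
      rw [← r1]
      ring
    linarith
  have e6 : 2704 / 1000 ≤ C.k1 * (1 - C.rho 2) := by
    have a1 : (2898 / 1000 : ℝ) * (9332 / 10000) ≤ C.k1 * (1 - C.rho 2) :=
      mul_le_mul hk1 (by linarith) (by norm_num) k1n
    have a2 : (2704 / 1000 : ℝ) ≤ 2898 / 1000 * (9332 / 10000) := by norm_num
    linarith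
  have e7 : ((nfl C y).card : ℝ) * (2704 / 1000) ≤ 12145 / 10000 * (C.k - 1) :=
    (mul_le_mul_of_nonneg_left e6 hnf).trans e5
  linarith

theorem t39 (h2 : C.a 2 = 3) (h3 : C.a 3 = 9) (hk : 57 ≤ C.k) (hx : 3 ≤ C.k0) (hx4 : C.k0 < 4)
    (hn : ∀ G, C.IsF 4 G → C.b G ≤ 9) : False := by
  have hN : ∀ z ∈ C.out C.F₀, ((nfl C z).card : ℝ) ≤ 453 / 1000 * (C.k - 1) :=
    fun z hz => T39_nf h2 h3 hk hx hx4 hz
  obtain ⟨y, hy⟩ := out_nonempty (isF_base (C := C)) (by omega)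
  obtain ⟨hP, hbP⟩ := point hy
  have hcard := card_out (C := C) (F := C.jn C.F₀ y)
  rw [hbP] at hcard
  have hlt : (nfl C y).card < (C.out (C.jn C.F₀ y)).card := by
    have a1 := hN y hy
    have a2 : ((nfl C y).card : ℝ) < ((C.out (C.jn C.F₀ y)).card : ℝ) := by
      rw [hcard]
      linarith
    exact_mod_cast a2
  obtain ⟨z, hz, hzn⟩ := Finset.exists_mem_notMem_of_card_lt_card hlt
  obtain ⟨hL, hL3, -⟩ := line_b h2 hy hz
  have hLB : C.jn (C.jn C.F₀ y) z ⊆ C.B := by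
    by_contra hcon
    exact hzn (mem_nfl.2 ⟨hz, hcon⟩)
  have hbL := hL3 hLB
  obtain ⟨y1, hy1, hs1⟩ := full_step h2 (i := 2) (by omega) hL
    (N := 453 / 1000 * (C.k - 1)) (fun w hw _ => hN w hw)
  rw [hbL] at hs1
  have hG := hL.jn (mem_out.1 hy1).2
  have hG9 := hG.b_le
  rw [show (2 : ℕ) + 1 = 3 from rfl, h3] at hG9
  have hb5 : 5 < C.b (C.jn (C.jn (C.jn C.F₀ y) z) y1) := by
    by_contra hcon
    push Not at hcon
    have a1 : (C.k - 3) * (C.b (C.jn (C.jn (C.jn C.F₀ y) z) y1) - 3 - 1) ≤ (C.k - 3) * 1 :=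
      mul_le_mul_of_nonneg_left (by linarith) (by linarith)
    linarith
  have hb6 : 6 ≤ C.b (C.jn (C.jn (C.jn C.F₀ y) z) y1) := by
    obtain ⟨m, hm⟩ := b_nat hG
    rw [hm] at hb5 ⊢
    have a1 : 5 < m := by exact_mod_cast hb5
    have a2 : 6 ≤ m := a1
    exact_mod_cast a2
  obtain ⟨y2, hy2, hs2⟩ := full_step h2 (i := 3) (by omega) hG
    (N := 453 / 1000 * (C.k - 1)) (fun w hw _ => hN w hw)
  have hH := hG.jn (mem_out.1 hy2).2
  have hH9 := hn _ hH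
  generalize C.b (C.jn (C.jn (C.jn C.F₀ y) z) y1) = b at *
  generalize C.b (C.jn (C.jn (C.jn (C.jn C.F₀ y) z) y1) y2) = c at *
  have hkb : 0 < C.k - b := by linarith
  have a1 : 453 / 1000 * (C.k - 1) ≤ 5286 / 10000 * (C.k - b) := by linarith
  have a2 : b * (4714 / 10000 * (C.k - b)) ≤ (C.k - b) * (c - b - 1) := by
    refine le_trans ?_ hs2
    exact mul_le_mul_of_nonneg_left (by linarith) (by linarith)
  have a3 : (C.k - b) * (4714 / 10000 * b) ≤ (C.k - b) * (c - b - 1) := by linarith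
  have a4 : 4714 / 10000 * b ≤ c - b - 1 := le_of_mul_le_mul_left a3 hkb
  linarith

end Pool.Agent.H92.PX
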