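import Pool.Agent.H92.PX.Tfa

/-!
# TP3: the top case with `a 2 = 3`, `K 1 ≥ 4` and `K (m+3) ≥ 5`

Write `n = K (m+3)`, `γ = a (m+3)`, `β = a (m+2)`; `c`, `b0` from `tfa`; `c (n-1) = 1`, so `c ≤ 1/4`,
`b0 ≥ 2 - 3 c ≥ 5/4`; (W) `(γ-2)(b0+c-1) ≤ β b0`.
`5 (b0 + c - 1) - 2 b0 = 3 b0 - 5 (1 - c) ≥ 3 (2 - 3 c) - 5 + 5 c = 1 - 4 c ≥ 0`, so
`2 (γ - 2) b0 ≤ 5 β b0`, `2 (γ - 2) ≤ 5 β`.
 * `m ≥ 1`: `3 β ≤ γ` (`ratio_ge` with `s = 1`, `i = m+2`: `a 2 * a (m+2) ≤ a 1 * a (m+3)`), so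
   `6 β - 4 ≤ 5 β`, `β ≤ 4`; but `β ≥ a 3 = 1 + 2 K 1 ≥ 9` (`a_three`, `m + 2 ≥ 3`).
 * `m = 0`: `β = a 2 = 3`, `γ = a 3 = 1 + 2 K 1`, so `2 (γ - 2) ≤ 15`, `γ ≤ 9.5`, `K 1 ≤ 4.25`, so `K 1 = 4`
   (a natural number, `K_nat`), `γ = 9`.  (W): `7 (b0 + c - 1) ≤ 3 b0`, i.e. `4 b0 ≤ 7 - 7 c`.
   - `9 ≤ K 2`: `n ≥ K 2 ≥ 9` (`K_mono`), `c ≤ 1/8`, `4 b0 ≥ 8 - 12 c`, so `8 - 12 c ≤ 7 - 7 c`, `1 ≤ 5 c`,
     contradiction.
   - `K 2 = 4`: `k = a 4 = a 2 + K 2 (a 3 - a 2) = 3 + 4 * 6 = 27` (`K_mul`), `b0 = 9 - 27 c`,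
     `36 - 108 c ≤ 7 - 7 c`, `29 ≤ 101 c ≤ 101/4`, contradiction.
-/

open Set

namespace Pool.Agent.H92.PX

open Pool.Agent.H63 Pool.Agent.H63.PD Pool.Agent.H69.Pmd

set_option linter.unusedSectionVars false

variable {α : Type*} [Fintype α] {C : PD α}

theorem tp3 (h3 : C.a 2 = 3) (h1 : 4 ≤ C.K 1) (hd : C.K 1 = 4 → C.K 2 = 4 ∨ 9 ≤ C.K 2)
    (hk : C.a (C.m + 3) - 2 < C.k0) (hn : 5 ≤ C.K (C.m + 3)) : False := by
  obtain ⟨c, b0, hc, hc0, hb0, -, hb2, hW⟩ := tfa (C := C) h3.ge hk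
  rw [h3] at hb2
  have hc4 : 4 * c ≤ 1 := by nlinarith
  have hW' := hW (by linarith)
  have ha3 : C.a 3 = 1 + 2 * C.K 1 := by
    rw [a_three, h3]
    ring
  have hγ3 : C.a 3 ≤ C.a (C.m + 3) := C.a_le (by omega) (by omega)
  have hγ : 9 ≤ C.a (C.m + 3) := by linarith
  have hb0' : 5 / 4 ≤ b0 := by linarith
  have hmain : 2 * (C.a (C.m + 3) - 2) ≤ 5 * C.a (C.m + 2) := by
    have h4 : 2 * b0 ≤ 5 * (b0 + c - 1) := by linarith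
    have h5 : (C.a (C.m + 3) - 2) * (2 * b0) ≤ (C.a (C.m + 3) - 2) * (5 * (b0 + c - 1)) :=
      mul_le_mul_of_nonneg_left h4 (by linarith)
    have h6 : 2 * (C.a (C.m + 3) - 2) * b0 ≤ 5 * C.a (C.m + 2) * b0 := by linarith
    exact le_of_mul_le_mul_right h6 (by linarith)
  rcases Nat.eq_zero_or_pos C.m with hm | hm
  · have e3 : C.a (C.m + 3) = C.a 3 := by rw [hm]
    have e2 : C.a (C.m + 2) = 3 := by rw [hm, zero_add, h3]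
    have ek : C.k = C.a 4 := by rw [PD.k, hm]
    have eK : C.K (C.m + 3) = C.K 3 := by rw [hm]
    rw [e3, e2] at hmain hW'
    rw [e3] at hb0
    obtain ⟨N, hN⟩ := K_nat (C := C) (i := 1) (by omega)
    have hK1 : C.K 1 = 4 := by
      rw [hN] at h1 ⊢
      rw [ha3, hN] at hmain
      have h5 : 4 ≤ N := by exact_mod_cast h1
      have h6 : N < 5 := by
        have : (N : ℝ) < 5 := by linarith
        exact_mod_cast this
      have h7 : N = 4 := by omega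
      rw [h7]
      norm_num
    have e9 : C.a 3 = 9 := by rw [ha3, hK1]; norm_num
    rw [e9] at hW' hb0
    rcases hd hK1 with h4 | h4
    · have h5 := K_mul (C := C) (i := 2) (by omega)
      rw [h4, e9, h3] at h5
      have h6 : C.k = 27 := by rw [ek]; linarith
      rw [h6] at hb0
      linarith
    · have h5 : C.K 2 ≤ C.K 3 := K_mono (by omega) (by omega)
      rw [eK] at hc
      have h6 : 8 * c ≤ 1 := by nlinarith
      linarith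
  · have h4 := ratio_ge (C := C) (by rw [h3]; linarith) (s := 1) le_rfl (C.m + 2) (by omega)
      (by omega)
    rw [C.a_one, h3, one_mul] at h4
    have h5 : C.a 3 ≤ C.a (C.m + 2) := C.a_le (by omega) (by omega)
    linarith

end Pool.Agent.H92.PX
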