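import Pool.Agent.H92.PX.Tfa

/-!
# TP4: the top case with `a 2 ≥ 4` and `K (m+3) ≥ a 2 + 2`

Write `l = a 2`, `n = K (m+3)`, `γ = a (m+3)`, `β = a (m+2)`; `c`, `b0` from `tfa`; `c (n-1) = 1`.
`γ ≥ (l-1) β + 1` (`a_ge`), `β ≥ l` (`a_le`).

`tp5` (`l ≥ 5`): part (4) of the proof of `top` in `Pool/Agent/H63/PD/Top.lean`: `c (l+1) ≤ 1`,
`b0 ≥ 2 - c l ≥ 1`, `(l+2)(b0+c-1) - 2 b0 = l b0 - (l+2)(1-c) ≥ l (2 - c l) - (l+2)(1-c)
= (l - 2)(1 - c (l+1)) ≥ 0`; with (W) `(γ-2)(b0+c-1) ≤ β b0`: `2 (γ-2) ≤ (l+2) β`, and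
`2 (l-1) β - 2 ≤ (l+2) β`, `(l-4) β ≤ 2`, false.

`tp4` (`l = 4`, `n ≥ 6`; `n` is a natural number by `K_nat`): (W) `(γ-2)(b0+c-1) ≤ β b0`, `b0 ≥ 2 - 4 c`.
(a) `n ≥ 7`: `c ≤ 1/6`, `b0 ≥ 4/3`, and `8 (b0 + c - 1) - 3 b0 = 5 b0 - 8 (1 - c) ≥ 5 (2 - 4 c) - 8 + 8 c
= 2 - 12 c ≥ 0`.  So `3 (γ - 2) b0 ≤ 8 (γ-2)(b0+c-1) ≤ 8 β b0`, `3 (γ - 2) ≤ 8 β`; with `γ ≥ 3 β + 1`:
`9 β - 3 ≤ 8 β`, `β ≤ 3`, false as `β ≥ 4`.
(b) `n = 6`: `c = 1/5`, `b0 ≥ 6/5`, `3 (b0 + c - 1) - b0 = 2 b0 - 12/5 ≥ 0`, so `(γ - 2) b0 ≤ 3 β b0`,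
`γ ≤ 3 β + 2`.  Let `p = K (m+1)`, a natural number `≥ K 0 = 4` (`K_mono`, `K_zero`).  Write `β' = a (m+1)`;
`3 β' + 1 ≤ β` (`a_ge`); `γ - β = (p - 1)(β - β')` (`dif_eq`, `i = m+1`).
 - `p ≥ 5`: `γ ≥ β + 4 (β - β') = 5 β - 4 β' ≥ 5 β - (4/3)(β - 1) = (11/3) β + 4/3 > 3 β + 2` as
   `(2/3) β ≥ 8/3 > 2/3`.  Contradiction.
 - `p = 4`: then `K u = 4` for all `u ≤ m+1` (`K_mono`), so `a (i+1) = 3 a i + 1` for `i ≤ m+2` (induction: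
   `a 1 = 1`, `dif_eq`); so `γ = 3 β + 1`, `γ ≥ 13` (`β ≥ 4`).  Let `r = K (m+2)`, a natural number,
   `4 ≤ r ≤ n = 6`.  `k - γ = (r - 1)(γ - β)` (`dif_eq`, `i = m+2`, `k = a (m+4)`), `b0 = γ - k/5`, with
   `β = (γ-1)/3`, `γ - β = (2 γ + 1)/3`.  (W): `(γ - 2)(b0 - 4/5) ≤ β b0` (`b0 - 4/5 ≥ 0`).
   * `r = 4`: `k = 3 γ + 1`, `b0 = (2 γ - 1)/5`: `3 (γ-2)(2γ-5) ≤ (γ-1)(2γ-1)`, `4 γ² - 24 γ + 29 ≤ 0`, false
     for `γ ≥ 13`.
   * `r = 5`: `k = (11 γ + 4)/3`, `b0 = (4 γ - 4)/15`: `3 (γ-2)(4γ-16) ≤ (γ-1)(4γ-4)`,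
     `8 γ² - 64 γ + 92 ≤ 0`, false for `γ ≥ 13`.
   * `r = 6`: `k = (13 γ + 5)/3`, `b0 = (2 γ - 5)/15`: `3 (γ-2)(2γ-17) ≤ (γ-1)(2γ-5)`,
     `4 γ² - 56 γ + 97 ≤ 0`, false for `γ ≥ 13` (`4 γ (γ - 14) + 97 ≥ -52 + 97` on `13 ≤ γ`).
-/

open Set

namespace Pool.Agent.H92.PX

open Pool.Agent.H63 Pool.Agent.H63.PD Pool.Agent.H69.Pmd

set_option linter.unusedSectionVars false

variable {α : Type*} [Fintype α] {C : PD α}

theorem tp5 (h5 : 5 ≤ C.a 2) (hk : C.a (C.m + 3) - 2 < C.k0)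
    (hn : C.a 2 + 2 ≤ C.K (C.m + 3)) : False := by
  obtain ⟨c, b0, hc1, hc0, -, hb0nn, hb2, hW⟩ := tfa (by linarith) hk
  have hβl : C.a 2 ≤ C.a (C.m + 2) := C.a_le (by omega) (by omega)
  have hγβ : (C.a 2 - 1) * C.a (C.m + 2) + 1 ≤ C.a (C.m + 3) :=
    a_ge (C := C) (i := C.m + 2) (by omega)
  obtain ⟨l, hl⟩ : ∃ l, l = C.a 2 := ⟨_, rfl⟩
  obtain ⟨γ, hγ⟩ : ∃ γ, γ = C.a (C.m + 3) := ⟨_, rfl⟩
  obtain ⟨β, hβ⟩ : ∃ β, β = C.a (C.m + 2) := ⟨_, rfl⟩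
  obtain ⟨n, hn'⟩ : ∃ n, n = C.K (C.m + 3) := ⟨_, rfl⟩
  rw [← hl, ← hn'] at hn
  rw [← hl] at h5 hb2 hβl hγβ
  rw [← hn'] at hc1
  rw [← hγ, ← hβ] at hW hγβ
  rw [← hβ] at hβl
  have h1 : c * (l + 1) ≤ 1 := by
    rw [← hc1]
    exact mul_le_mul_of_nonneg_left (by linarith) hc0.le
  have h2 : 1 ≤ b0 := by nlinarith
  have h3 := hW (by linarith)
  have h4 : 2 * b0 ≤ (l + 2) * (b0 + c - 1) := by
    have h5 : 0 ≤ (l - 2) * (1 - c * (l + 1)) := mul_nonneg (by linarith) (by linarith)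
    nlinarith [mul_le_mul_of_nonneg_left hb2 (show 0 ≤ l by linarith)]
  have hγ2 : 0 ≤ γ - 2 := by nlinarith
  have h5' : 2 * (γ - 2) * b0 ≤ (l + 2) * β * b0 := by
    have h6 := mul_le_mul_of_nonneg_left h4 hγ2
    have h7 := mul_le_mul_of_nonneg_left h3 (show 0 ≤ l + 2 by linarith)
    nlinarith
  have h6 := le_of_mul_le_mul_right h5' (by linarith)
  nlinarith

theorem Tp4_r4 {γ : ℝ} (h9 : 13 ≤ γ)
    (h3 : (γ - 2) * ((2 * γ - 1) / 5 + 1 / 5 - 1) ≤ (γ - 1) / 3 * ((2 * γ - 1) / 5)) : False := by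
  have h := mul_nonneg (show 0 ≤ γ - 13 by linarith) (show 0 ≤ γ - 1 by linarith)
  nlinarith

theorem Tp4_r5 {γ : ℝ} (h9 : 13 ≤ γ)
    (h3 : (γ - 2) * ((4 * γ - 4) / 15 + 1 / 5 - 1) ≤ (γ - 1) / 3 * ((4 * γ - 4) / 15)) : False := by
  have h := mul_nonneg (show 0 ≤ γ - 13 by linarith) (show 0 ≤ γ - 1 by linarith)
  nlinarith

theorem Tp4_r6 {γ : ℝ} (h9 : 13 ≤ γ)
    (h3 : (γ - 2) * ((2 * γ - 5) / 15 + 1 / 5 - 1) ≤ (γ - 1) / 3 * ((2 * γ - 5) / 15)) : False := by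
  have h := mul_nonneg (show 0 ≤ γ - 13 by linarith) (show 0 ≤ γ - 1 by linarith)
  nlinarith

/-- constant `K` on an initial segment -/
theorem Tp4_const (h4 : C.a 2 = 4) (hK : C.K (C.m + 1) = 4) {i : ℕ} (hi : i ≤ C.m + 2) :
    C.a (i + 1) = 3 * C.a i + 1 := by
  induction i with
  | zero =>
    rw [zero_add, C.a_one, C.a_zero]
    norm_num
  | succ i ih =>
    have h1 := ih (by omega)
    have h2 := dif_eq (C := C) (i := i) (by omega)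
    have h3 : C.K i = 4 := by
      apply le_antisymm
      · rw [← hK]
        exact K_mono (by omega) (by omega)
      · rw [← h4, ← K_zero]
        exact K_mono (by omega) (by omega)
    rw [h3] at h2
    rw [show i + 1 + 1 = i + 2 from rfl]
    linarith

theorem tp4 (h4 : C.a 2 = 4) (hk : C.a (C.m + 3) - 2 < C.k0) (hn : 6 ≤ C.K (C.m + 3)) :
    False := by
  obtain ⟨c, b0, hc1, hc0, hb0, hb0nn, hb2, hW⟩ := tfa (by linarith) hk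
  have hβl : C.a 2 ≤ C.a (C.m + 2) := C.a_le (by omega) (by omega)
  have hγβ : (C.a 2 - 1) * C.a (C.m + 2) + 1 ≤ C.a (C.m + 3) :=
    a_ge (C := C) (i := C.m + 2) (by omega)
  have hββ' : (C.a 2 - 1) * C.a (C.m + 1) + 1 ≤ C.a (C.m + 2) :=
    a_ge (C := C) (i := C.m + 1) (by omega)
  have hdif1 := dif_eq (C := C) (i := C.m + 1) (by omega)
  have hdif2 := dif_eq (C := C) (i := C.m + 2) (by omega)
  have hconst : C.K (C.m + 1) = 4 → C.a (C.m + 3) = 3 * C.a (C.m + 2) + 1 := fun hK =>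
    Tp4_const h4 hK (i := C.m + 2) le_rfl
  obtain ⟨N, hN⟩ := K_nat (C := C) (i := C.m + 3) le_rfl
  obtain ⟨P, hP⟩ := K_nat (C := C) (i := C.m + 1) (by omega)
  obtain ⟨R, hR⟩ := K_nat (C := C) (i := C.m + 2) (by omega)
  have hK0P : C.K 0 ≤ C.K (C.m + 1) := K_mono (by omega) (by omega)
  have hK0R : C.K 0 ≤ C.K (C.m + 2) := K_mono (by omega) (by omega)
  have hKRN : C.K (C.m + 2) ≤ C.K (C.m + 3) := K_mono (by omega) (by omega)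
  rw [K_zero, h4] at hK0P hK0R
  have e1 : C.m + 1 + 1 = C.m + 2 := rfl
  have e2 : C.m + 1 + 2 = C.m + 3 := rfl
  have e3 : C.m + 2 + 1 = C.m + 3 := rfl
  have e4 : C.m + 2 + 2 = C.m + 4 := rfl
  rw [e1, e2] at hdif1
  rw [e3, e4] at hdif2
  rw [h4] at hγβ hββ' hb2 hβl
  rw [hN] at hc1 hn hKRN
  rw [hP] at hdif1 hconst hK0P
  rw [hR] at hdif2 hK0R hKRN
  rw [PD.k] at hb0
  obtain ⟨γ, hγ⟩ : ∃ γ, γ = C.a (C.m + 3) := ⟨_, rfl⟩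
  obtain ⟨β, hβ⟩ : ∃ β, β = C.a (C.m + 2) := ⟨_, rfl⟩
  obtain ⟨β', hβ'⟩ : ∃ β', β' = C.a (C.m + 1) := ⟨_, rfl⟩
  obtain ⟨k, hkk⟩ : ∃ k, k = C.a (C.m + 4) := ⟨_, rfl⟩
  rw [← hγ, ← hβ] at hγβ hW hconst
  rw [← hβ, ← hβ'] at hββ'
  rw [← hγ, ← hβ, ← hβ'] at hdif1
  rw [← hγ, ← hβ, ← hkk] at hdif2
  rw [← hβ] at hβl
  rw [← hγ, ← hkk] at hb0
  have hN6 : 6 ≤ N := by exact_mod_cast hn
  have hP4 : 4 ≤ P := by exact_mod_cast hK0P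
  have hR4 : 4 ≤ R := by exact_mod_cast hK0R
  have hRN : R ≤ N := by exact_mod_cast hKRN
  have hγ2 : 0 ≤ γ - 2 := by nlinarith
  rcases Nat.lt_or_ge 6 N with hN7 | hN7
  · -- `n ≥ 7`
    have hN7' : (7:ℝ) ≤ N := by exact_mod_cast hN7
    have h1 : c * 6 ≤ 1 := by
      rw [← hc1]
      exact mul_le_mul_of_nonneg_left (by linarith) hc0.le
    have h3 := hW (by linarith)
    have h5 : 3 * b0 ≤ 8 * (b0 + c - 1) := by linarith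
    have h6 : 3 * (γ - 2) * b0 ≤ 8 * β * b0 := by
      have h7 := mul_le_mul_of_nonneg_left h5 hγ2
      nlinarith
    have h7 := le_of_mul_le_mul_right h6 (by linarith)
    linarith
  · have hN6' : N = 6 := by omega
    subst hN6'
    have hc : c = 1 / 5 := by
      push_cast at hc1
      linarith
    subst hc
    have h3 := hW (by linarith)
    have h5 : b0 ≤ 3 * (b0 + 1 / 5 - 1) := by linarith
    have h6 : (γ - 2) * b0 ≤ 3 * β * b0 := by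
      have h7 := mul_le_mul_of_nonneg_left h5 hγ2
      nlinarith
    have h7 := le_of_mul_le_mul_right h6 (by linarith)
    rcases Nat.lt_or_ge 4 P with hP5 | hP5
    · have hP5' : (5:ℝ) ≤ P := by exact_mod_cast hP5
      have h8 : 4 * (β - β') ≤ ((P : ℝ) - 1) * (β - β') :=
        mul_le_mul_of_nonneg_right (by linarith) (by nlinarith)
      nlinarith
    · have hP4' : P = 4 := by omega
      subst hP4'
      have h8 := hconst (by norm_num)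
      have h9 : 13 ≤ γ := by linarith
      have hβγ : β = (γ - 1) / 3 := by linarith
      have hcases : R = 4 ∨ R = 5 ∨ R = 6 := by omega
      rcases hcases with rfl | rfl | rfl
      · have hk1 : k = 3 * γ + 1 := by
          push_cast at hdif2
          linarith
        have hb : b0 = (2 * γ - 1) / 5 := by
          rw [hb0, hk1]
          ring
        rw [hb, hβγ] at h3
        exact Tp4_r4 h9 h3
      · have hk1 : k = (11 * γ + 4) / 3 := by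
          push_cast at hdif2
          linarith
        have hb : b0 = (4 * γ - 4) / 15 := by
          rw [hb0, hk1]
          ring
        rw [hb, hβγ] at h3
        exact Tp4_r5 h9 h3
      · have hk1 : k = (13 * γ + 5) / 3 := by
          push_cast at hdif2
          linarith
        have hb : b0 = (2 * γ - 5) / 15 := by
          rw [hb0, hk1]
          ring
        rw [hb, hβγ] at h3
        exact Tp4_r6 h9 h3

end Pool.Agent.H92.PX
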