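import Pool.Agent.H92.PX.Tfa

/-!
# TPD: the top case with `K (m+3) < a 2 + 2`

Write `l = a 2`, `n = K (m+3)`, `γ = a (m+3)`, `β = a (m+2)`, `k = a (m+4)`; `c`, `b0` from `tfa`.
All `K i` (`i ≤ m+3`) are natural numbers (`K_nat`) between `K 0 = l` and `n < l + 2` (`K_mono`), so each is
`l` or `l + 1`, and they are nondecreasing.
(A) `a (i+1) = (l - 1) a i + 1` whenever `K u = l` for all `u < i` (`i ≤ m+4`): induction on `i`: `i = 0`:
`a 1 = 1`; step: `a (i+2) - a (i+1) = (K i - 1)(a (i+1) - a i) = (l - 1)(a (i+1) - a i)` (`dif_eq`) and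
`a (i+1) = (l-1) a i + 1`.
(B) Case `n = l` (then all `K u = l`): `k = (l-1) γ + 1` by (A), `c (l - 1) = 1`, so
`b0 (l - 1) = γ (l-1) - k = -1 < 0`, contradiction with `b0 ≥ 0`.
(C) Case `n = l + 1`: `c l = 1`, `b0 l = l γ - k`, and `b0 ≥ 2 - c l = 1`.  Let `s` be the least index with
`K s = l + 1` (`Nat.find`); `1 ≤ s ≤ m+3` (`K 0 = l`).  Put `D i = l a i - a (i+1)`.  By (A) (as `K u = l` for
`u < s`) `D s = a s - 1`, and with (A) for `s - 1`: `a s = (l-1) a (s-1) + 1`, so `D s = (l-1) a (s-1)`.  For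
`s ≤ i ≤ m+2`, `K i = l + 1` and `dif_eq` give `a (i+2) - a (i+1) = l (a (i+1) - a i)`, so
`D (i+1) = D i`.  Hence `D (m+3) = (l-1) a (s-1)`, i.e. `b0 l = (l-1) a (s-1)`.
 * `s = 1`: `a 0 = 0`, `b0 = 0 < 1`, contradiction.
 * `s = 2`: `a 1 = 1`, `b0 l = l - 1 < l`, `b0 < 1`, contradiction.
 * `s ≥ 3`: `a (s-1) ≥ a 2 = l`, so `b0 ≥ l - 1 ≥ 2`.  By `tfa`:
   `(γ - 2)(b0 + c - 1) ≤ β b0` (`b0 - 1 + c ≥ 0`).  `γ ≥ (l-1) β + 1 ≥ 2 β + 1` (`a_ge`), so
   `(2 β - 1)(b0 + c - 1) ≤ β b0`, i.e. `(β - 1) b0 ≤ (2 β - 1)(1 - c)`; multiply by `l` and use `c l = 1`,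
   `b0 ≥ l - 1`, `β ≥ 1`: `l (β - 1)(l - 1) ≤ (2 β - 1)(l - 1)`, so `l (β - 1) ≤ 2 β - 1`, i.e.
   `(l - 2) β ≤ l - 1`; but `β ≥ a 2 = l` (`m + 2 ≥ 2`) gives `(l-2) l ≤ l - 1`, false for `l ≥ 3`.
-/

open Set

namespace Pool.Agent.H92.PX

open Pool.Agent.H63 Pool.Agent.H63.PD Pool.Agent.H69.Pmd

set_option linter.unusedSectionVars false

variable {α : Type*} [Fintype α] {C : PD α}

theorem TpD_two (hn : C.K (C.m + 3) < C.a 2 + 2) {i : ℕ} (hi : i ≤ C.m + 3) :
    C.K i = C.a 2 ∨ C.K i = C.a 2 + 1 := by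
  obtain ⟨N, hN⟩ := K_nat (C := C) (i := 0) (by omega)
  obtain ⟨n, h⟩ := K_nat (C := C) (i := i) hi
  have h1 := K_mono (C := C) (Nat.zero_le i) hi
  have h2 := K_mono (C := C) hi le_rfl
  rw [hN, h] at h1
  rw [h] at h2
  rw [K_zero] at hN
  rw [hN] at hn ⊢
  rw [h]
  have e1 : N ≤ n := by exact_mod_cast h1
  have e2 : (n : ℝ) < N + 2 := by linarith
  have e3 : n < N + 2 := by exact_mod_cast e2
  rcases Nat.lt_or_ge N n with h3 | h3
  · right
    have : n = N + 1 := by omega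
    rw [this]; push_cast; ring
  · left
    have : n = N := by omega
    rw [this]

theorem TpD_A {i : ℕ} (hi : i ≤ C.m + 4) (h : ∀ u < i, C.K u = C.a 2) :
    C.a (i + 1) = (C.a 2 - 1) * C.a i + 1 := by
  induction i with
  | zero => rw [C.a_zero, mul_zero, zero_add, zero_add, C.a_one]
  | succ i ih =>
    have h1 := ih (by omega) (fun u hu => h u (by omega))
    have h2 := dif_eq (C := C) (i := i) (by omega)
    rw [h i (by omega)] at h2
    rw [show i + 1 + 1 = i + 2 from rfl]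
    linarith

theorem tpd (h3 : 3 ≤ C.a 2) (hk : C.a (C.m + 3) - 2 < C.k0)
    (hn : C.K (C.m + 3) < C.a 2 + 2) : False := by
  obtain ⟨c, b0, hc1, hc0, hb0, hb0nn, hb2, hW⟩ := tfa h3 hk
  have hkdef : C.k = C.a (C.m + 4) := rfl
  rcases TpD_two hn (i := C.m + 3) le_rfl with hK | hK
  · -- all `K u = l`
    have hall : ∀ u < C.m + 3, C.K u = C.a 2 := by
      intro u hu
      have h1 := K_mono (C := C) (show u ≤ C.m + 3 by omega) le_rfl
      rcases TpD_two hn (i := u) (by omega) with h | h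
      · exact h
      · linarith
    have h1 := TpD_A (C := C) (i := C.m + 3) (by omega) hall
    rw [show C.m + 3 + 1 = C.m + 4 from rfl, ← hkdef] at h1
    rw [hK] at hc1
    have h2 : b0 * (C.a 2 - 1) = C.a (C.m + 3) * (C.a 2 - 1) - C.k * (c * (C.a 2 - 1)) := by
      rw [hb0]; ring
    rw [hc1, h1] at h2
    have h4 : 0 ≤ b0 * (C.a 2 - 1) := mul_nonneg hb0nn (by linarith)
    linarith
  · have hcl : c * C.a 2 = 1 := by
      rw [hK] at hc1
      linarith
    have hb0l : b0 * C.a 2 = C.a (C.m + 3) * C.a 2 - C.k := by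
      have : b0 * C.a 2 = C.a (C.m + 3) * C.a 2 - C.k * (c * C.a 2) := by rw [hb0]; ring
      rw [this, hcl, mul_one]
    have hb1 : 1 ≤ b0 := by linarith
    classical
    have hex : ∃ s, C.K s = C.a 2 + 1 := ⟨_, hK⟩
    obtain ⟨s, hs⟩ : ∃ s, s = Nat.find hex := ⟨_, rfl⟩
    have hs1 : C.K s = C.a 2 + 1 := by rw [hs]; exact Nat.find_spec hex
    have hsm : s ≤ C.m + 3 := by rw [hs]; exact Nat.find_min' hex hK
    have hlt : ∀ u < s, C.K u = C.a 2 := by
      intro u hu
      rcases TpD_two hn (i := u) (by omega) with h | h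
      · exact h
      · rw [hs] at hu
        exact absurd h (Nat.find_min hex hu)
    have hs0 : s ≠ 0 := by
      intro h
      rw [h, K_zero] at hs1
      linarith
    obtain ⟨r, rfl⟩ := Nat.exists_eq_succ_of_ne_zero hs0
    rw [Nat.succ_eq_add_one] at *
    have hA1 := TpD_A (C := C) (i := r + 1) (by omega) hlt
    have hA0 := TpD_A (C := C) (i := r) (by omega) (fun u hu => hlt u (by omega))
    have hD : ∀ i, r + 1 ≤ i → i ≤ C.m + 3 →
        C.a 2 * C.a i - C.a (i + 1) = (C.a 2 - 1) * C.a r := by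
      intro i hi
      induction i, hi using Nat.le_induction with
      | base => intro _; linarith
      | succ i hi ih =>
        intro hi2
        have h1 := ih (by omega)
        have h2 := dif_eq (C := C) (i := i) (by omega)
        have h4 : C.K i = C.a 2 + 1 := by
          have h5 := K_mono (C := C) hi (by omega)
          rcases TpD_two hn (i := i) (by omega) with h | h
          · linarith
          · exact h
        rw [h4] at h2
        rw [show i + 1 + 1 = i + 2 from rfl]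
        linarith
    have hDm := hD (C.m + 3) hsm le_rfl
    rw [show C.m + 3 + 1 = C.m + 4 from rfl, ← hkdef] at hDm
    have hb : b0 * C.a 2 = (C.a 2 - 1) * C.a r := by linarith
    rcases Nat.lt_or_ge r 2 with hr | hr
    · interval_cases r
      · rw [C.a_zero, mul_zero] at hb
        nlinarith
      · rw [C.a_one, mul_one] at hb
        nlinarith
    · have har : C.a 2 ≤ C.a r := C.a_le hr (by omega)
      have hbl : C.a 2 - 1 ≤ b0 := by
        have h5 : (C.a 2 - 1) * C.a 2 ≤ b0 * C.a 2 := by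
          rw [hb]
          exact mul_le_mul_of_nonneg_left har (by linarith)
        exact le_of_mul_le_mul_right h5 (by linarith)
      have hW' := hW (by linarith)
      have hβl : C.a 2 ≤ C.a (C.m + 2) := C.a_le (by omega) (by omega)
      have hγβ := a_ge (C := C) (i := C.m + 2) (by omega)
      rw [show C.m + 2 + 1 = C.m + 3 from rfl] at hγβ
      obtain ⟨l, hl⟩ : ∃ l, l = C.a 2 := ⟨_, rfl⟩
      obtain ⟨β, hβ⟩ : ∃ β, β = C.a (C.m + 2) := ⟨_, rfl⟩
      obtain ⟨γ, hγ⟩ : ∃ γ, γ = C.a (C.m + 3) := ⟨_, rfl⟩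
      rw [← hl, ← hβ, ← hγ] at hγβ
      rw [← hβ, ← hγ] at hW'
      rw [← hl] at hbl hcl h3
      rw [← hl, ← hβ] at hβl
      have q1 : 2 * β - 1 ≤ γ - 2 := by
        have : 2 * β ≤ (l - 1) * β := mul_le_mul_of_nonneg_right (by linarith) (by linarith)
        linarith
      have q2 : (2 * β - 1) * (b0 + c - 1) ≤ β * b0 :=
        (mul_le_mul_of_nonneg_right q1 (by linarith)).trans hW'
      have q3 : (β - 1) * b0 ≤ (2 * β - 1) * (1 - c) := by linarith
      have q4 : (β - 1) * (l - 1) ≤ (2 * β - 1) * (1 - c) :=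
        (mul_le_mul_of_nonneg_left hbl (by linarith)).trans q3
      have q5 : l * ((β - 1) * (l - 1)) ≤ l * ((2 * β - 1) * (1 - c)) :=
        mul_le_mul_of_nonneg_left q4 (by linarith)
      have q6 : l * ((2 * β - 1) * (1 - c)) = (2 * β - 1) * (l - 1) := by
        have : l * ((2 * β - 1) * (1 - c)) = (2 * β - 1) * (l - c * l) := by ring
        rw [this, hcl]
      rw [q6] at q5
      have q7 : (l * (β - 1)) * (l - 1) ≤ (2 * β - 1) * (l - 1) := by linarith
      have q8 := le_of_mul_le_mul_right q7 (by linarith)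
      have q9 : (l - 2) * l ≤ (l - 2) * β := mul_le_mul_of_nonneg_left hβl (by linarith)
      nlinarith

end Pool.Agent.H92.PX
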