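import Pool.Agent.H63.PD.Asm
import Pool.Agent.H92.PX.Ng4
import Pool.Agent.H92.PX.Ng3
import Pool.Agent.H92.PX.Lwo
import Pool.Agent.H92.PX.Lw3
import Pool.Agent.H92.PX.T39
import Pool.Agent.H92.PX.TpD
import Pool.Agent.H92.PX.Tp4
import Pool.Agent.H92.PX.Tp3
import Pool.Agent.H92.PX.Glo
import Pool.Agent.H92.PX.Gmd
import Pool.Agent.H92.PX.Mxa
import Pool.Agent.H92.PX.Mxb
import Pool.Agent.H92.PX.Mxe
import Pool.Agent.H92.PX.Dvs
import Pool.Agent.H92.PX.Flc
import Pool.Agent.H92.PX.Fbg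
import Pool.Agent.H92.PX.Fch

/-!
# ASM: the main theorem
-/

open Set

namespace Pool.Agent.H92.PX

open Pool.Agent.H63 Pool.Agent.H63.PD Pool.Agent.H69.Pmd

set_option linter.unusedSectionVars false

variable {α : Type*} [Fintype α] {C : PD α}

/-- the position of `k0` -/
theorem exists_win (h2 : C.a 2 - 2 < C.k0)
    (hnw : ∀ t, 2 ≤ t → t ≤ C.m + 2 → 2 * C.a t + 2 ≤ C.a (t + 1)) :
    C.a (C.m + 3) - 2 < C.k0 ∨
      ∃ j, 2 ≤ j ∧ j ≤ C.m + 2 ∧ C.a j - 2 < C.k0 ∧ C.k0 < C.a j + 1 := by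
  by_contra hcon
  push Not at hcon
  have : ∀ j, 2 ≤ j → j ≤ C.m + 3 → C.a j - 2 < C.k0 := by
    intro j hj
    induction j, hj using Nat.le_induction with
    | base => intro _; exact h2
    | succ j hj ih =>
      intro h3
      exact nw (by omega) (by omega) (hnw j hj (by omega))
        (hcon.2 j hj (by omega) (ih (by omega)))
  exact absurd (this (C.m + 3) (by omega) le_rfl) (not_lt.2 hcon.1)

theorem mul_le_next (hK : C.a 2 + 1 ≤ C.K 1) {i : ℕ} (h1 : 1 ≤ i) (hi : i ≤ C.m + 4) :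
    C.a 2 * C.a i ≤ C.a (i + 1) := by
  have := ratio_ge hK (s := 1) le_rfl i h1 hi
  rw [C.a_one, one_mul] at this
  exact this

/-! ### the case `a 2 = 3` -/

theorem top3 (h : C.a 2 = 3) (h1 : 4 ≤ C.K 1) (hd : C.K 1 = 4 → C.K 2 = 4 ∨ 9 ≤ C.K 2)
    (hk : C.a (C.m + 3) - 2 < C.k0) : False := by
  obtain ⟨n, hn⟩ := K_nat (C := C) (i := C.m + 3) le_rfl
  rcases Nat.lt_or_ge n 5 with h5 | h5
  · apply tpd (by rw [h]) hk
    rw [hn, h]
    have : (n : ℝ) < 5 := by exact_mod_cast h5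
    linarith
  · apply tp3 h h1 hd hk
    rw [hn]
    exact_mod_cast h5

theorem nw3 (h : C.a 2 = 3) (h1 : 4 ≤ C.K 1) :
    ∀ t, 2 ≤ t → t ≤ C.m + 2 → 2 * C.a t + 2 ≤ C.a (t + 1) := by
  intro t ht htm
  have h2 := mul_le_next (C := C) (by rw [h]; linarith) (i := t) (by omega) (by omega)
  have h3 : C.a 2 ≤ C.a t := C.a_le ht (by omega)
  rw [h] at h2 h3
  linarith

/-- growth of the sizes, `a 2 = 3`, `a 3 ≥ 13` -/
theorem gr13 (h : C.a 2 = 3) (h1 : 6 ≤ C.K 1) {j : ℕ} (hj : 2 ≤ j) :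
    ∀ i, j ≤ i → i ≤ C.m + 2 → 10 * C.a i ≤ 3 * (C.a (i + 1) - C.a i) := by
  intro i hi him
  have h2 := ratio_ge (C := C) (by rw [h]; linarith) (s := 2) (by norm_num) i (by omega)
    (by omega)
  have h3 := a_three (C := C)
  rw [h] at h3
  have h4 : 0 ≤ C.a i := C.a_nonneg (by omega)
  norm_num at h2
  rw [h] at h2
  have h5 : 13 * C.a i ≤ C.a 3 * C.a i := mul_le_mul_of_nonneg_right (by linarith) h4
  linarith

theorem gr9 (h : C.a 2 = 3) (h1 : C.K 1 = 4) (h2 : 9 ≤ C.K 2) {j : ℕ} (hj : 3 ≤ j) :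
    ∀ i, j ≤ i → i ≤ C.m + 2 → 10 * C.a i ≤ 3 * (C.a (i + 1) - C.a i) := by
  intro i hi him
  have h3 := ratio_ge (C := C) (by rw [h, h1]; norm_num) (s := 3) (by norm_num) i (by omega)
    (by omega)
  norm_num at h3
  have h4 := a_three (C := C)
  rw [h, h1] at h4
  norm_num at h4
  have h5 := K_mul (C := C) (i := 2) (by omega)
  norm_num at h5
  rw [h4, h] at h5
  rw [h4] at h3
  have h6 : 0 ≤ C.a i := C.a_nonneg (by omega)
  have h7 : 57 * C.a i ≤ C.a 4 * C.a i := mul_le_mul_of_nonneg_right (by linarith) h6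
  linarith

theorem Kge {c : ℝ} {j : ℕ} (h : c ≤ C.K j) :
    ∀ i, j ≤ i → i ≤ C.m + 2 → c ≤ C.K i :=
  fun i hi him => h.trans (K_mono hi (by omega))

/-- affine geometry over the field with three elements -/
theorem ag3 (h : C.a 2 = 3) (h1 : C.K 1 = 4) (h2 : C.K 2 = 4) {j : ℕ} (hj : 2 ≤ j)
    (hjm : j ≤ C.m + 2) (hl : C.a j - 2 < C.k0) (hk : C.k0 < C.a j + 1) : False := by
  obtain ⟨q, e, hq, g, e1, e2⟩ := geo_ag (C := C) (by rw [h]) (by rw [h, h1]; norm_num)
    (by rw [h, h2]; norm_num)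
  have hq3 : q = 3 := by
    rw [h] at hq
    exact_mod_cast hq
  obtain ⟨l1, l2⟩ := loc_ag g (by omega) e2 hj hjm hl hk
  refine geo_mid g (by omega) (by omega) hjm l1 fun G hG => ?_
  refine ngd_two (j := j) (by omega) ?_ ?_ l2.le le_rfl (by omega) hG
  · intro i hi him
    have h3 := mul_le_next (C := C) (by rw [h, h1]; norm_num) (i := i) (by omega) (by omega)
    rw [h] at h3
    linarith
  · exact fun i hi him => h1.ge.trans (K_mono (by omega) (by omega))

theorem case3 (h : C.a 2 = 3) (hrem : C.a 3 - 1 ≤ (C.a 3 - 3) * C.k0) : False := by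
  have hlow := low_one (C := C)
  have hK1 : C.K 1 = 3 ∨ (4 ≤ C.K 1 ∧ (C.K 1 = 4 → C.K 2 = 4 ∨ 9 ≤ C.K 2)) := by
    rcases dv3 h with h1 | ⟨h1, h2⟩ | ⟨h1, h2⟩ | ⟨h1, h2⟩ | ⟨h1, h2⟩ | h1
    · exact Or.inl h1
    · exact Or.inr ⟨by linarith, fun _ => Or.inl h2⟩
    · exact Or.inr ⟨by linarith, fun _ => Or.inr h2⟩
    · exact Or.inr ⟨by linarith, fun h3 => by rw [h1] at h3; norm_num at h3⟩
    · exact Or.inr ⟨by linarith, fun h3 => by rw [h1] at h3; norm_num at h3⟩
    · exact Or.inr ⟨by linarith, fun h3 => by rw [h3] at h1; norm_num at h1⟩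
  rcases hK1 with h1 | ⟨h1, hd⟩
  · obtain ⟨e, j, hF⟩ := floc h h1
    obtain ⟨G, hG, hb⟩ := fch hF
    exact fbg hF hG hb
  have h3 := a_three (C := C)
  rw [h] at h3
  rcases exists_win (C := C) (by rw [h]; linarith) (nw3 h h1) with ht | ⟨j, hj, hjm, hl, hk⟩
  · exact top3 h h1 hd ht
  rcases hj.eq_or_lt with hj2 | hj3
  · -- j = 2
    subst hj2
    rw [h] at hl hk
    have hk4 : C.k0 < 4 := by linarith
    have low : 6 ≤ C.K 1 → 9 ≤ C.K 2 → False := by
      intro h6 h9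
      refine low3 h (by linarith) h9 hk4 (fun G hG => ?_) hrem
      exact ngd_three (j := 2) (by norm_num) (by rw [h]) (gr13 h h6 le_rfl)
        (Kge (by linarith)) (by rw [h]; linarith) le_rfl (by omega) hG
    rcases dv3 h with h1' | ⟨h1', h2⟩ | ⟨h1', h2⟩ | ⟨h1', h2⟩ | ⟨h1', h2⟩ | h1'
    · linarith
    · exact ag3 h h1' h2 le_rfl hjm (by rw [h]; linarith) (by rw [h]; linarith)
    · -- K 1 = 4, K 2 ≥ 9
      have hd2 : ∀ i, 2 ≤ i → i ≤ C.m + 2 → 2 * C.a i ≤ C.a (i + 1) - C.a i := by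
        intro i hi him
        have h3 := mul_le_next (C := C) (by rw [h, h1']; norm_num) (i := i) (by omega)
          (by omega)
        rw [h] at h3
        linarith
      rcases le_or_gt C.k0 3 with hx | hx
      · refine low3 h (by linarith) h2 hk4 (fun G hG => ?_) hrem
        exact ngd_two (j := 2) (by norm_num) hd2 (Kge (by linarith)) (by rw [h]; linarith)
          le_rfl (by omega) hG
      · have h39 : C.a 3 = 9 := by rw [h3, h1']; norm_num
        have h5 := K_mul (C := C) (i := 2) (by omega)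
        norm_num at h5
        rw [h39, h] at h5
        have h6 : C.a 4 ≤ C.k := C.a_le (by omega) (by omega)
        refine t39 h h39 (by linarith) hx.le hk4 (fun G hG => ?_)
        have h7 := ngd_two (j := 3) (by norm_num) (fun i hi => hd2 i (by omega))
          (fun i hi => Kge (C := C) (c := 4) (j := 2) (by linarith) i (by omega))
          (by rw [h39]; linarith) (i := 3) le_rfl (by omega) hG
        rw [h39] at h7
        exact h7
    · exact low (by linarith) h2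
    · exact low (by linarith) h2
    · exact low (by linarith) (h1'.trans (K_mono (by omega) (by omega)))
  · -- j ≥ 3
    have hj3' : C.a 2 ≤ C.a j := C.a_le (by omega) (by omega)
    rw [h] at hj3'
    have big : 6 ≤ C.K 1 → 6 ≤ C.K 2 → ∀ G, C.IsF (j + 1) G → C.b G ≤ C.a j := by
      intro h6 h62 G hG
      exact ngd_three (j := j) (by omega) hj3' (gr13 h h6 (by omega))
        (fun i hi => Kge (C := C) (c := 6) (j := 2) h62 i (by omega)) hk le_rfl
        (by omega) hG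
    rcases dv3 h with h1' | ⟨h1', h2⟩ | ⟨h1', h2⟩ | ⟨h1', h2⟩ | ⟨h1', h2⟩ | h1'
    · linarith
    · exact ag3 h h1' h2 hj hjm hl hk
    · refine mxe h h1' h2 (by omega) hjm (fun G hG => ?_) hl hk
      exact ngd_three (j := j) (by omega) hj3' (gr9 h h1' h2 (by omega))
        (fun i hi => Kge (C := C) (c := 6) (j := 2) (by linarith) i (by omega)) hk le_rfl
        (by omega) hG
    · exact mxd h (Or.inl ⟨h1', h2⟩) (by omega) hjm (big (by linarith) (by linarith)) hl hk
    · exact mxd h (Or.inr (Or.inl ⟨h1', h2⟩)) (by omega) hjm (big (by linarith) (by linarith))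
        hl hk
    · exact mxd h (Or.inr (Or.inr h1')) (by omega) hjm
        (big (by linarith) ((show (6 : ℝ) ≤ C.K 1 by linarith).trans
          (K_mono (by omega) (by omega)))) hl hk

/-! ### the case `a 2 = 4` -/

theorem top4 (h : C.a 2 = 4) (hk : C.a (C.m + 3) - 2 < C.k0) : False := by
  obtain ⟨n, hn⟩ := K_nat (C := C) (i := C.m + 3) le_rfl
  rcases Nat.lt_or_ge n 6 with h5 | h5
  · apply tpd (by rw [h]; norm_num) hk
    rw [hn, h]
    have : (n : ℝ) < 6 := by exact_mod_cast h5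
    linarith
  · apply tp4 h hk
    rw [hn]
    exact_mod_cast h5

theorem low_two (h : 4 ≤ C.a 2) : 2 < C.k0 := by
  rcases (low h).lt_or_eq with h1 | h1
  · exact h1
  · exfalso
    have h2 := window (C := C) (t := 1) (by omega)
    rw [C.a_one] at h2
    norm_num at h2
    have h3 := k1_lt_k0 (C := C)
    nlinarith

theorem nw4 (h : 4 ≤ C.a 2) :
    ∀ t, 2 ≤ t → t ≤ C.m + 2 → 2 * C.a t + 2 ≤ C.a (t + 1) := by
  intro t ht htm
  have h2 := a_ge (C := C) (i := t) (by omega)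
  have h3 : C.a 2 ≤ C.a t := C.a_le ht (by omega)
  nlinarith

theorem case4 (h : C.a 2 = 4) (hrem : 2 * (C.a 3 - 1) ≤ (C.a 3 - 4) * C.k0) : False := by
  have hlow := low_two (C := C) (by rw [h])
  have h3 := a_three (C := C)
  rw [h] at h3
  rcases exists_win (C := C) (by rw [h]; linarith) (nw4 (by rw [h])) with
    ht | ⟨j, hj, hjm, hl, hk⟩
  · exact top4 h ht
  have hn : ∀ i, j ≤ i → i + 1 ≤ C.m + 4 → ∀ G, C.IsF (i + 1) G → C.b G ≤ C.a i :=
    fun i hi him G hG => ngd_four (by rw [h]) hj hk hi him hG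
  rcases dv4 h with h1 | ⟨h1, h2⟩ | h1
  · obtain ⟨q, e, hq, g, e1, e2⟩ := geo_pg (C := C) (by rw [h]; norm_num) (by rw [h, h1])
    have hq3 : q = 3 := by
      rw [h] at hq
      have : (q : ℝ) = 3 := by linarith
      exact_mod_cast this
    exact geo_mid g (by omega) (by omega) hjm (loc_pg g (by omega) e2 hj hjm hl hk)
      (hn j le_rfl (by omega))
  · obtain ⟨q, e, hq, g, e1, e2⟩ := geo_ag (C := C) (by rw [h]; norm_num)
      (by rw [h, h1]; norm_num) (by rw [h, h2]; norm_num)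
    have hq4 : q = 4 := by
      rw [h] at hq
      exact_mod_cast hq
    exact geo_mid g (by omega) (by omega) hjm (loc_ag g (by omega) e2 hj hjm hl hk).1
      (hn j le_rfl (by omega))
  · have h1' : (C.K 1 = 5 ∧ 16 ≤ C.K 2) ∨ (C.K 1 = 8 ∧ 9 ≤ C.K 2) ∨ 9 ≤ C.K 1 := h1
    rcases hj.eq_or_lt with hj2 | hj3
    · subst hj2
      rw [h] at hk
      refine low4 h ?_ (by linarith) (fun G hG => hn 2 le_rfl (by omega) G hG) hrem
      rcases h1' with ⟨a1, a2⟩ | ⟨a1, a2⟩ | a1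
      · left
        exact ⟨by rw [h3, a1]; norm_num, a2⟩
      · right
        exact ⟨by rw [h3, a1]; norm_num, a2⟩
      · right
        exact ⟨by linarith, a1.trans (K_mono (by omega) (by omega))⟩
    · exact mxb h h1' (by omega) hjm (hn j le_rfl (by omega)) hl hk

/-! ### the case `a 2 ≥ 5` -/

theorem top5 (h : 5 ≤ C.a 2) (hk : C.a (C.m + 3) - 2 < C.k0) : False := by
  rcases lt_or_ge (C.K (C.m + 3)) (C.a 2 + 2) with h5 | h5
  · exact tpd (by linarith) hk h5
  · exact tp5 h hk h5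

theorem case5 (h : 5 ≤ C.a 2) : False := by
  by_cases hm : C.m = 0 ∨ C.k0 ≤ C.a 3 - 2 ∨
    (C.a 3 ≠ C.a 2 ^ 2 - C.a 2 + 1 ∧ C.a 3 ≠ C.a 2 ^ 2)
  · exact Pool.Agent.H63.PD.main (C := C) h hm
  push Not at hm
  obtain ⟨hm0, hk3, hK⟩ := hm
  have hlow := low_two (C := C) (by linarith)
  have h3 := a_three (C := C)
  have hK1 : C.K 1 = C.a 2 ∨ C.K 1 = C.a 2 + 1 := by
    by_cases h4 : C.a 3 = C.a 2 ^ 2 - C.a 2 + 1
    · left
      have h5 : (C.K 1 - C.a 2) * (C.a 2 - 1) = 0 := by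
        rw [h4] at h3
        linear_combination -h3
      rcases mul_eq_zero.1 h5 with h6 | h6 <;> linarith
    · right
      have h4' := hK h4
      have h5 : (C.K 1 - (C.a 2 + 1)) * (C.a 2 - 1) = 0 := by
        rw [h4'] at h3
        linear_combination -h3
      rcases mul_eq_zero.1 h5 with h6 | h6 <;> linarith
  have hnw := nw4 (C := C) (by linarith)
  have h23 : C.a 2 < C.a 3 := C.a_lt (by omega) (by omega)
  rcases exists_win (C := C) (by linarith) hnw with ht | ⟨j, hj, hjm, hl, hk⟩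
  · exact top5 h ht
  have hj3 : 3 ≤ j := by
    by_contra hlt
    have hj2 : j = 2 := by omega
    rw [hj2] at hk
    have h6 := hnw 2 le_rfl (by omega)
    norm_num at h6
    linarith
  have hn : ∀ G, C.IsF (j + 1) G → C.b G ≤ C.a j :=
    fun G hG => ngd h hj hk le_rfl (by omega) hG
  rcases hK1 with h1 | h1
  · obtain ⟨q, e, hq, g, e1, e2⟩ := geo_pg (C := C) (by linarith) h1
    have hq3 : 3 ≤ q := by
      have : (3 : ℝ) ≤ q := by linarith
      exact_mod_cast this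
    exact geo_mid g hq3 (by omega) hjm (loc_pg g hq3 e2 hj hjm hl hk) hn
  · rcases dv5 (C := C) (by linarith) h1 with h2 | h2
    · obtain ⟨q, e, hq, g, e1, e2⟩ := geo_ag (C := C) (by linarith) h1 h2
      have hq3 : 3 ≤ q := by
        have : (3 : ℝ) ≤ q := by linarith
        exact_mod_cast this
      exact geo_mid g hq3 (by omega) hjm (loc_ag g hq3 e2 hj hjm hl hk).1 hn
    · exact mxa h h1 h2 hj3 hjm hn hl hk

/-- Main theorem. -/
theorem main_all (h3 : 3 ≤ C.a 2)
    (hrem : ¬ ((C.a 2 = 3 ∨ C.a 2 = 4) ∧ C.a 2 - 2 < C.k0 ∧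
      (C.a 3 - C.a 2) * C.k0 < (C.a 2 - 2) * (C.a 3 - 1))) : False := by
  obtain ⟨n, hn⟩ := a_nat (C := C) (i := 2) (by omega)
  have hn3 : 3 ≤ n := by
    rw [hn] at h3
    exact_mod_cast h3
  rcases (show n = 3 ∨ n = 4 ∨ 5 ≤ n by omega) with h | h | h
  · have h2 : C.a 2 = 3 := by rw [hn, h]; norm_num
    apply case3 h2
    by_contra hcon
    push Not at hcon
    have := low_one (C := C)
    exact hrem ⟨Or.inl h2, by rw [h2]; linarith, by rw [h2]; linarith⟩
  · have h2 : C.a 2 = 4 := by rw [hn, h]; norm_num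
    apply case4 h2
    by_contra hcon
    push Not at hcon
    have := low_two (C := C) (by rw [h2])
    exact hrem ⟨Or.inr h2, by rw [h2]; linarith, by rw [h2]; linarith⟩
  · refine case5 (C := C) ?_
    rw [hn]
    exact_mod_cast h

end Pool.Agent.H92.PX
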