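import Pool.Agent.H92.PX.Basx

/-!
# DIV: two counting equations inside a flat of relative rank 4

Fix `G` with `C.IsF 4 G`, `F₀ ⊆ G` (`isF_base.exists_ge`, `4 ≤ m+5`).  For `P ⊆ G` with `C.IsF 1 P` let
`𝓛 = covers C.M P G` (lines through `P` in `G`, `C.IsF 2 L`) and `𝓟 P = {Π | C.IsF 3 Π, P ⊆ Π, Π ⊆ G}` (finset, classical).
(1) `|𝓛| (a 2 - a 1) = a 4 - a 1` (`gdy_card`, `s = 1`, `j = 4`); with `l = a 2`, `a 3 - a 2 = (K 1 - 1)(l - 1)`,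
`a 4 - a 2 = K 2 (a 3 - a 2)` (`K_mul`): `a 4 - 1 = (l-1)(1 + K 2 (K 1 - 1))`, so `|𝓛| = 1 + K 2 (K 1 - 1)`
(`l > 1`).
(2) Count the pairs `(L, Π)`, `L ∈ 𝓛`, `Π ∈ 𝓟 P`, `L ⊆ Π` (`Finset.sum_card_bipartiteAbove_eq_sum_card_bipartiteBelow`, as
in `planes` in `Pool/Agent/H63/PD/Siz.lean`).  For `L` fixed the `Π` are `covers C.M L G`: `K 2` of them (`Siz_K`
with `i = 2`); for `Π` fixed the `L` are `covers C.M P Π`: `K 1` of them (`Siz_K`, `i = 1`).  So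
`|𝓟 P| K 1 = (1 + K 2 (K 1 - 1)) K 2`.  As `K 1 > 0` all `𝓟 P` have the same number `W` of elements.
(3) Let `𝓠 = {Π | C.IsF 3 Π, Π ⊆ G}`, `N = |𝓠|`.  Count the pairs `(y, Π)`, `y ∈ G \ F₀`, `Π ∈ 𝓠`, `y ∈ Π`: for `y` fixed they
are `𝓟 (jn F₀ y)` (`y ∈ Π` iff `jn F₀ y ⊆ Π`, `jn_subset`), `W` of them; `|G \ F₀| = a 4`; for `Π` fixed there
are `|Π \ F₀| = a 3` (`IsF.ncard`, as in `planes`).  So `N a 3 = a 4 W`.
-/

open Set

namespace Pool.Agent.H92.PX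

open Pool.Agent.H63 Pool.Agent.H63.PD Pool.Agent.H69.Pmd

set_option linter.unusedSectionVars false

variable {α : Type*} [Fintype α] {C : PD α}

theorem Div_cov {i : ℕ} {F G : Set α} (hF : C.IsF i F) (L : Set α) :
    L ∈ covers C.M F G ↔ C.IsF (i + 1) L ∧ F ⊆ L ∧ L ⊆ G := by
  rw [mem_covers]
  constructor
  · rintro ⟨h1, h2, h3, h4⟩
    refine ⟨⟨h1, ?_, hF.base.trans h2⟩, h2, h3⟩
    rw [h4, hF.rank]; push_cast; rfl
  · rintro ⟨h1, h2, h3⟩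
    refine ⟨h1.1, h2, h3, ?_⟩
    rw [h1.rank, hF.rank]; push_cast; rfl

open Classical in
theorem Div_W {P G : Set α} (hP : C.IsF 1 P) (hG : C.IsF 4 G) (hPG : P ⊆ G) :
    (((Finset.univ.filter (fun Q : Set α => C.IsF 3 Q ∧ P ⊆ Q ∧ Q ⊆ G)).card : ℕ) : ℝ) * C.K 1 =
      (1 + C.K 2 * (C.K 1 - 1)) * C.K 2 := by
  set T : Finset (Set α) := Finset.univ.filter (fun Q => C.IsF 3 Q ∧ P ⊆ Q ∧ Q ⊆ G) with hT
  have hmT : ∀ Q, Q ∈ T ↔ C.IsF 3 Q ∧ P ⊆ Q ∧ Q ⊆ G := fun Q => by simp [hT]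
  set S : Finset (Set α) := covers C.M P G with hS
  have hmS : ∀ L, L ∈ S ↔ C.IsF 2 L ∧ P ⊆ L ∧ L ⊆ G := fun L => by
    rw [hS]
    exact Div_cov hP L
  have h1 := Finset.sum_card_bipartiteAbove_eq_sum_card_bipartiteBelow
    (s := S) (t := T) (fun L Q => L ⊆ Q)
  have h2 : ∀ L ∈ S, ((Finset.bipartiteAbove (fun L Q => L ⊆ Q) T L).card : ℝ) = C.K 2 := by
    intro L hL
    obtain ⟨hL2, hPL, hLG⟩ := (hmS L).1 hL
    rw [Siz_K (i := 2) (by omega) hL2.1 hG.1 hL2.2.1 hG.2.1 hLG]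
    congr 2
    ext Q
    rw [Finset.mem_bipartiteAbove, hmT, Div_cov hL2]
    constructor
    · rintro ⟨⟨a1, a2, a3⟩, a4⟩
      exact ⟨a1, a4, a3⟩
    · rintro ⟨a1, a2, a3⟩
      exact ⟨⟨a1, hPL.trans a2, a3⟩, a2⟩
  have h3 : ∀ Q ∈ T, ((Finset.bipartiteBelow (fun L Q => L ⊆ Q) S Q).card : ℝ) = C.K 1 := by
    intro Q hQ
    obtain ⟨hQ3, hPQ, hQG⟩ := (hmT Q).1 hQ
    rw [Siz_K (i := 1) (by omega) hP.1 hQ3.1 hP.2.1 hQ3.2.1 hPQ]
    congr 2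
    ext L
    rw [Finset.mem_bipartiteBelow, hmS, Div_cov hP]
    constructor
    · rintro ⟨⟨a1, a2, a3⟩, a4⟩
      exact ⟨a1, a2, a4⟩
    · rintro ⟨a1, a2, a3⟩
      exact ⟨⟨a1, a2, a3.trans hQG⟩, a3⟩
  have h5 := congrArg (Nat.cast : ℕ → ℝ) h1
  rw [Nat.cast_sum, Nat.cast_sum, Finset.sum_congr rfl h2, Finset.sum_congr rfl h3,
    Finset.sum_const, Finset.sum_const, nsmul_eq_mul, nsmul_eq_mul] at h5
  -- the number of lines
  have h6 := gdy_card hP hG hPG (by omega) (by omega) (by omega)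
  rw [C.a_one] at h6
  have h7 := K_mul (C := C) (i := 1) (by omega)
  have h8 := K_mul (C := C) (i := 2) (by omega)
  norm_num at h6 h7 h8
  rw [C.a_one] at h7
  have h9 : 0 < C.a 2 - 1 := by
    have := C.a_lt (show 1 < 2 by omega) (by omega)
    rw [C.a_one] at this
    linarith
  have h10 : (S.card : ℝ) = 1 + C.K 2 * (C.K 1 - 1) := by
    refine mul_right_cancel₀ h9.ne' ?_
    rw [h6]
    have h11 : C.a 3 = C.K 1 * (C.a 2 - 1) + 1 := by linarith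
    have h12 : C.a 4 = C.K 2 * (C.a 3 - C.a 2) + C.a 2 := by linarith
    rw [h12, h11]
    ring
  rw [← h5, h10]

theorem div_count : ∃ W N : ℕ, (W : ℝ) * C.K 1 = (1 + C.K 2 * (C.K 1 - 1)) * C.K 2 ∧
    (N : ℝ) * C.a 3 = C.a 4 * W := by
  classical
  obtain ⟨G, hG, hFG⟩ := (isF_base (C := C)).exists_ge (show 0 ≤ 4 by omega) (by omega)
  have hK1 : 0 < C.K 1 := by
    have h1 := K_mono (C := C) (show 0 ≤ 1 by omega) (by omega)
    rw [K_zero] at h1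
    have h2 := C.a_pos (show 1 ≤ 2 by omega) (by omega)
    linarith
  set S : Finset α := (Set.toFinite (G \ C.F₀)).toFinset with hS
  set T : Finset (Set α) := Finset.univ.filter (fun Q => C.IsF 3 Q ∧ Q ⊆ G) with hT
  have hmS : ∀ y, y ∈ S ↔ y ∈ G ∧ y ∉ C.F₀ := fun y => by
    rw [hS, Set.Finite.mem_toFinset]; exact Iff.rfl
  have hmT : ∀ Q, Q ∈ T ↔ C.IsF 3 Q ∧ Q ⊆ G := fun Q => by simp [hT]
  have hcard : ∀ {i : ℕ} {L : Set α}, C.IsF i L →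
      (((Set.toFinite (L \ C.F₀)).toFinset.card : ℕ) : ℝ) = C.a i := by
    intro i L hL1
    rw [← Set.ncard_eq_toFinset_card]
    have e2 := Set.ncard_sdiff_add_ncard_of_subset hL1.2.2 (Set.toFinite L)
    have e3 := hL1.ncard
    have e4 := (isF_base (C := C)).ncard
    rw [C.a_zero] at e4
    have e5 : (((L \ C.F₀).ncard : ℝ)) + (C.F₀.ncard : ℝ) = (L.ncard : ℝ) := by exact_mod_cast e2
    linarith
  have h4 : (S.card : ℝ) = C.a 4 := hcard hG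
  have hSne : S.Nonempty := by
    rw [← Finset.card_pos]
    have h5 := C.a_pos (show 1 ≤ 4 by omega) (by omega)
    have h6 : (0 : ℝ) < S.card := by rw [h4]; linarith
    exact_mod_cast h6
  obtain ⟨y₀, hy₀⟩ := hSne
  have hpt : ∀ y ∈ S, C.IsF 1 (C.jn C.F₀ y) ∧ C.jn C.F₀ y ⊆ G := by
    intro y hy
    obtain ⟨hyG, hyF⟩ := (hmS y).1 hy
    have hP := (isF_base (C := C)).jn hyF
    rw [zero_add] at hP
    exact ⟨hP, jn_subset hG hFG hyG⟩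
  refine ⟨(Finset.univ.filter (fun Q : Set α => C.IsF 3 Q ∧ C.jn C.F₀ y₀ ⊆ Q ∧ Q ⊆ G)).card,
    T.card, Div_W (hpt y₀ hy₀).1 hG (hpt y₀ hy₀).2, ?_⟩
  set W : ℝ := (((Finset.univ.filter
    (fun Q : Set α => C.IsF 3 Q ∧ C.jn C.F₀ y₀ ⊆ Q ∧ Q ⊆ G)).card : ℕ) : ℝ) with hW
  have h1 := Finset.sum_card_bipartiteAbove_eq_sum_card_bipartiteBelow
    (s := S) (t := T) (fun y Q => y ∈ Q)
  have h2 : ∀ y ∈ S, ((Finset.bipartiteAbove (fun y Q => y ∈ Q) T y).card : ℝ) = W := by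
    intro y hy
    have e1 : Finset.bipartiteAbove (fun y Q => y ∈ Q) T y =
        Finset.univ.filter (fun Q : Set α => C.IsF 3 Q ∧ C.jn C.F₀ y ⊆ Q ∧ Q ⊆ G) := by
      ext Q
      rw [Finset.mem_bipartiteAbove, hmT, Finset.mem_filter]
      constructor
      · rintro ⟨⟨a1, a2⟩, a3⟩
        exact ⟨Finset.mem_univ _, a1, jn_subset a1 a1.base a3, a2⟩
      · rintro ⟨_, a1, a2, a3⟩
        exact ⟨⟨a1, a3⟩, a2 (mem_jn C.F₀ y)⟩
    have e2 := Div_W (hpt y hy).1 hG (hpt y hy).2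
    have e3 := Div_W (hpt y₀ hy₀).1 hG (hpt y₀ hy₀).2
    rw [e1]
    exact mul_right_cancel₀ hK1.ne' (e2.trans e3.symm)
  have h3 : ∀ Q ∈ T, ((Finset.bipartiteBelow (fun y Q => y ∈ Q) S Q).card : ℝ) = C.a 3 := by
    intro Q hQ
    obtain ⟨hQ1, hQG⟩ := (hmT Q).1 hQ
    have e1 : Finset.bipartiteBelow (fun y Q => y ∈ Q) S Q = (Set.toFinite (Q \ C.F₀)).toFinset := by
      ext y
      rw [Finset.mem_bipartiteBelow, hmS, Set.Finite.mem_toFinset, mem_sdiff]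
      constructor
      · rintro ⟨⟨a1, a2⟩, a3⟩
        exact ⟨a3, a2⟩
      · rintro ⟨a1, a2⟩
        exact ⟨⟨hQG a1, a2⟩, a1⟩
    rw [e1]
    exact hcard hQ1
  have h5 := congrArg (Nat.cast : ℕ → ℝ) h1
  rw [Nat.cast_sum, Nat.cast_sum, Finset.sum_congr rfl h2, Finset.sum_congr rfl h3,
    Finset.sum_const, Finset.sum_const, nsmul_eq_mul, nsmul_eq_mul, h4] at h5
  exact h5.symm

end Pool.Agent.H92.PX
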