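import Mathlib

/-!
# FNR: real inequalities for the Fano case (Mathlib only)

`fn_real`.  `p ≥ 4`, `N ≥ 8`, `N (N-1) > 0`.
 * `0 < r`: `(N-p)² > 0` as `N > p`.  `r < 1`: `(N-p)² < N (N-1)` iff `p² + N < 2 N p`; `p² ≤ N p / 2`, `N ≤ N p / 4`.
 * third claim: `δ = p - s ≥ s ≥ 2`.  `N - s ≥ 2 p - s = 2 δ + s`, `δ > r`, so the right side is at least
   `(δ - r)(2 δ + s)`, and `(δ - r)(2 δ + s) - δ (δ + r) = δ² + δ s - r (3 δ + s) > δ² + δ s - 3 δ - s`
   `= δ² - 3 δ + s (δ - 1) ≥ δ² - 3 δ + 2 (δ - 1) = (δ - 2)(δ + 1) ≥ 0`.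
 * fourth claim: put `u = s/p`, `0 < u ≤ 1/2`, `s = p u`, `p - s = p (1 - u)`.  The left side is
   `(1-u)² p (p - r) ≤ (1-u)² p²`, the right side `(p (1-u)² - θ r)(N - p u)`, `θ = 1 - u + u²`, `0 < θ < 1`.
   `r (N - p u) ≤ r (N - 1) = (N - p)²/N = N - 2 p + p²/N ≤ N - 2 p + p/2` (`p u = s ≥ 1`, `N ≥ 2 p`).
   So, with `N = 2 p + y`, `y ≥ 0`, `b = (1-u)² ≥ 1/4`, `p b ≥ 1`: right side
   `≥ p b (2 p + y - p u) - θ (y + p/2) ≥ p b (2 p - p u) - θ p/2` (`p b y ≥ y ≥ θ y`), and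
   `p b (2 p - p u) - p² b - θ p/2 = p (p b (1 - u) - θ/2) > 0`, because `p (1-u)³ ≥ 4/8 = 1/2 > θ/2`.

`fb_real`.  Put `Δ(φ) = (N+2)(2+φ)((N-2)² - φ N (N-1)) - (N-2+φ)(N-2)(N-4)`.  The coefficient of `φ²` is
`-(N+2) N (N-1) ≤ 0`, so `Δ(φ) ≥ (1 - 2 φ) Δ(0) + 2 φ Δ(1/2)` for `0 ≤ φ ≤ 1/2`;
`Δ(0) = (N-2)² (N+8) > 0`, `Δ(1/2) = N³/4 + 5 N²/4 - 49 N/2 + 32 > 0` for `N ≥ 8` (at `N = 8`: `128 + 80 - 196 + 32 = 44`).
-/

namespace Pool.Agent.H92.PX

theorem fn_real {s p N r : ℝ} (hs : 2 ≤ s) (hp : 2 * s ≤ p) (hN : 2 * p ≤ N)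
    (hr : r * (N * (N - 1)) = (N - p) ^ 2) :
    0 < r ∧ r < 1 ∧ (p - s) * ((p - s) + r) < ((p - s) - r) * (N - s) ∧
    ((p - s) - (1 - s / p) * r) * (p - s) < (((p - s) + s / p * r) * (1 - s / p) - r) * (N - s) := by
  have hp4 : 4 ≤ p := by linarith
  have hN8 : 8 ≤ N := by linarith
  have hNN : 0 < N * (N - 1) := mul_pos (by linarith) (by linarith)
  have hr0 : 0 < r := by
    have h1 : 0 < (N - p) ^ 2 := pow_pos (by linarith) 2
    rw [← hr] at h1
    exact (pos_iff_pos_of_mul_pos h1).2 hNN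
  have hr1 : r < 1 := by
    have h1 : (N - p) ^ 2 < N * (N - 1) := by
      have h2 : p * p ≤ N / 2 * p := mul_le_mul_of_nonneg_right (by linarith) (by linarith)
      have h3 : N * 4 ≤ N * p := mul_le_mul_of_nonneg_left hp4 (by linarith)
      nlinarith
    rw [← hr] at h1
    by_contra hcon
    rw [not_lt] at hcon
    have h2 : 1 * (N * (N - 1)) ≤ r * (N * (N - 1)) := mul_le_mul_of_nonneg_right hcon hNN.le
    linarith
  refine ⟨hr0, hr1, ?_, ?_⟩
  · set δ := p - s with hδ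
    have hδ2 : s ≤ δ := by linarith
    have h1 : 2 * δ + s ≤ N - s := by linarith
    have h2 : (δ - r) * (2 * δ + s) ≤ (δ - r) * (N - s) :=
      mul_le_mul_of_nonneg_left h1 (by linarith)
    have h3 : r * (3 * δ + s) < 1 * (3 * δ + s) := mul_lt_mul_of_pos_right hr1 (by linarith)
    have h4 : 2 * (δ - 1) ≤ s * (δ - 1) := mul_le_mul_of_nonneg_right hs (by linarith)
    have h5 : 0 ≤ (δ - 2) * (δ + 1) := mul_nonneg (by linarith) (by linarith)
    have e1 : (δ - r) * (2 * δ + s) - δ * (δ + r) = δ ^ 2 + δ * s - r * (3 * δ + s) := by ring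
    have e2 : δ ^ 2 + δ * s - 1 * (3 * δ + s) =
        (s * (δ - 1) - 2 * (δ - 1)) + (δ - 2) * (δ + 1) := by ring
    linarith
  · set u := s / p with hu
    have hsu : s = p * u := by
      rw [hu]; field_simp
    have hu0 : 0 < u := div_pos (by linarith) (by linarith)
    have hu1 : u ≤ 1 / 2 := by
      rw [hu, div_le_iff₀ (by linarith)]
      linarith
    set b := (1 - u) ^ 2 with hb
    have hb4 : 1 / 4 ≤ b := by
      rw [hb]; nlinarith
    have hb0 : 0 < b := by linarith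
    set θ := 1 - u + u ^ 2 with hθ
    have hθ1 : θ < 1 := by
      rw [hθ]; nlinarith
    have hθ0 : 0 < θ := by
      rw [hθ]; nlinarith
    -- left side
    have hL : ((p - s) - (1 - u) * r) * (p - s) ≤ b * p ^ 2 := by
      have e1 : ((p - s) - (1 - u) * r) * (p - s) = b * p ^ 2 - b * p * r := by
        rw [hsu, hb]; ring
      have h1 : 0 ≤ b * p * r := mul_nonneg (mul_nonneg hb0.le (by linarith)) hr0.le
      linarith
    -- right side
    have hR : (((p - s) + u * r) * (1 - u) - r) * (N - s) = p * b * (N - s) - θ * (r * (N - s)) := by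
      rw [hsu, hb, hθ]; ring
    have hrN : r * (N - s) ≤ N - 2 * p + p / 2 := by
      have h1 : r * (N - s) ≤ r * (N - 1) := mul_le_mul_of_nonneg_left (by linarith) hr0.le
      have h2 : N * (r * (N - 1)) ≤ N * (N - 2 * p + p / 2) := by
        have h3 : p * (2 * p) ≤ p * N := mul_le_mul_of_nonneg_left hN (by linarith)
        have e1 : N * (r * (N - 1)) = (N - p) ^ 2 := by rw [← hr]; ring
        rw [e1]
        nlinarith
      have h4 := le_of_mul_le_mul_left h2 (by linarith)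
      linarith
    rw [hR]
    refine lt_of_le_of_lt hL ?_
    have h1 : θ * (r * (N - s)) ≤ θ * (N - 2 * p + p / 2) := mul_le_mul_of_nonneg_left hrN hθ0.le
    have h2 : θ * (N - 2 * p) ≤ p * b * (N - 2 * p) := by
      refine mul_le_mul_of_nonneg_right ?_ (by linarith)
      have h3 : 4 * (1 / 4) ≤ p * b := mul_le_mul hp4 hb4 (by norm_num) (by linarith)
      linarith
    have h3 : (1 : ℝ) / 2 ≤ p * b * (1 - u) := by
      have h4 : 4 * (1 / 4) ≤ p * b := mul_le_mul hp4 hb4 (by norm_num) (by linarith)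
      have h5 : 1 * (1 / 2) ≤ p * b * (1 - u) :=
        mul_le_mul (by linarith) (by linarith) (by norm_num) (by linarith)
      linarith
    have h4 : 0 < p * (p * b * (1 - u) - θ / 2) := mul_pos (by linarith) (by linarith)
    have e1 : p * b * (N - s) = p * b * (N - 2 * p) + p * b * (2 * p - p * u) := by
      rw [hsu]; ring
    have e2 : p * b * (2 * p - p * u) - b * p ^ 2 - θ * (p / 2) =
        p * (p * b * (1 - u) - θ / 2) := by ring
    have e3 : θ * (N - 2 * p + p / 2) = θ * (N - 2 * p) + θ * (p / 2) := by ring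
    linarith

theorem fb_real {N φ : ℝ} (hN : 8 ≤ N) (h0 : 0 ≤ φ) (h1 : φ ≤ 1 / 2) :
    (N - 2 + φ) * (N - 2) * (N - 4) < (N + 2) * ((2 + φ) * ((N - 2) ^ 2 - φ * N * (N - 1))) := by
  have hD0 : 0 < (N - 2) ^ 2 * (N + 8) := mul_pos (pow_pos (by linarith) 2) (by linarith)
  have hD1 : 0 < 44 + (N - 8) * (N ^ 2 / 4 + 13 * N / 4 + 3 / 2) := by
    have h2 : 0 ≤ (N - 8) * (N ^ 2 / 4 + 13 * N / 4 + 3 / 2) :=
      mul_nonneg (by linarith) (by positivity)
    linarith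
  have hq : 0 ≤ (N + 2) * N * (N - 1) * (φ * (1 / 2 - φ)) :=
    mul_nonneg (mul_nonneg (mul_nonneg (by linarith) (by linarith)) (by linarith))
      (mul_nonneg h0 (by linarith))
  have e : (N + 2) * ((2 + φ) * ((N - 2) ^ 2 - φ * N * (N - 1))) -
      (N - 2 + φ) * (N - 2) * (N - 4) =
      (1 - 2 * φ) * ((N - 2) ^ 2 * (N + 8)) +
      2 * φ * (44 + (N - 8) * (N ^ 2 / 4 + 13 * N / 4 + 3 / 2)) +
      (N + 2) * N * (N - 1) * (φ * (1 / 2 - φ)) := by ring
  rcases h0.eq_or_lt with h | h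
  · subst h
    have h2 : (1 - 2 * (0 : ℝ)) * ((N - 2) ^ 2 * (N + 8)) = (N - 2) ^ 2 * (N + 8) := by ring
    rw [h2] at e
    linarith
  · have h2 : 0 < 2 * φ * (44 + (N - 8) * (N ^ 2 / 4 + 13 * N / 4 + 3 / 2)) :=
      mul_pos (by linarith) hD1
    have h3 : 0 ≤ (1 - 2 * φ) * ((N - 2) ^ 2 * (N + 8)) := mul_nonneg (by linarith) hD0.le
    linarith

end Pool.Agent.H92.PX
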