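import Mathlib

/-!
# NGR: the real inequality behind the induction NGD (Mathlib only)

Write `K = k - w`, `S = k - A + f = K - d + f ≤ K`.
(0) `K ≥ d > 0` and `κ < d` (otherwise the right side of `c1` is `≤ 0` and the left side is `> 0`); so
`f ≤ κ₀ ≤ κ < d ≤ K`.
(1) `r * K ≥ R * K ≥ R * S = κ₀`, so `g / r ≤ g K / κ₀` (`g ≥ 0`).
(2) Divide `hgr` by `r > 0` (`S * (K * R) = K * κ₀`):
`(d + g) (K + g - g / r) ≤ (d - f + g)(d - f + κ₀) + K κ₀`.  With (1), after multiplication by `κ₀ > 0`,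
`H(g) ≤ 0` where `H(g) = κ₀ [(d + g)(K + g) - (d - f + g)(d - f + κ₀) - K κ₀] - (d + g) g K`.
(In Lean: from `κ₀ ≤ r K` get `g κ₀ ≤ r (g K)`; multiply `hgr` by `κ₀`, and cancel `r` at the end.)
(3) `H` is nonincreasing on `g ≥ 0`: as a polynomial in `g`,
`H(g) = κ₀ [d K - (d-f)(d-f+κ₀) - K κ₀] + g [κ₀ (K + f - κ₀) - d K] + g² (κ₀ - K)`, and
`κ₀ (K + f - κ₀) ≤ κ₀ K ≤ d K`, `κ₀ ≤ K`.  So with `g' = lam * f ≥ g`: `H(g') ≤ H(g) ≤ 0`.
(4) Put `f = s κ₀`, `0 ≤ s ≤ 1` (`s = f / κ₀`).  Then `H(g') = κ₀ * h(s)` with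
`h(s) = (d + lam s κ₀)(K + lam s κ₀ - lam s K) - (d - (1-lam) s κ₀)(d + κ₀ - s κ₀) - K κ₀`.
The coefficient of `s²` in `h` is `lam² κ₀ (κ₀ - K) - (1 - lam) κ₀² ≤ 0`, so
`h(s) - (1-s) h(0) - s h(1) = - s (1-s) * (that coefficient) ≥ 0` (`ring` identity).
`h(0) = (d - κ₀) K - d (d + κ₀) ≥ (d - κ) K - d (d + κ) > 0` by `c1`.
`h(1) = (d + lam κ₀)(K + lam κ₀ - lam K) - (d - (1-lam) κ₀) d - K κ₀
  ≥ ((d + lam κ₀)(1 - lam) - κ₀) K - (d - (1-lam) κ₀) d` (dropping `lam κ₀ (d + lam κ₀) ≥ 0`), and this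
is at least the same expression with `κ` instead of `κ₀`, which is `> 0` by `c2`: the difference is
`(κ - κ₀) [(1 - lam (1 - lam)) K - (1 - lam) d] = (κ - κ₀) [(1 - lam (1-lam)) (K - d) + lam² d] ≥ 0`.
So `h(s) > 0`, `H(g') > 0`: contradiction.
-/

namespace Pool.Agent.H92.PX

theorem ng_real {d κ₀ κ f g w A k R r lam : ℝ} (hd : 0 < d) (hA : A = w + d) (hf0 : 0 ≤ f)
    (hfκ : f ≤ κ₀) (hκ0 : 0 < κ₀) (hκκ : κ₀ ≤ κ) (hfd : f ≤ d) (hg0 : 0 ≤ g) (hg : g ≤ lam * f)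
    (hl0 : 0 ≤ lam) (hl1 : lam ≤ 1) (hR0 : 0 < R) (hRr : R ≤ r) (hr1 : r ≤ 1)
    (hκ : κ₀ = (k - A + f) * R) (hdk : d ≤ k - w)
    (hgr : (d + g) * ((k - w + g) * r - g) ≤
      r * ((d - f + g) * (d - f + κ₀) + (k - A + f) * ((k - w) * R)))
    (c1 : d * (d + κ) < (d - κ) * (k - w))
    (c2 : (d - (1 - lam) * κ) * d < ((d + lam * κ) * (1 - lam) - κ) * (k - w)) : False := by
  obtain ⟨K, hK⟩ : ∃ K, K = k - w := ⟨_, rfl⟩
  rw [← hK] at hdk hgr c1 c2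
  have hκ' : κ₀ = (K - d + f) * R := by rw [hκ, hA, hK]; ring
  have hS : (k - A + f) * (K * R) = K * κ₀ := by rw [hκ]; ring
  rw [hS] at hgr
  have hK0 : 0 < K := by linarith
  -- (0)
  have hκd : κ < d := by
    by_contra h
    push Not at h
    have h1 : (d - κ) * K ≤ 0 := mul_nonpos_of_nonpos_of_nonneg (by linarith) hK0.le
    have h2 : 0 < d * (d + κ) := mul_pos hd (by linarith)
    linarith
  have hr0 : 0 < r := by linarith
  -- (1)
  have k1 : κ₀ ≤ r * K := by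
    have h1 : (K - d + f) * R ≤ K * R := mul_le_mul_of_nonneg_right (by linarith) hR0.le
    have h2 : K * R ≤ K * r := mul_le_mul_of_nonneg_left hRr hK0.le
    linarith
  -- (2)
  have k2 : κ₀ * ((d + g) * (K + g) - (d - f + g) * (d - f + κ₀) - K * κ₀) - (d + g) * g * K
      ≤ 0 := by
    have h1 : κ₀ * ((d + g) * ((K + g) * r - g)) ≤
        κ₀ * (r * ((d - f + g) * (d - f + κ₀) + K * κ₀)) :=
      mul_le_mul_of_nonneg_left hgr hκ0.le
    have h2 : ((d + g) * g) * κ₀ ≤ ((d + g) * g) * (r * K) :=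
      mul_le_mul_of_nonneg_left k1 (mul_nonneg (by linarith) hg0)
    have h3 : r * (κ₀ * ((d + g) * (K + g) - (d - f + g) * (d - f + κ₀) - K * κ₀)
        - (d + g) * g * K) ≤ 0 := by
      calc r * (κ₀ * ((d + g) * (K + g) - (d - f + g) * (d - f + κ₀) - K * κ₀)
            - (d + g) * g * K)
          = κ₀ * ((d + g) * ((K + g) * r - g)) -
            κ₀ * (r * ((d - f + g) * (d - f + κ₀) + K * κ₀)) +
            (((d + g) * g) * κ₀ - ((d + g) * g) * (r * K)) := by ring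
        _ ≤ 0 := by linarith
    by_contra h4
    push Not at h4
    have := mul_pos hr0 h4
    linarith
  -- (3)
  have k3 : κ₀ * ((d + lam * f) * (K + lam * f) - (d - f + lam * f) * (d - f + κ₀) - K * κ₀)
      - (d + lam * f) * (lam * f) * K ≤ 0 := by
    have hlf : 0 ≤ lam * f := mul_nonneg hl0 hf0
    have h1 : κ₀ * (K + f - κ₀) ≤ d * K := by
      calc κ₀ * (K + f - κ₀) ≤ κ₀ * K := mul_le_mul_of_nonneg_left (by linarith) hκ0.le
        _ ≤ d * K := mul_le_mul_of_nonneg_right (by linarith) hK0.le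
    have h2 : (lam * f - g) * (κ₀ * (K + f - κ₀) - d * K) ≤ 0 :=
      mul_nonpos_of_nonneg_of_nonpos (by linarith) (by linarith)
    have h3 : ((lam * f - g) * (lam * f + g)) * (κ₀ - K) ≤ 0 :=
      mul_nonpos_of_nonneg_of_nonpos (mul_nonneg (by linarith) (by linarith)) (by linarith)
    calc κ₀ * ((d + lam * f) * (K + lam * f) - (d - f + lam * f) * (d - f + κ₀) - K * κ₀)
          - (d + lam * f) * (lam * f) * K
        = (κ₀ * ((d + g) * (K + g) - (d - f + g) * (d - f + κ₀) - K * κ₀) - (d + g) * g * K)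
          + (lam * f - g) * (κ₀ * (K + f - κ₀) - d * K)
          + ((lam * f - g) * (lam * f + g)) * (κ₀ - K) := by ring
      _ ≤ 0 := by linarith
  -- (4)
  obtain ⟨s, hs⟩ : ∃ s, s = f / κ₀ := ⟨_, rfl⟩
  have hfs : f = s * κ₀ := by rw [hs, div_mul_cancel₀ _ hκ0.ne']
  have hs0 : 0 ≤ s := by rw [hs]; exact div_nonneg hf0 hκ0.le
  have hs1 : s ≤ 1 := by rw [hs]; exact (div_le_one hκ0).2 hfκ
  have hh0 : 0 < (d - κ₀) * K - d * (d + κ₀) := by
    have h1 : 0 ≤ (κ - κ₀) * (K + d) := mul_nonneg (by linarith) (by linarith)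
    calc (0 : ℝ) < ((d - κ) * K - d * (d + κ)) + (κ - κ₀) * (K + d) := by linarith
      _ = _ := by ring
  have hh1 : 0 < (d + lam * κ₀) * (K + lam * κ₀ - lam * K) - (d - (1 - lam) * κ₀) * d
      - K * κ₀ := by
    have h1 : 0 ≤ (κ - κ₀) * ((1 - lam * (1 - lam)) * (K - d) + lam ^ 2 * d) := by
      apply mul_nonneg (by linarith)
      apply add_nonneg
      · apply mul_nonneg _ (by linarith)
        have : lam * (1 - lam) ≤ 1 := by nlinarith
        linarith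
      · exact mul_nonneg (sq_nonneg _) hd.le
    have h2 : 0 ≤ lam * κ₀ * (d + lam * κ₀) :=
      mul_nonneg (mul_nonneg hl0 hκ0.le) (add_nonneg hd.le (mul_nonneg hl0 hκ0.le))
    calc (0 : ℝ) < ((((d + lam * κ) * (1 - lam) - κ) * K) - (d - (1 - lam) * κ) * d)
          + (κ - κ₀) * ((1 - lam * (1 - lam)) * (K - d) + lam ^ 2 * d)
          + lam * κ₀ * (d + lam * κ₀) := by linarith
      _ = _ := by ring
  have hc : 0 ≤ lam ^ 2 * κ₀ * (K - κ₀) + (1 - lam) * κ₀ ^ 2 := by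
    apply add_nonneg
    · exact mul_nonneg (mul_nonneg (sq_nonneg _) hκ0.le) (by linarith)
    · exact mul_nonneg (by linarith) (sq_nonneg _)
  have h5 : 0 ≤ s * (1 - s) * (lam ^ 2 * κ₀ * (K - κ₀) + (1 - lam) * κ₀ ^ 2) :=
    mul_nonneg (mul_nonneg hs0 (by linarith)) hc
  have h6 : 0 < (1 - s) * ((d - κ₀) * K - d * (d + κ₀)) +
      s * ((d + lam * κ₀) * (K + lam * κ₀ - lam * K) - (d - (1 - lam) * κ₀) * d - K * κ₀) := by
    rcases hs0.eq_or_lt with h | h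
    · rw [← h]; linarith
    · have a1 := mul_pos h hh1
      have a2 : 0 ≤ (1 - s) * ((d - κ₀) * K - d * (d + κ₀)) :=
        mul_nonneg (by linarith) hh0.le
      linarith
  have h7 : 0 < (d + lam * (s * κ₀)) * (K + lam * (s * κ₀) - lam * s * K)
      - (d - (1 - lam) * (s * κ₀)) * (d + κ₀ - s * κ₀) - K * κ₀ := by
    calc (0 : ℝ) < ((1 - s) * ((d - κ₀) * K - d * (d + κ₀)) +
          s * ((d + lam * κ₀) * (K + lam * κ₀ - lam * K) - (d - (1 - lam) * κ₀) * d - K * κ₀))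
          + s * (1 - s) * (lam ^ 2 * κ₀ * (K - κ₀) + (1 - lam) * κ₀ ^ 2) := by linarith
      _ = _ := by ring
  have h8 := mul_pos hκ0 h7
  rw [hfs] at k3
  have h9 : κ₀ * ((d + lam * (s * κ₀)) * (K + lam * (s * κ₀) - lam * s * K)
      - (d - (1 - lam) * (s * κ₀)) * (d + κ₀ - s * κ₀) - K * κ₀)
      = κ₀ * ((d + lam * (s * κ₀)) * (K + lam * (s * κ₀)) -
        (d - s * κ₀ + lam * (s * κ₀)) * (d - s * κ₀ + κ₀) - K * κ₀)
      - (d + lam * (s * κ₀)) * (lam * (s * κ₀)) * K := by ring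
  linarith

end Pool.Agent.H92.PX
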