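import Pool.Agent.H92.PX.Basx
import Pool.Agent.H92.PX.Ngr

/-!
# NGS: the step of the induction NGD

`kap_big`.  Let `A = a (i+1)`, `b = b G`, `R = rho (i+1) = (k - A)/(v - A)`.  `mu_ge_of_lt` (flat of relative
rank `i+1`, `t = i`) gives `A ≤ mu (i+1) G = b + (k - b) R`: first claim.  Then
`A - b = (k - b) - (k - A) ≤ (k - b) R`, i.e. `(k - b)(1 - R) ≤ k - A` with `1 - R = (v - k)/(v - A)`, so
`(k - b)(v - k) ≤ (k - A)(v - A)`; multiply by `R = (k - A)/(v - A)`:
`(k - b) R (v - k) ≤ (k - A)²`: second claim.  Third claim: `kap_lt` (`b > a i ≥ 0`).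

`ng_step` (compare the proof of `Ngd_step` in `Pool/Agent/H63/PD/Ngd.lean`, which can be copied nearly
verbatim).  Suppose `a i < b G`; write `w = a i`, `A = a (i+1)`, `d = A - w`, `f = A - b G`,
`κ₀ = (k - b G) rho (i+1)`, `r = rho i`, `R = rho (i+1)`.
(1) `f ≤ κ₀ ≤ κ` by `kap_big` and `hκ`; `0 ≤ f ≤ d` (`IsF.b_le`, `a i < b G`); `κ₀ > 0` (`b_lt_k`, `rho_pos`).
(2) By GDY (`gdy`) there is `F ⊆ G` of relative rank `i` with `(w - b F) A ≤ f w`; put `g = w - b F ≥ 0`
(`IsF.b_le`).  As `w ≤ lam A`: `g A ≤ f lam A`, so `g ≤ lam f` (`A > 0`).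
(3) for `y ∈ out F` with `y ∉ G`: `b (jn F y) ≤ w`.  Otherwise `G' = jn F y` has `a i < b G'`, it has relative
rank `i+1`, `J = jn G y ⊇ G'` has relative rank `i+2`, `G ∩ G' = F` (`IsF.inter_eq`), and `b_union_le` gives
`b G + b G' ≤ b J + b F ≤ A + w` (`ih`, `IsF.b_le`), so `(A - b G) + (A - b G') ≥ A - w`, against `hpair`.
(4) growth inequality (`growth`, `t = i`) for `F`:
`(A - b F) (mu i F - w) ≤ rho i * ∑_{y ∈ out F} (mu (i+1) (jn F y) - w)`.
For `y ∈ out F`, `y ∈ G`: `jn F y = G` (`IsF.eq_jn`) and `mu (i+1) G - w = (d - f) + κ₀`; the number of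
these `y` is `b G - b F = d - f + g`.  For the other `y`, `k - b G` in number, by (3)
`mu (i+1) (jn F y) - w = b' - w + (k - b') R ≤ (k - w) R` (`R ≤ 1`).
Since `A - b F = d + g`, `mu i F - w = (k - w + g) r - g`, `k - b G = k - A + f`, this is `hgr` of `ng_real`.
(5) apply `ng_real` (`d ≤ k - w` because `A < k`: `a_lt`, `i+1 < m+4`).
-/

open Set

namespace Pool.Agent.H92.PX

open Pool.Agent.H63 Pool.Agent.H63.PD Pool.Agent.H69.Pmd

set_option linter.unusedSectionVars false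

variable {α : Type*} [Fintype α] {C : PD α}

theorem kap_big {i : ℕ} (hi : i ≤ C.m + 2) {G : Set α} (hG : C.IsF (i + 1) G)
    (h : C.a i < C.b G) :
    C.a (i + 1) - C.b G ≤ (C.k - C.b G) * C.rho (i + 1) ∧
    (C.k - C.b G) * C.rho (i + 1) ≤ (C.k - C.a (i + 1)) ^ 2 / (C.v - C.k) ∧
    (C.k - C.b G) * C.rho (i + 1) < C.k0 := by
  have h1 : C.a (i + 1) ≤ C.mu (i + 1) G := mu_ge_of_lt (by omega) hG hi h
  rw [mu] at h1
  have h2 := rho_mul (C := C) (i := i + 1) (by omega)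
  have h3 := C.k_lt_v
  have h4 : C.a (i + 1) < C.k := C.a_lt (by omega) (by omega)
  refine ⟨by linarith, ?_, ?_⟩
  · rw [le_div_iff₀ (by linarith)]
    have h5 : C.v - C.k = (C.v - C.a (i + 1)) * (1 - C.rho (i + 1)) := by linarith
    have h6 : (C.k - C.b G) * (1 - C.rho (i + 1)) ≤ C.k - C.a (i + 1) := by linarith
    calc (C.k - C.b G) * C.rho (i + 1) * (C.v - C.k)
        = (C.rho (i + 1) * (C.v - C.a (i + 1))) * ((C.k - C.b G) * (1 - C.rho (i + 1))) := by
          rw [h5]; ring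
      _ = (C.k - C.a (i + 1)) * ((C.k - C.b G) * (1 - C.rho (i + 1))) := by rw [h2]
      _ ≤ (C.k - C.a (i + 1)) * (C.k - C.a (i + 1)) :=
          mul_le_mul_of_nonneg_left h6 (by linarith)
      _ = _ := by ring
  · refine kap_lt (by omega) hG ?_
    have := C.a_nonneg (i := i) (by omega)
    linarith

theorem ng_step {i : ℕ} (h1 : 1 ≤ i) (hi : i ≤ C.m + 2)
    (ih : ∀ J, C.IsF (i + 2) J → C.b J ≤ C.a (i + 1)) {κ lam : ℝ}
    (hκ : ∀ G, C.IsF (i + 1) G → C.a i < C.b G → (C.k - C.b G) * C.rho (i + 1) ≤ κ)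
    (hpair : ∀ G G', C.IsF (i + 1) G → C.IsF (i + 1) G' → C.a i < C.b G → C.a i < C.b G' →
      (C.a (i + 1) - C.b G) + (C.a (i + 1) - C.b G') < C.a (i + 1) - C.a i)
    (hl0 : 0 ≤ lam) (hl1 : lam ≤ 1) (hlam : C.a i ≤ lam * C.a (i + 1))
    (c1 : (C.a (i + 1) - C.a i) * ((C.a (i + 1) - C.a i) + κ) <
      ((C.a (i + 1) - C.a i) - κ) * (C.k - C.a i))
    (c2 : ((C.a (i + 1) - C.a i) - (1 - lam) * κ) * (C.a (i + 1) - C.a i) <
      (((C.a (i + 1) - C.a i) + lam * κ) * (1 - lam) - κ) * (C.k - C.a i))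
    {G : Set α} (hG : C.IsF (i + 1) G) : C.b G ≤ C.a i := by
  classical
  by_contra hcon
  push Not at hcon
  have hA : 1 ≤ C.a (i + 1) := C.a_pos (by omega) (by omega)
  have hwA : C.a i < C.a (i + 1) := C.a_lt (by omega) (by omega)
  -- (1)
  obtain ⟨e1, e2, e3⟩ := kap_big hi hG hcon
  -- (2)
  obtain ⟨F, hF, hFG, hFg⟩ := gdy (by omega) hG
  have hFw := hF.b_le
  -- (3)
  have g3 : ∀ y ∈ C.out F, y ∉ G → C.b (C.jn F y) ≤ C.a i := by
    intro y hy hyG
    obtain ⟨hyB, hyF⟩ := mem_out.1 hy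
    by_contra hlt
    push Not at hlt
    have hG' := hF.jn hyF
    have e4 := hpair _ _ hG hG' hcon hlt
    have hne : G ≠ C.jn F y := fun h => hyG (h ▸ mem_jn F y)
    have hint := hF.inter_eq hG hG' hFG (sub_jn F y) hne
    have hJ := hG.jn hyG
    have hJG : C.jn F y ⊆ C.jn G y :=
      jn_subset hJ (hFG.trans (sub_jn G y)) (mem_jn G y)
    have e5 := b_union_le (C := C) (sub_jn G y) hJG hint.subset
    have e6 := ih _ hJ
    linarith
  -- (4)
  have g4 := growth hi hF hi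
  have hsplit : ∑ y ∈ C.out F, (C.mu (i + 1) (C.jn F y) - C.a i) ≤
      (C.b G - C.b F) * (C.b G + (C.k - C.b G) * C.rho (i + 1) - C.a i) +
      (C.k - C.b G) * ((C.k - C.a i) * C.rho (i + 1)) := by
    have hout : (C.out F).filter (fun y => ¬ y ∈ G) = C.out G := by
      ext y
      rw [Finset.mem_filter, mem_out, mem_out]
      constructor
      · rintro ⟨⟨a1, a2⟩, a3⟩; exact ⟨a1, a3⟩
      · rintro ⟨a1, a3⟩; exact ⟨⟨a1, fun h => a3 (hFG h)⟩, a3⟩
    have hc := Finset.card_filter_add_card_filter_not (s := C.out F) (fun y => y ∈ G)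
    rw [hout] at hc
    have hc' : (((C.out F).filter (fun y => y ∈ G)).card : ℝ) = C.b G - C.b F := by
      have e1 := card_out (C := C) (F := F)
      have e2 := card_out (C := C) (F := G)
      have e3 : (((C.out F).filter (fun y => y ∈ G)).card : ℝ) + (C.out G).card =
          (C.out F).card := by exact_mod_cast hc
      linarith
    rw [← Finset.sum_filter_add_sum_filter_not (C.out F) (fun y => y ∈ G), hout]
    apply add_le_add
    · rw [Finset.sum_congr rfl (g := fun _ =>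
        C.b G + (C.k - C.b G) * C.rho (i + 1) - C.a i), Finset.sum_const, nsmul_eq_mul, hc']
      intro y hy
      obtain ⟨a1, a2⟩ := Finset.mem_filter.1 hy
      rw [hF.eq_jn hG hFG a2 (mem_out.1 a1).2]
      rfl
    · rw [← card_out, ← nsmul_eq_mul]
      apply Finset.sum_le_card_nsmul
      intro y hy
      have hyG := (mem_out.1 hy)
      have hyF : y ∉ F := fun h => hyG.2 (hFG h)
      have e1 := g3 y (mem_out.2 ⟨hyG.1, hyF⟩) hyG.2
      have e2 := rho_lt_one (C := C) (i := i + 1) (by omega)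
      have e3 : (C.a i - C.b (C.jn F y)) * C.rho (i + 1) ≤ C.a i - C.b (C.jn F y) := by
        have := mul_le_mul_of_nonneg_left e2.le (show 0 ≤ C.a i - C.b (C.jn F y) by linarith)
        linarith
      rw [mu]
      linarith
  have h7 := g4.trans (mul_le_mul_of_nonneg_left hsplit (rho_pos (C := C) (by omega)).le)
  rw [mu] at h7
  have hAk : C.a (i + 1) < C.k := C.a_lt (by omega) (by omega)
  have hbk := b_lt_k hG (by omega)
  have hR := rho_pos (C := C) (i := i + 1) (by omega)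
  -- (2) continued
  have hg : C.a i - C.b F ≤ lam * (C.a (i + 1) - C.b G) := by
    have hf : 0 ≤ C.a (i + 1) - C.b G := by have := hG.b_le; linarith
    have a1 : (C.a i - C.b F) * C.a (i + 1) ≤
        (lam * (C.a (i + 1) - C.b G)) * C.a (i + 1) := by
      calc (C.a i - C.b F) * C.a (i + 1) ≤ (C.a (i + 1) - C.b G) * C.a i := hFg
        _ ≤ (C.a (i + 1) - C.b G) * (lam * C.a (i + 1)) := mul_le_mul_of_nonneg_left hlam hf
        _ = _ := by ring
    exact le_of_mul_le_mul_right a1 (by linarith)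
  -- (5)
  refine ng_real (d := C.a (i + 1) - C.a i) (κ₀ := (C.k - C.b G) * C.rho (i + 1)) (κ := κ)
    (f := C.a (i + 1) - C.b G) (g := C.a i - C.b F) (w := C.a i) (A := C.a (i + 1)) (k := C.k)
    (R := C.rho (i + 1)) (r := C.rho i) (lam := lam) (by linarith) (by ring)
    (by have := hG.b_le; linarith) e1 (mul_pos (by linarith) hR) (hκ G hG hcon) (by linarith)
    (by linarith) hg hl0 hl1 hR (rho_anti (by omega) (by omega))
    (rho_lt_one (by omega)).le (by ring) (by linarith) ?_ c1 c2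
  calc (C.a (i + 1) - C.a i + (C.a i - C.b F)) *
        ((C.k - C.a i + (C.a i - C.b F)) * C.rho i - (C.a i - C.b F))
      = (C.a (i + 1) - C.b F) * (C.b F + (C.k - C.b F) * C.rho i - C.a i) := by ring
    _ ≤ _ := h7
    _ = _ := by ring

end Pool.Agent.H92.PX
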