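import Pool.Agent.H92.PX.GeoD
import Pool.Agent.H92.PX.Ngs
import Pool.Agent.H92.PX.Fnr

/-!
# FNG: `b G ≤ a i` for flats of relative rank `i + 1 ≥ j + 2` in the Fano case

Descending induction on `i` (compare `ngd` at the end of `Pool/Agent/H63/PD/Ngd.lean`); `i = m+3` is `b_hyp_le`.
Step `j + 1 ≤ i ≤ m+2`: write `Γ = a j + 1`, `s = (a i + 1)/Γ`, `p = (a (i+1) + 1)/Γ`, `N = (k + 1)/Γ`;
`2 ≤ s`, `2 s ≤ p`, `2 p ≤ N` (`Fano.dbl`; `k = a (m+4)`, `i + 1 < m+4`).  `v + 1 = (k+1)²/Γ = Γ N²` (`Fano.vk`), so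
`v - k = Γ N (N - 1)`.  Put `κ = (k - a (i+1))²/(v - k) = Γ r` with `r = (N-p)²/(N (N-1))`, `lam = s/p`.
`ng_step`:
 * `hκ`: `kap_big` (second part).
 * `hpair`: `kap_big`: `a (i+1) - b G ≤ κ = Γ r < Γ` (`fn_real`), the same for `G'`; the sum is `< 2 Γ ≤ Γ s ≤ Γ (p - s)
   = a (i+1) - a i`.
 * `0 ≤ lam ≤ 1`; `hlam`: `a i = Γ s - 1 ≤ (s/p)(Γ p - 1) = Γ s - s/p`.
 * `c1`, `c2`: `a (i+1) - a i = Γ (p - s)`, `k - a i = Γ (N - s)`: the third and fourth claims of `fn_real`, multiplied by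
   `Γ²`.
-/

open Set

namespace Pool.Agent.H92.PX

open Pool.Agent.H63 Pool.Agent.H63.PD Pool.Agent.H69.Pmd

set_option linter.unusedSectionVars false

variable {α : Type*} [Fintype α] {C : PD α} {e : ℕ → ℕ} {j : ℕ}

theorem Fng_step (h : Fano C e j) {i : ℕ} (hji : j + 1 ≤ i) (hi : i ≤ C.m + 2)
    (ih : ∀ J, C.IsF (i + 2) J → C.b J ≤ C.a (i + 1)) {G : Set α}
    (hG : C.IsF (i + 1) G) : C.b G ≤ C.a i := by
  have hj := h.hj
  have hjm := h.hjm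
  have haj : 1 ≤ C.a j := C.a_pos hj (by omega)
  obtain ⟨Γ, hΓ⟩ : ∃ Γ : ℝ, Γ = C.a j + 1 := ⟨_, rfl⟩
  have hΓ0 : 0 < Γ := by linarith
  obtain ⟨s, hs⟩ : ∃ s : ℝ, s = (C.a i + 1) / Γ := ⟨_, rfl⟩
  obtain ⟨p, hp⟩ : ∃ p : ℝ, p = (C.a (i + 1) + 1) / Γ := ⟨_, rfl⟩
  obtain ⟨N, hN⟩ : ∃ N : ℝ, N = (C.k + 1) / Γ := ⟨_, rfl⟩
  have as : C.a i = Γ * s - 1 := by rw [hs]; field_simp; ring
  have ap : C.a (i + 1) = Γ * p - 1 := by rw [hp]; field_simp; ring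
  have ak : C.k = Γ * N - 1 := by rw [hN]; field_simp; ring
  have hv : C.v - C.k = Γ * (N * (N - 1)) := by
    have h1 := h.vk
    rw [← hΓ, ak] at h1
    have h2 : Γ * (C.v + 1) = Γ * (Γ * N ^ 2) := by
      calc Γ * (C.v + 1) = (C.v + 1) * Γ := by ring
        _ = (Γ * N - 1 + 1) ^ 2 := h1
        _ = Γ * (Γ * N ^ 2) := by ring
    have h3 : C.v + 1 = Γ * N ^ 2 := mul_left_cancel₀ hΓ0.ne' h2
    rw [ak]
    linear_combination h3
  have d1 := h.dbl (show j < i by omega) (by omega)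
  have d2 := h.dbl (show i < i + 1 by omega) (by omega)
  have d3 := h.dbl (show i + 1 < C.m + 4 by omega) (by omega)
  have hs2 : 2 ≤ s := by
    rw [hs, le_div_iff₀ hΓ0, hΓ]
    linarith
  have hp2 : 2 * s ≤ p := by
    have : Γ * (2 * s) ≤ Γ * p := by
      rw [as, ap] at d2
      linarith
    exact le_of_mul_le_mul_left this hΓ0
  have hN2 : 2 * p ≤ N := by
    have : Γ * (2 * p) ≤ Γ * N := by
      have h1 : C.a (C.m + 4) = C.k := rfl
      rw [h1, ak, ap] at d3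
      linarith
    exact le_of_mul_le_mul_left this hΓ0
  have hp0 : 0 < p := by linarith
  have hN1 : 0 < N * (N - 1) := mul_pos (by linarith) (by linarith)
  obtain ⟨r, hr⟩ : ∃ r : ℝ, r = (N - p) ^ 2 / (N * (N - 1)) := ⟨_, rfl⟩
  have hr' : r * (N * (N - 1)) = (N - p) ^ 2 := by rw [hr]; exact div_mul_cancel₀ _ hN1.ne'
  obtain ⟨f1, f2, f3, f4⟩ := fn_real hs2 hp2 hN2 hr'
  have hκ : (C.k - C.a (i + 1)) ^ 2 / (C.v - C.k) = Γ * r := by
    rw [hv, ak, ap, div_eq_iff (mul_pos hΓ0 hN1).ne']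
    have : (Γ * N - 1 - (Γ * p - 1)) ^ 2 = Γ ^ 2 * (N - p) ^ 2 := by ring
    rw [this, ← hr']
    ring
  have hAw : C.a (i + 1) - C.a i = Γ * (p - s) := by rw [as, ap]; ring
  have hkw : C.k - C.a i = Γ * (N - s) := by rw [as, ak]; ring
  have hl1 : s / p ≤ 1 := by rw [div_le_one hp0]; linarith
  have hl0 : 0 ≤ s / p := div_nonneg (by linarith) hp0.le
  refine ng_step (κ := Γ * r) (lam := s / p) (by omega) hi ih ?_ ?_ hl0 hl1 ?_ ?_ ?_ hG
  · intro G hG hlt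
    rw [← hκ]
    exact (kap_big hi hG hlt).2.1
  · intro G G' hG hG' hlt hlt'
    have k1 := kap_big hi hG hlt
    have k2 := kap_big hi hG' hlt'
    rw [hκ] at k1 k2
    have k3 : Γ * r < Γ := by
      calc Γ * r < Γ * 1 := mul_lt_mul_of_pos_left f2 hΓ0
        _ = Γ := mul_one _
    have k4 : 2 * Γ ≤ Γ * (p - s) := by
      have : Γ * 2 ≤ Γ * (p - s) := mul_le_mul_of_nonneg_left (by linarith) hΓ0.le
      linarith
    rw [hAw]
    linarith [k1.1, k1.2.1, k2.1, k2.2.1]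
  · have e1 : s / p * C.a (i + 1) = Γ * s - s / p := by
      rw [ap]
      field_simp
    rw [e1, as]
    linarith
  · rw [hAw, hkw]
    have e1 : Γ ^ 2 * ((p - s) * ((p - s) + r)) < Γ ^ 2 * (((p - s) - r) * (N - s)) :=
      mul_lt_mul_of_pos_left f3 (by positivity)
    calc Γ * (p - s) * (Γ * (p - s) + Γ * r) = Γ ^ 2 * ((p - s) * ((p - s) + r)) := by ring
      _ < Γ ^ 2 * (((p - s) - r) * (N - s)) := e1
      _ = (Γ * (p - s) - Γ * r) * (Γ * (N - s)) := by ring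
  · rw [hAw, hkw]
    have e1 : Γ ^ 2 * (((p - s) - (1 - s / p) * r) * (p - s)) <
        Γ ^ 2 * ((((p - s) + s / p * r) * (1 - s / p) - r) * (N - s)) :=
      mul_lt_mul_of_pos_left f4 (by positivity)
    calc (Γ * (p - s) - (1 - s / p) * (Γ * r)) * (Γ * (p - s))
        = Γ ^ 2 * (((p - s) - (1 - s / p) * r) * (p - s)) := by ring
      _ < Γ ^ 2 * ((((p - s) + s / p * r) * (1 - s / p) - r) * (N - s)) := e1
      _ = ((Γ * (p - s) + s / p * (Γ * r)) * (1 - s / p) - Γ * r) * (Γ * (N - s)) := by ring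

theorem fng (h : Fano C e j) {i : ℕ} (hji : j + 1 ≤ i) (hi : i + 1 ≤ C.m + 4) {G : Set α}
    (hG : C.IsF (i + 1) G) : C.b G ≤ C.a i := by
  obtain ⟨n, hn⟩ : ∃ n, i + n = C.m + 3 := ⟨C.m + 3 - i, by omega⟩
  induction n generalizing i G with
  | zero =>
    have : i = C.m + 3 := by omega
    subst this
    exact b_hyp_le hG
  | succ n ihn =>
    apply Fng_step h hji (by omega) _ hG
    intro J hJ
    exact ihn (i := i + 1) (by omega) (by omega) hJ (by omega)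

end Pool.Agent.H92.PX
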