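import Pool.Agent.H92.PX.Fqq
import Pool.Agent.H92.PX.Fng

/-!
# FBG: in the Fano case no flat of relative rank `j+1` contains many points of `B`

Write `Γ = a j + 1`, `N = (k+1)/Γ`, `v + 1 = Γ N²` (`Fano.vk`), `a (j+1) + 1 = 2 Γ` (`fq_next`),
`f = a (j+1) - b G = 2 Γ - (b G + 1)`, `φ = f/Γ`; `0 ≤ φ` (`IsF.b_le`) and `φ ≤ 1/2` (`hb`).
`a j = Γ - 1 < b G` (`b G + 1 ≥ (3/2) Γ`).

Case `j ≤ m+1`.  `N ≥ 8`: `k + 1 = a (m+4) + 1 ≥ 8 Γ` (`Fano.dbl` three times, `j + 3 ≤ m+4`).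
`mu (j+1) G ≥ a (j+1)` (`mu_ge_of_lt` with `t = j`).  `growth` (`i = t = j+1 ≤ m+2`):
`(a (j+2) - b G)(mu (j+1) G - a (j+1)) ≤ rho (j+1) ∑_{y ∈ out G} (mu (j+2) (jn G y) - a (j+1))`, and by `fng` (with `i = j+1`)
`b (jn G y) ≤ a (j+1)`, so each term is `≤ (k - a (j+1)) rho (j+2)`; the right side is
`≤ rho (j+1)(k - b G)(k - a (j+1)) rho (j+2)`.
`rho (j+1) = (N-2)/(N²-2)`, `k - b G = Γ (N - 2 + φ)`, `k - a (j+1) = Γ (N-2)`, and with `Z = a (j+2) + 1 ≥ 4 Γ`: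
`rho (j+2) = (K - Z)/(V - Z) ≤ (K - 4 Γ)/(V - 4 Γ) = (N - 4)/(N² - 4) /1` where `K = k+1 = Γ N`, `V = v+1 = Γ N²`, i.e.
`(K - 4 Γ)/(V - 4 Γ) = (N-4)/(N²-4)`.  So `(k - a (j+1)) rho (j+2) ≤ Γ (N-4)/(N+2)`.
`mu (j+1) G - a (j+1) = -f + (k - b G) rho (j+1) = Γ [(N-2)² - φ N (N-1)]/(N² - 2)` (`(N-2+φ)(N-2) - φ (N²-2)
= (N-2)² - φ N (N-1)`), it is `≥ 0`, and `a (j+2) - b G ≥ 4 Γ - (b G + 1) = Γ (2 + φ)`.  Altogether
`(2 + φ)((N-2)² - φ N (N-1)) ≤ (N-2+φ)(N-2)(N-4)/(N+2)`, against `fb_real`.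

Case `j = m+2`.  All hyperplanes `H ⊇ G` (relative rank `m+4`) have `b H ≥ b G > a (m+2)`, so `b H ≥ a (m+3)` (`val_ge`,
`t = m+2`) and `b H ≤ a (m+3)` (`b_hyp_le`); so `mu (m+3) G = a (m+3)` (`le_mu`, `mu_le`), i.e.
`f = (k - b G) rho (m+3)` with `rho (m+3) = (N-2)/(N²-2)`, `k - b G = Γ (N-2) + f`: `f (N² - 2) = (Γ (N-2) + f)(N-2)`, i.e.
`f N (N-1) = Γ (N-2)²`.  Here `Γ = 2^(e j)`, `N = 2^x` with `x = e (m+4) - e j ≥ 2` and `f` is a natural number (`a_nat`,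
`b_nat`).  In `ℕ`: `N - 1` divides `Γ (N-2)²`; `N - 1` is odd, so coprime to `Γ`, and coprime to `N - 2`
(consecutive numbers); so `N - 1 = 1`, against `N ≥ 4`.
-/

open Set

namespace Pool.Agent.H92.PX

open Pool.Agent.H63 Pool.Agent.H63.PD Pool.Agent.H69.Pmd

set_option linter.unusedSectionVars false

variable {α : Type*} [Fintype α] {C : PD α} {e : ℕ → ℕ} {j : ℕ}

/-- common set-up: `k`, `v`, `a (j+1)` in terms of `Γ` and `N` -/
private theorem Fbg_set (h : Fano C e j) : ∃ N : ℝ, 4 ≤ N ∧ C.k = (C.a j + 1) * N - 1 ∧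
    C.v = (C.a j + 1) * N ^ 2 - 1 ∧ C.a (j + 1) = 2 * (C.a j + 1) - 1 ∧
    C.rho (j + 1) * (N ^ 2 - 2) = N - 2 := by
  have hjm := h.hjm
  have h0 : 0 ≤ C.a j := C.a_nonneg (by omega)
  have hg : 0 < C.a j + 1 := by linarith
  have hq := h.quad
  have hv := h.vk
  have hn := fq_next h
  have hr := rho_mul (C := C) (i := j + 1) (by omega)
  set g := C.a j + 1 with hgd
  have hN : C.k + 1 = g * ((C.k + 1) / g) := by field_simp
  set N := (C.k + 1) / g with hNd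
  have hN4 : 4 ≤ N := by
    rw [hNd, le_div_iff₀ hg]
    exact hq
  have hk : C.k = g * N - 1 := by linarith
  have hv' : C.v = g * N ^ 2 - 1 := by
    rw [hN] at hv
    have h1 : (C.v + 1) * g = (g * N ^ 2) * g := by rw [hv]; ring
    have h2 := mul_right_cancel₀ hg.ne' h1
    linarith
  have ha : C.a (j + 1) = 2 * g - 1 := by linarith
  refine ⟨N, hN4, hk, hv', ha, ?_⟩
  rw [hk, hv', ha] at hr
  have h3 : g * (C.rho (j + 1) * (N ^ 2 - 2)) = g * (N - 2) := by linear_combination hr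
  exact mul_left_cancel₀ hg.ne' h3

theorem fbg_low (h : Fano C e j) (hj : j ≤ C.m + 1) {G : Set α} (hG : C.IsF (j + 1) G)
    (hb : 3 * (C.a j + 1) ≤ 2 * (C.b G + 1)) : False := by
  obtain ⟨N, hN4, hk, hv, ha, hr1⟩ := Fbg_set h
  have h0 : 0 ≤ C.a j := C.a_nonneg (by omega)
  have hg : 0 < C.a j + 1 := by linarith
  have hd1 := h.dbl (show j + 1 < j + 2 by omega) (by omega)
  have hd2 := h.dbl (show j + 2 < j + 3 by omega) (by omega)
  have hd3 : C.a (j + 3) ≤ C.k := C.a_le (by omega) (by omega)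
  have hmu : C.a (j + 1) ≤ C.mu (j + 1) G := mu_ge_of_lt (by omega) hG (by omega) (by linarith)
  have hgr := growth (t := j + 1) (by omega) hG (by omega)
  have hr2 := rho_mul (C := C) (i := j + 2) (by omega)
  have hR1 := rho_pos (C := C) (i := j + 1) (by omega)
  have hR2 := rho_pos (C := C) (i := j + 2) (by omega)
  have hR2' := rho_lt_one (C := C) (i := j + 2) (by omega)
  have hble := hG.b_le
  have hbk := b_lt_k hG (by omega)
  set g := C.a j + 1 with hgd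
  have hN8 : 8 ≤ N := by
    by_contra hcon
    push Not at hcon
    have : g * N < g * 8 := mul_lt_mul_of_pos_left hcon hg
    linarith
  -- the sum
  have hsum : ∑ y ∈ C.out G, (C.mu (j + 1 + 1) (C.jn G y) - C.a (j + 1)) ≤
      (C.k - C.b G) * ((C.k - C.a (j + 1)) * C.rho (j + 2)) := by
    rw [← card_out, ← nsmul_eq_mul]
    apply Finset.sum_le_card_nsmul
    intro y hy
    have hJ := hG.jn (mem_out.1 hy).2
    have h1 := fng h (i := j + 1) le_rfl (by omega) hJ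
    have h2 : (C.a (j + 1) - C.b (C.jn G y)) * C.rho (j + 2) ≤
        (C.a (j + 1) - C.b (C.jn G y)) * 1 :=
      mul_le_mul_of_nonneg_left hR2'.le (by linarith)
    rw [mu]
    show C.b (C.jn G y) + (C.k - C.b (C.jn G y)) * C.rho (j + 2) - C.a (j + 1) ≤ _
    linarith
  have hmain := hgr.trans (mul_le_mul_of_nonneg_left hsum hR1.le)
  -- the parameter
  obtain ⟨φ, hφ⟩ : ∃ φ, C.b G = 2 * g - 1 - g * φ := ⟨(2 * g - 1 - C.b G) / g, by field_simp; ring⟩
  have hφ0 : 0 ≤ φ := by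
    by_contra hcon
    push Not at hcon
    have := mul_neg_of_pos_of_neg hg hcon
    linarith
  have hφ1 : φ ≤ 1 / 2 := by
    by_contra hcon
    push Not at hcon
    have : g * (1 / 2) < g * φ := mul_lt_mul_of_pos_left hcon hg
    linarith
  have hR2b : C.rho (j + 2) * (N ^ 2 - 4) ≤ N - 4 := by
    have h1 : g * (C.rho (j + 2) * (N ^ 2 - 4)) ≤ g * (N - 4) := by
      rw [hk, hv] at hr2
      have h2 : 0 ≤ (C.a (j + 2) + 1 - 4 * g) * (1 - C.rho (j + 2)) :=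
        mul_nonneg (by linarith) (by linarith)
      nlinarith
    exact le_of_mul_le_mul_left h1 hg
  have hN2 : 0 < N ^ 2 - 2 := by nlinarith
  set P := (N - 2) ^ 2 - φ * N * (N - 1) with hP
  have hmuP : (C.mu (j + 1) G - C.a (j + 1)) * (N ^ 2 - 2) = g * P := by
    rw [mu, hk, ha, hφ, hP]
    linear_combination (g * N - 2 * g + g * φ) * hr1
  have hP0 : 0 ≤ P := by
    have h1 : 0 ≤ g * P := by
      rw [← hmuP]
      exact mul_nonneg (by linarith) hN2.le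
    exact nonneg_of_mul_nonneg_right h1 hg
  have hfb := fb_real hN8 hφ0 hφ1
  -- combine
  have h1 : (C.a (j + 2) - C.b G) * (g * P) ≤
      (N - 2) * ((C.k - C.b G) * ((C.k - C.a (j + 1)) * C.rho (j + 2))) := by
    rw [← hmuP, ← hr1]
    have := mul_le_mul_of_nonneg_right hmain hN2.le
    calc (C.a (j + 2) - C.b G) * ((C.mu (j + 1) G - C.a (j + 1)) * (N ^ 2 - 2))
        = (C.a (j + 1 + 1) - C.b G) * (C.mu (j + 1) G - C.a (j + 1)) * (N ^ 2 - 2) := by ring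
      _ ≤ _ := this
      _ = _ := by ring
  have h2 : g * (2 + φ) ≤ C.a (j + 2) - C.b G := by
    rw [hφ]; linarith
  have h3 := (mul_le_mul_of_nonneg_right h2 (mul_nonneg hg.le hP0)).trans h1
  have e1 : C.k - C.b G = g * (N - 2 + φ) := by rw [hk, hφ]; ring
  have e2 : C.k - C.a (j + 1) = g * (N - 2) := by rw [hk, ha]; ring
  rw [e1, e2] at h3
  have h4 : (N - 2) * ((N - 2 + φ) * ((N + 2) * ((N - 2) * C.rho (j + 2)))) ≤
      (N - 2) * ((N - 2 + φ) * (N - 4)) := by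
    refine mul_le_mul_of_nonneg_left (mul_le_mul_of_nonneg_left ?_ (by linarith)) (by linarith)
    calc (N + 2) * ((N - 2) * C.rho (j + 2)) = C.rho (j + 2) * (N ^ 2 - 4) := by ring
      _ ≤ _ := hR2b
  have hg2 : 0 < g ^ 2 := by positivity
  have h5 : g ^ 2 * ((2 + φ) * P) ≤
      g ^ 2 * ((N - 2) * ((N - 2 + φ) * ((N - 2) * C.rho (j + 2)))) := by
    calc g ^ 2 * ((2 + φ) * P) = g * (2 + φ) * (g * P) := by ring
      _ ≤ _ := h3
      _ = _ := by ring
  have h6 := le_of_mul_le_mul_left h5 hg2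
  have h7 := mul_le_mul_of_nonneg_left h6 (show 0 ≤ N + 2 by linarith)
  linarith

theorem fbg_top (h : Fano C e j) (hj : j = C.m + 2) {G : Set α} (hG : C.IsF (j + 1) G)
    (hb : C.a j < C.b G) : False := by
  obtain ⟨N, hN4, hk, hv, ha, hr1⟩ := Fbg_set h
  have hG' : C.IsF (C.m + 3) G := by
    have := hG
    rw [hj] at this
    exact this
  have h0 : 0 ≤ C.a j := C.a_nonneg (by omega)
  have hg : 0 < C.a j + 1 := by linarith
  -- the mean
  have m1 : C.a (C.m + 3) ≤ C.mu (C.m + 3) G := le_mu le_rfl hG' fun H hH hGH =>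
    val_ge hH le_rfl (by rw [← hj]; exact hb.trans_le (b_mono hGH))
  have m2 : C.mu (C.m + 3) G ≤ C.a (C.m + 3) := mu_le le_rfl hG' fun H hH _ => b_hyp_le hH
  have m3 : C.b G + (C.k - C.b G) * C.rho (j + 1) = C.a (j + 1) := by
    have : C.mu (C.m + 3) G = C.a (C.m + 3) := le_antisymm m2 m1
    rw [mu] at this
    rw [hj]
    exact this
  -- exponents
  have l1 := h.lt j (by omega)
  have l2 := h.lt (j + 1) (by omega)
  obtain ⟨x, hx⟩ : ∃ x, e (C.m + 4) = e j + x := ⟨e (C.m + 4) - e j, by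
    have : j + 1 + 1 = C.m + 4 := by omega
    rw [this] at l2
    omega⟩
  have hx2 : 2 ≤ x := by
    have : j + 1 + 1 = C.m + 4 := by omega
    rw [this] at l2
    omega
  have s1 := h.size j (by omega)
  have s2 := h.size (C.m + 4) (by omega)
  have hNx : N = 2 ^ x := by
    have h1 : (C.a j + 1) * N = (C.a j + 1) * 2 ^ x := by
      rw [s1, ← pow_add, ← hx, ← s2, ← s1]
      have : C.a (C.m + 4) = C.k := rfl
      rw [this]
      linarith
    exact mul_left_cancel₀ hg.ne' h1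
  -- `f`
  obtain ⟨n1, hn1⟩ := a_nat (C := C) (i := j + 1) (by omega)
  obtain ⟨n2, hn2⟩ := b_nat hG
  have hle : n2 ≤ n1 := by
    have := hG.b_le
    rw [hn1, hn2] at this
    exact_mod_cast this
  obtain ⟨f, hf⟩ := Nat.exists_eq_add_of_le hle
  have hfr : C.b G = C.a (j + 1) - f := by
    rw [hn1, hn2, hf]; push_cast; ring
  have key : (f : ℝ) * (N * (N - 1)) = (C.a j + 1) * (N - 2) ^ 2 := by
    rw [hfr, hk, ha] at m3
    have m4 : ((C.a j + 1) * (N - 2) + f) * C.rho (j + 1) = f := by linear_combination m3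
    linear_combination ((C.a j + 1) * (N - 2) + f) * hr1 - (N ^ 2 - 2) * m4
  obtain ⟨q, hq⟩ : ∃ q, 2 ^ x = q + 2 := by
    have : 2 ^ 2 ≤ 2 ^ x := Nat.pow_le_pow_right (by norm_num) hx2
    exact ⟨2 ^ x - 2, by omega⟩
  have hq2 : 2 ≤ q := by
    have : 2 ^ 2 ≤ 2 ^ x := Nat.pow_le_pow_right (by norm_num) hx2
    omega
  have hNq : N = q + 2 := by
    rw [hNx]
    exact_mod_cast hq
  have keyN : f * ((q + 2) * (q + 1)) = 2 ^ e j * q ^ 2 := by
    rw [hNq, s1] at key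
    have : (f : ℝ) * ((q + 2) * (q + 1)) = 2 ^ e j * (q : ℝ) ^ 2 := by
      linear_combination key
    exact_mod_cast this
  have hdvd : (q + 1) ∣ 2 ^ e j * q ^ 2 := by
    rw [← keyN]
    exact ⟨f * (q + 2), by ring⟩
  have hodd : Odd (q + 1) := by
    have h1 : Even (q + 2) := by
      rw [← hq]
      exact (even_two).pow_of_ne_zero (by omega)
    rcases Nat.even_or_odd (q + 1) with h2 | h2
    · exfalso
      obtain ⟨c, hc⟩ := h1
      obtain ⟨d, hd⟩ := h2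
      omega
    · exact h2
  have c1 : Nat.Coprime (q + 1) (2 ^ e j) :=
    Nat.Coprime.pow_right _ (Nat.coprime_two_right.mpr hodd)
  have c2 : Nat.Coprime (q + 1) (q ^ 2) := Nat.Coprime.pow_right _ (by simp)
  have c3 : (q + 1) ∣ 1 := by
    have := (c1.dvd_of_dvd_mul_left hdvd)
    exact (c2.dvd_of_dvd_mul_left (by simpa using this))
  have := Nat.le_of_dvd one_pos c3
  omega

theorem fbg (h : Fano C e j) {G : Set α} (hG : C.IsF (j + 1) G)
    (hb : 3 * (C.a j + 1) ≤ 2 * (C.b G + 1)) : False := by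
  have hjm := h.hjm
  rcases Nat.lt_or_ge j (C.m + 2) with h1 | h1
  · exact fbg_low h (by omega) hG hb
  · have h2 : 0 ≤ C.a j := C.a_nonneg (by omega)
    exact fbg_top h (by omega) hG (by linarith)

end Pool.Agent.H92.PX
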