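import Pool.Agent.H92.PX.Basx

/-!
# NFB: the number of lines through a point of `B` which are not contained in `B` (`a 2 = 3`)

`nfl C y` is the set of the points `z` of `B`, outside the point `P = jn F₀ y`, such that the line `jn P z` is
not contained in `B`.

`line_b`: for `y ∈ out F₀`, `P = jn F₀ y` (`point`: relative rank 1, `b P = 1`) and `z ∈ out P` the flat
`L = jn P z` has relative rank 2 and `2 ≤ b L ≤ 3` (`b_add_one_le`, `IsF.b_le`).  If `L ⊆ B` then `b L = 3`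
(`IsF.b_eq`); otherwise `b L ≤ 2` (`IsF.b_le_sub`), so `b L = 2`.

`nfb`: `growth` for `F = P` (`i = 1`): `(a (t+1) - 1)(mu 1 P - a t) ≤ rho 1 * ∑_{z ∈ out P} (mu 2 (jn P z) - a t)`
with `mu 1 P = 1 + (k-1) rho 1 = 1 + k1` (`rho_one_mul`).  For `z ∈ out P`, `mu 2 L = b L + (k - b L) rho 2`
is `3 + (k-3) rho 2` if `L ⊆ B`, and `2 + (k - 2) rho 2 = 3 + (k - 3) rho 2 - (1 - rho 2)` otherwise.  `out P` has
`k - 1` elements (`card_out`), so the sum is
`(k - 1)(3 - a t + (k - 3) rho 2) - (nfl C y).card (1 - rho 2)`; multiply by `rho 1` and use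
`rho 1 (k - 1) = k1`.
-/

open Set

namespace Pool.Agent.H92.PX

open Pool.Agent.H63 Pool.Agent.H63.PD Pool.Agent.H69.Pmd

set_option linter.unusedSectionVars false

variable {α : Type*} [Fintype α] {C : PD α}

open Classical in
/-- the points `z` of `B` such that the line `y z` is not contained in `B` -/
noncomputable def nfl (C : PD α) (y : α) : Finset α :=
  (C.out (C.jn C.F₀ y)).filter (fun z => ¬ C.jn (C.jn C.F₀ y) z ⊆ C.B)

theorem mem_nfl {y z : α} :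
    z ∈ nfl C y ↔ z ∈ C.out (C.jn C.F₀ y) ∧ ¬ C.jn (C.jn C.F₀ y) z ⊆ C.B := by
  simp [nfl]

theorem line_b (h2 : C.a 2 = 3) {y z : α} (hy : y ∈ C.out C.F₀)
    (hz : z ∈ C.out (C.jn C.F₀ y)) :
    C.IsF 2 (C.jn (C.jn C.F₀ y) z) ∧
    (C.jn (C.jn C.F₀ y) z ⊆ C.B → C.b (C.jn (C.jn C.F₀ y) z) = 3) ∧
    (¬ C.jn (C.jn C.F₀ y) z ⊆ C.B → C.b (C.jn (C.jn C.F₀ y) z) = 2) := by
  obtain ⟨hP, hPb⟩ := point hy
  obtain ⟨hzB, hzP⟩ := mem_out.1 hz
  have hL : C.IsF 2 (C.jn (C.jn C.F₀ y) z) := hP.jn hzP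
  have h1 := b_add_one_le (C := C) (sub_jn (C := C) (C.jn C.F₀ y) z) hzB (mem_jn (C := C) _ z) hzP
  refine ⟨hL, fun h => ?_, fun h => ?_⟩
  · rw [hL.b_eq h, h2]
  · have h3 := hL.b_le_sub h
    rw [h2] at h3
    rw [hPb] at h1
    linarith

theorem nfb (h2 : C.a 2 = 3) {t : ℕ} (ht : t ≤ C.m + 2) {y : α} (hy : y ∈ C.out C.F₀) :
    C.rho 1 * (((nfl C y).card : ℝ) * (1 - C.rho 2)) ≤
      C.k1 * (3 - C.a t + (C.k - 3) * C.rho 2) - (C.a (t + 1) - 1) * (1 + C.k1 - C.a t) := by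
  classical
  obtain ⟨hP, hPb⟩ := point hy
  have hg := growth (C := C) (i := 1) (t := t) (by omega) hP ht
  have hsum : ∑ z ∈ C.out (C.jn C.F₀ y), (C.mu (1 + 1) (C.jn (C.jn C.F₀ y) z) - C.a t) =
      (C.k - 1) * (3 - C.a t + (C.k - 3) * C.rho 2) - ((nfl C y).card : ℝ) * (1 - C.rho 2) := by
    have h1 : ∀ z ∈ C.out (C.jn C.F₀ y), C.mu (1 + 1) (C.jn (C.jn C.F₀ y) z) - C.a t =
        (3 - C.a t + (C.k - 3) * C.rho 2) -
          (if ¬ C.jn (C.jn C.F₀ y) z ⊆ C.B then (1 - C.rho 2) else 0) := by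
      intro z hz
      obtain ⟨-, e1, e2⟩ := line_b h2 hy hz
      rw [mu]
      by_cases h : C.jn (C.jn C.F₀ y) z ⊆ C.B
      · rw [e1 h, if_neg (not_not.2 h)]
        norm_num
        ring
      · rw [e2 h, if_pos h]
        norm_num
        ring
    rw [Finset.sum_congr rfl h1, Finset.sum_sub_distrib, Finset.sum_const, nsmul_eq_mul,
      card_out, hPb, ← Finset.sum_filter, Finset.sum_const, nsmul_eq_mul]
    rfl
  rw [hsum, hPb, mu, hPb, rho_one_mul] at hg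
  have h3 := rho_one_mul (C := C)
  have h4 : C.rho 1 * ((C.k - 1) * (3 - C.a t + (C.k - 3) * C.rho 2) -
      ((nfl C y).card : ℝ) * (1 - C.rho 2)) = C.k1 * (3 - C.a t + (C.k - 3) * C.rho 2) -
      C.rho 1 * (((nfl C y).card : ℝ) * (1 - C.rho 2)) := by
    rw [← h3]
    ring
  rw [h4] at hg
  linarith

end Pool.Agent.H92.PX
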