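import Pool.Agent.H92.PX.Fqq
import Pool.Agent.H92.PX.Nfb

/-!
# FNB: few non-full lines through a point in the Fano case

Write `Γ = a j + 1`, `K = k + 1`, `V = v + 1`, `n = (nfl C y).card`.  `Γ V = K²` (`Fano.vk`), `K ≥ 4 Γ` (`Fano.quad`),
`Γ ≥ 2` (`a j ≥ 1`), `a (j+1) - 1 = 2 Γ - 2` (`fq_next`).
`nfb` with `t = j`: `rho 1 (n (1 - rho 2)) ≤ k1 (3 - a j + (k-3) rho 2) - (2 Γ - 2)(1 + k1 - a j)`.
By `Fano.mu` with `i = 2` (`a 2 = 3`): `(3 - a j + (k-3) rho 2) Γ (V - 4) = 4 (K - Γ)²`; with `i = 1`: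
`(1 + k1 - a j) Γ (V - 2) = 2 (K - Γ)²` (`rho_one_mul`); `rho 1 (V - 2) = K - 2`, `k1 (V - 2) = (K-2)²` (`k1_mul`),
`(1 - rho 2)(V - 4) = V - K` (`rho_mul`).  Multiply by `Γ (V-2)(V-4) > 0`:
`Γ (K-2) n (V - K) ≤ 4 (K-Γ)² [(K-2)² - (Γ - 1)(V - 4)]`.
`V - K = K (K-Γ)/Γ`, and `(K-2)² - (Γ-1)(V-4) = V - 4 K + 4 Γ = (K - 2 Γ)²/Γ` (use `Γ V = K²`).  So, after
multiplying by `Γ` and dividing by `K - Γ > 0`:  `Γ (K-2) K n ≤ 4 (K-Γ)(K - 2 Γ)²`.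
`(K - 2 Γ)² < K (K-2)`: iff `2 K + 4 Γ² < 4 Γ K`; `2 K ≤ Γ K` and `4 Γ² ≤ Γ K`, so `2 K + 4 Γ² ≤ 2 Γ K < 4 Γ K`.
So `Γ n < 4 (K - Γ) = 4 (k - a j)`.  Both sides are natural numbers (`a_nat`, `k_nat`; `(nfl C y).card` is one), so
`Γ n + 1 ≤ 4 (k - a j)`.
-/

open Set

namespace Pool.Agent.H92.PX

open Pool.Agent.H63 Pool.Agent.H63.PD Pool.Agent.H69.Pmd

set_option linter.unusedSectionVars false

variable {α : Type*} [Fintype α] {C : PD α} {e : ℕ → ℕ} {j : ℕ}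

theorem fnb (h : Fano C e j) {y : α} (hy : y ∈ C.out C.F₀) :
    (C.a j + 1) * ((nfl C y).card : ℝ) + 1 ≤ 4 * (C.k - C.a j) := by
  have hjm := h.hjm
  have hj := h.hj
  obtain ⟨n, hn⟩ : ∃ n : ℝ, n = ((nfl C y).card : ℝ) := ⟨_, rfl⟩
  have hnfb := nfb (C := C) h.two hjm hy
  have hnext := fq_next h
  have hΓ1 : 1 ≤ C.a j := C.a_pos hj (by omega)
  have hquad := h.quad
  have hvk := h.vk
  have hkv := C.k_lt_v
  have m2 := h.mu (i := 2) (by omega)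
  have m1 := h.mu (i := 1) (by omega)
  have r1 := rho_mul (C := C) (i := 1) (by omega)
  have r2 := rho_mul (C := C) (i := 2) (by omega)
  have k1m := k1_mul (C := C)
  have r1k := rho_one_mul (C := C)
  rw [h.two] at m2 r2
  rw [C.a_one] at m1 r1
  rw [r1k] at m1
  rw [← hn] at hnfb ⊢
  -- positivity
  obtain ⟨Γ, hΓ⟩ : ∃ Γ, Γ = C.a j + 1 := ⟨_, rfl⟩
  obtain ⟨K, hK⟩ : ∃ K, K = C.k + 1 := ⟨_, rfl⟩
  obtain ⟨V, hV⟩ : ∃ V, V = C.v + 1 := ⟨_, rfl⟩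
  have eΓ : C.a j = Γ - 1 := by rw [hΓ]; ring
  have eK : C.k = K - 1 := by rw [hK]; ring
  have eV : C.v = V - 1 := by rw [hV]; ring
  have eN : C.a (j + 1) = 2 * Γ - 1 := by rw [hΓ]; linarith
  rw [eN, eΓ, eK] at hnfb
  rw [eΓ, eK, eV] at m1 m2
  rw [eK, eV] at r1 r2 k1m hkv
  rw [eΓ, eK, eV] at hvk
  rw [eΓ, eK] at hquad
  rw [eΓ] at hΓ1
  obtain ⟨ρ1, hρ1⟩ : ∃ ρ1, ρ1 = C.rho 1 := ⟨_, rfl⟩
  obtain ⟨ρ2, hρ2⟩ : ∃ ρ2, ρ2 = C.rho 2 := ⟨_, rfl⟩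
  obtain ⟨κ, hκ⟩ : ∃ κ, κ = C.k1 := ⟨_, rfl⟩
  rw [← hρ1] at r1
  rw [← hρ2] at r2 m2
  rw [← hκ] at m1 k1m
  rw [← hρ1, ← hρ2, ← hκ] at hnfb
  have hΓ2 : 2 ≤ Γ := by linarith
  have hK8 : 8 ≤ K := by linarith
  have hVK : K < V := by linarith
  have hΓV : Γ * V = K ^ 2 := by linarith
  have hpos : 0 < Γ * ((V - 2) * (V - 4)) :=
    mul_pos (by linarith) (mul_pos (by linarith) (by linarith))
  have e1 := mul_le_mul_of_nonneg_right hnfb hpos.le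
  have e2 : ρ1 * (n * (1 - ρ2)) * (Γ * ((V - 2) * (V - 4))) = Γ * n * ((K - 2) * (V - K)) := by
    have a1 : ρ1 * (V - 2) = K - 2 := by linarith
    have a2 : (1 - ρ2) * (V - 4) = V - K := by linarith
    rw [← a1, ← a2]
    ring
  have e3 : (κ * (3 - (Γ - 1) + (K - 1 - 3) * ρ2) - (2 * Γ - 1 - 1) * (1 + κ - (Γ - 1))) *
      (Γ * ((V - 2) * (V - 4))) =
      4 * (K - Γ) ^ 2 * ((K - 2) ^ 2 - (Γ - 1) * (V - 4)) := by
    have a1 : κ * (V - 2) = (K - 2) ^ 2 := by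
      have : κ * (V - 2) = κ * (V - 1 - 1) := by ring
      rw [this, k1m]
      ring
    have a2 : (3 - (Γ - 1) + (K - 1 - 3) * ρ2) * (Γ * (V - 4)) = 4 * (K - Γ) ^ 2 := by
      linear_combination m2
    have a3 : (1 + κ - (Γ - 1)) * (Γ * (V - 2)) = 2 * (K - Γ) ^ 2 := by
      linear_combination m1
    have a4 : (κ * (3 - (Γ - 1) + (K - 1 - 3) * ρ2) - (2 * Γ - 1 - 1) * (1 + κ - (Γ - 1))) *
      (Γ * ((V - 2) * (V - 4))) = (κ * (V - 2)) * ((3 - (Γ - 1) + (K - 1 - 3) * ρ2) * (Γ * (V - 4)))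
        - (2 * Γ - 2) * (V - 4) * ((1 + κ - (Γ - 1)) * (Γ * (V - 2))) := by ring
    rw [a4, a1, a2, a3]
    ring
  rw [e2, e3] at e1
  have e4 := mul_le_mul_of_nonneg_left e1 (show 0 ≤ Γ by linarith)
  have e5 : Γ * (Γ * n * ((K - 2) * (V - K))) = Γ * n * ((K - 2) * K) * (K - Γ) := by
    have : Γ * (V - K) = K * (K - Γ) := by linear_combination hΓV
    calc Γ * (Γ * n * ((K - 2) * (V - K))) = Γ * n * (K - 2) * (Γ * (V - K)) := by ring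
      _ = _ := by rw [this]; ring
  have e6 : Γ * (4 * (K - Γ) ^ 2 * ((K - 2) ^ 2 - (Γ - 1) * (V - 4))) =
      4 * (K - Γ) * (K - 2 * Γ) ^ 2 * (K - Γ) := by
    have : Γ * ((K - 2) ^ 2 - (Γ - 1) * (V - 4)) = (K - 2 * Γ) ^ 2 := by
      linear_combination (-(Γ - 1)) * hΓV
    calc Γ * (4 * (K - Γ) ^ 2 * ((K - 2) ^ 2 - (Γ - 1) * (V - 4)))
        = 4 * (K - Γ) ^ 2 * (Γ * ((K - 2) ^ 2 - (Γ - 1) * (V - 4))) := by ring
      _ = _ := by rw [this]; ring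
  rw [e5, e6] at e4
  have hKΓ : 0 < K - Γ := by linarith
  have e7 := le_of_mul_le_mul_right e4 hKΓ
  have hKK : 0 < (K - 2) * K := mul_pos (by linarith) (by linarith)
  have e8 : (K - 2 * Γ) ^ 2 < (K - 2) * K := by
    nlinarith [mul_nonneg (show 0 ≤ Γ - 2 by linarith) (show 0 ≤ K by linarith),
      mul_nonneg (show 0 ≤ Γ by linarith) (show 0 ≤ K - 4 * Γ by linarith),
      mul_pos (show 0 < Γ by linarith) (show 0 < K by linarith)]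
  have e9 : Γ * n * ((K - 2) * K) < 4 * (K - Γ) * ((K - 2) * K) :=
    e7.trans_lt (mul_lt_mul_of_pos_left e8 (by linarith))
  have e10 : Γ * n < 4 * (K - Γ) := lt_of_mul_lt_mul_right e9 hKK.le
  -- integrality
  obtain ⟨A, hA⟩ := a_nat (C := C) (i := j) (by omega)
  obtain ⟨B, hB⟩ := k_nat (C := C)
  have f1 : (((A + 1) * (nfl C y).card + 4 * A : ℕ) : ℝ) < ((4 * B : ℕ) : ℝ) := by
    push_cast
    rw [← hA, ← hB, ← hn, eΓ, eK]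
    linarith
  have f2 : (A + 1) * (nfl C y).card + 4 * A + 1 ≤ 4 * B := by
    have : (A + 1) * (nfl C y).card + 4 * A < 4 * B := by exact_mod_cast f1
    omega
  have f3 : (((A + 1) * (nfl C y).card + 4 * A + 1 : ℕ) : ℝ) ≤ ((4 * B : ℕ) : ℝ) := by
    exact_mod_cast f2
  push_cast at f3
  rw [← hA, ← hB, ← hn] at f3
  linarith

end Pool.Agent.H92.PX
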