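import Pool.Agent.H92.PX.GeoD

/-!
# FQQ: in the Fano case `e i = i` for `i ≤ j + 1`

Write `Γ = a j + 1`, `Q = a (j+1) + 1`, `K = k + 1`, `V = v + 1`; `V Γ = K²` (`Fano.vk`), `K ≥ 4 Γ` (`Fano.quad`),
`K ≤ V`.
(1) `window` with `t = j`: `0 ≤ k0 (1 + k1 - a j - a (j+1)) + a j a (j+1)`, i.e.
`a (j+1) (k0 - a j) ≤ k0 (1 + k1 - a j)`.  `Fano.mu` with `i = 0` (`a 0 = 0`, `k rho 0 = k0` by `rho_zero_mul`):
`(k0 - a j) Γ v = (k - a j)²`; with `i = 1` (`a 1 = 1`, `(k-1) rho 1 = k1` by `rho_one_mul`):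
`(1 + k1 - a j) Γ (v - 1) = 2 (k - a j)²`.  Here `k - a j > 0`, `v > 1`, `Γ > 0`.  So
`a (j+1) (v - 1) ≤ 2 k0 v = 2 k²` (`k0_mul`): `(Q - 1)(V - 2) ≤ 2 (K - 1)²`.
(2) Suppose `Q ≥ 4 Γ`.  Multiply by `Γ`: `(4 Γ - 1)(K² - 2 Γ) ≤ 2 Γ (K-1)²` (`V ≥ 2`), so
`(2 Γ - 1) K² + 4 Γ K - 8 Γ² ≤ 0`; but `(2 Γ - 1) K² ≥ Γ * 16 Γ²  ≥ 16 Γ² > 8 Γ²` (`Γ ≥ 1`): contradiction.
So `Q < 4 Γ`, i.e. `2^(e (j+1)) < 2^(e j + 2)` (`Fano.size`), `e (j+1) ≤ e j + 1`; with `Fano.lt`: `=`.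
(3) By `Fano.inc` the differences `e (i+1) - e i` (`1 ≤ i ≤ j`) are nondecreasing, the last one (`i = j`) is 1, and all
are `≥ 1`; so all are 1 (descending induction: if `e (i+2) = e (i+1) + 1` then `e (i+1) ≤ e i + 1`).  With
`e 0 = 0`, `e 1 = 1`: `e i = i` for `i ≤ j + 1`.
-/

open Set

namespace Pool.Agent.H92.PX

open Pool.Agent.H63 Pool.Agent.H63.PD Pool.Agent.H69.Pmd

set_option linter.unusedSectionVars false

variable {α : Type*} [Fintype α] {C : PD α} {e : ℕ → ℕ} {j : ℕ}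

/-- `a (j+1) (v-1) ≤ 2 k²` -/
theorem Fqq_one (h : Fano C e j) : C.a (j + 1) * (C.v - 1) ≤ 2 * C.k ^ 2 := by
  have hjm := h.hjm
  have hj := h.hj
  have hw := window (C := C) hjm
  have m0 := h.mu (i := 0) (by omega)
  have m1 := h.mu (i := 1) (by omega)
  rw [C.a_zero, sub_zero, sub_zero, rho_zero_mul] at m0
  rw [C.a_one, rho_one_mul] at m1
  have hk := k0_mul (C := C)
  have hv := C.v_pos
  have hkv := C.k_lt_v
  have h1k := a_one_lt_k (C := C)
  have haj : C.a j < C.k := C.a_lt (by omega) (by omega)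
  have ha1 : 1 ≤ C.a j := C.a_pos hj (by omega)
  have hD : 0 < (C.k - C.a j) ^ 2 := by
    have : 0 < C.k - C.a j := by linarith
    positivity
  obtain ⟨A, hA⟩ : ∃ A, A = C.a (j + 1) := ⟨_, rfl⟩
  rw [← hA] at hw ⊢
  have h1 : A * (C.k0 - C.a j) ≤ C.k0 * (1 + C.k1 - C.a j) := by linarith
  have hpos : 0 ≤ (C.a j + 1) * C.v * (C.v - 1) := by
    have e1 : 0 ≤ C.a j + 1 := by linarith
    have e2 : 0 ≤ C.v := by linarith
    have e3 : 0 ≤ C.v - 1 := by linarith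
    positivity
  have h2 := mul_le_mul_of_nonneg_right h1 hpos
  have h3 : A * (C.k0 - C.a j) * ((C.a j + 1) * C.v * (C.v - 1)) =
      (A * (C.v - 1)) * (C.k - C.a j) ^ 2 := by
    linear_combination A * (C.v - 1) * m0
  have h4 : C.k0 * (1 + C.k1 - C.a j) * ((C.a j + 1) * C.v * (C.v - 1)) =
      (2 * C.k ^ 2) * (C.k - C.a j) ^ 2 := by
    linear_combination C.k0 * C.v * m1 + 2 * (C.k - C.a j) ^ 2 * hk
  rw [h3, h4] at h2
  exact le_of_mul_le_mul_right h2 hD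

theorem Fqq_real {G K V Q : ℝ} (hG : 1 ≤ G) (hK : 4 * G ≤ K) (hV : V * G = K ^ 2)
    (hV2 : 2 ≤ V) (h : (Q - 1) * (V - 2) ≤ 2 * (K - 1) ^ 2) : Q < 4 * G := by
  by_contra hcon
  push Not at hcon
  have h1 : (4 * G - 1) * (V - 2) ≤ 2 * (K - 1) ^ 2 :=
    (mul_le_mul_of_nonneg_right (by linarith) (by linarith)).trans h
  have h2 : (4 * G - 1) * (V - 2) * G ≤ 2 * (K - 1) ^ 2 * G :=
    mul_le_mul_of_nonneg_right h1 (by linarith)
  have h3 : (4 * G - 1) * (V - 2) * G = (4 * G - 1) * (K ^ 2 - 2 * G) := by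
    linear_combination (4 * G - 1) * hV
  have h4 : (2 * G - 1) * K ^ 2 + 4 * G * K - 8 * G ^ 2 ≤ 0 := by
    rw [h3] at h2
    linarith
  have h5 : G * (4 * G) ^ 2 ≤ (2 * G - 1) * K ^ 2 :=
    mul_le_mul (by linarith) (pow_le_pow_left₀ (by linarith) hK 2) (by positivity) (by linarith)
  have h6 : 4 * G * (4 * G) ≤ 4 * G * K := mul_le_mul_of_nonneg_left hK (by linarith)
  have h7 : 0 ≤ G * (4 * G) ^ 2 := by positivity
  nlinarith

theorem fq (h : Fano C e j) : ∀ i, i ≤ j + 1 → e i = i := by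
  have hjm := h.hjm
  have hj := h.hj
  have ha1 : 1 ≤ C.a j := C.a_pos hj (by omega)
  have h1 := Fqq_one h
  have hQ : C.a (j + 1) + 1 < 4 * (C.a j + 1) := by
    have hv1 : 1 ≤ C.v := C.v_pos
    refine Fqq_real (K := C.k + 1) (V := C.v + 1) (by linarith) h.quad h.vk (by linarith) ?_
    rw [show C.a (j + 1) + 1 - 1 = C.a (j + 1) by ring, show C.v + 1 - 2 = C.v - 1 by ring,
      show C.k + 1 - 1 = C.k by ring]
    exact h1
  have hlast : e (j + 1) ≤ e j + 1 := by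
    rw [h.size _ (by omega), h.size _ (by omega)] at hQ
    have h2 : (2 : ℝ) ^ e (j + 1) < 2 ^ (e j + 2) := by
      rw [pow_add]
      linarith
    have h3 := (pow_lt_pow_iff_right₀ (by norm_num : (1 : ℝ) < 2)).1 h2
    omega
  have hstep : ∀ n, n + 1 ≤ j → e (j - n + 1) ≤ e (j - n) + 1 := by
    intro n
    induction n with
    | zero =>
      intro _
      exact hlast
    | succ n ih =>
      intro hn
      have h2 := ih (by omega)
      have h3 := h.inc (j - (n + 1)) (by omega) (by omega)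
      have e1 : j - (n + 1) + 1 = j - n := by omega
      have e2 : j - (n + 1) + 2 = j - n + 1 := by omega
      rw [e1, e2] at h3
      rw [e1]
      omega
  intro i
  induction i with
  | zero => intro _; exact h.e0
  | succ i ih =>
    intro hi
    rcases Nat.eq_zero_or_pos i with rfl | h0
    · exact h.e1
    · have h2 := ih (by omega)
      have h3 := hstep (j - i) (by omega)
      rw [show j - (j - i) = i by omega] at h3
      have h4 := h.lt i (by omega)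
      omega

/-- the sizes -/
theorem fq_size (h : Fano C e j) {i : ℕ} (hi : i ≤ j + 1) : C.a i + 1 = (2 : ℝ) ^ i := by
  have hjm := h.hjm
  rw [h.size i (by omega), fq h i hi]

theorem fq_next (h : Fano C e j) : C.a (j + 1) + 1 = 2 * (C.a j + 1) := by
  rw [fq_size h le_rfl, fq_size h (by omega), pow_succ]
  ring

end Pool.Agent.H92.PX
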