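import Mathlib

/-!
# GEO: subspaces of a finite projective geometry (Mathlib only)

`P` is a finite set of points, `line x y` the line through two different points (`h1`, `h2`), all lines have
`q + 1` points (`h3`), and `h4` is a form of the axiom of Veblen and Young.  A set `T` of points is called
closed if `line x y ⊆ T` for all different `x, y ∈ T`.

Claim: for every closed `T ⊆ S` with `(q-1) |T| + 1 = q^e` for some `e`, there is `e'` with
`(q-1) |S| + 1 = q^e'`.  (Start: `T = ∅`, `e = 0`.)  Proof by strong induction on `(S \ T).card`.  If `T = S` this is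
clear.  Otherwise let `p ∈ S \ T` and `T' = insert p (T.biUnion (fun t => line p t))`.
(1) `T ⊆ T'` (`t ∈ line p t`), `p ∈ T'`, and `T' ⊆ S` (`S` is closed, `p, t ∈ S`).
(2) `|T'| = 1 + q |T|`: `T'` is the disjoint union of `{p}` and the sets `(line p t).erase p` (`t ∈ T`), which have `q`
elements each.  They are disjoint: if `x ∈ line p t`, `x ∈ line p t'`, `x ≠ p`, `t ≠ t'`, then by `h2`
`line p x = line p t = line p t'`, which contains `t, t'`, so `line t t' = line p t ∋ p`, and `line t t' ⊆ T` as `T` is
closed: `p ∈ T`, contradiction.  So `(q-1) |T'| + 1 = (q - 1) + 1 + q (q-1) |T| = q ((q-1) |T| + 1) = q^(e+1)`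
(`q ≥ 1`).
(3) `T'` is closed.  Let `x, y ∈ T'`, `x ≠ y`, `z ∈ line x y`; show `z ∈ T'`.  If `z = p` this is clear, let `z ≠ p`.
 * `x = p`: `y ≠ p`, so `y ∈ line p t` for some `t ∈ T`, `line p y = line p t` by `h2`, so `z ∈ line p t ⊆ T'`.
   `y = p`: the same with `line x y = line y x` (`h2`).
 * `x, y ≠ p`: `x ∈ line p t`, `y ∈ line p u` with `t, u ∈ T` (`t, u ≠ p`).  If `u ∈ line p t` then
   `line p u = line p t ∋ y`, so `line x y = line p t` by `h2`, `z ∈ line p t ⊆ T'`.  If `u ∉ line p t`: `h4` gives
   `w ∈ line t u` with `w ∈ line p z`; `t ≠ u` (`t ∈ line p t`), so `w ∈ T` (`T` closed), `w ≠ p`, and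
   `line p w = line p z ∋ z` (`h2`), so `z ∈ line p w ⊆ T'`.
(4) `T'` has more elements in `S` than `T`, so the induction hypothesis applies.
-/

namespace Pool.Agent.H92.PX

theorem geo_abs {P : Type*} [Fintype P] [DecidableEq P] (line : P → P → Finset P) {q : ℕ}
    (hq : 1 ≤ q) (h1 : ∀ x y, x ≠ y → x ∈ line x y ∧ y ∈ line x y)
    (h2 : ∀ x y z w, x ≠ y → z ≠ w → z ∈ line x y → w ∈ line x y → line z w = line x y)
    (h3 : ∀ x y, x ≠ y → (line x y).card = q + 1)
    (h4 : ∀ p t u x y z, p ≠ t → p ≠ u → u ∉ line p t → x ∈ line p t → y ∈ line p u → x ≠ p →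
      y ≠ p → z ∈ line x y → z ≠ p → ∃ w ∈ line t u, w ∈ line p z)
    (S : Finset P) (hS : ∀ x ∈ S, ∀ y ∈ S, x ≠ y → line x y ⊆ S) :
    ∃ e : ℕ, (q - 1) * S.card + 1 = q ^ e := by
  have key : ∀ n : ℕ, ∀ T : Finset P, T ⊆ S → (∀ x ∈ T, ∀ y ∈ T, x ≠ y → line x y ⊆ T) →
      (∃ e : ℕ, (q - 1) * T.card + 1 = q ^ e) → (S \ T).card = n →
      ∃ e : ℕ, (q - 1) * S.card + 1 = q ^ e := by
    intro n
    induction n using Nat.strong_induction_on with
    | _ n ih =>
      rintro T hTS hT ⟨e, he⟩ hn
      by_cases hTS' : T = S
      · exact ⟨e, hTS' ▸ he⟩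
      obtain ⟨p, hpS, hpT⟩ : ∃ p ∈ S, p ∉ T := by
        by_contra hcon
        push Not at hcon
        exact hTS' (Finset.Subset.antisymm hTS hcon)
      have hpt : ∀ t ∈ T, p ≠ t := by
        rintro t ht rfl
        exact hpT ht
      -- uniqueness of lines through `p`
      have hline : ∀ t x, p ≠ t → x ≠ p → x ∈ line p t → line p x = line p t :=
        fun t x ht hx hm => h2 p t p x ht (Ne.symm hx) (h1 p t ht).1 hm
      have hmem : ∀ x, x ∈ insert p (T.biUnion fun t => (line p t).erase p) ↔
          x = p ∨ ∃ t ∈ T, x ∈ line p t := by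
        intro x
        rw [Finset.mem_insert, Finset.mem_biUnion]
        constructor
        · rintro (h | ⟨t, ht, hx⟩)
          · exact Or.inl h
          · exact Or.inr ⟨t, ht, Finset.mem_of_mem_erase hx⟩
        · rintro (h | ⟨t, ht, hx⟩)
          · exact Or.inl h
          · by_cases hxp : x = p
            · exact Or.inl hxp
            · exact Or.inr ⟨t, ht, Finset.mem_erase.2 ⟨hxp, hx⟩⟩
      have hsubS : insert p (T.biUnion fun t => (line p t).erase p) ⊆ S := by
        intro x hx
        rcases (hmem x).1 hx with rfl | ⟨t, ht, hx⟩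
        · exact hpS
        · exact hS p hpS t (hTS ht) (hpt t ht) hx
      have hTsub : T ⊆ insert p (T.biUnion fun t => (line p t).erase p) := by
        intro t ht
        exact (hmem t).2 (Or.inr ⟨t, ht, (h1 p t (hpt t ht)).2⟩)
      have hcard : (insert p (T.biUnion fun t => (line p t).erase p)).card = T.card * q + 1 := by
        rw [Finset.card_insert_of_notMem]
        · rw [Finset.card_biUnion]
          · rw [Finset.sum_const_nat (m := q)]
            intro t ht
            rw [Finset.card_erase_of_mem (h1 p t (hpt t ht)).1, h3 p t (hpt t ht)]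
            rfl
          · intro t ht u hu htu
            have ht := Finset.mem_coe.1 ht
            have hu := Finset.mem_coe.1 hu
            show Disjoint ((line p t).erase p) ((line p u).erase p)
            rw [Finset.disjoint_left]
            intro x hx hx'
            have hxp := Finset.ne_of_mem_erase hx
            have e1 := hline t x (hpt t ht) hxp (Finset.mem_of_mem_erase hx)
            have e2 := hline u x (hpt u hu) hxp (Finset.mem_of_mem_erase hx')
            have e3 : u ∈ line p t := by
              rw [← e1, e2]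
              exact (h1 p u (hpt u hu)).2
            have e4 := h2 p t t u (hpt t ht) htu (h1 p t (hpt t ht)).2 e3
            apply hpT
            apply hT t ht u hu htu
            rw [e4]
            exact (h1 p t (hpt t ht)).1
        · intro h
          obtain ⟨t, ht, hx⟩ := Finset.mem_biUnion.1 h
          exact Finset.ne_of_mem_erase hx rfl
      have hclosed : ∀ x ∈ insert p (T.biUnion fun t => (line p t).erase p),
          ∀ y ∈ insert p (T.biUnion fun t => (line p t).erase p), x ≠ y →
          line x y ⊆ insert p (T.biUnion fun t => (line p t).erase p) := by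
        intro x hx y hy hxy z hz
        rw [hmem]
        by_cases hzp : z = p
        · exact Or.inl hzp
        right
        by_cases hxp : x = p
        · subst hxp
          rcases (hmem y).1 hy with h | ⟨t, ht, hyt⟩
          · exact absurd h.symm hxy
          · refine ⟨t, ht, ?_⟩
            rw [← hline t y (hpt t ht) (Ne.symm hxy) hyt]
            exact hz
        by_cases hyp : y = p
        · subst hyp
          rcases (hmem x).1 hx with h | ⟨t, ht, hxt⟩
          · exact absurd h hxy
          · refine ⟨t, ht, ?_⟩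
            rw [← hline t x (hpt t ht) hxy hxt]
            rw [h2 x y y x hxy (Ne.symm hxy) (h1 x y hxy).2 (h1 x y hxy).1]
            exact hz
        rcases (hmem x).1 hx with h | ⟨t, ht, hxt⟩
        · exact absurd h hxp
        rcases (hmem y).1 hy with h | ⟨u, hu, hyu⟩
        · exact absurd h hyp
        by_cases hut : u ∈ line p t
        · have e1 : line p u = line p t := hline t u (hpt t ht) (Ne.symm (hpt u hu)) hut
          rw [e1] at hyu
          refine ⟨t, ht, ?_⟩
          rw [← h2 p t x y (hpt t ht) hxy hxt hyu]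
          exact hz
        · obtain ⟨w, hw, hwz⟩ := h4 p t u x y z (hpt t ht) (hpt u hu) hut hxt hyu hxp hyp hz hzp
          have htu : t ≠ u := by
            rintro rfl
            exact hut (h1 p t (hpt t ht)).2
          have hwT := hT t ht u hu htu hw
          refine ⟨w, hwT, ?_⟩
          rw [h2 p z p w (Ne.symm hzp) (hpt w hwT) (h1 p z (Ne.symm hzp)).1 hwz]
          exact (h1 p z (Ne.symm hzp)).2
      refine ih _ ?_ _ hsubS hclosed ⟨e + 1, ?_⟩ rfl
      · rw [← hn]
        apply Finset.card_lt_card
        refine ⟨Finset.sdiff_subset_sdiff (Finset.Subset.refl S) hTsub, fun h => ?_⟩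
        have h5 : p ∈ S \ T := Finset.mem_sdiff.2 ⟨hpS, hpT⟩
        have h6 := Finset.mem_sdiff.1 (h h5)
        exact h6.2 ((hmem p).2 (Or.inl rfl))
      · rw [hcard, pow_succ, ← he]
        obtain ⟨r, rfl⟩ : ∃ r, q = r + 1 := ⟨q - 1, by omega⟩
        simp only [Nat.add_sub_cancel]
        ring
  exact key _ ∅ (by simp) (by simp) ⟨0, by simp⟩ rfl

end Pool.Agent.H92.PX
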