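import Pool.Agent.H92.PX.Basx
import Pool.Agent.H92.PX.Geo

/-!
# GEM: the sizes when `K (s+1) = K s`

Fix a flat `F` with `C.IsF s F` (`isF_base.exists_ge`), and `G ⊇ F` with `C.IsF i G`.  Let
`P = {x : Set α // C.IsF (s+1) x ∧ F ⊆ x}` (finite, classical) and
`line x y = univ.filter (fun z => z.1 ⊆ C.M.closure (x.1 ∪ y.1))`.  Write `L(x,y) = C.M.closure (x.1 ∪ y.1)`.
(0) For `x ≠ y`, `L(x,y)` is a flat of relative rank `s+2` containing `x, y`: choose `c ∈ y \ x`
(otherwise `y = x` by `IsF.eq_of_subset`); `y = jn F c` (`IsF.eq_jn`), so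
`L(x,y) = jn x c`: `⊇` clear (`closure_subset_flat`), `⊆` since `x ⊆ jn x c` and `y = jn F c ⊆ jn x c`
(`jn_subset`); `IsF.jn`.
Hence: (0') if `z ≠ w` are in `P` and contained in a flat `L` with `C.IsF (s+2) L` then `L(z,w) = L`
(`L(z,w) ⊆ L`, `IsF.eq_of_subset`).
(1) `h1` of `geo_abs` is clear (`subset_closure'`), `h2`: by (0').
(2) `h3`: `z ↦ z.1` is a bijection from `line x y` to `covers C.M F L(x,y)` (`mem_covers`; the rank is
`τ + s + 1`), which has `K s = q + 1` elements by `Siz_K`.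
(3) `h4`: given `p, t, u, x, y, z`.  `u ⊄ L(p,t)`; take `c ∈ u \ L(p,t)`, `Π = jn L(p,t) c`, relative rank `s+3`;
`u = jn F c ⊆ Π`.  So `L(p,t), L(p,u), L(t,u) ⊆ Π` (`t ≠ u` since `t ∈ line p t`).
`x ≠ y`: otherwise `L(p,t) = L(p,x) = L(p,u) ∋ u`.  `L(x,y) ⊆ Π`, so `z ⊆ Π`.
`p ⊄ L(t,u)`: otherwise `L(t,u) = L(p,t)` by (0'), which contains `u`.
The map `w ↦ L(p,w)` from `line t u` to `covers C.M p Π` (`w ≠ p` as `p ⊄ L(t,u)`; `p ⊆ L(p,w) ⊆ Π`) is injective: if
`L(p,w) = L(p,w')`, `w ≠ w'`, then both `w, w'` are in this flat, so it is `L(w,w') = L(t,u)` by (0') and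
contains `p`, contradiction.  `line t u` has `q + 1 = K s` elements, `covers C.M p Π` has `K (s+1) = K s`
elements (`Siz_K` with `i = s+1`), so the map is onto (`Finset.eq_of_subset_of_card_le` for the image).
`L(p,z) ∈ covers C.M p Π`, so there is `w ∈ line t u` with `L(p,w) = L(p,z)`, and `w ∈ line p z`.
(4) `S = univ.filter (fun x => x.1 ⊆ G)` is closed (`L(x,y) ⊆ G`, `closure_subset_flat`), and `S.card` is the
number of elements of `covers C.M F G`, so `S.card * (a (s+1) - a s) = a i - a s` by `gdy_card` (for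
`i = s`: `S` is empty; `gdy_card` covers this case too).
(5) `q ≥ 1`: `K s (a (s+1) - a s) = a (s+2) - a s > a (s+1) - a s` (`K_mul`), so `K s > 1`.  `geo_abs` gives `e`
with `(q - 1) S.card + 1 = q^e` in `ℕ`; cast to `ℝ` and multiply by `a (s+1) - a s`.
-/

open Set

namespace Pool.Agent.H92.PX

open Pool.Agent.H63 Pool.Agent.H63.PD Pool.Agent.H69.Pmd

set_option linter.unusedSectionVars false

variable {α : Type*} [Fintype α] {C : PD α}

/-- two different flats over `F` span a flat of the next rank -/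
theorem Gem_L {s : ℕ} {F x y : Set α} (hF : C.IsF s F) (hx : C.IsF (s + 1) x) (hFx : F ⊆ x)
    (hy : C.IsF (s + 1) y) (hFy : F ⊆ y) (hne : x ≠ y) :
    C.IsF (s + 2) (C.M.closure (x ∪ y)) := by
  have h1 : ¬ y ⊆ x := fun h => hne (hy.eq_of_subset hx h le_rfl).symm
  obtain ⟨c, hcy, hcx⟩ := not_subset.1 h1
  have h2 : C.jn F c = y := hF.eq_jn hy hFy hcy (fun h => hcx (hFx h))
  have h3 : C.IsF (s + 1 + 1) (C.jn x c) := hx.jn hcx
  have h4 : C.M.closure (x ∪ y) = C.jn x c := by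
    apply Subset.antisymm
    · refine closure_subset_flat h3.1 (union_subset (sub_jn x c) ?_)
      rw [← h2]
      exact jn_subset h3 (hFx.trans (sub_jn x c)) (mem_jn x c)
    · exact C.M.closure_subset_closure (insert_subset (Or.inr hcy) subset_union_left)
  rw [h4]
  exact h3

theorem Gem_left (x y : Set α) : x ⊆ C.M.closure (x ∪ y) :=
  subset_union_left.trans (subset_closure' C.ground _)

theorem Gem_right (x y : Set α) : y ⊆ C.M.closure (x ∪ y) :=
  subset_union_right.trans (subset_closure' C.ground _)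

theorem Gem_le {j : ℕ} {x y G : Set α} (hG : C.IsF j G) (hx : x ⊆ G) (hy : y ⊆ G) :
    C.M.closure (x ∪ y) ⊆ G := closure_subset_flat hG.1 (union_subset hx hy)

theorem Gem_eq {s : ℕ} {F x y G : Set α} (hF : C.IsF s F) (hx : C.IsF (s + 1) x) (hFx : F ⊆ x)
    (hy : C.IsF (s + 1) y) (hFy : F ⊆ y) (hne : x ≠ y) (hG : C.IsF (s + 2) G) (hxG : x ⊆ G)
    (hyG : y ⊆ G) : C.M.closure (x ∪ y) = G :=
  (Gem_L hF hx hFx hy hFy hne).eq_of_subset hG (Gem_le hG hxG hyG) le_rfl

/-- the points of the geometry -/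
abbrev Gem_P (C : PD α) (s : ℕ) (F : Set α) : Type _ := {x : Set α // C.IsF (s + 1) x ∧ F ⊆ x}

noncomputable instance Gem_fin (C : PD α) (s : ℕ) (F : Set α) : Fintype (Gem_P C s F) :=
  Fintype.ofFinite _

open Classical in
/-- the points in a flat -/
noncomputable def Gem_S (C : PD α) (s : ℕ) (F G : Set α) : Finset (Gem_P C s F) :=
  Finset.univ.filter fun z => z.1 ⊆ G

theorem Gem_mem {s : ℕ} {F G : Set α} {z : Gem_P C s F} : z ∈ Gem_S C s F G ↔ z.1 ⊆ G := by
  simp [Gem_S]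

theorem Gem_card {s : ℕ} {F G : Set α} (hF : C.IsF s F) :
    (Gem_S C s F G).card = (covers C.M F G).card := by
  classical
  rw [← Finset.card_map ⟨(Subtype.val : Gem_P C s F → Set α), Subtype.val_injective⟩]
  congr 1
  ext D
  rw [Finset.mem_map]
  constructor
  · rintro ⟨z, hz, rfl⟩
    rw [Gem_mem] at hz
    refine mem_covers.2 ⟨z.2.1.1, z.2.2, hz, ?_⟩
    show C.M.eRk z.1 = C.M.eRk F + 1
    rw [z.2.1.2.1, hF.2.1]
    push_cast
    rfl
  · intro hD
    obtain ⟨h1, h2, h3⟩ := gdy_cov hF hD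
    exact ⟨⟨D, h1, h2⟩, Gem_mem.2 h3, rfl⟩

theorem geo_sizes {s : ℕ} (hs : s + 1 ≤ C.m + 3) (hK : C.K (s + 1) = C.K s) {q : ℕ}
    (hq : C.K s = (q : ℝ) + 1) {i : ℕ} (hsi : s ≤ i) (hi : i ≤ C.m + 5) :
    ∃ e : ℕ, ((q : ℝ) - 1) * (C.a i - C.a s) + (C.a (s + 1) - C.a s) =
      (C.a (s + 1) - C.a s) * (q : ℝ) ^ e := by
  classical
  obtain ⟨F, hF, -⟩ := (isF_base (C := C)).exists_ge (Nat.zero_le s) (by omega)
  obtain ⟨G, hG, hFG⟩ := hF.exists_ge hsi hi
  -- `q ≥ 1`
  have hd : C.a s < C.a (s + 1) := C.a_lt (by omega) (by omega)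
  have hq1 : 1 ≤ q := by
    rcases Nat.eq_zero_or_pos q with h | h
    · exfalso
      have h1 := K_mul (C := C) (i := s) (by omega)
      have h2 : C.a (s + 1) < C.a (s + 2) := C.a_lt (by omega) (by omega)
      rw [hq, h] at h1
      push_cast at h1
      linarith
    · exact h
  have hL : ∀ x y : Gem_P C s F, x ≠ y → C.IsF (s + 2) (C.M.closure (x.1 ∪ y.1)) :=
    fun x y hne => Gem_L hF x.2.1 x.2.2 y.2.1 y.2.2 (fun h => hne (Subtype.ext h))
  have hE : ∀ (x y : Gem_P C s F) (D : Set α), x ≠ y → C.IsF (s + 2) D → x.1 ⊆ D → y.1 ⊆ D →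
      C.M.closure (x.1 ∪ y.1) = D :=
    fun x y D hne hD h1 h2 => Gem_eq hF x.2.1 x.2.2 y.2.1 y.2.2
      (fun h => hne (Subtype.ext h)) hD h1 h2
  have h3 : ∀ x y : Gem_P C s F, x ≠ y →
      (Gem_S C s F (C.M.closure (x.1 ∪ y.1))).card = q + 1 := by
    intro x y hne
    rw [Gem_card hF]
    have h := Siz_K (C := C) (i := s) (by omega) hF.1 (hL x y hne).1 hF.2.1 (hL x y hne).2.1
      (x.2.2.trans (Gem_left x.1 y.1))
    rw [hq] at h
    exact_mod_cast h.symm
  obtain ⟨e, he⟩ := geo_abs (P := Gem_P C s F)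
    (fun x y => Gem_S C s F (C.M.closure (x.1 ∪ y.1))) hq1
    (fun x y _ => ⟨Gem_mem.2 (Gem_left x.1 y.1), Gem_mem.2 (Gem_right x.1 y.1)⟩)
    (by
      intro x y z w hxy hzw hz hw
      rw [Gem_mem] at hz hw
      rw [hE z w _ hzw (hL x y hxy) hz hw])
    h3
    (by
      intro p t u x y z hpt hpu hu hx hy hxp hyp hz hzp
      rw [Gem_mem] at hu hx hy hz
      have hLpt := hL p t hpt
      have hLpu := hL p u hpu
      obtain ⟨c, hcu, hc⟩ := not_subset.1 hu
      have hFL : F ⊆ C.M.closure (p.1 ∪ t.1) := p.2.2.trans (Gem_left p.1 t.1)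
      have hQF : C.IsF (s + 2 + 1) (C.jn (C.M.closure (p.1 ∪ t.1)) c) := hLpt.jn hc
      obtain ⟨Q, hQ⟩ : ∃ Q, Q = C.jn (C.M.closure (p.1 ∪ t.1)) c := ⟨_, rfl⟩
      rw [← hQ] at hQF
      have hLQ : C.M.closure (p.1 ∪ t.1) ⊆ Q := by
        rw [hQ]
        exact sub_jn _ _
      have hcQ : c ∈ Q := by
        rw [hQ]
        exact mem_jn _ _
      have huj : C.jn F c = u.1 := hF.eq_jn u.2.1 u.2.2 hcu (fun h => hc (hFL h))
      have huQ : u.1 ⊆ Q := by
        rw [← huj]
        exact jn_subset hQF (hFL.trans hLQ) hcQ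
      have hpQ : p.1 ⊆ Q := (Gem_left p.1 t.1).trans hLQ
      have htQ : t.1 ⊆ Q := (Gem_right p.1 t.1).trans hLQ
      have htu : t ≠ u := by
        rintro rfl
        exact hu (Gem_right p.1 t.1)
      have hpx : C.M.closure (p.1 ∪ x.1) = C.M.closure (p.1 ∪ t.1) :=
        hE p x _ (Ne.symm hxp) hLpt (Gem_left _ _) hx
      have hpy : C.M.closure (p.1 ∪ y.1) = C.M.closure (p.1 ∪ u.1) :=
        hE p y _ (Ne.symm hyp) hLpu (Gem_left _ _) hy
      have hxy : x ≠ y := by
        rintro rfl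
        apply hu
        rw [← hpx, hpy]
        exact Gem_right _ _
      have hxQ : x.1 ⊆ Q := hx.trans hLQ
      have hyQ : y.1 ⊆ Q := hy.trans (Gem_le hQF hpQ huQ)
      have hzQ : z.1 ⊆ Q := hz.trans (Gem_le hQF hxQ hyQ)
      have hptu : ¬ p.1 ⊆ C.M.closure (t.1 ∪ u.1) := by
        intro h
        have h1 := hE p t _ hpt (hL t u htu) h (Gem_left _ _)
        apply hu
        rw [h1]
        exact Gem_right _ _
      have hmem : ∀ w : Gem_P C s F, w ≠ p → w.1 ⊆ Q →
          C.M.closure (p.1 ∪ w.1) ∈ covers C.M p.1 Q := by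
        intro w hwp hwQ
        have h1 := hL p w (Ne.symm hwp)
        refine mem_covers.2 ⟨h1.1, Gem_left _ _, Gem_le hQF hpQ hwQ, ?_⟩
        rw [h1.2.1, p.2.1.2.1]
        push_cast
        rw [add_assoc, add_assoc, one_add_one_eq_two]
      have himg : (Gem_S C s F (C.M.closure (t.1 ∪ u.1))).image
          (fun w => C.M.closure (p.1 ∪ w.1)) = covers C.M p.1 Q := by
        apply Finset.eq_of_subset_of_card_le
        · intro D hD
          obtain ⟨w, hw, rfl⟩ := Finset.mem_image.1 hD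
          rw [Gem_mem] at hw
          refine hmem w ?_ (hw.trans (Gem_le hQF htQ huQ))
          rintro rfl
          exact hptu hw
        · rw [Finset.card_image_of_injOn, h3 t u htu]
          · have h := Siz_K (C := C) (i := s + 1) hs p.2.1.1 hQF.1 p.2.1.2.1
              (by rw [hQF.2.1]; congr 1) hpQ
            rw [hK, hq] at h
            have h' : q + 1 = (covers C.M p.1 Q).card := by exact_mod_cast h
            exact h'.ge
          · intro w hw w' hw' hww
            have hw1 := Gem_mem.1 hw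
            have hw1' := Gem_mem.1 hw'
            by_contra hne
            have hwp : w ≠ p := by
              rintro rfl
              exact hptu hw1
            have h1 := hL p w (Ne.symm hwp)
            have hww' : C.M.closure (p.1 ∪ w.1) = C.M.closure (p.1 ∪ w'.1) := hww
            have h2 : w'.1 ⊆ C.M.closure (p.1 ∪ w.1) := by
              rw [hww']
              exact Gem_right _ _
            have h4 := hE w w' _ hne h1 (Gem_right _ _) h2
            have h5 := hE w w' _ hne (hL t u htu) hw1 hw1'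
            apply hptu
            rw [← h5, h4]
            exact Gem_left _ _
      have hzc := hmem z hzp hzQ
      rw [← himg] at hzc
      obtain ⟨w, hw, hwz⟩ := Finset.mem_image.1 hzc
      refine ⟨w, hw, Gem_mem.2 ?_⟩
      rw [← hwz]
      exact Gem_right _ _)
    (Gem_S C s F G)
    (by
      intro x hx y hy hxy z hz
      rw [Gem_mem] at hx hy hz ⊢
      exact hz.trans (Gem_le hG hx hy))
  rw [Gem_card hF] at he
  refine ⟨e, ?_⟩
  have hcard := gdy_card hF hG hFG (by omega) hsi hi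
  have he' : ((q : ℝ) - 1) * ((covers C.M F G).card : ℝ) + 1 = (q : ℝ) ^ e := by
    have := congrArg (Nat.cast : ℕ → ℝ) he
    push_cast [Nat.cast_sub hq1] at this
    exact this
  rw [← hcard, ← he']
  ring

end Pool.Agent.H92.PX
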