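import Pool.Agent.H92.PX.Basx

/-!
# GEOD: definitions (no proofs to do here)
-/

open Set

namespace Pool.Agent.H92.PX

open Pool.Agent.H63 Pool.Agent.H63.PD Pool.Agent.H69.Pmd

variable {α : Type*} [Fintype α]

/-- all sizes have the form `s * q ^ e - t` -/
structure GeoS (C : PD α) (q : ℕ) (e : ℕ → ℕ) (s t : ℝ) : Prop where
  two : 2 ≤ q
  pos : 0 < s
  size : ∀ i, 1 ≤ i → i ≤ C.m + 5 → C.a i = s * (q : ℝ) ^ (e i) - t

/-- the case `a 2 = 3`, all sizes are `2 ^ e - 1`, and `(v+1)(a j + 1) = (k+1)²` -/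
structure Fano (C : PD α) (e : ℕ → ℕ) (j : ℕ) : Prop where
  two : C.a 2 = 3
  size : ∀ i, i ≤ C.m + 5 → C.a i + 1 = (2 : ℝ) ^ (e i)
  e0 : e 0 = 0
  e1 : e 1 = 1
  e2 : e 2 = 2
  lt : ∀ i, i + 1 ≤ C.m + 5 → e i < e (i + 1)
  inc : ∀ i, 1 ≤ i → i + 2 ≤ C.m + 5 → e (i + 1) + e (i + 1) ≤ e i + e (i + 2)
  hj : 1 ≤ j
  hjm : j ≤ C.m + 2
  loc : e j + e (C.m + 5) = 2 * e (C.m + 4)

namespace Fano

variable {C : PD α} {e : ℕ → ℕ} {j : ℕ}

theorem vk (h : Fano C e j) : (C.v + 1) * (C.a j + 1) = (C.k + 1) ^ 2 := by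
  have hjm := h.hjm
  rw [PD.v, PD.k, h.size _ le_rfl, h.size _ (show C.m + 4 ≤ C.m + 5 by omega),
    h.size _ (show j ≤ C.m + 5 by omega), ← pow_add, ← pow_mul, add_comm, h.loc]
  congr 1
  ring

theorem dbl (h : Fano C e j) {i i' : ℕ} (hii : i < i') (hi : i' ≤ C.m + 5) :
    2 * (C.a i + 1) ≤ C.a i' + 1 := by
  induction i', hii using Nat.le_induction with
  | base =>
    have h1 := h.lt i (by omega)
    rw [h.size i (by omega), h.size (i + 1) hi]
    calc (2 : ℝ) * 2 ^ e i = 2 ^ (e i + 1) := by rw [pow_succ]; ring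
      _ ≤ 2 ^ e (i + 1) := pow_le_pow_right₀ (by norm_num) h1
  | succ n hn ih =>
    have h1 := C.a_lt (show n < n + 1 by omega) hi
    have h2 := ih (by omega)
    linarith

theorem quad (h : Fano C e j) : 4 * (C.a j + 1) ≤ C.k + 1 := by
  have hjm := h.hjm
  have h1 := h.dbl (show j < j + 1 by omega) (by omega)
  have h2 := h.dbl (show j + 1 < j + 2 by omega) (by omega)
  have h3 : C.a (j + 2) ≤ C.k := C.a_le (by omega) (by omega)
  linarith

/-- the means -/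
theorem mu (h : Fano C e j) {i : ℕ} (hi : i ≤ C.m + 3) :
    (C.a i - C.a j + (C.k - C.a i) * C.rho i) * ((C.a j + 1) * (C.v - C.a i)) =
      (C.a i + 1) * (C.k - C.a j) ^ 2 := by
  have h1 := rho_mul (C := C) hi
  have h2 := h.vk
  have h3 : (C.a i - C.a j + (C.k - C.a i) * C.rho i) * ((C.a j + 1) * (C.v - C.a i)) =
      (C.a j + 1) * ((C.a i - C.a j) * (C.v - C.a i) +
        (C.k - C.a i) * (C.rho i * (C.v - C.a i))) := by ring
  rw [h3, h1]
  linear_combination (C.a i - C.a j) * h2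

end Fano

end Pool.Agent.H92.PX
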