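import Pool.Agent.H92.PX.GeoD
import Pool.Agent.H92.PX.Gem

/-!
# GIN: exponents

`geoS_lt`: `a i < a (i+1)` (`a_lt`) gives `q^(e i) < q^(e (i+1))` (`s > 0`), so `e i < e (i+1)`
(`pow_lt_pow_iff_right₀`, `q ≥ 2`).

`geoS_inc`: `K i` is a natural number `n` (`K_nat`) and `n (a (i+1) - a i) = a (i+2) - a i` (`K_mul`).  Divide by
`s q^(e i)`: with `x = e (i+1) - e i ≥ 1`, `y = e (i+2) - e i > x`: `n (q^x - 1) = q^y - 1` (in `ℝ`, so in `ℕ`).
So `q^x - 1` divides `q^y - 1`, their gcd is `q^x - 1`, and by `Nat.pow_sub_one_gcd_pow_sub_one` it is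
`q^(gcd x y) - 1`; so `gcd x y = x` (`Nat.pow_right_injective`), `x ∣ y`, and `y > x` gives `y ≥ 2 x`
(`y = x c`, `c ≥ 2`).  That is the claim.

`geo_pg`: `K 0 = a 2` is a natural number `q + 1` (`K_nat`, `K_zero`), `q ≥ 2`.  `geo_sizes` with `s = 0` (`a 0 = 0`, `a 1 = 1`,
`K 1 = K 0`): for every `i ≤ m+5` there is `e i` with `(q - 1) a i + 1 = q^(e i)` (`choose`, or define `e` with
`if h : i ≤ m+5 then ... else 0`).  `e 1`: `q = q^(e 1)`; `e 2`: `(q-1)(q+1) + 1 = q² = q^(e 2)`.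

`geo_ag`: `K 1 = a 2 + 1`; let `q` be the natural number `a 2` (`a_nat`), so `K 1 = q + 1`.  `geo_sizes` with `s = 1`
(`K 2 = K 1`): `(q - 1)(a i - 1) + (q - 1) = (q - 1) q^(e i)`, so `a i = q^(e i)` for `1 ≤ i ≤ m+5` (`q ≥ 2`).
`e 1`: `1 = q^(e 1)`; `e 2`: `q = q^(e 2)`.
-/

open Set

namespace Pool.Agent.H92.PX

open Pool.Agent.H63 Pool.Agent.H63.PD Pool.Agent.H69.Pmd

set_option linter.unusedSectionVars false

private theorem Gin_nt {q x y n : ℕ} (hq : 2 ≤ q) (hxy : x < y)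
    (h : (n : ℝ) * ((q : ℝ) ^ x - 1) = (q : ℝ) ^ y - 1) : x + x ≤ y := by
  have h1 : ∀ z : ℕ, 1 ≤ q ^ z := fun z => Nat.one_le_pow _ _ (by omega)
  have h2 : n * (q ^ x - 1) = q ^ y - 1 := by
    have h3 : ((n * (q ^ x - 1) : ℕ) : ℝ) = ((q ^ y - 1 : ℕ) : ℝ) := by
      rw [Nat.cast_mul, Nat.cast_sub (h1 x), Nat.cast_sub (h1 y)]
      push_cast
      exact h
    exact_mod_cast h3
  have h3 : (q ^ x - 1) ∣ (q ^ y - 1) := ⟨n, by rw [← h2, mul_comm]⟩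
  have h4 := Nat.pow_sub_one_gcd_pow_sub_one q x y
  rw [Nat.gcd_eq_left h3] at h4
  have h5 : q ^ x = q ^ (Nat.gcd x y) := by
    have a1 := h1 x
    have a2 := h1 (Nat.gcd x y)
    omega
  have h6 : x = Nat.gcd x y := Nat.pow_right_injective hq h5
  have h7 : x ∣ y := by rw [h6]; exact Nat.gcd_dvd_right x y
  obtain ⟨c, hc⟩ := h7
  rcases Nat.lt_or_ge c 2 with hc2 | hc2
  · interval_cases c
    · omega
    · omega
  · calc x + x = x * 2 := by ring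
      _ ≤ x * c := Nat.mul_le_mul_left x hc2
      _ = y := hc.symm

variable {α : Type*} [Fintype α] {C : PD α} {q : ℕ} {e : ℕ → ℕ} {s t : ℝ}

theorem geoS_lt (g : GeoS C q e s t) {i : ℕ} (h1 : 1 ≤ i) (hi : i + 1 ≤ C.m + 5) :
    e i < e (i + 1) := by
  have h2 := C.a_lt (show i < i + 1 by omega) hi
  rw [g.size i h1 (by omega), g.size (i + 1) (by omega) hi] at h2
  have h3 : s * (q : ℝ) ^ (e i) < s * (q : ℝ) ^ (e (i + 1)) := by linarith
  have h4 := lt_of_mul_lt_mul_left h3 g.pos.le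
  have h5 : (1 : ℝ) < q := by
    have := g.two
    exact_mod_cast this
  exact (pow_lt_pow_iff_right₀ h5).1 h4

theorem geoS_inc (g : GeoS C q e s t) {i : ℕ} (h1 : 1 ≤ i) (hi : i + 2 ≤ C.m + 5) :
    e (i + 1) + e (i + 1) ≤ e i + e (i + 2) := by
  obtain ⟨n, hn⟩ := K_nat (C := C) (i := i) (by omega)
  have h2 := K_mul (C := C) (i := i) (by omega)
  have h3 := geoS_lt g h1 (by omega)
  have h4 := geoS_lt g (i := i + 1) (by omega) (by omega)
  rw [show i + 1 + 1 = i + 2 from rfl] at h4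
  rw [hn, g.size i h1 (by omega), g.size (i + 1) (by omega) (by omega),
    g.size (i + 2) (by omega) (by omega)] at h2
  obtain ⟨x, hx⟩ : ∃ x, e (i + 1) = e i + x := ⟨e (i + 1) - e i, by omega⟩
  obtain ⟨y, hy⟩ : ∃ y, e (i + 2) = e i + y := ⟨e (i + 2) - e i, by omega⟩
  have hq0 : (0 : ℝ) < q := by
    have := g.two
    exact_mod_cast (show 0 < q by omega)
  have h5 : (n : ℝ) * ((q : ℝ) ^ x - 1) = (q : ℝ) ^ y - 1 := by
    have h6 : 0 < s * (q : ℝ) ^ (e i) := mul_pos g.pos (pow_pos hq0 _)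
    apply mul_left_cancel₀ h6.ne'
    rw [hx, hy, pow_add, pow_add] at h2
    linear_combination h2
  have h7 := Gin_nt g.two (show x < y by omega) h5
  omega

theorem geo_pg (h3 : 3 ≤ C.a 2) (h : C.K 1 = C.a 2) :
    ∃ (q : ℕ) (e : ℕ → ℕ), (q : ℝ) + 1 = C.a 2 ∧
      GeoS C q e (1 / ((q : ℝ) - 1)) (1 / ((q : ℝ) - 1)) ∧ e 1 = 1 ∧ e 2 = 2 := by
  obtain ⟨n, hn⟩ := K_nat (C := C) (i := 0) (by omega)
  have hn' : C.a 2 = n := by rw [← K_zero]; exact hn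
  have hn3 : 3 ≤ n := by
    rw [hn'] at h3
    exact_mod_cast h3
  obtain ⟨q, rfl⟩ : ∃ q, n = q + 1 := ⟨n - 1, by omega⟩
  have hq2 : 2 ≤ q := by omega
  have hqR : (2 : ℝ) ≤ q := by exact_mod_cast hq2
  push_cast at hn hn'
  have h1 : ∀ i, ∃ e : ℕ, i ≤ C.m + 5 → ((q : ℝ) - 1) * C.a i + 1 = (q : ℝ) ^ e := by
    intro i
    by_cases hi : i ≤ C.m + 5
    · obtain ⟨e, he⟩ := geo_sizes (C := C) (s := 0) (by omega)
        (by rw [zero_add, h, K_zero]) (q := q) hn (Nat.zero_le i) hi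
      refine ⟨e, fun _ => ?_⟩
      rw [zero_add, C.a_one, C.a_zero] at he
      linarith
    · exact ⟨0, fun h => absurd h hi⟩
  choose e he using h1
  have hinj : ∀ a b : ℕ, (q : ℝ) ^ a = (q : ℝ) ^ b → a = b := by
    intro a b hab
    have : q ^ a = q ^ b := by exact_mod_cast hab
    exact Nat.pow_right_injective hq2 this
  refine ⟨q, e, hn'.symm, ⟨hq2, ?_, ?_⟩, ?_, ?_⟩
  · exact div_pos one_pos (by linarith)
  · intro i _ hi
    rw [← he i hi]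
    have : (q : ℝ) - 1 ≠ 0 := by linarith
    field_simp
    ring
  · apply hinj
    rw [← he 1 (by omega), C.a_one]
    ring
  · apply hinj
    rw [← he 2 (by omega), hn']
    ring

theorem geo_ag (h3 : 3 ≤ C.a 2) (h : C.K 1 = C.a 2 + 1) (h' : C.K 2 = C.a 2 + 1) :
    ∃ (q : ℕ) (e : ℕ → ℕ), (q : ℝ) = C.a 2 ∧ GeoS C q e 1 0 ∧ e 1 = 0 ∧ e 2 = 1 := by
  obtain ⟨q, hq⟩ := a_nat (C := C) (i := 2) (by omega)
  have hq3 : 3 ≤ q := by
    rw [hq] at h3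
    exact_mod_cast h3
  have hq2 : 2 ≤ q := by omega
  have hqR : (3 : ℝ) ≤ q := by exact_mod_cast hq3
  have h1 : ∀ i, ∃ e : ℕ, 1 ≤ i → i ≤ C.m + 5 → C.a i = (q : ℝ) ^ e := by
    intro i
    by_cases hi : 1 ≤ i ∧ i ≤ C.m + 5
    · obtain ⟨e, he⟩ := geo_sizes (C := C) (s := 1) (by omega)
        (by rw [h]; exact h') (q := q) (by rw [h, hq]) hi.1 hi.2
      refine ⟨e, fun _ _ => ?_⟩
      rw [show 1 + 1 = 2 from rfl, C.a_one, hq] at he
      have h4 : (0 : ℝ) < q - 1 := by linarith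
      apply mul_left_cancel₀ h4.ne'
      linarith
    · exact ⟨0, fun h1 h2 => absurd ⟨h1, h2⟩ hi⟩
  choose e he using h1
  have hinj : ∀ a b : ℕ, (q : ℝ) ^ a = (q : ℝ) ^ b → a = b := by
    intro a b hab
    have : q ^ a = q ^ b := by exact_mod_cast hab
    exact Nat.pow_right_injective hq2 this
  refine ⟨q, e, hq.symm, ⟨hq2, one_pos, ?_⟩, ?_, ?_⟩
  · intro i h1 hi
    rw [he i h1 hi]
    ring
  · apply hinj
    rw [← he 1 le_rfl (by omega), C.a_one, pow_zero]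
  · apply hinj
    rw [← he 2 (by omega) (by omega), hq, pow_one]

end Pool.Agent.H92.PX
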