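import Pool.Agent.H92.PX.Basx

/-!
# LN2: a quadratic inequality for `aa = (k-2) rho 2` in the low window

Write `l = a 2`, `μ = a 3`, `aa = (k - 2) rho 2`, `g = aa + 2 - l`, `cc = (k - l) rho 3`.
Take a line `L` with `2 ≤ b L` (`exists_line`), `e = b L ≤ l` (`IsF.b_le`).
(1) `growth` (`i = t = 2`): `(μ - e)(mu 2 L - l) ≤ rho 2 * ∑_{y ∈ out L} (mu 3 (jn L y) - l)`; by `hn`
`mu 3 (jn L y) - l = b' - l + (k - b') rho 3 ≤ (k - l) rho 3 = cc` (`rho_lt_one`), so the right side is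
`≤ rho 2 (k - e) cc = (aa - (e-2) rho 2) cc ≤ aa cc ≤ aa²` (`cc ≥ 0`; `cc ≤ aa` since `l ≥ 2`,
`rho 3 ≤ rho 2`).
(2) `mu 2 L - l = g + (e - 2)(1 - rho 2)`, and
`(μ - e)(g + (e-2)(1 - rho 2)) - (μ - 2) g = (e - 2)[(μ - e)(1 - rho 2) - g] ≥ 0`:
`g < k0 + 2 - l` (`aa_lt`) is `< 3` in both cases.
Case `l = 3`, `μ ≥ 9`: `rho 2 ≤ 1/2` (`v ≥ 2 k + 1` by `a_ge` at `m+4`, so `v - 3 ≥ 2 (k - 3)`),
`(μ - e)(1 - rho 2) ≥ 6/2 = 3`.
Case `l = 4`: `μ ≥ 3 * 4 + 1 = 13` (`a_ge`), `rho 2 ≤ 1/3`, `(μ - e)(1 - rho 2) ≥ 9 * (2/3) = 6`.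
So `(μ - 2) g ≤ aa²`.

`lw_real` (real numbers only): `φ(x) = (μ - 2)(x + 2 - l) - x²` is concave; `φ(l - 2 + s) = (μ-2) s - (l-2+s)² > 0`,
`φ(l+1) = 3 (μ-2) - (l+1)² > 0`; if `l - 2 + s ≤ x ≤ l + 1` then `φ(x) > 0` (for instance
`φ(x) (p - q) = φ(p)(x - q) + φ(q)(p - x) + (x - q)(p - x)(p - q)` with `p = l+1`, `q = l - 2 + s`; if
`p = q` then `x = p`), contradiction with `h`.
-/

open Set

namespace Pool.Agent.H92.PX

open Pool.Agent.H63 Pool.Agent.H63.PD Pool.Agent.H69.Pmd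

set_option linter.unusedSectionVars false

theorem lw_real {l μ x s : ℝ} (h : (μ - 2) * (x + 2 - l) ≤ x ^ 2) (h1 : l - 2 + s ≤ x)
    (h2 : x ≤ l + 1) (h3 : (l - 2 + s) ^ 2 < (μ - 2) * s) (h4 : (l + 1) ^ 2 < 3 * (μ - 2)) :
    False := by
  rcases h1.eq_or_lt with h5 | h5
  · have e : (μ - 2) * (x + 2 - l) = (μ - 2) * s := by rw [← h5]; ring
    rw [e, ← h5] at h
    linarith
  · obtain ⟨q, hq⟩ : ∃ q, q = l - 2 + s := ⟨_, rfl⟩
    obtain ⟨p, hp⟩ : ∃ p, p = l + 1 := ⟨_, rfl⟩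
    rw [← hq] at h5 h3
    rw [← hp] at h2 h4
    have e1 : 0 < (μ - 2) * (p + 2 - l) - p ^ 2 := by
      have : (μ - 2) * (p + 2 - l) = 3 * (μ - 2) := by rw [hp]; ring
      rw [this]
      linarith
    have e2 : 0 < (μ - 2) * (q + 2 - l) - q ^ 2 := by
      have : (μ - 2) * (q + 2 - l) = (μ - 2) * s := by rw [hq]; ring
      rw [this]
      linarith
    have e3 : ((μ - 2) * (x + 2 - l) - x ^ 2) * (p - q) =
        ((μ - 2) * (p + 2 - l) - p ^ 2) * (x - q) + ((μ - 2) * (q + 2 - l) - q ^ 2) * (p - x) +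
          (x - q) * (p - x) * (p - q) := by ring
    have e4 := mul_pos e1 (show 0 < x - q by linarith)
    have e5 := mul_nonneg e2.le (show 0 ≤ p - x by linarith)
    have e6 : 0 ≤ (x - q) * (p - x) * (p - q) :=
      mul_nonneg (mul_nonneg (by linarith) (by linarith)) (by linarith)
    have e7 : ((μ - 2) * (x + 2 - l) - x ^ 2) * (p - q) ≤ 0 :=
      mul_nonpos_of_nonpos_of_nonneg (by linarith) (by linarith)
    linarith

variable {α : Type*} [Fintype α] {C : PD α}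

theorem Ln2_rho (hL : (C.a 2 = 3 ∧ 9 ≤ C.a 3 ∧ C.k0 < 4) ∨ (C.a 2 = 4 ∧ C.k0 < 5)) {e : ℝ}
    (he : e ≤ C.a 2) : 3 ≤ (C.a 3 - e) * (1 - C.rho 2) := by
  have h1 := C.a_ge (i := C.m + 4) le_rfl
  have h2 : C.a (C.m + 4) = C.k := rfl
  have h3 : C.a (C.m + 4 + 1) = C.v := rfl
  rw [h2, h3] at h1
  have h4 := rho_mul (C := C) (i := 2) (by omega)
  have h5 := rho_pos (C := C) (i := 2) (by omega)
  have h6 := C.k_lt_v
  have h7 : C.a 2 < C.k := C.a_lt (by omega) (by omega)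
  have h8 := C.a_ge (i := 2) (by omega)
  rcases hL with ⟨a1, a2, -⟩ | ⟨a1, -⟩
  · rw [a1] at h1 h4 he h7
    have h9 : C.rho 2 ≤ 1 / 2 := by
      have h10 : C.rho 2 * (C.v - 3) ≤ 1 / 2 * (C.v - 3) := by
        rw [h4]
        linarith
      exact le_of_mul_le_mul_right h10 (by linarith)
    calc (3 : ℝ) = 6 * (1 / 2) := by norm_num
      _ ≤ (C.a 3 - e) * (1 - C.rho 2) :=
        mul_le_mul (by linarith) (by linarith) (by norm_num) (by linarith)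
  · rw [a1] at h1 h4 he h7 h8
    norm_num at h8
    have h9 : C.rho 2 ≤ 1 / 3 := by
      have h10 : C.rho 2 * (C.v - 4) ≤ 1 / 3 * (C.v - 4) := by
        rw [h4]
        linarith
      exact le_of_mul_le_mul_right h10 (by linarith)
    calc (3 : ℝ) ≤ 9 * (2 / 3) := by norm_num
      _ ≤ (C.a 3 - e) * (1 - C.rho 2) :=
        mul_le_mul (by linarith) (by linarith) (by norm_num) (by linarith)

theorem line_two (hL : (C.a 2 = 3 ∧ 9 ≤ C.a 3 ∧ C.k0 < 4) ∨ (C.a 2 = 4 ∧ C.k0 < 5))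
    (hn : ∀ G, C.IsF 3 G → C.b G ≤ C.a 2) :
    (C.a 3 - 2) * ((C.k - 2) * C.rho 2 + 2 - C.a 2) ≤ ((C.k - 2) * C.rho 2) ^ 2 := by
  obtain ⟨L, hLF, hLb⟩ := exists_line (C := C)
  have hLe := hLF.b_le
  have hg := growth (C := C) (F := L) (i := 2) (t := 2) (by omega) hLF (by omega)
  rw [show 2 + 1 = 3 from rfl] at hg
  have r2 := rho_pos (C := C) (i := 2) (by omega)
  have r3 := rho_pos (C := C) (i := 3) (by omega)
  have r3' := rho_lt_one (C := C) (i := 3) (by omega)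
  have r32 : C.rho 3 ≤ C.rho 2 := rho_anti (by omega) (by omega)
  have hak : C.a 2 < C.k := C.a_lt (by omega) (by omega)
  have hl2 : 2 ≤ C.a 2 := by linarith
  have hek := b_lt_k hLF (by omega)
  have haa := aa_lt (C := C)
  obtain ⟨aa, haad⟩ : ∃ aa, aa = (C.k - 2) * C.rho 2 := ⟨_, rfl⟩
  rw [← haad] at haa ⊢
  -- the sum
  have hsum : ∑ y ∈ C.out L, (C.mu 3 (C.jn L y) - C.a 2) ≤
      (C.k - C.b L) * ((C.k - C.a 2) * C.rho 3) := by
    rw [← card_out (C := C) (F := L), ← nsmul_eq_mul, ← Finset.sum_const]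
    apply Finset.sum_le_sum
    intro y hy
    have hJ := hLF.jn (mem_out.1 hy).2
    have h1 := hn _ hJ
    have h2 : C.mu 3 (C.jn L y) = C.b (C.jn L y) + (C.k - C.b (C.jn L y)) * C.rho 3 := rfl
    rw [h2]
    nlinarith [mul_nonneg (show 0 ≤ C.a 2 - C.b (C.jn L y) by linarith)
      (show 0 ≤ 1 - C.rho 3 by linarith)]
  have hcc0 : 0 ≤ (C.k - C.a 2) * C.rho 3 := mul_nonneg (by linarith) r3.le
  have hccaa : (C.k - C.a 2) * C.rho 3 ≤ aa := by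
    rw [haad]
    exact mul_le_mul (by linarith) r32 r3.le (by linarith)
  have h0 : 0 ≤ (C.k - C.b L) * C.rho 2 := mul_nonneg (by linarith) r2.le
  have h1 : (C.k - C.b L) * C.rho 2 ≤ aa := by
    rw [haad]
    exact mul_le_mul_of_nonneg_right (by linarith) r2.le
  have hrhs : C.rho 2 * ∑ y ∈ C.out L, (C.mu 3 (C.jn L y) - C.a 2) ≤ aa ^ 2 := by
    calc C.rho 2 * ∑ y ∈ C.out L, (C.mu 3 (C.jn L y) - C.a 2)
        ≤ C.rho 2 * ((C.k - C.b L) * ((C.k - C.a 2) * C.rho 3)) :=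
          mul_le_mul_of_nonneg_left hsum r2.le
      _ = ((C.k - C.b L) * C.rho 2) * ((C.k - C.a 2) * C.rho 3) := by ring
      _ ≤ aa * aa := mul_le_mul h1 hccaa hcc0 (h0.trans h1)
      _ = aa ^ 2 := by ring
  have hmu : C.mu 2 L - C.a 2 = (aa + 2 - C.a 2) + (C.b L - 2) * (1 - C.rho 2) := by
    have : C.mu 2 L = C.b L + (C.k - C.b L) * C.rho 2 := rfl
    rw [this, haad]
    ring
  rw [hmu] at hg
  have hρ := Ln2_rho hL hLe
  have hg3 : aa + 2 - C.a 2 ≤ 3 := by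
    rcases hL with ⟨a1, -, a3⟩ | ⟨a1, a3⟩ <;> linarith
  have hdiff : (C.a 3 - C.b L) * ((aa + 2 - C.a 2) + (C.b L - 2) * (1 - C.rho 2)) -
      (C.a 3 - 2) * (aa + 2 - C.a 2) =
      (C.b L - 2) * ((C.a 3 - C.b L) * (1 - C.rho 2) - (aa + 2 - C.a 2)) := by ring
  have hpos : 0 ≤ (C.b L - 2) * ((C.a 3 - C.b L) * (1 - C.rho 2) - (aa + 2 - C.a 2)) :=
    mul_nonneg (by linarith) (by linarith)
  linarith

end Pool.Agent.H92.PX
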