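import Mathlib

/-!
# MXR: the final contradiction in the middle windows (Mathlib only)

(1) `γ - 1 - z < x`.  Put `f(x) = (x - β)(x - γ) + x`, a convex quadratic.  `f(γ - 2) = -2 (γ - 2 - β) + γ - 2
= 2 β + 2 - γ ≤ 0`; with `y = γ - 1 - z - β`: `f(γ - 1 - z) = -(1+z) y + y + β = β - z y ≤ 0`.  If
`x ≤ γ - 1 - z` then `x ∈ [γ - 2, γ - 1 - z]`, so `f(x) ≤ 0` (`f(x) ≤` the linear interpolation, i.e.
`(x - (γ-2))(γ - 1 - z - x) ≥ 0` plus the two values), against `hw`.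
(2) Put `g = 2 + aa - γ`, `D = A (A - c γ) > 0`, `D ≤ A² ≤ γ k`, `k > 0`.  By `hQ`,
`(1 - z) D > (μ + l + 2) γ²`, so also `D > (μ + l + 2) γ²` (`0 ≤ z`).
Case `x ≤ γ`: `(l+2) x / k * D ≤ (l+2) x γ ≤ (l+2) γ²`; `g ≥ 2 + x - γ - (l+2) x / k > 1 - z - (l+2) x / k`, so
`g D > (1-z) D - (l+2) γ² > μ γ²`; so `g > 0` and `g P ≥ g γ^(j-2) D / μ > γ^(j-2) γ² = γ^j`.  But
`aa^(j-1) κs ≤ aa^(j-1) aa = aa^j ≤ γ^j` (`0 ≤ aa ≤ x ≤ γ`): contradiction with `hstar`.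
Case `x > γ`: `g ≥ 2 + x - γ - (l+2) x / k > 2 - (l+2) x / k`, and
`(l+2) x / k * D ≤ (l+2)(γ+1) γ ≤ 2 (l+2) γ²`, so `g D > 2 D - 2 (l+2) γ² > 2 μ γ²`, `g P > 2 γ^j`.  But
`aa^(j-1) κs ≤ aa^j ≤ (γ+1)^j ≤ 2 γ^j`: Bernoulli `(1 - 1/(γ+1))^j ≥ 1 - j/(γ+1) ≥ 1/2`
(`one_add_mul_le_pow`, `2 j ≤ γ`), and `1 - 1/(γ+1) = γ/(γ+1)`.  Contradiction.
-/

namespace Pool.Agent.H92.PX

theorem Mxr_step1 {β γ x z : ℝ} (hz1 : z ≤ 1) (hβ : 2 * β + 2 ≤ γ)
    (hz : β ≤ z * (γ - 1 - z - β)) (hw : 0 < (x - β) * (x - γ) + x) (hx1 : γ - 2 < x) :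
    γ - 1 - z < x := by
  by_contra h
  push Not at h
  have h1 : 0 < 1 - z := by linarith
  have h2 := mul_pos h1 hw
  have h3 : 0 ≤ (γ - 1 - z - x) * (γ - 2 - 2 * β) := mul_nonneg (by linarith) (by linarith)
  have h4 : 0 ≤ (x - (γ - 2)) * (z * (γ - 1 - z - β) - β) :=
    mul_nonneg (by linarith) (by linarith)
  have h5 : 0 ≤ (1 - z) * ((x - (γ - 2)) * (γ - 1 - z - x)) :=
    mul_nonneg h1.le (mul_nonneg (by linarith) (by linarith))
  nlinarith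

theorem Mxr_bern {γ : ℝ} {j : ℕ} (hγ : 1 ≤ γ) (h2j : 2 * (j : ℝ) ≤ γ) :
    (γ + 1) ^ j ≤ 2 * γ ^ j := by
  have h0 : 0 < γ + 1 := by linarith
  have h1 := one_add_mul_le_pow (a := -(1 / (γ + 1))) (by
    have : 1 / (γ + 1) ≤ 1 := by
      rw [div_le_one h0]
      linarith
    linarith) j
  have h2 : 1 + -(1 / (γ + 1)) = γ / (γ + 1) := by
    field_simp
    ring
  have h3 : (1 / 2 : ℝ) ≤ 1 + (j : ℝ) * -(1 / (γ + 1)) := by
    have h4 : (j : ℝ) * (1 / (γ + 1)) ≤ 1 / 2 := by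
      rw [mul_one_div, div_le_div_iff₀ h0 (by norm_num)]
      linarith
    linarith
  rw [h2, div_pow] at h1
  have h5 : (1 / 2 : ℝ) ≤ γ ^ j / (γ + 1) ^ j := h3.trans h1
  rw [div_le_div_iff₀ (by norm_num) (by positivity)] at h5
  linarith

theorem mx_real {l μ β γ A k x aa κs P z c : ℝ} {j : ℕ} (hj : 2 ≤ j) (hl : 0 ≤ l) (hμ : 0 < μ)
    (hγ : 1 ≤ γ) (hk : 0 < k) (hz0 : 0 ≤ z) (hz1 : z ≤ 1) (hβ : 2 * β + 2 ≤ γ)
    (hz : β ≤ z * (γ - 1 - z - β)) (hw : 0 < (x - β) * (x - γ) + x) (hx1 : γ - 2 < x)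
    (hx2 : x < γ + 1) (haa1 : x * (1 - (l + 2) / k) ≤ aa) (haa2 : aa ≤ x) (haa0 : 0 ≤ aa)
    (hkA : A ^ 2 ≤ γ * k) (h2j : 2 * (j : ℝ) ≤ γ) (hc : 0 ≤ c) (hcA : c * γ < A)
    (hQ : (μ + l + 2) * γ ^ 2 < (1 - z) * (A * (A - c * γ)))
    (hP : γ ^ (j - 2) * (A * (A - c * γ) / μ) ≤ P) (hκ0 : 0 ≤ κs) (hκ : κs ≤ aa)
    (hstar : (2 + aa - γ) * P ≤ aa ^ (j - 1) * κs) : False := by
  have s1 := Mxr_step1 hz1 hβ hz hw hx1
  have hγ0 : 0 < γ := by linarith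
  have hA0 : 0 < A := lt_of_le_of_lt (mul_nonneg hc hγ0.le) hcA
  have hx0 : 0 ≤ x := haa0.trans haa2
  set D : ℝ := A * (A - c * γ) with hD
  have hD0 : 0 < D := mul_pos hA0 (by linarith)
  have hDA : D ≤ A ^ 2 := by
    have := mul_nonneg hA0.le (mul_nonneg hc hγ0.le)
    rw [hD]
    nlinarith
  have hDk : D ≤ γ * k := hDA.trans hkA
  set q : ℝ := (l + 2) * x / k with hq
  have hq0 : 0 ≤ q := by positivity
  have hqD : q * D ≤ (l + 2) * x * γ := by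
    calc q * D ≤ q * (γ * k) := mul_le_mul_of_nonneg_left hDk hq0
      _ = (l + 2) * x * γ := by
          rw [hq]
          field_simp
  have haa : x - q ≤ aa := by
    refine le_trans (le_of_eq ?_) haa1
    rw [hq]
    ring
  set g : ℝ := 2 + aa - γ with hg
  -- it suffices to compare
  have hfin : ∀ t : ℝ, 0 < t → t * (μ * γ ^ 2) < g * D → aa ^ j ≤ t * γ ^ j → False := by
    intro t ht h1 h2
    have hgD : 0 < g * D := lt_trans (by positivity) h1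
    have hg0 : 0 < g := by
      by_contra hcon
      push Not at hcon
      have := mul_nonpos_of_nonpos_of_nonneg hcon hD0.le
      linarith
    have h3 : g * (γ ^ (j - 2) * (D / μ)) ≤ g * P := mul_le_mul_of_nonneg_left hP hg0.le
    have h4 : γ ^ j = γ ^ (j - 2) * γ ^ 2 := by
      rw [← pow_add]
      congr 1
      omega
    have h5 : t * γ ^ 2 < g * D / μ := by
      rw [lt_div_iff₀ hμ]
      linarith
    have h6 : t * γ ^ j < g * (γ ^ (j - 2) * (D / μ)) := by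
      have := mul_lt_mul_of_pos_left h5 (by positivity : 0 < γ ^ (j - 2))
      rw [h4]
      calc t * (γ ^ (j - 2) * γ ^ 2) = γ ^ (j - 2) * (t * γ ^ 2) := by ring
        _ < γ ^ (j - 2) * (g * D / μ) := this
        _ = g * (γ ^ (j - 2) * (D / μ)) := by ring
    have h7 : aa ^ (j - 1) * κs ≤ aa ^ j := by
      calc aa ^ (j - 1) * κs ≤ aa ^ (j - 1) * aa := mul_le_mul_of_nonneg_left hκ (by positivity)
        _ = aa ^ j := by
            rw [← pow_succ]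
            congr 1
            omega
    linarith
  rcases le_or_gt x γ with hxγ | hxγ
  · refine hfin 1 one_pos ?_ ?_
    · have h1 : (1 - z) * D - q * D ≤ g * D := by
        have : (1 - z - q) * D ≤ g * D := mul_le_mul_of_nonneg_right (by linarith) hD0.le
        linarith
      have h2 : (l + 2) * x * γ ≤ (l + 2) * γ ^ 2 := by
        have : (l + 2) * (x * γ) ≤ (l + 2) * (γ * γ) :=
          mul_le_mul_of_nonneg_left (mul_le_mul_of_nonneg_right hxγ hγ0.le) (by linarith)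
        nlinarith
      nlinarith
    · rw [one_mul]
      exact pow_le_pow_left₀ haa0 (haa2.trans hxγ) j
  · refine hfin 2 two_pos ?_ ?_
    · have h1 : 2 * D - q * D ≤ g * D := by
        have : (2 - q) * D ≤ g * D := mul_le_mul_of_nonneg_right (by linarith) hD0.le
        linarith
      have h2 : (l + 2) * x * γ ≤ 2 * ((l + 2) * γ ^ 2) := by
        have h3 : x * γ ≤ 2 * (γ * γ) := by
          have : x * γ ≤ (γ + 1) * γ := mul_le_mul_of_nonneg_right hx2.le hγ0.le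
          nlinarith
        have : (l + 2) * (x * γ) ≤ (l + 2) * (2 * (γ * γ)) :=
          mul_le_mul_of_nonneg_left h3 (by linarith)
        nlinarith
      have h4 : (1 - z) * D ≤ D := by
        have := mul_nonneg hz0 hD0.le
        linarith
      nlinarith
    · have h1 : aa ^ j ≤ (γ + 1) ^ j := pow_le_pow_left₀ haa0 (by linarith) j
      exact h1.trans (Mxr_bern hγ h2j)

end Pool.Agent.H92.PX
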