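import Pool.Agent.H63.PD.Rja

/-!
# RJG: a product estimate (Mathlib only), variant of `rja` in `Pool/Agent/H63/PD/Rja.lean`

Write `A = a (j+1)`, `γ = a j`, `l = a 2`, `μ = a 3`.  Copy the proof of `rja` with `1/2` replaced by `1`:
`∏_{i ∈ Icc 2 j} (A - a i) = (∏_{i ∈ Ico 2 j} (A - a i)) (A - γ)`
(`Finset.prod_Ico_succ_top`, `Finset.Icc 2 j = Finset.Ico 2 (j+1)`), `∑_{i ∈ Ico 2 j} a i / A ≤ (γ/A) l/(μ-l)`
(`Rja_two`), the Weierstrass inequality (`Rja_weier`) for `Ico 2 j`, then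
`(1 - u)(1 - γ/A) ≥ 1 - u - γ/A`, so the product is at least `A^(j-1) (1 - (γ/A)(1 + l/(μ-l)))`,
`1 + l/(μ-l) = μ/(μ-l)`, and `A^(j-1) ≥ γ^(j-2) A²/μ` (`Rja_four`).  If `A - μ/(μ-l) γ ≤ 0` the left side is
`≤ 0` and the right side is `≥ 0`.
-/

namespace Pool.Agent.H92.PX

open Pool.Agent.H63.PDR

theorem rjg (a : ℕ → ℝ) {j : ℕ} (hj : 3 ≤ j) (hpos : ∀ i, 1 ≤ i → i ≤ j + 1 → 0 < a i)
    (hmono : ∀ i, 1 ≤ i → i ≤ j → a i < a (i + 1))
    (hconv : ∀ i, 1 ≤ i → i + 1 ≤ j → a (i + 1) ^ 2 ≤ a i * a (i + 2)) :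
    a j ^ (j - 2) * (a (j + 1) * (a (j + 1) - a 3 / (a 3 - a 2) * a j) / a 3) ≤
      ∏ i ∈ Finset.Icc 2 j, (a (j + 1) - a i) := by
  set A := a (j + 1) with hA
  set γ := a j with hγ
  have hA0 : 0 < A := hpos (j + 1) (by omega) (by omega)
  have hγ0 : 0 < γ := hpos j (by omega) (by omega)
  have hγA : γ ≤ A := (hmono j (by omega) le_rfl).le
  have h3 : 0 < a 3 := hpos 3 (by omega) (by omega)
  have h2 : 0 < a 2 := hpos 2 (by omega) (by omega)
  have h23 : a 2 < a 3 := hmono 2 (by omega) (by omega)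
  have h23' : a 3 - a 2 ≠ 0 := by linarith
  set R := 1 - γ / A * (1 + a 2 / (a 3 - a 2)) with hR
  -- the product
  have hu : ∀ i ∈ Finset.Ico 2 j, 0 ≤ a i / A ∧ a i / A ≤ 1 := by
    intro i hi
    rw [Finset.mem_Ico] at hi
    have h4 := hpos i (by omega) (by omega)
    have h5 := Rja_mono a hmono i (by omega) (j + 1) (by omega) le_rfl
    exact ⟨by positivity, (div_le_one hA0).2 h5⟩
  obtain ⟨w1, w2, w3⟩ := Rja_weier (fun i => a i / A) (Finset.Ico 2 j) hu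
  have hprod : ∏ i ∈ Finset.Ico 2 j, (A - a i) =
      A ^ (j - 2) * ∏ i ∈ Finset.Ico 2 j, (1 - a i / A) := by
    rw [← Nat.card_Ico 2 j, ← Finset.prod_const, ← Finset.prod_mul_distrib]
    refine Finset.prod_congr rfl fun i _ => ?_
    field_simp
  have hsum : ∑ i ∈ Finset.Ico 2 j, a i / A ≤ γ / A * (a 2 / (a 3 - a 2)) := by
    have h4 := Rja_two a hj hpos hconv j (by omega) le_rfl
    rw [← Finset.sum_div, div_mul_div_comm, div_le_div_iff₀ hA0 (mul_pos hA0 (by linarith))]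
    have h5 := mul_le_mul_of_nonneg_right h4 hA0.le
    calc (∑ i ∈ Finset.Ico 2 j, a i) * (A * (a 3 - a 2)) =
        ((a 3 - a 2) * ∑ i ∈ Finset.Ico 2 j, a i) * A := by ring
      _ ≤ (a 2 * a j) * A := h5
      _ = γ * a 2 * A := by rw [hγ]; ring
  set Q := ∏ i ∈ Finset.Ico 2 j, (1 - a i / A) with hQ
  have hw : γ / A ≤ 1 := (div_le_one hA0).2 hγA
  have hw0 : 0 ≤ γ / A := by positivity
  have hQR : R ≤ Q * (1 - γ / A) := by
    have h4 : Q * (γ / A) ≤ γ / A := by nlinarith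
    rw [hR]
    have h5 : γ / A * (1 + a 2 / (a 3 - a 2)) = γ / A + γ / A * (a 2 / (a 3 - a 2)) := by
      ring
    rw [h5]
    linarith
  have hIcc : ∏ i ∈ Finset.Icc 2 j, (A - a i) = (∏ i ∈ Finset.Ico 2 j, (A - a i)) * (A - γ) := by
    have h4 : Finset.Icc 2 j = Finset.Ico 2 (j + 1) := by
      ext i
      rw [Finset.mem_Icc, Finset.mem_Ico]
      omega
    rw [h4, Finset.prod_Ico_succ_top (by omega)]
  have hrhs : (∏ i ∈ Finset.Ico 2 j, (A - a i)) * (A - γ) =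
      A ^ (j - 1) * (Q * (1 - γ / A)) := by
    rw [hprod, show j - 1 = (j - 2) + 1 by omega, pow_succ]
    field_simp
  rw [hIcc, hrhs]
  have hγA4 : γ ^ (j - 2) * (A ^ 2 / a 3) ≤ A ^ (j - 1) := by
    have h4 := Rja_four a hpos hconv j hj le_rfl
    rw [← hA, ← hγ] at h4
    have h5 : γ ^ (j - 2) = γ * γ ^ (j - 3) := by
      rw [show j - 2 = (j - 3) + 1 by omega, pow_succ]; ring
    have h6 : A ^ (j - 1) = A ^ (j - 3) * A ^ 2 := by
      rw [← pow_add]; congr 1; omega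
    rw [h5, h6, mul_div_assoc', div_le_iff₀ h3]
    nlinarith [mul_le_mul_of_nonneg_right h4 (sq_nonneg A)]
  have hlhs : A * (A - a 3 / (a 3 - a 2) * γ) / a 3 = A ^ 2 / a 3 * R := by
    rw [hR]
    field_simp
    ring
  have h7 : γ ^ (j - 2) * (A * (A - a 3 / (a 3 - a 2) * γ) / a 3) =
      (γ ^ (j - 2) * (A ^ 2 / a 3)) * R := by rw [hlhs]; ring
  rw [h7]
  rcases le_or_gt R 0 with h8 | h8
  · have h9 : (γ ^ (j - 2) * (A ^ 2 / a 3)) * R ≤ 0 :=
      mul_nonpos_of_nonneg_of_nonpos (by positivity) h8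
    refine h9.trans ?_
    have h10 : 0 ≤ 1 - γ / A := by linarith
    positivity
  · calc (γ ^ (j - 2) * (A ^ 2 / a 3)) * R ≤ A ^ (j - 1) * R :=
        mul_le_mul_of_nonneg_right hγA4 h8.le
      _ ≤ _ := mul_le_mul_of_nonneg_left hQR (by positivity)

end Pool.Agent.H92.PX
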