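import Pool.Agent.H92.PX.Chn
import Pool.Agent.H92.PX.Rjg
import Pool.Agent.H92.PX.Mxr

/-!
# MXG: the middle windows, general part

Write `l = a 2 ≥ 3`, `μ = a 3`, `β = a (j-1)`, `γ = a j`, `A = a (j+1)`, `x = k0`, `aa = (k-2) rho 2`,
`κs = (k - γ) rho (j+1)`, `c = μ/(μ-l)`.

`mxg`: apply `mx_real`.
 * `hβ`: `ratio_ge` with `s = 1`, `i = j-1`: `l β ≤ γ` (`a 1 = 1`), and `3 β ≥ 2 β + 2` as `β ≥ a 2 ≥ 3`.
 * `hw`: `windowq` with `t = j - 1` (`k0_pos`).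
 * `haa1`, `haa2`, `haa0`: `aa_ge`, `aa_lt`, `aa_nonneg`.
 * `hkA`: `ratio` (`A² ≤ γ a (j+2)`, `1 ≤ j ≤ m+3`) and `a (j+2) ≤ k` (`a_le`).
 * `h2j`: by induction `2 i ≤ a i` for `3 ≤ i ≤ m+4`: `a 3 = 1 + K 1 (l-1) ≥ 1 + 4 * 2 = 9` (`a_three`), and
   `a (i+1) ≥ l a i ≥ 3 a i ≥ a i + 2` (`ratio_ge` with `s = 1`, or `a_ge`).
 * `hcA`: `c γ < Q γ ≤ A`.  `hQ`: `A (A - c γ) ≥ Q γ (Q γ - c γ) = γ² Q (Q - c)` (`A ≥ Q γ ≥ c γ ≥ 0`).
 * `hP`: `rjg` for `C.a` (`ratio` for the convexity).  `hκ0`, `hκ`: `0 ≤ (k - γ) rho (j+1) ≤ (k-2) rho 2`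
   (`rho_anti`, `rho_pos`; `γ ≥ 2`).  `hstar`: `ch2`.
`μ - l > 0` (`a_lt`).

`mxs`: apply `mxg` with `z = l/(μ-l-2)`, `Q = a 4 / a 3`.
 * `μ = 1 + K 1 (l-1) ≥ 1 + (l+1)(l-1) = l² ≥ 2 l + 2` (`l ≥ 3`), so `μ - l - 2 ≥ l > 0`, `0 ≤ z ≤ 1`.
 * `hz`: `ratio_ge` with `s = 2`, `i = j - 1`: `μ β ≤ l γ`.  So
   `z (γ - 1 - z - β) ≥ z (μ β / l - 1 - z - β)`, and with `D = μ - l - 2`, `z = l / D`:
   `z (μ - l) β / l = (D + 2) β / D = β + 2 β / D`; it remains `2 β / D ≥ z (1 + z) = l (1 + z)/D`, i.e.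
   `2 β ≥ l (1 + z)`, true since `β ≥ l` (`j - 1 ≥ 2`), `z ≤ 1`.
 * `hQA`: `ratio_ge` with `s = 3`, `i = j`: `a 4 * a j ≤ a 3 * a (j+1)`.
 * `hQ0`: `(1 - z) Q (Q - c) > 0` with `1 - z ≥ 0`, `Q > 0` gives `Q > c`.
-/

open Set

namespace Pool.Agent.H92.PX

open Pool.Agent.H63 Pool.Agent.H63.PD Pool.Agent.H69.Pmd

set_option linter.unusedSectionVars false

variable {α : Type*} [Fintype α] {C : PD α}

/-- `2 i ≤ a i` for `3 ≤ i` -/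
theorem Mxg_two (h3 : 3 ≤ C.a 2) (hK : C.a 2 + 1 ≤ C.K 1) {i : ℕ} (hi : 3 ≤ i)
    (him : i ≤ C.m + 4) : 2 * (i : ℝ) ≤ C.a i := by
  induction i, hi using Nat.le_induction with
  | base =>
    have h1 := a_three (C := C)
    have h2 : (C.a 2 + 1) * (C.a 2 - 1) ≤ C.K 1 * (C.a 2 - 1) :=
      mul_le_mul_of_nonneg_right hK (by linarith)
    push_cast
    nlinarith
  | succ i hi ih =>
    have h1 := ih (by omega)
    have h2 := a_ge (C := C) (i := i) (by omega)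
    have h4 : (3 : ℝ) ≤ i := by exact_mod_cast hi
    have h5 : 2 * C.a i ≤ (C.a 2 - 1) * C.a i := mul_le_mul_of_nonneg_right (by linarith) (by linarith)
    push_cast
    linarith

/-- the estimate `hQ` -/
theorem Mxg_Q {γ A Q c z M : ℝ} (hγ : 0 < γ) (hc : 0 ≤ c) (hz1 : z ≤ 1) (hQ0 : c < Q)
    (hQA : Q * γ ≤ A) (hQ : M < (1 - z) * (Q * (Q - c))) :
    c * γ < A ∧ M * γ ^ 2 < (1 - z) * (A * (A - c * γ)) := by
  have h1 : c * γ < Q * γ := mul_lt_mul_of_pos_right hQ0 hγ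
  have h2 : c * γ < A := by linarith
  have h3 : 0 ≤ c * γ := mul_nonneg hc hγ.le
  refine ⟨h2, ?_⟩
  have h4 : (Q * γ) * (Q * γ - c * γ) ≤ A * (A - c * γ) :=
    mul_le_mul hQA (by linarith) (by linarith) (by linarith)
  have h5 : (1 - z) * ((Q * γ) * (Q * γ - c * γ)) ≤ (1 - z) * (A * (A - c * γ)) :=
    mul_le_mul_of_nonneg_left h4 (by linarith)
  have h6 : M * γ ^ 2 < (1 - z) * (Q * (Q - c)) * γ ^ 2 :=
    mul_lt_mul_of_pos_right hQ (by positivity)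
  have h7 : (1 - z) * (Q * (Q - c)) * γ ^ 2 = (1 - z) * ((Q * γ) * (Q * γ - c * γ)) := by ring
  linarith

theorem mxg (h3 : 3 ≤ C.a 2) (hK : C.a 2 + 1 ≤ C.K 1) {j : ℕ} (hj : 3 ≤ j)
    (hjm : j ≤ C.m + 2) (hn : ∀ G, C.IsF (j + 1) G → C.b G ≤ C.a j)
    (hl : C.a j - 2 < C.k0) (hk : C.k0 < C.a j + 1) {z Q : ℝ} (hz0 : 0 ≤ z) (hz1 : z ≤ 1)
    (hz : C.a (j - 1) ≤ z * (C.a j - 1 - z - C.a (j - 1)))
    (hQ0 : C.a 3 / (C.a 3 - C.a 2) < Q) (hQA : Q * C.a j ≤ C.a (j + 1))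
    (hQ : C.a 3 + C.a 2 + 2 < (1 - z) * (Q * (Q - C.a 3 / (C.a 3 - C.a 2)))) : False := by
  have hpos : ∀ i, 1 ≤ i → i ≤ C.m + 5 → 0 < C.a i := fun i h1 h2 => by
    have := C.a_pos h1 h2; linarith
  have hγ1 : 1 ≤ C.a j := C.a_pos (by omega) (by omega)
  have hμ : 0 < C.a 3 := hpos 3 (by omega) (by omega)
  have hμl : C.a 2 < C.a 3 := C.a_lt (by omega) (by omega)
  have hc : 0 ≤ C.a 3 / (C.a 3 - C.a 2) := div_nonneg hμ.le (by linarith)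
  have hj1 : j - 1 + 1 = j := by omega
  have hβ3 : 3 ≤ C.a (j - 1) := by
    have := C.a_le (show 2 ≤ j - 1 by omega) (by omega : j - 1 ≤ C.m + 5)
    linarith
  have hβ : 2 * C.a (j - 1) + 2 ≤ C.a j := by
    have h1 := ratio_ge hK (s := 1) le_rfl (j - 1) (by omega) (by omega)
    rw [hj1, C.a_one, one_mul] at h1
    have h2 : 3 * C.a (j - 1) ≤ C.a (1 + 1) * C.a (j - 1) :=
      mul_le_mul_of_nonneg_right h3 (by linarith)
    linarith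
  have hw : 0 < (C.k0 - C.a (j - 1)) * (C.k0 - C.a j) + C.k0 := by
    have h1 := windowq (C := C) (t := j - 1) (by omega) k0_pos
    rwa [hj1] at h1
  have hkA : C.a (j + 1) ^ 2 ≤ C.a j * C.k := by
    have h1 := ratio hK (i := j) (by omega) (by omega)
    have h2 : C.a (j + 2) ≤ C.k := C.a_le (by omega) (by omega)
    exact h1.trans (mul_le_mul_of_nonneg_left h2 (by linarith))
  obtain ⟨hcA, hQ'⟩ := Mxg_Q (by linarith : 0 < C.a j) hc hz1 hQ0 hQA hQ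
  have hP := rjg C.a hj (fun i h1 h2 => hpos i h1 (by omega))
    (fun i h1 h2 => C.a_lt (by omega) (by omega)) (fun i h1 h2 => ratio hK h1 (by omega))
  have h2γ : (2 : ℝ) ≤ C.a j := by linarith
  have hγk : C.a j < C.k := C.a_lt (by omega) (by omega)
  have hrj : 0 < C.rho (j + 1) := rho_pos (by omega)
  have hκ0 : 0 ≤ (C.k - C.a j) * C.rho (j + 1) := mul_nonneg (by linarith) hrj.le
  have hκ : (C.k - C.a j) * C.rho (j + 1) ≤ (C.k - 2) * C.rho 2 :=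
    mul_le_mul (by linarith) (rho_anti (by omega) (by omega)) hrj.le (by linarith)
  have hk0 := C.k_pos
  exact mx_real (by omega : 2 ≤ j) (by linarith : 0 ≤ C.a 2) hμ hγ1 (by linarith : 0 < C.k) hz0 hz1
    hβ hz hw hl hk aa_ge aa_lt.le aa_nonneg hkA (Mxg_two h3 hK hj (by omega)) hc hcA hQ' hP hκ0 hκ
    (ch2 (by omega) hjm hn)

theorem Mxs_z {l μ β γ z : ℝ} (hl : 3 ≤ l) (hμ : l ^ 2 ≤ μ) (hβ : l ≤ β) (h : μ * β ≤ l * γ)
    (hz : z = l / (μ - l - 2)) : 0 ≤ z ∧ z ≤ 1 ∧ β ≤ z * (γ - 1 - z - β) := by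
  have hD : 2 * l + 2 ≤ μ := by nlinarith
  have hD0 : 0 < μ - l - 2 := by linarith
  have hz0 : 0 ≤ z := by rw [hz]; exact div_nonneg (by linarith) hD0.le
  have hz1 : z ≤ 1 := by rw [hz, div_le_one hD0]; linarith
  refine ⟨hz0, hz1, ?_⟩
  have e1 : z * (μ - l - 2) = l := by
    rw [hz, div_mul_cancel₀]
    exact hD0.ne'
  have h1 : z * (μ * β) ≤ z * (l * γ) := mul_le_mul_of_nonneg_left h hz0
  have h2 : z * l * (1 + z) ≤ z * (2 * β) := by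
    rw [mul_assoc]
    exact mul_le_mul_of_nonneg_left (by nlinarith) hz0
  have h3 : l * β ≤ l * (z * (γ - 1 - z - β)) := by
    have e2 : z * (μ * β) = l * β + z * l * β + z * (2 * β) := by
      linear_combination β * e1
    have e3 : l * (z * (γ - 1 - z - β)) = z * (l * γ) - z * l * (1 + z) - z * l * β := by ring
    rw [e3]
    linarith
  exact le_of_mul_le_mul_left h3 (by linarith)

theorem mxs (h3 : 3 ≤ C.a 2) (hK : C.a 2 + 1 ≤ C.K 1) {j : ℕ} (hj : 3 ≤ j)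
    (hjm : j ≤ C.m + 2) (hn : ∀ G, C.IsF (j + 1) G → C.b G ≤ C.a j)
    (hl : C.a j - 2 < C.k0) (hk : C.k0 < C.a j + 1)
    (hQ : C.a 3 + C.a 2 + 2 < (1 - C.a 2 / (C.a 3 - C.a 2 - 2)) *
      (C.a 4 / C.a 3 * (C.a 4 / C.a 3 - C.a 3 / (C.a 3 - C.a 2)))) : False := by
  have hpos : ∀ i, 1 ≤ i → i ≤ C.m + 5 → 0 < C.a i := fun i h1 h2 => by
    have := C.a_pos h1 h2; linarith
  have hμ : 0 < C.a 3 := hpos 3 (by omega) (by omega)
  have hj1 : j - 1 + 1 = j := by omega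
  have hμl2 : C.a 2 ^ 2 ≤ C.a 3 := by
    have h1 := a_three (C := C)
    have h2 : (C.a 2 + 1) * (C.a 2 - 1) ≤ C.K 1 * (C.a 2 - 1) :=
      mul_le_mul_of_nonneg_right hK (by linarith)
    nlinarith
  have hβ : C.a 2 ≤ C.a (j - 1) := C.a_le (by omega) (by omega)
  have hr : C.a 3 * C.a (j - 1) ≤ C.a 2 * C.a j := by
    have h1 := ratio_ge hK (s := 2) (by omega) (j - 1) (by omega) (by omega)
    rwa [hj1] at h1
  obtain ⟨hz0, hz1, hz⟩ := Mxs_z h3 hμl2 hβ hr rfl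
  have hQA : C.a 4 / C.a 3 * C.a j ≤ C.a (j + 1) := by
    have h1 := ratio_ge hK (s := 3) (by omega) j (by omega) (by omega)
    rw [div_mul_eq_mul_div, div_le_iff₀ hμ, mul_comm (C.a (j + 1))]
    exact h1
  refine mxg h3 hK hj hjm hn hl hk hz0 hz1 hz ?_ hQA hQ
  by_contra hcon
  push Not at hcon
  have h1 : 0 < C.a 4 / C.a 3 := div_pos (hpos 4 (by omega) (by omega)) hμ
  have h2 : C.a 4 / C.a 3 * (C.a 4 / C.a 3 - C.a 3 / (C.a 3 - C.a 2)) ≤ 0 :=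
    mul_nonpos_of_nonneg_of_nonpos h1.le (by linarith)
  have h4 := mul_nonpos_of_nonneg_of_nonpos
    (show 0 ≤ 1 - C.a 2 / (C.a 3 - C.a 2 - 2) by linarith) h2
  linarith

end Pool.Agent.H92.PX
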