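import Pool.Agent.H92.PX.Basx

/-!
# TFA: facts in the top case `a (m+3) - 2 < k0`

Write `l = a 2 ≥ 3`, `γ = a (m+3)`, `β = a (m+2)`, `n = K (m+3)`, so `v - γ = n (k - γ)`,
`v - k = (n-1)(k-γ)`, `n ≥ K 0 = l` (`K_mono`, `K_zero`), `c = 1/(n-1)`, `b0 = γ - k c`.
The proof is parts (1)-(3) of the proof of `top` in `Pool/Agent/H63/PD/Top.lean` (copy it; there `5 ≤ l`, here
`3 ≤ l`; the facts used are `0 < n - 1`, `0 < k - γ`, `1 < v`, `γ ≥ 2` (as `γ ≥ a 2 = l`), `β ≥ 0`):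
(1) `(v-k) b0 = (k-γ)((n-1)γ - k) = γ v - k² = v (γ - k0)`; `k0 ≤ γ` (`k0_le_top`), so `b0 ≥ 0`.
(2) take a line `L` with `2 ≤ b L` (`exists_line`); `mu 2 L ≤ γ` (`mu_le_top`) gives
`2 + (k-2) rho 2 ≤ γ`, i.e. `(k-2)(k-l) ≤ (γ-2)(v-l)`, i.e. `γ v - k² ≥ 2 (v-k) - l (k-γ)`; divide by
`v - k` (`k - γ = c (v - k)`): `b0 ≥ 2 - c l`.
(3) `window` with `t = m+2`: `k0 (γ - 1 - k1) ≤ β (γ - k0)`; here `γ - k0 = (v-k) b0 / v`,
`γ - 1 - k1 = (v-k)(b0 - 1 + c)/(v-1)`, so `k0 (b0-1+c) v/(v-1) ≤ β b0`; hence, if `b0 - 1 + c ≥ 0`,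
`(γ-2)(b0 + c - 1) ≤ k0 (b0 + c - 1) ≤ β b0`.
-/

namespace Pool.Agent.H92.PX

open Pool.Agent.H63 Pool.Agent.H63.PD Pool.Agent.H69.Pmd

set_option linter.unusedSectionVars false

variable {α : Type*} [Fintype α] {C : PD α}

theorem tfa (h3 : 3 ≤ C.a 2) (hk : C.a (C.m + 3) - 2 < C.k0) :
    ∃ c b0 : ℝ, c * (C.K (C.m + 3) - 1) = 1 ∧ 0 < c ∧ b0 = C.a (C.m + 3) - C.k * c ∧ 0 ≤ b0 ∧
      2 - c * C.a 2 ≤ b0 ∧
      (0 ≤ b0 - 1 + c → (C.a (C.m + 3) - 2) * (b0 + c - 1) ≤ C.a (C.m + 2) * b0) := by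
  obtain ⟨l, hl⟩ : ∃ l, l = C.a 2 := ⟨_, rfl⟩
  obtain ⟨γ, hγ⟩ : ∃ γ, γ = C.a (C.m + 3) := ⟨_, rfl⟩
  obtain ⟨β, hβ⟩ : ∃ β, β = C.a (C.m + 2) := ⟨_, rfl⟩
  obtain ⟨n, hn⟩ : ∃ n, n = C.K (C.m + 3) := ⟨_, rfl⟩
  have hnm : n * (C.k - γ) = C.v - γ := by
    rw [hn, hγ]
    exact K_mul (C := C) (i := C.m + 3) le_rfl
  have hK01 : C.K 0 ≤ C.K 1 := K_mono (by omega) (by omega)
  have hK1n : C.K 1 ≤ n := by rw [hn]; exact K_mono (by omega) le_rfl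
  have hln : l ≤ n := by
    rw [K_zero, ← hl] at hK01
    linarith
  have hγk : γ < C.k := by rw [hγ]; exact C.a_lt (by omega) (by omega)
  have hkv : C.k < C.v := C.k_lt_v
  have hv1 : 1 ≤ C.v := C.v_pos
  have hk1 := C.k_pos
  have hβl : l ≤ β := by rw [hβ, hl]; exact C.a_le (by omega) (by omega)
  have hγβ : (l - 1) * β + 1 ≤ γ := by
    rw [hβ, hγ, hl]
    exact a_ge (C := C) (i := C.m + 2) (by omega)
  rw [← hl] at h3
  rw [← hγ] at hk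
  have hlk : C.a 2 < C.k := C.a_lt (by omega) (by omega)
  rw [← hl] at hlk
  -- c
  obtain ⟨c, hc⟩ : ∃ c, c = (n - 1)⁻¹ := ⟨_, rfl⟩
  have hn1 : 0 < n - 1 := by linarith
  have hc1 : c * (n - 1) = 1 := by rw [hc]; exact inv_mul_cancel₀ hn1.ne'
  have hc0 : 0 < c := by rw [hc]; exact inv_pos.2 hn1
  obtain ⟨b0, hb0⟩ : ∃ b0, b0 = γ - C.k * c := ⟨_, rfl⟩
  have hvk : C.v - C.k = (n - 1) * (C.k - γ) := by linarith
  have hkγ : C.k - γ = c * (C.v - C.k) := by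
    rw [hvk, ← mul_assoc, hc1, one_mul]
  have hvk0 : 0 < C.v - C.k := by linarith
  have hvb : (C.v - C.k) * b0 = γ * C.v - C.k ^ 2 := by
    have h1 : (C.v - C.k) * b0 = (C.k - γ) * ((n - 1) * γ - C.k) := by
      have h2 : (C.v - C.k) * b0 = (C.k - γ) * ((n - 1) * γ - C.k * (c * (n - 1))) := by
        rw [hvk, hb0]; ring
      rw [h2, hc1, mul_one]
    have h3 : C.v = γ + n * (C.k - γ) := by linarith
    rw [h1]
    rw [h3]
    ring
  have hk0v : C.k0 * C.v = C.k ^ 2 := by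
    rw [PD.k0, div_mul_cancel₀]
    linarith
  -- (1)
  have hk0γ : C.k0 ≤ γ := by
    have h1 := mu_le_top (C := C) (i := 0) (by omega) isF_base
    rw [PD.mu, b_base, zero_add, sub_zero, rho_zero_mul, ← hγ] at h1
    exact h1
  have hb0nn : 0 ≤ b0 := by
    have h1 : 0 ≤ (C.v - C.k) * b0 := by
      rw [hvb, ← hk0v]
      nlinarith
    exact nonneg_of_mul_nonneg_right h1 hvk0
  -- (2)
  have hb2 : 2 - c * l ≤ b0 := by
    obtain ⟨L, hL, hL2⟩ := exists_line (C := C)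
    have h1 := mu_le_top (C := C) (i := 2) (by omega) hL
    rw [PD.mu, ← hγ] at h1
    have h2 := rho_lt_one (C := C) (i := 2) (by omega)
    have h3 : 2 + (C.k - 2) * C.rho 2 ≤ γ := by nlinarith
    have h4 : C.rho 2 * (C.v - l) = C.k - l := by
      rw [PD.rho, ← hl, div_mul_cancel₀]
      linarith
    have h5' : (C.k - 2) * (C.k - l) ≤ (γ - 2) * (C.v - l) := by
      have h6 : 0 < C.v - l := by linarith
      have h7 := mul_le_mul_of_nonneg_right h3 h6.le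
      have h8 : (2 + (C.k - 2) * C.rho 2) * (C.v - l) =
          2 * (C.v - l) + (C.k - 2) * (C.rho 2 * (C.v - l)) := by ring
      rw [h8, h4] at h7
      linarith
    have h9 : (2 - c * l) * (C.v - C.k) ≤ b0 * (C.v - C.k) := by
      have h10 : (2 - c * l) * (C.v - C.k) = 2 * (C.v - C.k) - l * (c * (C.v - C.k)) := by ring
      rw [h10, ← hkγ, mul_comm b0, hvb]
      nlinarith
    exact le_of_mul_le_mul_right h9 hvk0
  -- (3)
  have hW : 0 ≤ b0 - 1 + c → (γ - 2) * (b0 + c - 1) ≤ β * b0 := by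
    intro hpos
    have h1 := window (C := C) (t := C.m + 2) le_rfl
    have h1' : 0 ≤ C.k0 * (1 + C.k1 - β - γ) + β * γ := by
      rw [hβ, hγ]
      exact h1
    have h2 : γ - C.k0 = (C.v - C.k) * b0 / C.v := by
      rw [hvb, ← hk0v]
      field_simp
    have hv1' : 0 < C.v - 1 := by
      have : 1 < C.v := by linarith
      linarith
    have h3 : γ - 1 - C.k1 = (C.v - C.k) * (b0 - 1 + c) / (C.v - 1) := by
      have h4 : (C.v - C.k) * (b0 - 1 + c) = (γ - 1) * (C.v - 1) - (C.k - 1) ^ 2 := by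
        have h5 : (C.v - C.k) * (b0 - 1 + c) =
            (C.v - C.k) * b0 - (C.v - C.k) + c * (C.v - C.k) := by ring
        rw [h5, hvb, ← hkγ]
        ring
      rw [h4, PD.k1]
      field_simp
    have h4 : C.k0 * (γ - 1 - C.k1) ≤ β * (γ - C.k0) := by linarith
    rw [h2, h3] at h4
    have h5 : C.k0 * ((C.v - C.k) * (b0 - 1 + c) / (C.v - 1)) =
        (C.v - C.k) * (C.k0 * (b0 - 1 + c) / (C.v - 1)) := by ring
    have h6 : β * ((C.v - C.k) * b0 / C.v) = (C.v - C.k) * (β * b0 / C.v) := by ring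
    rw [h5, h6] at h4
    have h7 := le_of_mul_le_mul_left h4 hvk0
    have hv0 : 0 < C.v := by linarith
    rw [div_le_div_iff₀ hv1' hv0] at h7
    have hββ : 0 ≤ β * b0 := mul_nonneg (by linarith) hb0nn
    have h8 : C.k0 * (b0 - 1 + c) ≤ β * b0 := by
      have h9 : C.k0 * (b0 - 1 + c) * C.v ≤ β * b0 * C.v := by nlinarith
      exact le_of_mul_le_mul_right h9 hv0
    nlinarith
  refine ⟨c, b0, ?_, hc0, ?_, hb0nn, ?_, ?_⟩
  · rw [← hn]; exact hc1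
  · rw [hb0, hγ]
  · rw [← hl]; exact hb2
  · rw [← hγ, ← hβ]; exact hW

end Pool.Agent.H92.PX
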